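import Pool.Agent.Run7.h347.Veech

set_option autoImplicit false

/-! Sanity checks for the definitions: the boundary words of the two pentagons. -/

namespace Run7.h347

theorem relator_eq : (ga 0 * gb 0 * (ga 0)⁻¹ * (gb 0)⁻¹ * (ga 1 * gb 1 * (ga 1)⁻¹ * (gb 1)⁻¹) :
    SurfaceGroup 2) = 1 := by
  have h : toSurf 2 (relator 2) = 1 := by
    rw [toSurf]
    exact (QuotientGroup.eq_one_iff _).2 (Subgroup.subset_normalClosure rfl)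
  rw [← h]
  unfold relator
  simp only [ga, gb, List.ofFn_succ, List.ofFn_zero, List.prod_cons, List.prod_nil, mul_one]
  rfl

/-- The boundary of the first pentagon. -/
theorem pent_rel : pent 0 * pent 1 * pent 2 * pent 3 * pent 4 = 1 := by
  change (ga 1 * (gb 1)⁻¹ * (ga 1)⁻¹ * gb 0) * (ga 1)⁻¹ * (ga 1 * gb 1) *
    ((gb 1)⁻¹ * ga 0 * (gb 0)⁻¹) * ((ga 0)⁻¹ * gb 1) = 1
  have h := relator_eq
  have h1 : ga 0 * gb 0 * (ga 0)⁻¹ * (gb 0)⁻¹ =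
      (ga 1 * gb 1 * (ga 1)⁻¹ * (gb 1)⁻¹ : SurfaceGroup 2)⁻¹ := eq_inv_of_mul_eq_one_left h
  have h2 : (gb 0 * ga 0 * (gb 0)⁻¹ * (ga 0)⁻¹ : SurfaceGroup 2) =
      ga 1 * gb 1 * (ga 1)⁻¹ * (gb 1)⁻¹ := by
    have := congrArg (fun x => x⁻¹) h1
    simp only [inv_inv] at this
    rw [← this]; group
  calc (ga 1 * (gb 1)⁻¹ * (ga 1)⁻¹ * gb 0) * (ga 1)⁻¹ * (ga 1 * gb 1) *
    ((gb 1)⁻¹ * ga 0 * (gb 0)⁻¹) * ((ga 0)⁻¹ * gb 1)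
      = (ga 1 * (gb 1)⁻¹ * (ga 1)⁻¹) * (gb 0 * ga 0 * (gb 0)⁻¹ * (ga 0)⁻¹) * gb 1 := by group
    _ = 1 := by rw [h2]; group

/-- The boundary of the second pentagon. -/
theorem pent_rel' : pent 4 * pent 3 * pent 2 * pent 1 * pent 0 = 1 := by
  change ((ga 0)⁻¹ * gb 1) * ((gb 1)⁻¹ * ga 0 * (gb 0)⁻¹) * (ga 1 * gb 1) * (ga 1)⁻¹ *
    (ga 1 * (gb 1)⁻¹ * (ga 1)⁻¹ * gb 0) = 1
  group

end Run7.h347
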