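import Pool.Agent.Run7.h347.Core17

set_option autoImplicit false

/-! The main statement from the pieces. -/

open Pool.Agent.R708 Filter Topology MatrixGroups

namespace Run7.h347

variable {S T κ θ τ : AutPlus 2} {R k C K : ℕ}
  {S' T' : Subgroup.closure {S, T}} {D : Subgroup.closure {S, T} →* SL(2, ℝ)}

theorem Full.sq (F : Full S T κ θ τ R k C K S' T' D) : (S' ^ 2 * T' ^ 10) ^ 2 = T' ^ 20 := by
  have hc : Commute (S' ^ 2) (T' ^ 10) := by
    have : Commute (S' ^ 2) T' := F.H.hk.cent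
    exact this.pow_right 10
  rw [hc.mul_pow, ← pow_mul, ← pow_mul, F.H.hk.S4, one_mul]

theorem Full.T20_mem' (F : Full S T κ θ τ R k C K S' T' D) :
    T' ^ 20 ∈ commutator (Subgroup.closure {S, T}) := by
  rw [← F.sq]
  exact pow_mem F.dd_mem' 2

theorem Full.T20_eq (F : Full S T κ θ τ R k C K S' T' D) :
    ((T ^ 20 : AutPlus 2) : MCG 2) = qF S T (T' ^ 20) := by
  rw [qF_apply, Subgroup.coe_pow, F.H.hT']

theorem Full.T20_mem (F : Full S T κ θ τ R k C K S' T' D) :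
    ((T ^ 20 : AutPlus 2) : MCG 2) ∈ AA S T := by
  rw [F.T20_eq]
  exact Subgroup.mem_map_of_mem _ F.T20_mem'

theorem Full.T20_ne (F : Full S T κ θ τ R k C K S' T' D) :
    ((T ^ 20 : AutPlus 2) : MCG 2) ≠ 1 := by
  intro h
  rw [F.T20_eq] at h
  have h1 : T' ^ 20 = 1 := F.inj (by rw [h, map_one])
  have h2 : T ^ 20 = (1 : AutPlus 2) := by
    have := congrArg (Subtype.val) h1
    rw [Subgroup.coe_pow, F.H.hT'] at this
    exact this
  have h3 := F.h.hT.t_nat 20 (0, 1)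
  rw [h2] at h3
  have h4 : binc (ge (0, 1) ^ (((1 : ℤˣ) : ℤ) * (20 : ℕ))) = 1 := by
    have h5 : (((1 : AutPlus 2) : AutPlus 2) : MulAut (SurfaceGroup 2)) (bt (0, 1)) = bt (0, 1) := rfl
    rw [h5] at h3
    exact (left_eq_mul.1 h3)
  have h5 : ge (0, 1) ^ (((1 : ℤˣ) : ℤ) * (20 : ℕ)) = 1 := binc_inj (by rw [h4, map_one])
  have h6 : xF ^ 20 = 1 := by
    have : ge (0, 1) = xF := by simp [ge, hd]
    rw [this] at h5
    exact_mod_cast h5
  have h7 : xF = 1 := by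
    apply IsMulTorsionFree.pow_left_injective (by norm_num : (20 : ℕ) ≠ 0)
    simpa using h6
  have h8 := congrArg nrm1 h7
  simp at h8

theorem Full.g1_mem (F : Full S T κ θ τ R k C K S' T' D) :
    ((S * T ^ 20 * S⁻¹ : AutPlus 2) : MCG 2) ∈ AA S T := by
  have h1 : ((S * T ^ 20 * S⁻¹ : AutPlus 2) : MCG 2) = qF S T (S' * T' ^ 20 * S'⁻¹) := by
    rw [qF_apply]
    simp only [Subgroup.coe_mul, Subgroup.coe_pow, Subgroup.coe_inv, F.H.hS', F.H.hT']
  rw [h1]
  apply Subgroup.mem_map_of_mem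
  have hn : (commutator (Subgroup.closure {S, T})).Normal := inferInstance
  exact hn.conj_mem _ F.T20_mem' S'

/-- The main theorem from the pieces. -/
theorem statement_of (hN : StatementNorm) (hHy : StatementHyp) (hH : StatementHecke)
    (hP : StatementPiece) (hT : StatementT) (hA : StatementAmalgam) (hSu : StatementSurface)
    (hL : StatementLam) (hB : StatementBoundary) (hAut : StatementAut) : Statement := by
  obtain ⟨⟨S, T, vS, vT, hTw, hRot, hHyp, S', T', D, hS', hT', hk⟩, ⟨κ, k1, k2, k3, k4⟩, hθ, hτ⟩ :=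
    hAut
  obtain ⟨k, C, hC⟩ := hT 9
  obtain ⟨τ, t1, t2, t3, t4, t5⟩ := hτ k
  have iS : IsS S := IsS.of_vals vS
  obtain ⟨B, hB0, hB'⟩ := sX1_comp_bound iS τ
  obtain ⟨n, hn⟩ := exists_nat_ge (1000 * (B + 1))
  obtain ⟨θ, r1, r2, r3, r4, r5⟩ := hθ ((n + C + 10 : ℕ) : ℤ)
  have hS4 : S ^ 4 = 1 := by
    have := congrArg (Subtype.val) hk.S4
    rw [Subgroup.coe_pow, hS'] at this
    exact this
  have h : Data S T κ θ τ 9 k C (n + C + 10) :=
    { hS := iS
      hS4 := hS4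
      hT := IsT.of_vals vT
      hκ := ⟨k1, k2, k3, k4⟩
      hθ := ⟨r1, r2, r3, r4, r5⟩
      hτ := ⟨t1, t2, t3, t4, t5⟩
      hC := hC (n + C + 10)
      hK := by omega }
  have F : Full S T κ θ τ 9 k C (n + C + 10) S' T' D :=
    { h := h
      hR := le_rfl
      H := ⟨hS', hT', hk⟩
      hG := ⟨hTw, hRot, hHyp⟩
      hN := hN
      hHy := hHy
      hH := hH
      hP := hP }
  refine ⟨AA S T, dd S T, ph θ τ, F.admissible hA hSu, h.fixesCores, ?_⟩
  intro ρ hρ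
  have hAle : AA S T ≤ Grp (AA S T) (ph θ τ) := le_sup_left
  have hBle : conjBy (ph θ τ) (AA S T) ≤ Grp (AA S T) (ph θ τ) := le_sup_right
  let d' : Grp (AA S T) (ph θ τ) := ⟨((T ^ 20 : AutPlus 2) : MCG 2), hAle F.T20_mem⟩
  have hd' : d' ≠ 1 := fun h0 => F.T20_ne (congrArg Subtype.val h0)
  refine h.noMap hL hP (B := B + 1) (by linarith) ?_ ?_ _ ρ d' rfl (hAle F.g1_mem) ?_
    (hB _ ρ hρ (fun g m hm hg => F.torsionFree hA g m hm hg) d' hd')
  · intro K θ hθ g
    refine (hB' K θ hθ g).trans ?_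
    have h1 : 0 ≤ sX1 S g + sX2 S g + sc 0 g + sc 1 g := by
      have a1 : 0 ≤ sX1 S g := sc_nonneg _ _
      have a2 : 0 ≤ sX2 S g := sc_nonneg _ _
      have a3 := sc_nonneg 0 g
      have a4 := sc_nonneg 1 g
      linarith
    nlinarith
  · push_cast
    linarith
  · apply hBle
    rw [mem_conjBy]
    refine ⟨_, F.g1_mem, ?_⟩
    rfl

end Run7.h347
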