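import Pool.Agent.Run7.h347.Iface

set_option autoImplicit false

/-! From the inequalities for intersection numbers to the absence of an equivariant map. -/

open Topology MatrixGroups Filter

namespace Run7.h347

/-- A closed condition which holds for all weighted curves holds for all laminations. -/
theorem ml_sub {Z : Set (AutPlus 2 → ℝ)} (hZ : IsClosed Z)
    (h : ∀ (t : ℝ) (y : SurfaceGroup 2), 0 ≤ t → t • curveFun y ∈ Z) : ML 2 ⊆ Z := by
  apply closure_minimal _ hZ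
  rintro μ ⟨t, χ, ht, rfl⟩
  exact h t _ ht

theorem J_nonneg (y : SurfaceGroup 2) (ψ : AutPlus 2) : 0 ≤ J y ψ := Nat.cast_nonneg _

theorem ml_nonneg {μ : AutPlus 2 → ℝ} (hμ : μ ∈ ML 2) (ψ : AutPlus 2) : 0 ≤ μ ψ := by
  have : ML 2 ⊆ {μ : AutPlus 2 → ℝ | 0 ≤ μ ψ} := by
    apply ml_sub (isClosed_le continuous_const (continuous_apply ψ))
    intro t y ht
    exact mul_nonneg ht (J_nonneg y ψ)
  exact this hμ

theorem ml_abs (a b c d : AutPlus 2) (α β : ℝ)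
    (h : ∀ y : SurfaceGroup 2, |J y a - (α * J y b + β * J y c)| ≤ J y d)
    {μ : AutPlus 2 → ℝ} (hμ : μ ∈ ML 2) : |μ a - (α * μ b + β * μ c)| ≤ μ d := by
  have : ML 2 ⊆ {μ : AutPlus 2 → ℝ | |μ a - (α * μ b + β * μ c)| ≤ μ d} := by
    apply ml_sub
    · apply isClosed_le
      · fun_prop
      · fun_prop
    · intro t y ht
      have h1 := mul_le_mul_of_nonneg_left (h y) ht
      have h2 : t * J y a - (α * (t * J y b) + β * (t * J y c)) =
          t * (J y a - (α * J y b + β * J y c)) := by ring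
      change |t * J y a - (α * (t * J y b) + β * (t * J y c))| ≤ t * J y d
      rw [h2, abs_mul, abs_of_nonneg ht]
      exact h1
  exact this hμ

theorem ml_eq (a b : AutPlus 2) (h : ∀ y : SurfaceGroup 2, J y a = J y b)
    {μ : AutPlus 2 → ℝ} (hμ : μ ∈ ML 2) : μ a = μ b := by
  have : ML 2 ⊆ {μ : AutPlus 2 → ℝ | μ a = μ b} := by
    apply ml_sub (isClosed_eq (continuous_apply a) (continuous_apply b))
    intro t y _
    change t * J y a = t * J y b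
    rw [h y]
  exact this hμ

theorem ml_lin (a : AutPlus 2) (b : Fin 4 → AutPlus 2) (α : Fin 4 → ℝ)
    (h : ∀ y : SurfaceGroup 2, J y a ≤ ∑ i, α i * J y (b i))
    {μ : AutPlus 2 → ℝ} (hμ : μ ∈ ML 2) : μ a ≤ ∑ i, α i * μ (b i) := by
  have : ML 2 ⊆ {μ : AutPlus 2 → ℝ | μ a ≤ ∑ i, α i * μ (b i)} := by
    apply ml_sub
    · apply isClosed_le (continuous_apply a)
      fun_prop
    · intro t y ht
      have h1 := mul_le_mul_of_nonneg_left (h y) ht
      change t * J y a ≤ ∑ i, α i * (t * J y (b i))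
      refine h1.trans (le_of_eq ?_)
      rw [Finset.mul_sum]
      apply Finset.sum_congr rfl
      intro i _
      ring
  exact this hμ

theorem ml_lin' (a : AutPlus 2) (b : Fin 4 → AutPlus 2) (α : Fin 4 → ℝ)
    (h : ∀ y : SurfaceGroup 2, ∑ i, α i * J y (b i) ≤ J y a)
    {μ : AutPlus 2 → ℝ} (hμ : μ ∈ ML 2) : ∑ i, α i * μ (b i) ≤ μ a := by
  have : ML 2 ⊆ {μ : AutPlus 2 → ℝ | ∑ i, α i * μ (b i) ≤ μ a} := by
    apply ml_sub
    · apply isClosed_le _ (continuous_apply a)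
      fun_prop
    · intro t y ht
      have h1 := mul_le_mul_of_nonneg_left (h y) ht
      change ∑ i, α i * (t * J y (b i)) ≤ t * J y a
      refine le_trans (le_of_eq ?_) h1
      rw [Finset.mul_sum]
      apply Finset.sum_congr rfl
      intro i _
      ring
  exact this hμ

/-- The class of a lamination. -/
def pm (μ : MLz 2) : PML 2 := Quotient.mk (rescale 2) μ

theorem pm_surj (p : PML 2) : ∃ μ, p = pm μ := by
  obtain ⟨μ, h⟩ := Quotient.exists_rep p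
  exact ⟨μ, h.symm⟩

theorem smul_pm (θ : AutPlus 2) (μ : MLz 2) : (θ : MCG 2) • pm μ = pm (actMLz θ μ) := rfl

theorem pm_eq {μ ν : MLz 2} (h : pm μ = pm ν) : ∃ c : ℝ, 0 < c ∧ ν.1 = c • μ.1 :=
  Quotient.exact h

/-- Iterating the translation. -/
theorem translate_pow_smul {θ : AutPlus 2} {μ : AutPlus 2 → ℝ} {c : ℝ} (h : translate θ μ = c • μ)
    (n : ℕ) (ψ : AutPlus 2) : μ ((θ ^ n)⁻¹ * ψ) = c ^ n * μ ψ := by
  induction n generalizing ψ with
  | zero => simp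
  | succ n ih =>
    have h1 : (θ ^ (n + 1))⁻¹ * ψ = (θ ^ n)⁻¹ * (θ⁻¹ * ψ) := by
      rw [pow_succ', mul_inv_rev, mul_assoc]
    have h2 : μ (θ⁻¹ * ψ) = c * μ ψ := congrFun h ψ
    rw [h1, ih, h2, pow_succ]; ring

theorem translate_pow_smul' {θ : AutPlus 2} {μ : AutPlus 2 → ℝ} {c : ℝ}
    (h : translate θ μ = c • μ) (n : ℕ) (ψ : AutPlus 2) : μ ψ = c ^ n * μ (θ ^ n * ψ) := by
  have := translate_pow_smul h n (θ ^ n * ψ)
  rwa [← mul_assoc, inv_mul_cancel, one_mul] at this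

/-- The open sets used for the convergence. -/
theorem isOpen_cone (a b : AutPlus 2) (r₁ r₂ ε : ℝ) :
    IsOpen {p : PML 2 | ∀ μ : MLz 2, p = pm μ →
      |μ.1 a * r₂ - μ.1 b * r₁| < ε * (μ.1 a + μ.1 b)} := by
  have hq : IsOpen {p : PML 2 | ∀ μ : MLz 2, p = pm μ →
      |μ.1 a * r₂ - μ.1 b * r₁| < ε * (μ.1 a + μ.1 b)} ↔
      IsOpen ((Quotient.mk (rescale 2)) ⁻¹' {p : PML 2 | ∀ μ : MLz 2, p = pm μ →
        |μ.1 a * r₂ - μ.1 b * r₁| < ε * (μ.1 a + μ.1 b)}) := isOpen_coinduced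
  rw [hq]
  have h1 : ((Quotient.mk (rescale 2)) ⁻¹' {p : PML 2 | ∀ μ : MLz 2, p = pm μ →
      |μ.1 a * r₂ - μ.1 b * r₁| < ε * (μ.1 a + μ.1 b)}) =
      {μ : MLz 2 | |μ.1 a * r₂ - μ.1 b * r₁| < ε * (μ.1 a + μ.1 b)} := by
    ext μ
    constructor
    · intro h
      exact h μ rfl
    · intro h ν hν
      obtain ⟨c, hc, h2⟩ := pm_eq (μ := μ) (ν := ν) hν
      rw [h2]
      change |c * μ.1 a * r₂ - c * μ.1 b * r₁| < ε * (c * μ.1 a + c * μ.1 b)
      have h3 : c * μ.1 a * r₂ - c * μ.1 b * r₁ = c * (μ.1 a * r₂ - μ.1 b * r₁) := by ring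
      have h4 : ε * (c * μ.1 a + c * μ.1 b) = c * (ε * (μ.1 a + μ.1 b)) := by ring
      rw [h3, h4, abs_mul, abs_of_pos hc]
      exact mul_lt_mul_of_pos_left h hc
  rw [h1]
  have ca : Continuous fun μ : MLz 2 => μ.1 a := (continuous_apply a).comp continuous_subtype_val
  have cb : Continuous fun μ : MLz 2 => μ.1 b := (continuous_apply b).comp continuous_subtype_val
  exact isOpen_lt ((ca.mul continuous_const).sub (cb.mul continuous_const)).abs
    (continuous_const.mul (ca.add cb))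

/-- Linear growth determines the limit ratio. -/
theorem ratio_of_growth {A B r₁ r₂ c₁ c₂ : ℝ} (hA : 0 ≤ A) (hB : 0 ≤ B)
    (hr₁ : 0 ≤ r₁) (hr₂ : 0 ≤ r₂) (u v : ℕ → ℝ)
    (hu : ∀ n : ℕ, |u n - n * A| ≤ c₁) (hv : ∀ n : ℕ, |v n - n * B| ≤ c₂)
    (h : ∀ ε : ℝ, 0 < ε → ∀ᶠ n : ℕ in atTop, |u n * r₂ - v n * r₁| < ε * (u n + v n)) :
    A * r₂ = B * r₁ := by
  by_contra hne
  have hδ : 0 < |A * r₂ - B * r₁| := abs_pos.2 (sub_ne_zero.2 hne)
  set δ := |A * r₂ - B * r₁| with hδdef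
  have hden : 0 < 2 * (A + B + 1) := by linarith
  have hε : 0 < δ / (2 * (A + B + 1)) := div_pos hδ hden
  obtain ⟨N, hN⟩ := exists_nat_gt ((δ / (2 * (A + B + 1)) * (c₁ + c₂) + c₁ * r₂ + c₂ * r₁) / (δ / 2))
  obtain ⟨n, hn1, hn2⟩ := ((h _ hε).and (eventually_ge_atTop N)).exists
  set ε := δ / (2 * (A + B + 1)) with hεdef
  have h1 := hu n
  have h2 := hv n
  have hn3 : (N : ℝ) ≤ n := by exact_mod_cast hn2
  have h3 : n * δ ≤ |u n * r₂ - v n * r₁| + c₁ * r₂ + c₂ * r₁ := by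
    have e1 : (n : ℝ) * (A * r₂ - B * r₁) = (u n * r₂ - v n * r₁) - (u n - n * A) * r₂ +
        (v n - n * B) * r₁ := by ring
    have e2 : (n : ℝ) * δ = |(n : ℝ) * (A * r₂ - B * r₁)| := by
      rw [abs_mul, Nat.abs_cast]
    rw [e2, e1]
    refine (abs_add_le _ _).trans ?_
    have e3 := abs_sub (u n * r₂ - v n * r₁) ((u n - n * A) * r₂)
    have e4 : |(u n - n * A) * r₂| ≤ c₁ * r₂ := by
      rw [abs_mul, abs_of_nonneg hr₂]
      exact mul_le_mul_of_nonneg_right h1 hr₂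
    have e5 : |(v n - n * B) * r₁| ≤ c₂ * r₁ := by
      rw [abs_mul, abs_of_nonneg hr₁]
      exact mul_le_mul_of_nonneg_right h2 hr₁
    linarith
  have h4 : u n + v n ≤ n * (A + B) + (c₁ + c₂) := by
    have e1 := le_abs_self (u n - n * A)
    have e2 := le_abs_self (v n - n * B)
    linarith
  have h5 : ε * (u n + v n) ≤ ε * (n * (A + B) + (c₁ + c₂)) :=
    mul_le_mul_of_nonneg_left h4 hε.le
  have h6 : ε * (A + B) ≤ δ / 2 := by
    rw [hεdef, div_mul_eq_mul_div, div_le_div_iff₀ hden (by norm_num)]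
    nlinarith
  have h7 : ε * (n * (A + B)) ≤ n * (δ / 2) := by
    have := mul_le_mul_of_nonneg_left h6 (Nat.cast_nonneg (α := ℝ) n)
    linarith
  have h8 : (n : ℝ) * (δ / 2) < ε * (c₁ + c₂) + c₁ * r₂ + c₂ * r₁ := by
    have : ε * (n * (A + B) + (c₁ + c₂)) = ε * (n * (A + B)) + ε * (c₁ + c₂) := by ring
    linarith
  rw [div_lt_iff₀ (by linarith)] at hN
  have h9 : (N : ℝ) * (δ / 2) ≤ n * (δ / 2) := mul_le_mul_of_nonneg_right hn3 (by linarith)
  linarith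

theorem lam_arith {C r₁ r₂ x y l₁ lk : ℝ} (hC : 1 ≤ C) (hr₁ : 0 ≤ r₁) (hr₂ : 0 ≤ r₂)
    (hr : 0 < r₁ + r₂) (hq : r₁ ^ 2 = r₁ * r₂ + r₂ ^ 2) (hrat : (lk + l₁) * r₂ = l₁ * r₁)
    (c1 : -(20 * (r₁ + r₂)) ≤ l₁ - 20 * (x + y)) (c2 : lk - 20 * x ≤ 20 * r₁)
    (v3 : x ≤ C * (20 * (r₁ + r₂) + 20 * r₁ + r₁ + r₂))
    (v4 : 1000 * C * (20 * (r₁ + r₂) + 20 * r₁ - r₁ - r₂) ≤ y) (n1 : 0 ≤ x) :
    False := by
  have hC0 : 0 ≤ C := by linarith
  have e1 : 0 ≤ C * r₁ := mul_nonneg hC0 hr₁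
  have e2 : 0 ≤ C * r₂ := mul_nonneg hC0 hr₂
  have e3 : r₁ ≤ C * r₁ := by
    have := mul_le_mul_of_nonneg_right hC hr₁
    linarith
  have e4 : r₂ ≤ C * r₂ := by
    have := mul_le_mul_of_nonneg_right hC hr₂
    linarith
  have f3 : x ≤ 41 * (C * r₁) + 21 * (C * r₂) := by linarith
  have f4 : 39000 * (C * r₁) + 19000 * (C * r₂) ≤ y := by linarith
  have d1 : lk ≤ 840 * (C * r₁) + 420 * (C * r₂) := by linarith
  have d2 : 700000 * (C * r₁) + 350000 * (C * r₂) ≤ l₁ := by linarith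
  have d4 : 300 * lk ≤ l₁ := by linarith
  have hpos : 0 < C * r₁ + C * r₂ := by
    rw [← mul_add]
    exact mul_pos (by linarith) hr
  have d3 : 0 < l₁ := by linarith
  have d5 : l₁ * r₁ ≤ l₁ * (301 / 300 * r₂) := by
    have h1 : lk * r₂ ≤ l₁ / 300 * r₂ := mul_le_mul_of_nonneg_right (by linarith) hr₂
    linarith
  have d6 : r₁ ≤ 301 / 300 * r₂ := le_of_mul_le_mul_left d5 d3
  have hr₂' : 0 < r₂ := by
    by_contra hle
    have : r₂ = 0 := by linarith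
    rw [this] at d6 hr
    linarith
  nlinarith [mul_le_mul_of_nonneg_left d6 hr₁, mul_le_mul_of_nonneg_right d6 hr₂]

/-- The statement on laminations. -/
theorem statementLam : StatementLam := by
  intro S T κ φ H1 H2 H3 H4 H5 H6 G ρ dd hdd hg1 hg2 hξ
  rintro ⟨f, hf, hequiv⟩
  obtain ⟨ξ, hfix, hconv⟩ := hξ
  obtain ⟨μ, hμ⟩ := pm_surj (f ξ)
  have hμm := μ.2.1
  -- the inequalities for laminations
  have I1 : ∀ {ν : AutPlus 2 → ℝ}, ν ∈ ML 2 → ∀ m : ℤ,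
      |ν (T ^ m * S) - |(m : ℝ)| * (ν κ + ν 1)| ≤ ν S := by
    intro ν hν m
    have := ml_abs (T ^ m * S) κ 1 S |(m : ℝ)| |(m : ℝ)| (fun y => by
      have := (H1 y m).1; rwa [mul_add] at this) hν
    rwa [← mul_add] at this
  have I2 : ∀ {ν : AutPlus 2 → ℝ}, ν ∈ ML 2 → ∀ m : ℤ,
      |ν (T ^ m * S * κ) - |(m : ℝ)| * ν 1| ≤ ν (S * κ) := by
    intro ν hν m
    have := ml_abs (T ^ m * S * κ) 1 1 (S * κ) |(m : ℝ)| 0 (fun y => by
      have := (H1 y m).2; rwa [zero_mul, add_zero]) hν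
    rwa [zero_mul, add_zero] at this
  have I3 : ∀ {ν : AutPlus 2 → ℝ}, ν ∈ ML 2 → ∀ m : ℤ,
      |ν (S * T ^ m * S⁻¹ * κ) - |(m : ℝ)| * ν S| ≤ ν κ := by
    intro ν hν m
    have := ml_abs (S * T ^ m * S⁻¹ * κ) S 1 κ |(m : ℝ)| 0 (fun y => by
      have := (H2 y m).1; rwa [zero_mul, add_zero]) hν
    rwa [zero_mul, add_zero] at this
  have I4 : ∀ {ν : AutPlus 2 → ℝ}, ν ∈ ML 2 → ∀ m : ℤ,
      |ν (S * T ^ m * S⁻¹) - |(m : ℝ)| * (ν S + ν (S * κ))| ≤ ν 1 := by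
    intro ν hν m
    have := ml_abs (S * T ^ m * S⁻¹) S (S * κ) 1 |(m : ℝ)| |(m : ℝ)| (fun y => by
      have := (H2 y m).2; rwa [mul_add] at this) hν
    rwa [← mul_add] at this
  have E1 : ∀ {ν : AutPlus 2 → ℝ}, ν ∈ ML 2 → ∀ m : ℤ, ν (S * T ^ m * S⁻¹ * S) = ν S :=
    fun hν m => ml_eq _ _ (fun y => (H3 y m).2.2.1) hν
  have E2 : ∀ {ν : AutPlus 2 → ℝ}, ν ∈ ML 2 → ∀ m : ℤ,
      ν (S * T ^ m * S⁻¹ * (S * κ)) = ν (S * κ) :=
    fun hν m => ml_eq _ _ (fun y => (H3 y m).2.2.2) hν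
  have E3 : ∀ {ν : AutPlus 2 → ℝ}, ν ∈ ML 2 → ν φ = ν 1 := fun hν =>
    ml_eq _ _ (fun y => (H4 y).1) hν
  have E4 : ∀ {ν : AutPlus 2 → ℝ}, ν ∈ ML 2 → ν (φ * κ) = ν κ := fun hν =>
    ml_eq _ _ (fun y => (H4 y).2) hν
  have I5 : ∀ ψ : AutPlus 2, ∃ C : ℝ, ∀ {ν : AutPlus 2 → ℝ}, ν ∈ ML 2 →
      ν ψ ≤ C * (ν 1 + ν κ + ν S + ν (S * κ)) := by
    intro ψ
    obtain ⟨C, hC⟩ := H5 ψ
    refine ⟨C, fun {ν} hν => ?_⟩
    have := ml_lin ψ ![1, κ, S, S * κ] ![C, C, C, C] (fun y => by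
      have := hC y
      rw [Fin.sum_univ_four]
      simp only [Matrix.cons_val]
      linarith) hν
    rw [Fin.sum_univ_four] at this
    simp only [Matrix.cons_val] at this
    linarith
  obtain ⟨C, hC1, H6a, H6b⟩ := H6
  have I6 : ∀ {ν : AutPlus 2 → ℝ}, ν ∈ ML 2 →
      ν (φ * S) ≤ C * (ν 1 + ν κ + ν S + ν (S * κ)) := by
    intro ν hν
    have := ml_lin (φ * S) ![1, κ, S, S * κ] ![C, C, C, C] (fun y => by
      have := H6a y
      rw [Fin.sum_univ_four]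
      simp only [Matrix.cons_val]
      linarith) hν
    rw [Fin.sum_univ_four] at this
    simp only [Matrix.cons_val] at this
    linarith
  have I7 : ∀ {ν : AutPlus 2 → ℝ}, ν ∈ ML 2 →
      1000 * C * (ν 1 + ν κ - ν S - ν (S * κ)) ≤ ν (φ * S * κ) := by
    intro ν hν
    have := ml_lin' (φ * S * κ) ![1, κ, S, S * κ] ![1000 * C, 1000 * C, -(1000 * C), -(1000 * C)]
      (fun y => by
      have := H6b y
      rw [Fin.sum_univ_four]
      simp only [Matrix.cons_val]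
      linarith) hν
    rw [Fin.sum_univ_four] at this
    simp only [Matrix.cons_val] at this
    linarith
  -- step 1
  have hinv : ∃ c : ℝ, 0 < c ∧ translate (T ^ 20) μ.1 = c • μ.1 := by
    have h1 := hequiv dd ξ
    rw [hfix, hμ, hdd, smul_pm] at h1
    obtain ⟨c, hc, h2⟩ := pm_eq h1
    exact ⟨c, hc, h2⟩
  obtain ⟨c, hc, hinv⟩ := hinv
  have hX : μ.1 κ + μ.1 1 ≤ 0 := by
    by_contra hpos
    push Not at hpos
    obtain ⟨n, hn⟩ := exists_nat_gt (2 * μ.1 S / (20 * (μ.1 κ + μ.1 1)))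
    rw [div_lt_iff₀ (by linarith)] at hn
    have hS0 := ml_nonneg hμm S
    have h1 := translate_pow_smul hinv n S
    have h2 := translate_pow_smul' hinv n S
    have e1 : ((T ^ 20) ^ n)⁻¹ = T ^ (-(20 * n : ℤ)) := by
      rw [zpow_neg, ← pow_mul, ← zpow_natCast]; push_cast; rfl
    have e2 : (T ^ 20) ^ n = T ^ (20 * n : ℤ) := by
      rw [← pow_mul, ← zpow_natCast]; push_cast; rfl
    have h3 := I1 hμm (-(20 * n : ℤ))
    have h4 := I1 hμm (20 * n : ℤ)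
    rw [← e1, h1] at h3
    rw [← e2] at h4
    have a1 : |((-(20 * n : ℤ) : ℤ) : ℝ)| = 20 * n := by
      push_cast
      rw [abs_neg, abs_of_nonneg (by positivity)]
    have a2 : |((20 * n : ℤ) : ℝ)| = 20 * n := by
      push_cast
      rw [abs_of_nonneg (by positivity)]
    rw [a1] at h3
    rw [a2] at h4
    have h5 := (abs_le.1 h3).1
    have h6 := (abs_le.1 h4).1
    have h7 : μ.1 S < c ^ n * μ.1 S := by nlinarith
    have h8 : μ.1 S < μ.1 ((T ^ 20) ^ n * S) := by nlinarith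
    have hcn : 0 < c ^ n := pow_pos hc n
    have h9 : 1 < c ^ n := by
      by_contra hle
      push Not at hle
      nlinarith
    nlinarith
  have hκ0 : μ.1 κ = 0 := by
    have h1 := ml_nonneg hμm κ
    have h2 := ml_nonneg hμm 1
    linarith
  have h10 : μ.1 1 = 0 := by
    have h1 := ml_nonneg hμm κ
    have h2 := ml_nonneg hμm 1
    linarith
  set r₁ := μ.1 S with hr₁
  set r₂ := μ.1 (S * κ) with hr₂
  have hr₁0 : 0 ≤ r₁ := ml_nonneg hμm S
  have hr₂0 : 0 ≤ r₂ := ml_nonneg hμm (S * κ)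
  have hr : 0 < r₁ + r₂ := by
    by_contra hle
    have e1 : r₁ = 0 := by linarith
    have e2 : r₂ = 0 := by linarith
    apply μ.2.2
    funext ψ
    obtain ⟨C', hC'⟩ := I5 ψ
    have h1 := hC' hμm
    rw [h10, hκ0, ← hr₁, ← hr₂, e1, e2] at h1
    have h2 := ml_nonneg hμm ψ
    simp at h1
    exact le_antisymm h1 h2
  -- step 2
  have step2 : ∀ (χ : AutPlus 2) (g : G), (g : MCG 2) = (χ : MCG 2) →
      (translate χ μ.1 κ + translate χ μ.1 1) * r₂ = translate χ μ.1 1 * r₁ := by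
    intro χ g hg
    set ν := translate χ μ.1 with hν
    have hνm : ν ∈ ML 2 := translate_mem χ hμm
    have hlim : Tendsto (fun n : ℕ => f (bdry ρ (dd ^ n * g) ξ)) atTop (𝓝 (f ξ)) :=
      (hf.tendsto ξ).comp (hconv g)
    have hval : ∀ n : ℕ, f (bdry ρ (dd ^ n * g) ξ) = pm (actMLz ((T ^ 20) ^ n * χ) μ) := by
      intro n
      rw [hequiv, hμ, ← smul_pm]
      congr 1
      rw [Subgroup.coe_mul, Subgroup.coe_pow, hdd, hg]
      rfl
    have key := ratio_of_growth (A := 20 * (ν κ + ν 1)) (B := 20 * ν 1) (r₁ := r₁) (r₂ := r₂)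
      (c₁ := ν S) (c₂ := ν (S * κ))
      (by have a := ml_nonneg hνm κ; have b := ml_nonneg hνm 1; positivity)
      (by have b := ml_nonneg hνm 1; positivity) hr₁0 hr₂0
      (fun n => ν (((T ^ 20) ^ n)⁻¹ * S)) (fun n => ν (((T ^ 20) ^ n)⁻¹ * S * κ))
      (fun n => by
        have e1 : ((T ^ 20) ^ n)⁻¹ = T ^ (-(20 * n : ℤ)) := by
          rw [zpow_neg, ← pow_mul, ← zpow_natCast]; push_cast; rfl
        have a1 : |((-(20 * n : ℤ) : ℤ) : ℝ)| = 20 * n := by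
          push_cast
          rw [abs_neg, abs_of_nonneg (by positivity)]
        have := I1 hνm (-(20 * n : ℤ))
        rw [a1, ← e1] at this
        have e : (n : ℝ) * (20 * (ν κ + ν 1)) = 20 * n * (ν κ + ν 1) := by ring
        rw [e]; exact this)
      (fun n => by
        have e1 : ((T ^ 20) ^ n)⁻¹ = T ^ (-(20 * n : ℤ)) := by
          rw [zpow_neg, ← pow_mul, ← zpow_natCast]; push_cast; rfl
        have a1 : |((-(20 * n : ℤ) : ℤ) : ℝ)| = 20 * n := by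
          push_cast
          rw [abs_neg, abs_of_nonneg (by positivity)]
        have := I2 hνm (-(20 * n : ℤ))
        rw [a1, ← e1] at this
        have e : (n : ℝ) * (20 * ν 1) = 20 * n * ν 1 := by ring
        rw [e]; exact this)
      (by
        intro ε hε
        have hopen := isOpen_cone S (S * κ) r₁ r₂ ε
        have hmem : f ξ ∈ {p : PML 2 | ∀ μ : MLz 2, p = pm μ →
            |μ.1 S * r₂ - μ.1 (S * κ) * r₁| < ε * (μ.1 S + μ.1 (S * κ))} := by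
          intro ν' hν'
          rw [hμ] at hν'
          obtain ⟨c', hc', h2⟩ := pm_eq hν'
          rw [h2]
          change |c' * r₁ * r₂ - c' * r₂ * r₁| < ε * (c' * r₁ + c' * r₂)
          have e1 : c' * r₁ * r₂ - c' * r₂ * r₁ = 0 := by ring
          rw [e1, abs_zero]
          have : ε * (c' * r₁ + c' * r₂) = ε * c' * (r₁ + r₂) := by ring
          rw [this]
          positivity
        have hev := hlim.eventually (hopen.mem_nhds hmem)
        filter_upwards [hev] with n hn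
        have h1 := hn (actMLz ((T ^ 20) ^ n * χ) μ) (hval n)
        have h2 : ∀ ψ, (actMLz ((T ^ 20) ^ n * χ) μ).1 ψ = ν (((T ^ 20) ^ n)⁻¹ * ψ) := by
          intro ψ
          change translate ((T ^ 20) ^ n * χ) μ.1 ψ = _
          rw [translate_mul]
          rfl
        rw [h2, h2, ← mul_assoc] at h1
        exact h1)
    linarith
  -- step 3
  set g1 := S * T ^ 20 * S⁻¹ with hg1def
  have hg1inv : g1⁻¹ = S * T ^ (-20 : ℤ) * S⁻¹ := by
    rw [hg1def]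
    have : T ^ (-20 : ℤ) = (T ^ 20)⁻¹ := by rw [zpow_neg]; rfl
    rw [this]; group
  have a20 : |((-20 : ℤ) : ℝ)| = 20 := by norm_num
  set ν := translate g1 μ.1 with hν
  have hνm : ν ∈ ML 2 := translate_mem g1 hμm
  have hν1 : ν 1 = 20 * (r₁ + r₂) := by
    have h1 := I4 hμm (-20)
    rw [a20, h10] at h1
    have h2 := abs_nonpos_iff.1 h1
    have h3 : ν 1 = μ.1 (S * T ^ (-20 : ℤ) * S⁻¹) := by
      change μ.1 (g1⁻¹ * 1) = _
      rw [mul_one, hg1inv]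
    rw [h3]; linarith
  have hνκ : ν κ = 20 * r₁ := by
    have h1 := I3 hμm (-20)
    rw [a20, hκ0] at h1
    have h2 := abs_nonpos_iff.1 h1
    have h3 : ν κ = μ.1 (S * T ^ (-20 : ℤ) * S⁻¹ * κ) := by
      change μ.1 (g1⁻¹ * κ) = _
      rw [hg1inv]
    rw [h3]; linarith
  have hνS : ν S = r₁ := by
    have h3 : ν S = μ.1 (S * T ^ (-20 : ℤ) * S⁻¹ * S) := by
      change μ.1 (g1⁻¹ * S) = _
      rw [hg1inv]
    rw [h3, E1 hμm]
  have hνSκ : ν (S * κ) = r₂ := by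
    have h3 : ν (S * κ) = μ.1 (S * T ^ (-20 : ℤ) * S⁻¹ * (S * κ)) := by
      change μ.1 (g1⁻¹ * (S * κ)) = _
      rw [hg1inv]
    rw [h3, E2 hμm]
  have hratio := step2 g1 ⟨_, hg1⟩ rfl
  rw [← hν, hν1, hνκ] at hratio
  have hq : r₁ ^ 2 = r₁ * r₂ + r₂ ^ 2 := by nlinarith
  -- step 4
  have hratio2 := step2 (φ * g1 * φ⁻¹ * g1) (⟨_, hg2⟩ * ⟨_, hg1⟩) rfl
  set lam := translate (φ * g1 * φ⁻¹ * g1) μ.1 with hlam
  have hlamm : lam ∈ ML 2 := translate_mem _ hμm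
  set ν' := translate φ⁻¹ ν with hν'
  have hν'm : ν' ∈ ML 2 := translate_mem _ hνm
  have hν'v : ∀ ψ, ν' ψ = ν (φ * ψ) := by
    intro ψ
    change ν (φ⁻¹⁻¹ * ψ) = _
    rw [inv_inv]
  have hlamv : ∀ ψ, lam (φ * ψ) = ν' (g1⁻¹ * ψ) := by
    intro ψ
    have e1 : lam = translate φ (translate g1 ν') := by
      rw [hlam, hν', hν, ← translate_mul, ← translate_mul, ← translate_mul]
    rw [e1]
    change ν' (g1⁻¹ * (φ⁻¹ * (φ * ψ))) = _
    rw [← mul_assoc φ⁻¹, inv_mul_cancel, one_mul]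
  have hl1 : lam 1 = ν' (S * T ^ (-20 : ℤ) * S⁻¹) := by
    rw [← E3 hlamm]
    have := hlamv 1
    rw [mul_one, mul_one, hg1inv] at this
    exact this
  have hlκ : lam κ = ν' (S * T ^ (-20 : ℤ) * S⁻¹ * κ) := by
    rw [← E4 hlamm]
    have := hlamv κ
    rw [hg1inv] at this
    exact this
  have b1 := I4 hν'm (-20)
  have b2 := I3 hν'm (-20)
  rw [a20, ← hl1] at b1
  rw [a20, ← hlκ] at b2
  have v1 : ν' 1 = 20 * (r₁ + r₂) := by rw [hν'v, mul_one, E3 hνm, hν1]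
  have v2 : ν' κ = 20 * r₁ := by rw [hν'v, E4 hνm, hνκ]
  have v3 := I6 hνm
  have v4 := I7 hνm
  rw [← hν'v, hν1, hνκ, hνS, hνSκ] at v3
  have v5 : ν' (S * κ) = ν (φ * S * κ) := by rw [hν'v, mul_assoc]
  rw [← v5, hν1, hνκ, hνS, hνSκ] at v4
  rw [v1] at b1
  rw [v2] at b2
  have c1 := (abs_le.1 b1).1
  have c2 := (abs_le.1 b2).2
  have n1 : 0 ≤ ν' S := ml_nonneg hν'm S
  exact lam_arith hC1 hr₁0 hr₂0 hr hq hratio2 c1 c2 v3 v4 n1

end Run7.h347
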