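import Pool.Agent.Run7.h347.Core6

set_option autoImplicit false

/-! The inequality for pieces: tree geometry of the free group. -/

namespace Run7.h347

/-- Signed number of crossings of the edge from `h` to `h x_i` by the path spelled by a word. -/
def cr (i : Fin 3) (h : F3) : F3 → List (Fin 3 × Bool) → ℤ
  | _, [] => 0
  | g, (j, true) :: L => (if j = i ∧ g = h then 1 else 0) + cr i h (g * FreeGroup.of j) L
  | g, (j, false) :: L => -(if j = i ∧ g * (FreeGroup.of j)⁻¹ = h then 1 else 0) +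
      cr i h (g * (FreeGroup.of j)⁻¹) L

theorem cr_append (i : Fin 3) (h : F3) (L L' : List (Fin 3 × Bool)) : ∀ g : F3,
    cr i h g (L ++ L') = cr i h g L + cr i h (g * FreeGroup.mk L) L' := by
  induction L with
  | nil =>
    intro g
    have : (FreeGroup.mk [] : F3) = 1 := rfl
    rw [this, mul_one, List.nil_append, cr, zero_add]
  | cons x L ih =>
    intro g
    obtain ⟨j, b⟩ := x
    have h1 : (FreeGroup.mk ((j, b) :: L) : F3) = FreeGroup.mk [(j, b)] * FreeGroup.mk L := rfl
    cases b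
    · have h2 : (FreeGroup.mk [(j, false)] : F3) = (FreeGroup.of j)⁻¹ := rfl
      rw [List.cons_append, cr, cr, ih, h1, h2, mul_assoc g, add_assoc]
    · have h2 : (FreeGroup.mk [(j, true)] : F3) = FreeGroup.of j := rfl
      rw [List.cons_append, cr, cr, ih, h1, h2, mul_assoc g, add_assoc]

theorem cr_step (i : Fin 3) (h g : F3) {L L' : List (Fin 3 × Bool)}
    (hs : FreeGroup.Red.Step L L') : cr i h g L = cr i h g L' := by
  cases hs with
  | @not L₁ L₂ x b =>
    rw [cr_append, cr_append]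
    congr 1
    set g' := g * FreeGroup.mk L₁
    cases b
    · simp only [Bool.not_false, cr]
      rw [inv_mul_cancel_right]
      ring
    · simp only [Bool.not_true, cr]
      rw [mul_inv_cancel_right]
      ring

theorem cr_red (i : Fin 3) (h g : F3) {L L' : List (Fin 3 × Bool)}
    (hs : FreeGroup.Red L L') : cr i h g L = cr i h g L' := by
  induction hs with
  | refl => rfl
  | tail _ h2 ih => exact ih.trans (cr_step i h g h2)

theorem cr_eq (i : Fin 3) (h g : F3) {L L' : List (Fin 3 × Bool)}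
    (hs : (FreeGroup.mk L : F3) = FreeGroup.mk L') : cr i h g L = cr i h g L' := by
  rw [cr_red i h g (FreeGroup.reduce.red (L := L)), cr_red i h g (FreeGroup.reduce.red (L := L')),
    FreeGroup.reduce.sound hs]

/-- Crossings by the geodesic from `P` to `Q`. -/
def Cr (i : Fin 3) (h P Q : F3) : ℤ := cr i h P (P⁻¹ * Q).toWord

theorem Cr_add (i : Fin 3) (h P Q R : F3) : Cr i h P R = Cr i h P Q + Cr i h Q R := by
  have h1 : cr i h P (P⁻¹ * R).toWord =
      cr i h P ((P⁻¹ * Q).toWord ++ (Q⁻¹ * R).toWord) := by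
    apply cr_eq
    rw [← FreeGroup.mul_mk, FreeGroup.mk_toWord, FreeGroup.mk_toWord, FreeGroup.mk_toWord]
    group
  rw [Cr, h1, cr_append, FreeGroup.mk_toWord, Cr, Cr]
  congr 2
  group

theorem Cr_self (i : Fin 3) (h P : F3) : Cr i h P P = 0 := by
  have := Cr_add i h P P P
  linarith

theorem Cr_symm (i : Fin 3) (h P Q : F3) : Cr i h Q P = - Cr i h P Q := by
  have := Cr_add i h P Q P
  rw [Cr_self] at this
  linarith

/-- The total number of crossings is at most the number of letters. -/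
theorem sum_cr_le (p : Fin 3 → Bool) (A : Finset (Fin 3 × F3)) (hA : ∀ x ∈ A, p x.1 = true)
    (L : List (Fin 3 × Bool)) : ∀ g : F3,
    ∑ x ∈ A, |cr x.1 x.2 g L| ≤ (L.countP fun y => p y.1 : ℕ) := by
  classical
  have key : ∀ (j : Fin 3) (v : F3), ∑ x ∈ A, (if j = x.1 ∧ v = x.2 then (1 : ℤ) else 0) ≤
      if p j = true then 1 else 0 := by
    intro j v
    by_cases hm : (j, v) ∈ A
    · rw [if_pos (hA _ hm), Finset.sum_eq_single_of_mem (j, v) hm]
      · simp
      · intro x _ hx
        rw [if_neg]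
        rintro ⟨rfl, rfl⟩
        exact hx rfl
    · rw [Finset.sum_eq_zero]
      · split_ifs <;> simp
      · intro x hx
        rw [if_neg]
        rintro ⟨rfl, rfl⟩
        exact hm hx
  induction L with
  | nil => intro g; simp [cr]
  | cons y L ih =>
    intro g
    obtain ⟨j, b⟩ := y
    rw [List.countP_cons]
    cases b
    · have h1 := ih (g * (FreeGroup.of j)⁻¹)
      have h2 := key j (g * (FreeGroup.of j)⁻¹)
      have h3 : ∀ x ∈ A, |cr x.1 x.2 g ((j, false) :: L)| ≤
          (if j = x.1 ∧ g * (FreeGroup.of j)⁻¹ = x.2 then (1 : ℤ) else 0) +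
            |cr x.1 x.2 (g * (FreeGroup.of j)⁻¹) L| := by
        intro x _
        rw [cr]
        refine (abs_add_le _ _).trans ?_
        apply add_le_add _ le_rfl
        rw [abs_neg]
        split_ifs <;> simp
      refine (Finset.sum_le_sum h3).trans ?_
      rw [Finset.sum_add_distrib]
      push_cast
      split_ifs at h2 ⊢ <;> linarith
    · have h1 := ih (g * FreeGroup.of j)
      have h2 := key j g
      have h3 : ∀ x ∈ A, |cr x.1 x.2 g ((j, true) :: L)| ≤
          (if j = x.1 ∧ g = x.2 then (1 : ℤ) else 0) +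
            |cr x.1 x.2 (g * FreeGroup.of j) L| := by
        intro x _
        rw [cr]
        refine (abs_add_le _ _).trans ?_
        apply add_le_add _ le_rfl
        split_ifs <;> simp
      refine (Finset.sum_le_sum h3).trans ?_
      rw [Finset.sum_add_distrib]
      push_cast
      split_ifs at h2 ⊢ <;> linarith

/-! ### Lines -/

/-- The index of the first letter. -/
def hdi (e : Ed) : Fin 3 := if (e.1 = 0 ↔ e.2 = 1) then 1 else 0

theorem hd_eq (e : Ed) : hd e = FreeGroup.of (hdi e) := by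
  rw [hd, hdi]; split_ifs <;> rfl

/-- The letter of the edge from position `k` to position `k + 1`. -/
def lt (e : Ed) (k : ℤ) : Fin 3 := if e.1 = 0 then hdi e else if k % 2 = 0 then hdi e else 2

theorem pos_succ (e : Ed) (k : ℤ) : pos e (k + 1) = pos e k * FreeGroup.of (lt e k) := by
  rw [pos, pos, lt]
  by_cases h : e.1 = 0
  · rw [if_pos h, if_pos h, if_pos h, zpow_add_one, ← hd_eq]
  · rw [if_neg h, if_neg h, if_neg h]
    rcases Int.emod_two_eq_zero_or_one k with h1 | h1
    · have h2 : (k + 1) % 2 ≠ 0 := by omega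
      have h3 : (k + 1) / 2 = k / 2 := by omega
      rw [if_neg h2, if_pos h1, if_pos h1, h3, mul_one, ← hd_eq]
    · have h2 : (k + 1) % 2 = 0 := by omega
      have h3 : (k + 1) / 2 = k / 2 + 1 := by omega
      have h4 : ¬ k % 2 = 0 := by omega
      rw [if_pos h2, if_neg h4, if_neg h4, h3, zpow_add_one, mul_one, ← mul_assoc]
      rfl

/-- all letters count -/
def χ3 : Fin 3 → ℤ := fun _ => 1

theorem agz3_pos (e : Ed) (k : ℤ) : agz χ3 (pos e k) = k := by
  have h1 : agz χ3 (hd e) = 1 := by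
    rcases hd_cases e with h | h <;> rw [h]
    · rw [agz_F]; rfl
    · rw [agz_E]; rfl
  have h2 : agz χ3 xD = 1 := by rw [agz_D]; rfl
  rw [pos]
  split_ifs with h3 h4
  · rw [agz_zpow, h1, mul_one]
  · rw [agz_mul, agz_zpow, agz_mul, h1, h2, agz_one]; omega
  · rw [agz_mul, agz_zpow, agz_mul, h1, h2]; omega

theorem pos_inj (e : Ed) {k l : ℤ} (h : pos e k = pos e l) : k = l := by
  rw [← agz3_pos e k, h, agz3_pos]

theorem Cr_edge (i : Fin 3) (h P : F3) (j : Fin 3) :
    Cr i h P (P * FreeGroup.of j) = if j = i ∧ P = h then 1 else 0 := by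
  have h1 : P⁻¹ * (P * FreeGroup.of j) = FreeGroup.of j := by group
  rw [Cr, h1, FreeGroup.toWord_of, cr, cr, add_zero]

theorem Cr_line_nat (i : Fin 3) (h g : F3) (e : Ed) (k : ℤ) (n : ℕ) :
    Cr i h (g * pos e k) (g * pos e (k + n)) =
      ∑ j ∈ Finset.range n, if lt e (k + j) = i ∧ g * pos e (k + j) = h then (1 : ℤ) else 0 := by
  induction n with
  | zero => simp [Cr_self]
  | succ n ih =>
    have h1 : pos e (k + ((n + 1 : ℕ) : ℤ)) = pos e (k + n) * FreeGroup.of (lt e (k + n)) := by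
      rw [← pos_succ]; congr 1; push_cast; ring
    rw [Cr_add i h _ (g * pos e (k + n)), ih, Finset.sum_range_succ, h1, ← mul_assoc, Cr_edge]

/-- On an edge of the segment the crossing number is `±1`. -/
theorem Cr_on (g : F3) (e : Ed) (k : ℤ) (n : ℕ) (j : ℕ) (hj : j < n) :
    Cr (lt e (k + j)) (g * pos e (k + j)) (g * pos e k) (g * pos e (k + n)) = 1 := by
  rw [Cr_line_nat, Finset.sum_eq_single_of_mem j (Finset.mem_range.2 hj)]
  · simp
  · intro j' _ hj'
    rw [if_neg]
    rintro ⟨_, h2⟩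
    have h3 := pos_inj e (mul_left_cancel h2)
    apply hj'
    omega

/-- Off the line the crossing number is zero. -/
theorem Cr_off (i : Fin 3) (h g : F3) (e : Ed) (hoff : ∀ k, ¬ (lt e k = i ∧ g * pos e k = h))
    (k k' : ℤ) : Cr i h (g * pos e k) (g * pos e k') = 0 := by
  have key : ∀ (k : ℤ) (n : ℕ), Cr i h (g * pos e k) (g * pos e (k + n)) = 0 := by
    intro k n
    rw [Cr_line_nat]
    apply Finset.sum_eq_zero
    intro j _
    rw [if_neg (hoff _)]
  rcases le_total k k' with h1 | h1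
  · obtain ⟨n, rfl⟩ := Int.exists_add_of_le h1
    exact key k n
  · obtain ⟨n, rfl⟩ := Int.exists_add_of_le h1
    rw [Cr_symm, key, neg_zero]

/-- Two lines of the same side family sharing an edge are equal. -/
theorem line_eq {e f : Ed} (hef : e.2 = f.2) {g g' : F3} {k l : ℤ} (h1 : lt e k = lt f l)
    (h2 : g * pos e k = g' * pos f l) : f = e ∧ g⁻¹ * g' ∈ Subgroup.zpowers (ge e) := by
  have hpar : f = e ∧ (e.1 = 0 ∨ (k - l) % 2 = 0) := by
    obtain ⟨i, u⟩ := e
    obtain ⟨i', u'⟩ := f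
    simp only at hef
    subst hef
    rcases Int.emod_two_eq_zero_or_one k with hk | hk <;>
    rcases Int.emod_two_eq_zero_or_one l with hl | hl <;>
    rcases Int.units_eq_one_or u with rfl | rfl <;>
    fin_cases i <;> fin_cases i' <;>
    simp [lt, hdi, hk, hl] at h1 ⊢ <;> omega
  obtain ⟨rfl, hp⟩ := hpar
  refine ⟨rfl, ?_⟩
  have h3 : g⁻¹ * g' = pos f k * (pos f l)⁻¹ := by
    rw [← mul_left_inj (pos f l), mul_assoc, ← h2]; group
  rw [h3]
  rcases hp with hp | hp
  · refine ⟨k - l, ?_⟩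
    change ge f ^ (k - l) = _
    rw [eq_mul_inv_iff_mul_eq, ge_pos, per, if_pos hp]
    congr 1; ring
  · by_cases h0 : f.1 = 0
    · refine ⟨k - l, ?_⟩
      change ge f ^ (k - l) = _
      rw [eq_mul_inv_iff_mul_eq, ge_pos, per, if_pos h0]
      congr 1; ring
    · refine ⟨(k - l) / 2, ?_⟩
      change ge f ^ ((k - l) / 2) = _
      rw [eq_mul_inv_iff_mul_eq, ge_pos, per, if_neg h0]
      congr 1; omega

/-- A class of letters with its signed count on lines. -/
structure Cls (p : Fin 3 → Bool) (sg : Ed → ℤ → ℤ) : Prop where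
  succ : ∀ e k, sg e (k + 1) = sg e k + if p (lt e k) = true then 1 else 0

/-- The edges of the segment. -/
noncomputable def sgm (p : Fin 3 → Bool) (g : F3) (e : Ed) (k : ℤ) (n : ℕ) :
    Finset (Fin 3 × F3) := by
  classical
  exact ((Finset.range n).filter fun j : ℕ => p (lt e (k + j)) = true).image
    fun j : ℕ => (lt e (k + j), g * pos e (k + j))

variable {p : Fin 3 → Bool} {sg : Ed → ℤ → ℤ}

theorem sgm_card (hp : Cls p sg) (g : F3) (e : Ed) (k : ℤ) (n : ℕ) :
    ((sgm p g e k n).card : ℤ) = sg e (k + n) - sg e k := by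
  classical
  rw [sgm, Finset.card_image_of_injOn]
  · induction n with
    | zero => simp
    | succ n ih =>
      have h1 := hp.succ e (k + n)
      have h2 : k + ((n + 1 : ℕ) : ℤ) = k + n + 1 := by push_cast; ring
      rw [Finset.range_add_one, Finset.filter_insert, h2, h1]
      split_ifs with h3
      · rw [Finset.card_insert_of_notMem (by simp)]
        push_cast
        linarith
      · linarith
  · intro a _ b _ hab
    have h1 := (Prod.ext_iff.1 hab).2
    simp only at h1
    have h2 := pos_inj e (mul_left_cancel h1)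
    omega

theorem mem_sgm {g : F3} {e : Ed} {k : ℤ} {n : ℕ} {x : Fin 3 × F3} (hx : x ∈ sgm p g e k n) :
    ∃ j : ℕ, j < n ∧ p (lt e (k + j)) = true ∧ x = (lt e (k + j), g * pos e (k + j)) := by
  classical
  rw [sgm, Finset.mem_image] at hx
  obtain ⟨j, hj, rfl⟩ := hx
  rw [Finset.mem_filter, Finset.mem_range] at hj
  exact ⟨j, hj.1, hj.2, rfl⟩

/-- Segments without orientation. -/
theorem exists_seg (hp : Cls p sg) (g : F3) (e : Ed) (k k' : ℤ) :
    ∃ A : Finset (Fin 3 × F3), (A.card : ℤ) = |sg e k - sg e k'| ∧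
      ∀ x ∈ A, p x.1 = true ∧ (∃ j : ℤ, x = (lt e j, g * pos e j)) ∧
        |Cr x.1 x.2 (g * pos e k) (g * pos e k')| = 1 := by
  have key : ∀ (k : ℤ) (n : ℕ), ∃ A : Finset (Fin 3 × F3),
      (A.card : ℤ) = |sg e k - sg e (k + n)| ∧
      ∀ x ∈ A, p x.1 = true ∧ (∃ j : ℤ, x = (lt e j, g * pos e j)) ∧
        |Cr x.1 x.2 (g * pos e k) (g * pos e (k + n))| = 1 := by
    intro k n
    refine ⟨sgm p g e k n, ?_, ?_⟩
    · have h1 := sgm_card hp g e k n
      have h2 : (0 : ℤ) ≤ (sgm p g e k n).card := Int.natCast_nonneg _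
      rw [h1, abs_sub_comm, abs_of_nonneg (by linarith)]
    · intro x hx
      obtain ⟨j, hj, h1, rfl⟩ := mem_sgm hx
      refine ⟨h1, ⟨_, rfl⟩, ?_⟩
      simp only
      rw [Cr_on g e k n j hj, abs_one]
  rcases le_total k k' with h1 | h1
  · obtain ⟨n, rfl⟩ := Int.exists_add_of_le h1
    exact key k n
  · obtain ⟨n, rfl⟩ := Int.exists_add_of_le h1
    obtain ⟨A, h2, h3⟩ := key k' n
    refine ⟨A, by rw [h2, abs_sub_comm], fun x hx => ?_⟩
    obtain ⟨h4, h5, h6⟩ := h3 x hx
    exact ⟨h4, h5, by rw [Cr_symm, abs_neg]; exact h6⟩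

/-- The quadrilateral inequality. -/
theorem turning (hp : Cls p sg) {e f : Ed} (hef : e.2 = f.2) (g g' : F3)
    (hne : ¬ (f = e ∧ g⁻¹ * g' ∈ Subgroup.zpowers (ge e))) (k k' l l' : ℤ) :
    |sg e k - sg e k'| + |sg f l - sg f l'| ≤
      (((g * pos e k)⁻¹ * (g' * pos f l)).toWord.countP (fun y => p y.1) : ℕ) +
      (((g * pos e k')⁻¹ * (g' * pos f l')).toWord.countP (fun y => p y.1) : ℕ) := by
  classical
  obtain ⟨A, hA, hA'⟩ := exists_seg hp g e k k'
  obtain ⟨B, hB, hB'⟩ := exists_seg hp g' f l l'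
  have hdis : Disjoint A B := by
    rw [Finset.disjoint_left]
    intro x hxA hxB
    obtain ⟨_, ⟨j, hj⟩, _⟩ := hA' x hxA
    obtain ⟨_, ⟨j', hj'⟩, _⟩ := hB' x hxB
    rw [hj] at hj'
    obtain ⟨h1, h2⟩ := Prod.ext_iff.1 hj'
    exact hne (line_eq hef h1 h2)
  have hoffB : ∀ x ∈ A, Cr x.1 x.2 (g' * pos f l) (g' * pos f l') = 0 := by
    intro x hx
    obtain ⟨_, ⟨j, rfl⟩, _⟩ := hA' x hx
    apply Cr_off
    rintro j' ⟨h1, h2⟩
    exact hne (line_eq hef h1.symm h2.symm)
  have hoffA : ∀ x ∈ B, Cr x.1 x.2 (g * pos e k) (g * pos e k') = 0 := by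
    intro x hx
    obtain ⟨_, ⟨j, rfl⟩, _⟩ := hB' x hx
    apply Cr_off
    rintro j' ⟨h1, h2⟩
    exact hne (line_eq hef h1 h2)
  have hloop : ∀ (i : Fin 3) (h : F3), Cr i h (g * pos e k) (g' * pos f l) +
      Cr i h (g' * pos f l) (g' * pos f l') =
      Cr i h (g * pos e k) (g * pos e k') + Cr i h (g * pos e k') (g' * pos f l') := by
    intro i h
    rw [← Cr_add, ← Cr_add]
  have hone : ∀ x ∈ A ∪ B, 1 ≤ |Cr x.1 x.2 (g * pos e k) (g' * pos f l)| +
      |Cr x.1 x.2 (g * pos e k') (g' * pos f l')| := by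
    intro x hx
    have h1 := hloop x.1 x.2
    rcases Finset.mem_union.1 hx with hx | hx
    · rw [hoffB x hx, add_zero] at h1
      have h2 := (hA' x hx).2.2
      have h3 : Cr x.1 x.2 (g * pos e k) (g * pos e k') =
        Cr x.1 x.2 (g * pos e k) (g' * pos f l) - Cr x.1 x.2 (g * pos e k') (g' * pos f l') := by
        linarith
      rw [h3] at h2
      have h4 := abs_sub (Cr x.1 x.2 (g * pos e k) (g' * pos f l))
        (Cr x.1 x.2 (g * pos e k') (g' * pos f l'))
      linarith
    · rw [hoffA x hx, zero_add] at h1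
      have h2 := (hB' x hx).2.2
      have h3 : Cr x.1 x.2 (g' * pos f l) (g' * pos f l') =
        Cr x.1 x.2 (g * pos e k') (g' * pos f l') - Cr x.1 x.2 (g * pos e k) (g' * pos f l) := by
        linarith
      rw [h3] at h2
      have h4 := abs_sub (Cr x.1 x.2 (g * pos e k') (g' * pos f l'))
        (Cr x.1 x.2 (g * pos e k) (g' * pos f l))
      linarith
  have hp' : ∀ x ∈ A ∪ B, p x.1 = true := by
    intro x hx
    rcases Finset.mem_union.1 hx with hx | hx
    · exact (hA' x hx).1
    · exact (hB' x hx).1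
  have h1 := sum_cr_le p (A ∪ B) hp' ((g * pos e k)⁻¹ * (g' * pos f l)).toWord (g * pos e k)
  have h2 := sum_cr_le p (A ∪ B) hp' ((g * pos e k')⁻¹ * (g' * pos f l')).toWord (g * pos e k')
  have h3 := Finset.sum_le_sum hone
  rw [Finset.sum_const, Finset.card_union_of_disjoint hdis, Finset.sum_add_distrib] at h3
  rw [← hA, ← hB]
  have h4 : ((A.card + B.card : ℕ) : ℤ) ≤ ∑ x ∈ A ∪ B, |Cr x.1 x.2 (g * pos e k) (g' * pos f l)| +
      ∑ x ∈ A ∪ B, |Cr x.1 x.2 (g * pos e k') (g' * pos f l')| := by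
    simpa using h3
  push_cast at h4
  exact h4.trans (add_le_add h1 h2)

theorem cls1 : Cls (fun i => decide (i ≠ 2)) sg1 where
  succ := by
    rintro ⟨i, u⟩ k
    rcases Int.emod_two_eq_zero_or_one k with hk | hk <;>
    rcases Int.units_eq_one_or u with rfl | rfl <;>
    fin_cases i <;> simp [lt, hdi, hk, sg1] <;> omega

theorem cls2 : Cls (fun i => decide (i = 2)) sg2 where
  succ := by
    rintro ⟨i, u⟩ k
    rcases Int.emod_two_eq_zero_or_one k with hk | hk <;>
    rcases Int.units_eq_one_or u with rfl | rfl <;>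
    fin_cases i <;> simp [lt, hdi, hk, sg2] <;> omega

theorem piece_of (n : F3 → ℕ) (hn : n = fun x => x.toWord.countP (fun y => p y.1))
    (hp : Cls p sg) (χ : Fin 3 → ℤ) (hχ : ∀ x, |agz χ x| ≤ n x)
    (hχ' : ∀ e k, agz χ (pos e k) = sg e k) (hsym : ∀ e k, sg (einv e) k = sg e k)
    (e f : Ed) (m : F3) (hnp : NonPinch e m f) (k k' l l' : ℤ) :
    |(e.2 : ℤ) * (sg e k - sg e k') - (f.2 : ℤ) * (sg f l - sg f l')| ≤
      n ((pos e k)⁻¹ * m * pos (einv f) l) + n ((pos e k')⁻¹ * m * pos (einv f) l') := by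
  by_cases hef : f.2 = e.2
  · have h1 := hχ ((pos e k)⁻¹ * m * pos (einv f) l)
    have h2 := hχ ((pos e k')⁻¹ * m * pos (einv f) l')
    rw [agz_mul, agz_mul, agz_inv, hχ', hχ', hsym] at h1 h2
    have h3 : |(e.2 : ℤ) * (sg e k - sg e k') - (f.2 : ℤ) * (sg f l - sg f l')| =
        |(-sg e k + agz χ m + sg f l) - (-sg e k' + agz χ m + sg f l')| := by
      rw [hef]
      rcases Int.units_eq_one_or e.2 with h | h <;> rw [h]
      · rw [← abs_neg]; congr 1; push_cast; ring
      · congr 1; push_cast; ring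
    rw [h3]
    have h4 := abs_sub (-sg e k + agz χ m + sg f l) (-sg e k' + agz χ m + sg f l')
    linarith
  · have hef' : f.2 = - e.2 := by
      rcases Int.units_eq_one_or e.2 with h | h <;> rcases Int.units_eq_one_or f.2 with h' | h' <;>
        rw [h, h'] at hef ⊢ <;> first | rfl | exact absurd rfl hef
    have h1 := turning hp (e := e) (f := einv f) (by
      change e.2 = - f.2
      rw [hef', neg_neg]) 1 m (by
      rintro ⟨h1, h2⟩
      apply hnp
      · rw [← h1, einv_einv]
      · simpa using h2) k k' l l'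
    have h2 : ∀ a b : ℤ, (((1 : F3) * pos e a)⁻¹ * (m * pos (einv f) b)).toWord.countP
        (fun y => p y.1) = n ((pos e a)⁻¹ * m * pos (einv f) b) := by
      intro a b
      rw [hn]
      simp only [one_mul, mul_assoc]
    rw [h2, h2, hsym, hsym] at h1
    refine le_trans ?_ h1
    rw [hef']
    have h3 : |(e.2 : ℤ) * (sg e k - sg e k') - ((-e.2 : ℤˣ) : ℤ) * (sg f l - sg f l')| =
        |(sg e k - sg e k') + (sg f l - sg f l')| := by
      rcases Int.units_eq_one_or e.2 with h | h <;> rw [h]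
      · congr 1; push_cast; ring
      · rw [← abs_neg]; congr 1; push_cast; ring
    rw [h3]
    exact abs_add_le _ _

/-- The piece inequality. -/
theorem statementPiece : StatementPiece := by
  intro e f m hnp k k' l l'
  exact ⟨piece_of nrm1 rfl cls1 χ1 agz1_le agz1_pos (fun _ _ => rfl) e f m hnp k k' l l',
    piece_of nrm2 rfl cls2 χ2 agz2_le agz2_pos (fun _ _ => rfl) e f m hnp k k' l l'⟩

end Run7.h347
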