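import Mathlib

set_option autoImplicit false

/-! Contiguous sublists of chains and reduced words. -/

namespace Run7.h347

theorem chainSub {α : Type*} {R : α → α → Prop} {l l' : List α} (h : List.IsChain R l)
    (hs : ∃ s t, s ++ l' ++ t = l) : List.IsChain R l' := by
  obtain ⟨s, t, rfl⟩ := hs
  exact (h.left_of_append).right_of_append

theorem redSub {α : Type*} {l l' : List (α × Bool)} (h : FreeGroup.IsReduced l)
    (hs : ∃ s t, s ++ l' ++ t = l) : FreeGroup.IsReduced l' :=
  chainSub h hs

end Run7.h347
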