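import Pool.Agent.Run7.h347.Defs

set_option autoImplicit false

/-! The action of the mapping class group on projective measured laminations. -/

open Topology

namespace Run7.h347

theorem inum_conj {g : ℕ} [NeZero g] {x y : SurfaceGroup g} (h : IsConj x y) :
    inum x = inum y := by
  unfold inum
  congr 1
  ext n
  constructor
  · rintro ⟨w, hw, hn⟩; exact ⟨w, hw.trans h, hn⟩
  · rintro ⟨w, hw, hn⟩; exact ⟨w, hw.trans h.symm, hn⟩

theorem translate_curveFun {g : ℕ} [NeZero g] (θ : AutPlus g) (y : SurfaceGroup g) :
    translate θ (curveFun y) = curveFun ((θ : MulAut (SurfaceGroup g)) y) := by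
  funext ψ
  simp only [translate, curveFun, Subgroup.coe_mul, InvMemClass.coe_inv, mul_inv_rev, inv_inv,
    MulAut.mul_apply]

theorem translate_smul {g : ℕ} (θ : AutPlus g) (t : ℝ) (μ : AutPlus g → ℝ) :
    translate θ (t • μ) = t • translate θ μ := rfl

theorem translate_mul {g : ℕ} (θ θ' : AutPlus g) (μ : AutPlus g → ℝ) :
    translate (θ * θ') μ = translate θ (translate θ' μ) := by
  funext ψ
  simp only [translate, mul_inv_rev, mul_assoc]

theorem translate_one {g : ℕ} (μ : AutPlus g → ℝ) : translate (1 : AutPlus g) μ = μ := by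
  funext ψ
  simp [translate]

theorem continuous_translate {g : ℕ} (θ : AutPlus g) : Continuous (translate θ) :=
  continuous_pi fun ψ => continuous_apply (θ⁻¹ * ψ)

theorem translate_mem {g : ℕ} [NeZero g] (θ : AutPlus g) {μ : AutPlus g → ℝ} (h : μ ∈ ML g) :
    translate θ μ ∈ ML g := by
  unfold ML at h ⊢
  refine map_mem_closure (continuous_translate θ) h ?_
  rintro ν ⟨t, χ, ht, rfl⟩
  refine ⟨t, θ * χ, ht, ?_⟩
  rw [translate_smul, translate_curveFun]
  rfl

theorem translate_ne {g : ℕ} (θ : AutPlus g) {μ : AutPlus g → ℝ} (h : μ ≠ 0) :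
    translate θ μ ≠ 0 := by
  intro h0
  apply h
  have : translate θ⁻¹ (translate θ μ) = μ := by
    rw [← translate_mul, inv_mul_cancel, translate_one]
  rw [← this, h0]
  rfl

theorem translate_inn {g : ℕ} [NeZero g] {θ : AutPlus g} (hθ : θ ∈ Inn g) {μ : AutPlus g → ℝ}
    (h : μ ∈ ML g) : translate θ μ = μ := by
  have hcl : IsClosed {μ : AutPlus g → ℝ | translate θ μ = μ} :=
    isClosed_eq (continuous_translate θ) continuous_id
  have hsub : ML g ⊆ {μ : AutPlus g → ℝ | translate θ μ = μ} := by
    apply closure_minimal _ hcl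
    rintro ν ⟨t, χ, ht, rfl⟩
    show translate θ _ = _
    rw [translate_smul, translate_curveFun]
    congr 1
    funext ψ
    unfold curveFun
    congr 1
    obtain ⟨x, hx⟩ := hθ
    have hx' : (θ : MulAut (SurfaceGroup g)) = MulAut.conj x := hx.symm
    rw [hx']
    apply inum_conj
    refine IsConj.symm ?_
    rw [isConj_iff]
    refine ⟨(ψ⁻¹ : MulAut (SurfaceGroup g)) x, ?_⟩
    simp only [MulAut.conj_apply, map_mul, map_inv]
  exact hsub h

/-- The action on nonzero measured laminations. -/
def actMLz {g : ℕ} [NeZero g] (θ : AutPlus g) (μ : MLz g) : MLz g :=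
  ⟨translate θ μ.1, translate_mem θ μ.2.1, translate_ne θ μ.2.2⟩

instance {g : ℕ} [NeZero g] : MulAction (AutPlus g) (PML g) where
  smul θ := Quotient.map (actMLz θ) (by
    rintro μ ν ⟨c, hc, h⟩
    exact ⟨c, hc, by simp only [actMLz]; rw [h, translate_smul]⟩)
  one_smul p := by
    induction p using Quotient.inductionOn with
    | _ μ =>
      apply Quotient.sound
      exact ⟨1, one_pos, by simp only [actMLz, translate_one, one_smul]⟩
  mul_smul θ θ' p := by
    induction p using Quotient.inductionOn with
    | _ μ =>
      apply Quotient.sound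
      exact ⟨1, one_pos, by simp only [actMLz, translate_mul, one_smul]⟩

/-- The action of the mapping class group on projective measured laminations, as a
homomorphism to permutations. -/
def permHom (g : ℕ) [NeZero g] : MCG g →* Equiv.Perm (PML g) :=
  QuotientGroup.lift (Inn g) (MulAction.toPermHom (AutPlus g) (PML g)) (by
    intro θ hθ
    apply Equiv.ext
    intro p
    induction p using Quotient.inductionOn with
    | _ μ =>
      apply Quotient.sound
      refine ⟨1, one_pos, ?_⟩
      simp only [actMLz, one_smul]
      exact (translate_inn hθ μ.2.1).symm)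

instance {g : ℕ} [NeZero g] : MulAction (MCG g) (PML g) := MulAction.compHom (PML g) (permHom g)

end Run7.h347
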