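import Pool.Agent.Run7.h347.Act

set_option autoImplicit false

/-! The double pentagon, its Veech group, and the admissible subgroups. -/

open Topology MatrixGroups

namespace Run7.h347

/-- The five edges of the double regular pentagon (all vertices are one point of the surface), as
loops: `pent 0 * pent 1 * pent 2 * pent 3 * pent 4 = 1` and
`pent 4 * pent 3 * pent 2 * pent 1 * pent 0 = 1`. -/
def pent : Fin 5 → SurfaceGroup 2 :=
  ![ga 1 * (gb 1)⁻¹ * (ga 1)⁻¹ * gb 0, (ga 1)⁻¹, ga 1 * gb 1, (gb 1)⁻¹ * ga 0 * (gb 0)⁻¹,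
    (ga 0)⁻¹ * gb 1]

/-- The rotation of the double pentagon. -/
def IsRotation (θ : AutPlus 2) : Prop :=
  ∀ i : Fin 5, (θ : MulAut (SurfaceGroup 2)) (pent i) = pent (i + 1)

/-- The affine multitwist along the two cylinders in the direction of the edge `pent 4`. -/
def IsTwist (θ : AutPlus 2) : Prop :=
  (θ : MulAut (SurfaceGroup 2)) (pent 4) = pent 4 ∧
  (θ : MulAut (SurfaceGroup 2)) (pent 0) = pent 0 * (pent 1 * pent 2) * (pent 4)⁻¹ ∧
  (θ : MulAut (SurfaceGroup 2)) (pent 1) = pent 1 * pent 2 * pent 1 ∧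
  (θ : MulAut (SurfaceGroup 2)) (pent 2) = pent 2 * (pent 1 * pent 2)⁻¹ ∧
  (θ : MulAut (SurfaceGroup 2)) (pent 3) = pent 3 * pent 4 * (pent 2 * pent 1)⁻¹

/-- The half turn of the double pentagon (the hyperelliptic involution). -/
def IsHyp (θ : AutPlus 2) : Prop :=
  ∀ i : Fin 5, (θ : MulAut (SurfaceGroup 2)) (pent i) = (pent i)⁻¹

/-- The mapping classes represented by automorphisms with a given property. -/
def classes (P : AutPlus 2 → Prop) : Set (MCG 2) := {m | ∃ θ : AutPlus 2, P θ ∧ (θ : MCG 2) = m}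

/-- The Veech group of the double pentagon: generated by the rotation and the multitwist. -/
def Veech : Subgroup (MCG 2) := Subgroup.closure (classes IsRotation ∪ classes IsTwist)

/-- The group generated by the hyperelliptic involution. -/
def Hyp : Subgroup (MCG 2) := Subgroup.closure (classes IsHyp)

/-- The stabiliser of the cusp of the multitwist. -/
def Cusp : Subgroup (MCG 2) := Subgroup.closure (classes IsTwist ∪ classes IsHyp)

/-- The conjugate `φ A φ⁻¹`. -/
def conjBy (φ : MCG 2) (A : Subgroup (MCG 2)) : Subgroup (MCG 2) :=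
  A.map (MulAut.conj φ).toMonoidHom

/-- The group generated by `A` and `φ A φ⁻¹`. -/
def Grp (A : Subgroup (MCG 2)) (φ : MCG 2) : Subgroup (MCG 2) := A ⊔ conjBy φ A

/-- The two factors. -/
def Fam (A : Subgroup (MCG 2)) (φ : MCG 2) : Fin 2 → Subgroup (MCG 2) := ![A, conjBy φ A]

/-- The natural homomorphism from the amalgamated product of the two factors over `⟨d⟩`. -/
noncomputable def natHom (A : Subgroup (MCG 2)) (d φ : MCG 2)
    (h : ∀ i, Subgroup.zpowers d ≤ Fam A φ i) :
    Monoid.PushoutI (fun i => Subgroup.inclusion (h i)) →* MCG 2 :=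
  Monoid.PushoutI.lift (fun i => (Fam A φ i).subtype) (Subgroup.zpowers d).subtype
    (fun _ => rfl)

/-- `A` is a subgroup of the Veech group which maps isomorphically onto a subgroup of index
`2 (2g+1) = 10` of its quotient by the hyperelliptic involution, isomorphic to the fundamental
group of the once-punctured surface of genus `2`, and `d` generates its cusp subgroup. -/
structure IsVeechSurfaceGroup (A : Subgroup (MCG 2)) (d : MCG 2) : Prop where
  le : A ≤ Veech
  hyp : A ⊓ Hyp = ⊥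
  index : (A ⊔ Hyp).relIndex Veech = 10
  cusp : A ⊓ Cusp = Subgroup.zpowers d
  punctured : ∃ f : FreeGroup (Gen 2) ≃* A, ((f (relator 2) : A) : MCG 2) = d

/-- `A`, `d`, `φ` define the admissible subgroup `Grp A φ`. -/
structure Admissible (A : Subgroup (MCG 2)) (d φ : MCG 2) : Prop where
  veech : IsVeechSurfaceGroup A d
  comm : φ * d * φ⁻¹ = d
  inter : A ⊓ conjBy φ A = Subgroup.zpowers d
  inj : ∃ h : ∀ i, Subgroup.zpowers d ≤ Fam A φ i, Function.Injective (natHom A d φ h)
  surface : Nonempty (Grp A φ ≃* SurfaceGroup 4)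
  pA : ∀ m ∈ Grp A φ, m ≠ 1 →
    (¬ IsPA m ↔ ∃ h ∈ Grp A φ, ∃ k : ℤ, m = h * d ^ k * h⁻¹)

/-- `φ` fixes both core curves of the multitwist. -/
def FixesCores (φ : MCG 2) : Prop :=
  ∀ θ : AutPlus 2, (θ : MCG 2) = φ →
    IsConj ((θ : MulAut (SurfaceGroup 2)) (pent 1 * pent 2)) (pent 1 * pent 2) ∧
    IsConj ((θ : MulAut (SurfaceGroup 2)) (pent 1 * pent 2 * (pent 4)⁻¹))
      (pent 1 * pent 2 * (pent 4)⁻¹)

/-- `ρ` makes `G` act properly discontinuously and cocompactly on the hyperbolic plane. -/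
structure IsUniformLattice {G : Type} [Group G] (ρ : G →* SL(2, ℝ)) : Prop where
  proper : ∀ K : Set UpperHalfPlane, IsCompact K →
    {g : G | (((fun z : UpperHalfPlane => ρ g • z) '' K) ∩ K).Nonempty}.Finite
  cocompact : ∃ K : Set UpperHalfPlane, IsCompact K ∧ ∀ z : UpperHalfPlane, ∃ g : G, ρ g • z ∈ K

/-- The action of `G` on the circle at infinity `ℝ ∪ {∞}` of the hyperbolic plane. -/
noncomputable def bdry {G : Type} [Group G] (ρ : G →* SL(2, ℝ)) (g : G) (ξ : OnePoint ℝ) :
    OnePoint ℝ :=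
  (Matrix.SpecialLinearGroup.toGL (ρ g)) • ξ

/-- The main statement. -/
def Statement : Prop :=
  ∃ (A : Subgroup (MCG 2)) (d φ : MCG 2), Admissible A d φ ∧ FixesCores φ ∧
    ∀ ρ : Grp A φ →* SL(2, ℝ), IsUniformLattice ρ →
      ¬ ∃ f : OnePoint ℝ → PML 2, Continuous f ∧
        ∀ (m : Grp A φ) (ξ : OnePoint ℝ), f (bdry ρ m ξ) = (m : MCG 2) • f ξ

end Run7.h347
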