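import Pool.Agent.Run7.h347.Stmt
import Pool.Agent.Run7.h347.Veech

set_option autoImplicit false

/-! The short form of the statement follows from the first form. -/

open MatrixGroups

namespace Run7.h347.St

theorem relator_eq (g : ℕ) : relator g = Run7.h347.relator g := rfl

theorem SG_eq (g : ℕ) : SG g = SurfaceGroup g := rfl

theorem homology_eq (x : P) : homology x = Multiplicative.toAdd (Run7.h347.homology 2 x) := rfl

theorem form_eq (u v : Multiplicative (Gen 2 → ℤ)) :
    form (Multiplicative.toAdd u) (Multiplicative.toAdd v) = Run7.h347.form u v := rfl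

theorem AutPlus_eq : AutPlus = Run7.h347.AutPlus 2 := rfl

theorem Inn_eq : Inn = Run7.h347.Inn 2 := rfl

theorem M_eq : M = MCG 2 := rfl

theorem gM_eq : gM = (inferInstance : Group (MCG 2)) := rfl

theorem inum_eq (y : P) : inum y = Run7.h347.inum (g := 2) y := rfl

theorem ML_eq : ML = Run7.h347.ML 2 := rfl

theorem PML_eq : PML = Run7.h347.PML 2 := rfl

theorem topPML_eq : topPML = (inferInstance : TopologicalSpace (Run7.h347.PML 2)) := rfl

theorem pent_eq : pent = Run7.h347.pent := rfl

theorem Veech_eq : Veech = Run7.h347.Veech := rfl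

theorem Hyp_eq : Hyp = Run7.h347.Hyp := rfl

theorem Cusp_eq : Cusp = Run7.h347.Cusp := rfl

theorem veech_of (A : Subgroup (MCG 2)) (d : MCG 2)
    (h : Run7.h347.IsVeechSurfaceGroup A d) : IsVeechSurfaceGroup A d where
  le := h.le
  hyp := h.hyp
  index := h.index
  cusp := h.cusp
  punctured := h.punctured

theorem isPA_iff (m : MCG 2) : IsPA m ↔ Run7.h347.IsPA m := Iff.rfl

theorem admissible_of (A : Subgroup (MCG 2)) (d φ : MCG 2)
    (h : Run7.h347.Admissible A d φ) : Admissible A d φ where
  veech := veech_of A d h.veech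
  comm := h.comm
  inter := h.inter
  inj := h.inj
  surface := h.surface
  pA := h.pA

theorem lattice_of {G : Type} [Group G] (ρ : G →* SL(2, ℝ)) (h : IsUniformLattice ρ) :
    Run7.h347.IsUniformLattice ρ := ⟨h.proper, h.cocompact⟩

theorem act_eq (m : MCG 2) (p : Run7.h347.PML 2) : act m p = m • p := by
  induction m using QuotientGroup.induction_on with
  | H θ => rfl

theorem statement_of_old (h : Run7.h347.Statement) : Statement := by
  obtain ⟨A, d, φ, h1, h2, h3⟩ := h
  refine ⟨A, d, φ, admissible_of A d φ h1, h2, ?_⟩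
  intro ρ hρ
  rintro ⟨f, hf, hm⟩
  refine h3 ρ (lattice_of ρ hρ) ⟨f, hf, ?_⟩
  intro m ξ
  exact (hm m ξ).trans (act_eq _ _)

end Run7.h347.St
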