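import Pool.Agent.Run7.h347.Iface
import Pool.Agent.R708.BrittonInst

set_option autoImplicit false

/-! The genus two surface group as a multi-letter HNN extension of `F3`. -/

open Pool.Agent.R708

namespace Run7.h347

theorem exists_mhnn' {ι L : Type} [Group L] (w w' : ι → L)
    (hw : ∀ i, Function.Injective (zpowersHom L (w i)))
    (hw' : ∀ i, Function.Injective (zpowersHom L (w' i))) :
    ∃ (H : Type) (_ : Group H) (B₂ : Brit L H (ι × ℤˣ)),
      (∀ e, B₂.inv e = (e.1, -e.2)) ∧
      (∀ i, B₂.A (i, 1) = Subgroup.zpowers (w i)) ∧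
      (∀ i, B₂.A (i, -1) = Subgroup.zpowers (w' i)) ∧
      ∀ i, B₂.t (i, 1) * B₂.inc (w i) * (B₂.t (i, 1))⁻¹ = B₂.inc (w' i) := by
  choose φ hφ using fun i => exists_equiv (w i) (w' i) (hw i) (hw' i)
  refine ⟨MHNN _ _ φ, inferInstance, mhnnBrit _ _ φ, fun e => rfl, ?_, ?_, ?_⟩
  · intro i
    change (zpowersHom L (w i)).range = _
    rfl
  · intro i
    change (zpowersHom L (w' i)).range = _
    rfl
  · intro i
    have h : w i ∈ (zpowersHom L (w i)).range :=
      ⟨Multiplicative.ofAdd 1, by rw [zpowersHom_apply, toAdd_ofAdd, zpow_one]⟩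
    have := mhnn_rel _ _ φ i ⟨w i, h⟩
    rw [hφ i h] at this
    exact this

theorem rel1 : st1 * sF * st1⁻¹ = sE := by
  simp only [st1, sF, sE]; group

theorem rel2 : st2 * (sE * sD) * st2⁻¹ = sF * sD := by
  have h : toSurf 2 (relator 2) = 1 := by
    rw [toSurf]
    exact (QuotientGroup.eq_one_iff _).2 (Subgroup.subset_normalClosure rfl)
  have h2 : ga 0 * gb 0 * (ga 0)⁻¹ * (gb 0)⁻¹ * (ga 1 * gb 1 * (ga 1)⁻¹ * (gb 1)⁻¹) =
      (1 : SurfaceGroup 2) := by
    rw [← h]
    unfold relator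
    simp only [ga, gb, List.ofFn_succ, List.ofFn_zero, List.prod_cons, List.prod_nil, mul_one]
    rfl
  simp only [st2, sE, sD, sF]
  have h3 : ga 1 * gb 1 * (ga 1)⁻¹ * (gb 1)⁻¹ =
      (ga 0 * gb 0 * (ga 0)⁻¹ * (gb 0)⁻¹)⁻¹ := eq_inv_of_mul_eq_one_right h2
  calc gb 0 * (gb 1 * ((gb 1)⁻¹ * ga 0)) * (gb 0)⁻¹ = gb 0 * ga 0 * (gb 0)⁻¹ := by group
    _ = (ga 0 * gb 0 * (ga 0)⁻¹ * (gb 0)⁻¹)⁻¹ * ga 0 := by group
    _ = ga 1 * gb 1 * (ga 1)⁻¹ * ((gb 1)⁻¹ * ga 0) := by rw [← h3]; group

/-- Homomorphisms out of the surface group from the HNN presentation. -/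
theorem exists_hom {H : Type} [Group H] (E F D t1 t2 : H) (h1 : t1 * F * t1⁻¹ = E)
    (h2 : t2 * (E * D) * t2⁻¹ = F * D) :
    ∃ f : SurfaceGroup 2 →* H, f sE = E ∧ f sF = F ∧ f sD = D ∧ f st1 = t1 ∧ f st2 = t2 := by
  have key : ∀ r ∈ ({relator 2} : Set (FreeGroup (Gen 2))),
      FreeGroup.lift (Sum.elim ![E * D, t1⁻¹] ![t2, E]) r = 1 := by
    intro r hr
    rw [Set.mem_singleton_iff] at hr
    subst hr
    simp [relator, List.ofFn_succ]
    have h3 : F = t1⁻¹ * E * t1 := by rw [← h1]; group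
    rw [h3] at h2
    have h4 : t2 * (E * D) = t1⁻¹ * E * t1 * D * t2 := by
      rw [← h2]; group
    have h5 : t1⁻¹ * E * t1 = t2 * (E * D) * t2⁻¹ * D⁻¹ := by
      rw [h4]; group
    calc E * D * t2 * (D⁻¹ * E⁻¹) * t2⁻¹ * (t1⁻¹ * E * t1 * E⁻¹)
        = E * D * t2 * (D⁻¹ * E⁻¹) * t2⁻¹ * ((t2 * (E * D) * t2⁻¹ * D⁻¹) * E⁻¹) := by rw [h5]
      _ = 1 := by group
  have ha : ∀ i, PresentedGroup.toGroup key (ga i) = ![E * D, t1⁻¹] i := fun i =>
    PresentedGroup.toGroup.of key
  have hb : ∀ i, PresentedGroup.toGroup key (gb i) = ![t2, E] i := fun i =>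
    PresentedGroup.toGroup.of key
  refine ⟨PresentedGroup.toGroup key, ?_, ?_, ?_, ?_, ?_⟩
  · rw [sE, hb]; rfl
  · rw [sF, map_mul, map_mul, map_inv, hb, ha]
    change t1⁻¹ * E * (t1⁻¹)⁻¹ = F
    rw [← h1]; group
  · rw [sD, map_mul, map_inv, hb, ha]
    change E⁻¹ * (E * D) = D
    group
  · rw [st1, map_inv, ha]
    change (t1⁻¹)⁻¹ = t1
    group
  · rw [st2, hb]; rfl

/-- The base group of the HNN extension. -/
noncomputable def binc : F3 →* SurfaceGroup 2 := FreeGroup.lift ![sE, sF, sD]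

@[simp] theorem binc_E : binc xE = sE := by simp [binc, xE]
@[simp] theorem binc_F : binc xF = sF := by simp [binc, xF]
@[simp] theorem binc_D : binc xD = sD := by simp [binc, xD]

/-- The letters. -/
noncomputable def bt (e : Ed) : SurfaceGroup 2 := (if e.1 = 0 then st1 else st2) ^ (e.2 : ℤ)

theorem bt_inv (e : Ed) : bt (einv e) = (bt e)⁻¹ := by
  simp only [bt, einv, Units.val_neg, zpow_neg]
  rfl

theorem ge_rel (e : Ed) : bt e * binc (ge e) = binc (ge (einv e)) * bt e := by
  obtain ⟨i, u⟩ := e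
  have r1 := rel1
  have r2 := rel2
  rcases Int.units_eq_one_or u with rfl | rfl
  · fin_cases i
    · simp [bt, ge, hd, einv]
      rw [← r1]; group
    · simp [bt, ge, hd, einv]
      rw [← r2]; group
  · fin_cases i
    · simp [bt, ge, hd, einv]
      rw [← r1]; group
    · simp [bt, ge, hd, einv]
      rw [← r2]; group

theorem ge_rel_zpow (e : Ed) (j : ℤ) :
    bt e * binc (ge e ^ j) = binc (ge (einv e) ^ j) * bt e := by
  have h : SemiconjBy (bt e) (binc (ge e)) (binc (ge (einv e))) := ge_rel e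
  rw [map_zpow, map_zpow]
  exact h.zpow_right j

theorem bgen (P : Subgroup (SurfaceGroup 2)) (h1 : ∀ m, binc m ∈ P) (h2 : ∀ e, bt e ∈ P) :
    P = ⊤ := by
  have hE : sE ∈ P := by simpa using h1 xE
  have hD : sD ∈ P := by simpa using h1 xD
  have ht1 : st1 ∈ P := by simpa [bt] using h2 (0, 1)
  have ht2 : st2 ∈ P := by simpa [bt] using h2 (1, 1)
  rw [eq_top_iff]
  intro x _
  obtain ⟨w, rfl⟩ := QuotientGroup.mk_surjective x
  change toSurf 2 w ∈ P
  clear * - hE hD ht1 ht2
  induction w using FreeGroup.induction_on with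
  | C1 => rw [map_one]; exact one_mem _
  | of i =>
    rcases i with i | i <;> fin_cases i
    · have : toSurf 2 (FreeGroup.of (Sum.inl 0)) = sE * sD := by
        rw [sE, sD]; change ga 0 = _; group
      change toSurf 2 (FreeGroup.of (Sum.inl 0)) ∈ P
      rw [this]; exact mul_mem hE hD
    · have : toSurf 2 (FreeGroup.of (Sum.inl 1)) = st1⁻¹ := by
        rw [st1]; change ga 1 = _; group
      change toSurf 2 (FreeGroup.of (Sum.inl 1)) ∈ P
      rw [this]; exact inv_mem ht1
    · exact ht2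
    · exact hE
  | inv_of i h => rw [map_inv]; exact inv_mem h
  | mul x y hx hy => rw [map_mul]; exact mul_mem hx hy

theorem zpowers_inj {L : Type} [Group L] (f : L →* Multiplicative ℤ) (w : L)
    (h : f w = Multiplicative.ofAdd 1) : Function.Injective (zpowersHom L w) := by
  intro a b hab
  have := congrArg f hab
  rw [zpowersHom_apply, zpowersHom_apply, map_zpow, map_zpow, h] at this
  have h2 := congrArg Multiplicative.toAdd this
  simpa using h2

theorem units_neg_ne (u : ℤˣ) : -u ≠ u := by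
  rcases Int.units_eq_one_or u with rfl | rfl <;> decide

/-- The genus two surface group as a multi-letter HNN extension. -/
theorem exists_brit : ∃ B : Brit F3 (SurfaceGroup 2) Ed, B.inc = binc ∧ B.inv = einv ∧ B.t = bt ∧
    B.A = fun e => Subgroup.zpowers (ge e) := by
  obtain ⟨H, _, B₂, hinv, hA1, hA2, hrel⟩ := exists_mhnn' (L := F3) (fun i : Fin 2 => ge (i, 1))
    (fun i : Fin 2 => ge (i, -1)) (by
      intro i
      fin_cases i
      · exact zpowers_inj (FreeGroup.lift ![1, Multiplicative.ofAdd 1, 1]) _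
          (by simp [ge, hd, xF])
      · exact zpowers_inj (FreeGroup.lift ![Multiplicative.ofAdd 1, 1, 1]) _
          (by simp [ge, hd, xE, xD])) (by
      intro i
      fin_cases i
      · exact zpowers_inj (FreeGroup.lift ![Multiplicative.ofAdd 1, 1, 1]) _
          (by simp [ge, hd, xE])
      · exact zpowers_inj (FreeGroup.lift ![1, Multiplicative.ofAdd 1, 1]) _
          (by simp [ge, hd, xF, xD]))
  have hA : ∀ e : Ed, B₂.A e = Subgroup.zpowers (ge e) := by
    rintro ⟨i, u⟩
    rcases Int.units_eq_one_or u with rfl | rfl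
    · exact hA1 i
    · exact hA2 i
  obtain ⟨Ψ, hE, hF, hD, h1, h2⟩ := exists_hom (B₂.inc xE) (B₂.inc xF) (B₂.inc xD)
    (B₂.t (0, 1)) (B₂.t (1, 1)) (by simpa [ge, hd] using hrel 0)
    (by simpa [ge, hd] using hrel 1)
  have hΨ : ∀ m, Ψ (binc m) = B₂.inc m := by
    intro m
    have : Ψ.comp binc = B₂.inc := by
      apply FreeGroup.ext_hom
      intro i
      fin_cases i
      · change Ψ (binc xE) = B₂.inc xE
        rw [binc_E, hE]
      · change Ψ (binc xF) = B₂.inc xF
        rw [binc_F, hF]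
      · change Ψ (binc xD) = B₂.inc xD
        rw [binc_D, hD]
    exact DFunLike.congr_fun this m
  have hΨt : ∀ e, Ψ (bt e) = B₂.t e := by
    rintro ⟨i, u⟩
    rcases Int.units_eq_one_or u with rfl | rfl
    · fin_cases i
      · simpa [bt] using h1
      · simpa [bt] using h2
    · have h3 := B₂.t_inv (0, 1)
      have h4 := B₂.t_inv (1, 1)
      rw [hinv] at h3 h4
      fin_cases i
      · simp only [bt, Fin.zero_eta, Fin.isValue, ↓reduceIte, Units.val_neg, Units.val_one,
          Int.reduceNeg, zpow_neg, zpow_one, map_inv]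
        rw [h1]; exact h3.symm
      · simp only [bt, Fin.mk_one, Fin.isValue, one_ne_zero, ↓reduceIte, Units.val_neg,
          Units.val_one, Int.reduceNeg, zpow_neg, zpow_one, map_inv]
        rw [h2]; exact h4.symm
  refine ⟨{ inc := binc
            inj := ?_
            inv := einv
            inv_inv := fun e => by simp [einv]
            inv_ne := fun e h => units_neg_ne e.2 (congrArg Prod.snd h)
            t := bt
            t_inv := bt_inv
            A := fun e => Subgroup.zpowers (ge e)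
            pinch := ?_
            gen := bgen
            britton := ?_ }, rfl, rfl, rfl, rfl⟩
  · intro a b h
    apply B₂.inj
    rw [← hΨ, ← hΨ, h]
  · rintro e a ⟨j, rfl⟩
    refine ⟨ge (einv e) ^ j, ⟨j, rfl⟩, ?_⟩
    change bt e * binc (ge e ^ j) * _ = _
    rw [ge_rel_zpow]
    group
  · intro l hl hr m h
    refine B₂.britton l hl ?_ m ?_
    · refine hr.imp ?_
      intro a b hab ha
      rw [hA] at ha
      rw [hinv]
      exact hab ha
    · rw [← hΨ, ← h, prodl, prodl, map_list_prod, List.map_map]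
      congr 1
      apply List.map_congr_left
      intro x _
      simp [hΨt, hΨ]

/-- The Britton structure. -/
noncomputable def BB : Brit F3 (SurfaceGroup 2) Ed := exists_brit.choose

@[simp] theorem BB_inc : BB.inc = binc := exists_brit.choose_spec.1
@[simp] theorem BB_inv : BB.inv = einv := exists_brit.choose_spec.2.1
@[simp] theorem BB_t : BB.t = bt := exists_brit.choose_spec.2.2.1
@[simp] theorem BB_A : BB.A = fun e => Subgroup.zpowers (ge e) := exists_brit.choose_spec.2.2.2

end Run7.h347
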