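import Pool.Agent.Run7.h347.Core9

set_option autoImplicit false

/-! The geometric intersection number is the stable count. -/

open Pool.Agent.R708 Filter Topology

namespace Run7.h347

theorem crossings_cons (x : Gen 2 × Bool) (w : List (Gen 2 × Bool)) :
    crossings (x :: w) = crossings w + if x.1 = Sum.inr 0 then 1 else 0 := by
  simp [crossings, List.countP_cons]

theorem crossings_append (w w' : List (Gen 2 × Bool)) :
    crossings (w ++ w') = crossings w + crossings w' := by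
  simp [crossings, List.countP_append]

theorem c_gen (x : Gen 2 × Bool) :
    c 1 (toSurf 2 (FreeGroup.mk [x])) = if x.1 = Sum.inr 0 then 1 else 0 := by
  obtain ⟨i, b⟩ := x
  have h1 : c 1 (toSurf 2 (FreeGroup.mk [(i, b)])) = c 1 (toSurf 2 (FreeGroup.of i)) := by
    cases b
    · have : (FreeGroup.mk [(i, false)] : FreeGroup (Gen 2)) = (FreeGroup.of i)⁻¹ := rfl
      rw [this, map_inv, c_inv]
    · rfl
  rw [h1]
  rcases i with i | i <;> fin_cases i
  · change c 1 (ga 0) = _
    rw [ga0_eq, c_binc]; rfl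
  · change c 1 (ga 1) = _
    rw [ga1_eq, c_inv, c_st1]; rfl
  · change c 1 (gb 0) = _
    rw [gb0_eq, c_st2]; rfl
  · change c 1 (gb 1) = _
    rw [gb1_eq, c_binc]; rfl

theorem c_le_crossings (w : List (Gen 2 × Bool)) :
    c 1 (toSurf 2 (FreeGroup.mk w)) ≤ crossings w := by
  induction w with
  | nil =>
    have : (FreeGroup.mk [] : FreeGroup (Gen 2)) = 1 := rfl
    rw [this, map_one, c_one]; exact Nat.zero_le _
  | cons x w ih =>
    have : (FreeGroup.mk (x :: w) : FreeGroup (Gen 2)) = FreeGroup.mk [x] * FreeGroup.mk w := rfl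
    rw [this, map_mul, crossings_cons]
    refine (c_mul 1 _ _).trans ?_
    rw [c_gen]
    omega

/-- Represented by a word with few crossings. -/
def Rep (g : SurfaceGroup 2) (n : ℕ) : Prop :=
  ∃ w : List (Gen 2 × Bool), toSurf 2 (FreeGroup.mk w) = g ∧ crossings w ≤ n

theorem Rep.mul {g g' : SurfaceGroup 2} {n n' : ℕ} (h : Rep g n) (h' : Rep g' n') :
    Rep (g * g') (n + n') := by
  obtain ⟨w, rfl, hw⟩ := h
  obtain ⟨w', rfl, hw'⟩ := h'
  refine ⟨w ++ w', ?_, ?_⟩
  · rw [← FreeGroup.mul_mk, map_mul]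
  · rw [crossings_append]; omega

theorem Rep.inv {g : SurfaceGroup 2} {n : ℕ} (h : Rep g n) : Rep g⁻¹ n := by
  obtain ⟨w, rfl, hw⟩ := h
  refine ⟨FreeGroup.invRev w, ?_, ?_⟩
  · rw [← FreeGroup.inv_mk, map_inv]
  · refine le_trans (le_of_eq ?_) hw
    rw [crossings, FreeGroup.invRev, List.countP_reverse, List.countP_map]
    rfl

theorem Rep.one : Rep 1 0 := ⟨[], by
  have : (FreeGroup.mk [] : FreeGroup (Gen 2)) = 1 := rfl
  rw [this, map_one], le_rfl⟩

theorem Rep.gen (i : Gen 2) : Rep (toSurf 2 (FreeGroup.of i)) (if i = Sum.inr 0 then 1 else 0) :=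
  ⟨[(i, true)], rfl, by rw [crossings_cons]; simp [crossings]⟩

theorem rep_sE : Rep sE 0 := Rep.gen (Sum.inr 1)
theorem rep_a0 : Rep (ga 0 : SurfaceGroup 2) 0 := Rep.gen (Sum.inl 0)
theorem rep_a1 : Rep (ga 1 : SurfaceGroup 2) 0 := Rep.gen (Sum.inl 1)
theorem rep_st2 : Rep st2 1 := Rep.gen (Sum.inr 0)
theorem rep_sF : Rep sF 0 := (rep_a1.mul rep_sE).mul rep_a1.inv
theorem rep_sD : Rep sD 0 := rep_sE.inv.mul rep_a0
theorem rep_st1 : Rep st1 0 := rep_a1.inv

theorem rep_binc (x : F3) : Rep (binc x) 0 := by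
  have hgen : ∀ i, Rep (binc (FreeGroup.of i)) 0 := by
    intro i
    fin_cases i
    · change Rep (binc xE) 0
      rw [binc_E]; exact rep_sE
    · change Rep (binc xF) 0
      rw [binc_F]; exact rep_sF
    · change Rep (binc xD) 0
      rw [binc_D]; exact rep_sD
  induction x using FreeGroup.induction_on with
  | C1 => rw [map_one]; exact Rep.one
  | of i => exact hgen i
  | inv_of i _ => rw [map_inv]; exact (hgen i).inv
  | mul x y hx hy => rw [map_mul]; exact hx.mul hy

theorem rep_bt (e : Ed) : Rep (bt e) (if e.1 = 1 then 1 else 0) := by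
  obtain ⟨i, u⟩ := e
  rcases Int.units_eq_one_or u with rfl | rfl <;> fin_cases i
  · change Rep (bt (0, 1)) _
    rw [bt01]; exact rep_st1
  · change Rep (bt (1, 1)) _
    rw [bt11]; exact rep_st2
  · change Rep (bt (0, -1)) _
    rw [bt01']; exact rep_st1.inv
  · change Rep (bt (1, -1)) _
    rw [bt11']; exact rep_st2.inv

theorem rep_ev (l : List (Ed × F3)) : ∀ m : F3, Rep (ev m l) (cn 1 l) := by
  induction l with
  | nil => intro m; rw [ev_nil]; exact rep_binc m
  | cons x l ih =>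
    obtain ⟨e, a⟩ := x
    intro m
    rw [ev_cons, cn_cons]
    have := ((rep_binc m).mul (rep_bt e)).mul (ih a)
    rwa [zero_add, add_comm] at this

theorem inum_eq (y : SurfaceGroup 2) : (inum y : ℝ) = sc 1 y := by
  apply le_antisymm
  · have key : ∀ g n, Rep g n → IsConj y g → (inum y : ℝ) ≤ n := by
      rintro g n ⟨w, rfl, hw⟩ hc
      have h1 : inum y ≤ crossings w := Nat.sInf_le ⟨w, hc.symm, rfl⟩
      exact_mod_cast h1.trans hw
    rcases cyc_cases y with ⟨m, h⟩ | ⟨l, hl, h⟩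
    · rw [sc_isConj 1 h, sc_binc]
      have := key _ _ (rep_binc m) h
      simpa using this
    · rw [sc_isConj 1 h, sc_C 1 hl]
      have h1 : BB.P l = ev 1 l := by rw [ev, map_one, one_mul]
      rw [h1] at h
      exact key _ _ (rep_ev l 1) h
  · have hne : {n | ∃ w : List (Gen 2 × Bool), IsConj (toSurf 2 (FreeGroup.mk w)) y ∧
        crossings w = n}.Nonempty := by
      obtain ⟨w, hw⟩ := QuotientGroup.mk_surjective y
      refine ⟨_, w.toWord, ?_, rfl⟩
      rw [FreeGroup.mk_toWord]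
      have : toSurf 2 w = y := hw
      rw [this]
    obtain ⟨w, hw, hn⟩ := Nat.sInf_mem hne
    have h1 : (inum y : ℝ) = crossings w := by rw [hn]; rfl
    rw [h1, ← sc_isConj 1 hw]
    refine (st_le (sub_c' 1) _).trans ?_
    exact_mod_cast c_le_crossings w

theorem J_eq (y : SurfaceGroup 2) (ψ : AutPlus 2) : J y ψ = sc 1 (((ψ⁻¹ : AutPlus 2) : MulAut (SurfaceGroup 2)) y) := by
  rw [J, curveFun, inum_eq]; rfl

variable {S T κ : AutPlus 2}

theorem J_kappa (hκ : IsK κ) (hS : IsS S) (y : SurfaceGroup 2) (ψ : AutPlus 2) :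
    J y (ψ * κ) = sc 0 (((ψ⁻¹ : AutPlus 2) : MulAut (SurfaceGroup 2)) y) := by
  rw [J_eq, mul_inv_rev, app_mul, sc_kappa hκ hS]

end Run7.h347
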