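import Pool.Agent.Run7.h347.Core10

set_option autoImplicit false

/-! The hypotheses of the lamination statement. -/

open Pool.Agent.R708 Filter Topology MatrixGroups

namespace Run7.h347

/-- The working data. -/
structure Data (S T κ θ τ : AutPlus 2) (R k C K : ℕ) : Prop where
  hS : IsS S
  hS4 : S ^ 4 = 1
  hT : IsT T
  hκ : IsK κ
  hθ : IsTh K θ
  hτ : IsTg k τ
  hC : ∀ (e : Ed) (m : F3) (f : Ed), NonPinch e m f → Small R e m f →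
      ∀ a b : ℤ, (K : ℤ) - C ≤
        nrm2 ((pos e a)⁻¹ * thP K e (tgP k e m f) f * pos (einv f) b)
  hK : R + C < K

variable {S T κ θ τ : AutPlus 2} {R k C K : ℕ}

theorem Data.J1 (_ : Data S T κ θ τ R k C K) (y : SurfaceGroup 2) : J y 1 = sc 1 y := by
  rw [J_eq, inv_one]; rfl

theorem Data.Jκ (h : Data S T κ θ τ R k C K) (y : SurfaceGroup 2) : J y κ = sc 0 y := by
  have := J_kappa h.hκ h.hS y 1
  rw [one_mul, inv_one] at this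
  exact this

theorem Data.JS (_ : Data S T κ θ τ R k C K) (y : SurfaceGroup 2) : J y S = sX1 S y := by
  rw [J_eq]; rfl

theorem Data.JSκ (h : Data S T κ θ τ R k C K) (y : SurfaceGroup 2) :
    J y (S * κ) = sX2 S y := by
  rw [J_kappa h.hκ h.hS]; rfl

theorem sc_S (hS : IsS S) (hS4 : S ^ 4 = 1) (i : Fin 2) (y : SurfaceGroup 2) :
    sc i (((S : AutPlus 2) : MulAut (SurfaceGroup 2)) y) = sc i (((S⁻¹ : AutPlus 2) : MulAut (SurfaceGroup 2)) y) := by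
  have := sc_half hS hS4 i (((S⁻¹ : AutPlus 2) : MulAut (SurfaceGroup 2)) y)
  rw [pow_two, app_mul, app_self_inv] at this
  exact this

theorem sc_inv_half (hS : IsS S) (hS4 : S ^ 4 = 1) (i : Fin 2) (y : SurfaceGroup 2) :
    sc i (((S⁻¹ : AutPlus 2) : MulAut (SurfaceGroup 2)) (((S⁻¹ : AutPlus 2) : MulAut (SurfaceGroup 2)) y)) = sc i y := by
  rw [← sc_S hS hS4, app_self_inv]

theorem Data.lam1 (hP : StatementPiece) (h : Data S T κ θ τ R k C K) (y : SurfaceGroup 2)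
    (m : ℤ) : |J y (T ^ m * S) - |(m : ℝ)| * (J y κ + J y 1)| ≤ J y S ∧
      |J y (T ^ m * S * κ) - |(m : ℝ)| * J y 1| ≤ J y (S * κ) := by
  obtain ⟨l1, l2⟩ := s_lower hP h.hS h.hT (-m) y
  obtain ⟨u1, u2⟩ := s_upper h.hS h.hT (-m) y
  have hm : |((-m : ℤ) : ℝ)| = |(m : ℝ)| := by push_cast; rw [abs_neg]
  rw [hm] at l1 l2 u1 u2
  have e1 : J y (T ^ m * S) = sX1 S (((T ^ (-m) : AutPlus 2) : MulAut (SurfaceGroup 2)) y) := by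
    rw [J_eq, mul_inv_rev, ← zpow_neg]; rfl
  have e2 : J y (T ^ m * S * κ) = sX2 S (((T ^ (-m) : AutPlus 2) : MulAut (SurfaceGroup 2)) y) := by
    rw [J_kappa h.hκ h.hS, mul_inv_rev, ← zpow_neg]; rfl
  rw [e1, e2, h.J1, h.Jκ, h.JS, h.JSκ]
  constructor
  · rw [abs_le]; constructor <;> linarith
  · rw [abs_le]; constructor <;> linarith

theorem Data.lam2 (hP : StatementPiece) (h : Data S T κ θ τ R k C K) (y : SurfaceGroup 2)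
    (m : ℤ) : |J y ((S * T ^ m * S⁻¹) * κ) - |(m : ℝ)| * J y S| ≤ J y κ ∧
      |J y (S * T ^ m * S⁻¹) - |(m : ℝ)| * (J y S + J y (S * κ))| ≤ J y 1 := by
  obtain ⟨l1, l2⟩ := s_lower hP h.hS h.hT (-m) (((S⁻¹ : AutPlus 2) : MulAut (SurfaceGroup 2)) y)
  obtain ⟨u1, u2⟩ := s_upper h.hS h.hT (-m) (((S⁻¹ : AutPlus 2) : MulAut (SurfaceGroup 2)) y)
  have hm : |((-m : ℤ) : ℝ)| = |(m : ℝ)| := by push_cast; rw [abs_neg]
  rw [hm] at l1 l2 u1 u2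
  have hinv : (S * T ^ m * S⁻¹)⁻¹ = S * (T ^ (-m) * S⁻¹) := by
    rw [zpow_neg]; group
  have e1 : J y (S * T ^ m * S⁻¹ * κ) = sX2 S (((T ^ (-m) : AutPlus 2) : MulAut (SurfaceGroup 2)) (((S⁻¹ : AutPlus 2) : MulAut (SurfaceGroup 2)) y)) := by
    rw [J_kappa h.hκ h.hS, hinv, app_mul, sc_S h.hS h.hS4]; rfl
  have e2 : J y (S * T ^ m * S⁻¹) = sX1 S (((T ^ (-m) : AutPlus 2) : MulAut (SurfaceGroup 2)) (((S⁻¹ : AutPlus 2) : MulAut (SurfaceGroup 2)) y)) := by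
    rw [J_eq, hinv, app_mul, sc_S h.hS h.hS4]; rfl
  have e3 : sX1 S (((S⁻¹ : AutPlus 2) : MulAut (SurfaceGroup 2)) y) = sc 1 y := sc_inv_half h.hS h.hS4 1 y
  have e4 : sX2 S (((S⁻¹ : AutPlus 2) : MulAut (SurfaceGroup 2)) y) = sc 0 y := sc_inv_half h.hS h.hS4 0 y
  have e5 : sc 1 (((S⁻¹ : AutPlus 2) : MulAut (SurfaceGroup 2)) y) = sX1 S y := rfl
  have e6 : sc 0 (((S⁻¹ : AutPlus 2) : MulAut (SurfaceGroup 2)) y) = sX2 S y := rfl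
  rw [e5, e6, e3] at l1 u1
  rw [e5, e4] at l2 u2
  rw [e1, e2, h.J1, h.Jκ, h.JS, h.JSκ]
  constructor
  · rw [abs_le]; constructor <;> linarith
  · rw [abs_le]; constructor <;> linarith

theorem Data.lam3 (h : Data S T κ θ τ R k C K) (y : SurfaceGroup 2)
    (m : ℤ) : J y (T ^ m) = J y 1 ∧ J y (T ^ m * κ) = J y κ ∧
      J y (S * T ^ m * S⁻¹ * S) = J y S ∧ J y (S * T ^ m * S⁻¹ * (S * κ)) = J y (S * κ) := by
  have h1 : S * T ^ m * S⁻¹ * S = S * T ^ m := by group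
  have h2 : S * T ^ m * S⁻¹ * (S * κ) = S * T ^ m * κ := by group
  refine ⟨?_, ?_, ?_, ?_⟩
  · rw [J_eq, ← zpow_neg, sc_T h.hT, h.J1]
  · rw [J_kappa h.hκ h.hS, ← zpow_neg, sc_T h.hT, h.Jκ]
  · rw [h1, J_eq, mul_inv_rev, ← zpow_neg, app_mul, sc_T h.hT, h.JS]; rfl
  · rw [h2, J_kappa h.hκ h.hS, mul_inv_rev, ← zpow_neg, app_mul, sc_T h.hT, h.JSκ]; rfl

theorem Data.sc_φ (h : Data S T κ θ τ R k C K) (i : Fin 2) (y : SurfaceGroup 2) :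
    sc i (((θ * τ : AutPlus 2) : MulAut (SurfaceGroup 2)) y) = sc i y := by
  rw [app_mul, sc_pw h.hθ.pw, sc_pw h.hτ.pw]

theorem Data.lam4 (h : Data S T κ θ τ R k C K) (y : SurfaceGroup 2) :
    J y (θ * τ)⁻¹ = J y 1 ∧ J y ((θ * τ)⁻¹ * κ) = J y κ := by
  constructor
  · rw [J_eq, inv_inv, h.sc_φ, h.J1]
  · rw [J_kappa h.hκ h.hS, inv_inv, h.sc_φ, h.Jκ]

theorem Data.lam5 (h : Data S T κ θ τ R k C K) (ψ : AutPlus 2) :
    ∃ C : ℝ, ∀ y : SurfaceGroup 2, J y ψ ≤ C * (J y 1 + J y κ + J y S + J y (S * κ)) := by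
  obtain ⟨C, _, hC⟩ := s_bound h.hS 1 ψ⁻¹
  refine ⟨C, fun y => ?_⟩
  rw [J_eq, h.J1, h.Jκ, h.JS, h.JSκ]
  have := hC y
  linarith

theorem Data.lam6 (h : Data S T κ θ τ R k C K) {B : ℝ} (hB : 1 ≤ B)
    (hB' : ∀ (K : ℤ) (θ : AutPlus 2), IsTh K θ → ∀ g,
      sX1 S (((θ * τ : AutPlus 2) : MulAut (SurfaceGroup 2)) g) ≤ B * (sX1 S g + sX2 S g + sc 0 g + sc 1 g))
    (hK : 1000 * B ≤ (K : ℝ) - C) :
    ∃ C : ℝ, 1 ≤ C ∧ (∀ y : SurfaceGroup 2,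
        J y ((θ * τ)⁻¹ * S) ≤ C * (J y 1 + J y κ + J y S + J y (S * κ))) ∧
      ∀ y : SurfaceGroup 2,
        1000 * C * (J y 1 + J y κ - J y S - J y (S * κ)) ≤ J y ((θ * τ)⁻¹ * S * κ) := by
  refine ⟨B, hB, fun y => ?_, fun y => ?_⟩
  · have e1 : J y ((θ * τ)⁻¹ * S) = sX1 S (((θ * τ : AutPlus 2) : MulAut (SurfaceGroup 2)) y) := by
      rw [J_eq, mul_inv_rev, inv_inv]; rfl
    rw [e1, h.J1, h.Jκ, h.JS, h.JSκ]
    have := hB' K θ h.hθ y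
    linarith
  · have e1 : J y ((θ * τ)⁻¹ * S * κ) = sX2 S (((θ * τ : AutPlus 2) : MulAut (SurfaceGroup 2)) y) := by
      rw [J_kappa h.hκ h.hS, mul_inv_rev, inv_inv]; rfl
    rw [e1, h.J1, h.Jκ, h.JS, h.JSκ]
    have h1 := s_growth h.hC (by have := h.hK; omega) h.hS h.hT h.hθ h.hτ y
    have h2 : 0 ≤ sX2 S (((θ * τ : AutPlus 2) : MulAut (SurfaceGroup 2)) y) := sc_nonneg _ _
    by_cases hX : 0 ≤ sc 0 y + sc 1 y - sX1 S y - sX2 S y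
    · have h3 := mul_le_mul_of_nonneg_right hK hX
      linarith
    · push Not at hX
      have h3 : 1000 * B * (sc 1 y + sc 0 y - sX1 S y - sX2 S y) ≤ 0 := by
        apply mul_nonpos_of_nonneg_of_nonpos
        · linarith
        · linarith
      linarith

/-- No equivariant map. -/
theorem Data.noMap (hL : StatementLam) (hP : StatementPiece) (h : Data S T κ θ τ R k C K) {B : ℝ}
    (hB : 1 ≤ B)
    (hB' : ∀ (K : ℤ) (θ : AutPlus 2), IsTh K θ → ∀ g,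
      sX1 S (((θ * τ : AutPlus 2) : MulAut (SurfaceGroup 2)) g) ≤ B * (sX1 S g + sX2 S g + sc 0 g + sc 1 g))
    (hK : 1000 * B ≤ (K : ℝ) - C) (G : Subgroup (MCG 2)) (ρ : G →* SL(2, ℝ)) (dd : G)
    (h1 : (dd : MCG 2) = ((T ^ 20 : AutPlus 2) : MCG 2))
    (h2 : ((S * T ^ 20 * S⁻¹ : AutPlus 2) : MCG 2) ∈ G)
    (h3 : (((θ * τ)⁻¹ * (S * T ^ 20 * S⁻¹) * (θ * τ)⁻¹⁻¹ : AutPlus 2) : MCG 2) ∈ G)
    (h4 : ∃ ξ : OnePoint ℝ, bdry ρ dd ξ = ξ ∧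
        ∀ g : G, Tendsto (fun n : ℕ => bdry ρ (dd ^ n * g) ξ) atTop (𝓝 ξ)) :
    ¬ ∃ f : OnePoint ℝ → PML 2, Continuous f ∧
        ∀ (m : G) (ξ : OnePoint ℝ), f (bdry ρ m ξ) = (m : MCG 2) • f ξ :=
  hL S T κ (θ * τ)⁻¹ (fun y m => h.lam1 hP y m) (fun y m => h.lam2 hP y m)
    (fun y m => h.lam3 y m) (fun y => h.lam4 y) (fun ψ => h.lam5 ψ)
    (h.lam6 hB hB' hK) G ρ dd h1 h2 h3 h4

end Run7.h347
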