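import Pool.Agent.Run7.h347.Core11

set_option autoImplicit false

/-! The action on nontrivial free homotopy classes and the ping-pong function. -/

open Pool.Agent.R708 Filter Topology MatrixGroups

namespace Run7.h347

/-! ### The action on nontrivial conjugacy classes -/

/-- Nontrivial free homotopy classes. -/
abbrev Cl : Type := {x : ConjClasses (SurfaceGroup 2) // x ≠ ConjClasses.mk 1}

/-- The class of a nontrivial element. -/
def cl (y : SurfaceGroup 2) (hy : y ≠ 1) : Cl :=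
  ⟨ConjClasses.mk y, fun h => hy (isConj_one_right.1 (ConjClasses.mk_eq_mk_iff_isConj.1 h).symm)⟩

theorem cl_eq {y z : SurfaceGroup 2} (hy : y ≠ 1) (hz : z ≠ 1) :
    cl y hy = cl z hz ↔ IsConj y z := by
  unfold cl
  rw [Subtype.mk.injEq, ConjClasses.mk_eq_mk_iff_isConj]

theorem cl_surj (x : Cl) : ∃ y, ∃ hy : y ≠ 1, x = cl y hy := by
  obtain ⟨x, hx⟩ := x
  obtain ⟨y, rfl⟩ := ConjClasses.mk_surjective x
  exact ⟨y, fun h => hx (by rw [h]), rfl⟩

theorem app_ne_one (θ : AutPlus 2) {y : SurfaceGroup 2} (hy : y ≠ 1) : ((θ : AutPlus 2) : MulAut (SurfaceGroup 2)) y ≠ 1 := by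
  intro h
  apply hy
  exact ((θ : AutPlus 2) : MulAut (SurfaceGroup 2)).injective (by rw [h, map_one])

noncomputable instance : MulAction (AutPlus 2) Cl where
  smul θ x := ⟨ConjClasses.map ((θ : AutPlus 2) : MulAut (SurfaceGroup 2)).toMonoidHom x.1, by
    obtain ⟨y, hy, rfl⟩ := cl_surj x
    exact (cl (((θ : AutPlus 2) : MulAut (SurfaceGroup 2)) y) (app_ne_one θ hy)).2⟩
  one_smul x := by
    obtain ⟨y, hy, rfl⟩ := cl_surj x
    rfl
  mul_smul θ τ x := by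
    obtain ⟨y, hy, rfl⟩ := cl_surj x
    rfl

theorem smul_cl (θ : AutPlus 2) (y : SurfaceGroup 2) (hy : y ≠ 1) :
    θ • cl y hy = cl (((θ : AutPlus 2) : MulAut (SurfaceGroup 2)) y) (app_ne_one θ hy) := rfl

/-- The action of the mapping class group on the nontrivial classes. -/
noncomputable def permCl : MCG 2 →* Equiv.Perm Cl :=
  QuotientGroup.lift (Inn 2) (MulAction.toPermHom (AutPlus 2) Cl) (by
    intro θ hθ
    apply Equiv.ext
    intro x
    obtain ⟨y, hy, rfl⟩ := cl_surj x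
    change θ • cl y hy = cl y hy
    rw [smul_cl, cl_eq]
    obtain ⟨z, hz⟩ := hθ
    have hz' : ((θ : AutPlus 2) : MulAut (SurfaceGroup 2)) = MulAut.conj z := hz.symm
    rw [hz', MulAut.conj_apply]
    exact (isConj_iff.2 ⟨z, rfl⟩).symm)

noncomputable instance : MulAction (MCG 2) Cl := MulAction.compHom Cl permCl

theorem mk_smul_cl (θ : AutPlus 2) (y : SurfaceGroup 2) (hy : y ≠ 1) :
    (θ : MCG 2) • cl y hy = cl (((θ : AutPlus 2) : MulAut (SurfaceGroup 2)) y) (app_ne_one θ hy) := rfl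

/-- The height of an element. -/
noncomputable def Yg (y : SurfaceGroup 2) : ℝ := sc 0 y + Real.goldenRatio * sc 1 y

theorem Yg_nonneg (y : SurfaceGroup 2) : 0 ≤ Yg y :=
  add_nonneg (sc_nonneg _ _) (mul_nonneg Real.goldenRatio_pos.le (sc_nonneg _ _))

theorem Yg_isConj {y z : SurfaceGroup 2} (h : IsConj y z) : Yg y = Yg z := by
  rw [Yg, Yg, sc_isConj 0 h, sc_isConj 1 h]

/-- The height of a class. -/
noncomputable def YY (x : Cl) : ℝ :=
  Quotient.lift Yg (fun _ _ h => Yg_isConj h) x.1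

theorem YY_cl (y : SurfaceGroup 2) (hy : y ≠ 1) : YY (cl y hy) = Yg y := rfl

/-! ### The norm function -/

variable {S T κ θ τ : AutPlus 2} {R k C K : ℕ}

/-- The norm of the cusp `w ∞`. -/
noncomputable def Nf (y : SurfaceGroup 2) (w : Subgroup.closure {S, T}) : ℝ :=
  Yg ((((w : AutPlus 2)⁻¹ : AutPlus 2) : MulAut (SurfaceGroup 2)) y)

theorem Yg_S (y : SurfaceGroup 2) : Yg (((S⁻¹ : AutPlus 2) : MulAut (SurfaceGroup 2)) y) = sX2 S y + Real.goldenRatio * sX1 S y := rfl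

theorem Yg_T (hT : IsT T) (n : ℤ) (y : SurfaceGroup 2) : Yg (((T ^ n : AutPlus 2) : MulAut (SurfaceGroup 2)) y) = Yg y := by
  rw [Yg, Yg, sc_T hT, sc_T hT]

theorem Yg_inv_half (hS : IsS S) (hS4 : S ^ 4 = 1) (y : SurfaceGroup 2) :
    Yg ((((S ^ 2)⁻¹ : AutPlus 2) : MulAut (SurfaceGroup 2)) y) = Yg y := by
  rw [pow_two, mul_inv_rev, app_mul, Yg, Yg, sc_inv_half hS hS4, sc_inv_half hS hS4]

structure Hk (S T : AutPlus 2) (S' T' : Subgroup.closure {S, T})
    (D : Subgroup.closure {S, T} →* SL(2, ℝ)) : Prop where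
  hS' : (S' : AutPlus 2) = S
  hT' : (T' : AutPlus 2) = T
  hk : HeckeData (Subgroup.closure {S, T}) S' T' D

variable {S' T' : Subgroup.closure {S, T}} {D : Subgroup.closure {S, T} →* SL(2, ℝ)}

theorem Nf_nonneg (y : SurfaceGroup 2) (w : Subgroup.closure {S, T}) : 0 ≤ Nf y w := Yg_nonneg _

theorem Nf_T (hT : IsT T) (H : Hk S T S' T' D) (y : SurfaceGroup 2)
    (w : Subgroup.closure {S, T}) : Nf y (w * T') = Nf y w := by
  rw [Nf, Nf, Subgroup.coe_mul, H.hT', mul_inv_rev, app_mul]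
  have := Yg_T hT (-1) ((((w : AutPlus 2)⁻¹ : AutPlus 2) : MulAut (SurfaceGroup 2)) y)
  rwa [zpow_neg_one] at this

theorem Nf_S2 (hS : IsS S) (hS4 : S ^ 4 = 1) (H : Hk S T S' T' D) (y : SurfaceGroup 2)
    (w : Subgroup.closure {S, T}) : Nf y (w * S' ^ 2) = Nf y w := by
  rw [Nf, Nf, Subgroup.coe_mul, Subgroup.coe_pow, H.hS', mul_inv_rev, app_mul,
    Yg_inv_half hS hS4]

theorem Nf_S (H : Hk S T S' T' D) (y : SurfaceGroup 2) (w : Subgroup.closure {S, T}) :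
    Nf y (w * S') = sX2 S ((((w : AutPlus 2)⁻¹ : AutPlus 2) : MulAut (SurfaceGroup 2)) y) +
      Real.goldenRatio * sX1 S ((((w : AutPlus 2)⁻¹ : AutPlus 2) : MulAut (SurfaceGroup 2)) y) := by
  rw [Nf, Subgroup.coe_mul, H.hS', mul_inv_rev, app_mul, Yg_S]

theorem Nf_conv (hP : StatementPiece) (hS : IsS S) (hT : IsT T) (H : Hk S T S' T' D)
    (y : SurfaceGroup 2) (w : Subgroup.closure {S, T}) (m : ℤ) :
    |(m : ℝ)| * Real.goldenRatio * Nf y w ≤ Nf y (w * T' ^ m * S') + Nf y (w * S') := by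
  obtain ⟨h1, h2⟩ := s_lower hP hS hT (-m) ((((w : AutPlus 2)⁻¹ : AutPlus 2) : MulAut (SurfaceGroup 2)) y)
  have hm : |((-m : ℤ) : ℝ)| = |(m : ℝ)| := by push_cast; rw [abs_neg]
  rw [hm] at h1 h2
  have h3 : ((((w * T' ^ m : Subgroup.closure {S, T}) : AutPlus 2)⁻¹ : AutPlus 2) : MulAut (SurfaceGroup 2)) y =
      ((T ^ (-m) : AutPlus 2) : MulAut (SurfaceGroup 2)) ((((w : AutPlus 2)⁻¹ : AutPlus 2) : MulAut (SurfaceGroup 2)) y) := by
    rw [Subgroup.coe_mul, Subgroup.coe_zpow, H.hT', mul_inv_rev, app_mul, zpow_neg]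
  rw [Nf_S H, Nf_S H, h3, Nf, Yg]
  have hφ := Real.goldenRatio_sq
  have hφ0 := Real.goldenRatio_pos
  have h4 := mul_le_mul_of_nonneg_left h1 hφ0.le
  have h5 : |(m : ℝ)| * Real.goldenRatio * (sc 0 ((((w : AutPlus 2)⁻¹ : AutPlus 2) : MulAut (SurfaceGroup 2)) y) +
      Real.goldenRatio * sc 1 ((((w : AutPlus 2)⁻¹ : AutPlus 2) : MulAut (SurfaceGroup 2)) y)) =
      Real.goldenRatio * (|(m : ℝ)| * (sc 0 ((((w : AutPlus 2)⁻¹ : AutPlus 2) : MulAut (SurfaceGroup 2)) y) +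
        sc 1 ((((w : AutPlus 2)⁻¹ : AutPlus 2) : MulAut (SurfaceGroup 2)) y))) + |(m : ℝ)| * sc 1 ((((w : AutPlus 2)⁻¹ : AutPlus 2) : MulAut (SurfaceGroup 2)) y) := by
    linear_combination (|(m : ℝ)| * sc 1 ((((w : AutPlus 2)⁻¹ : AutPlus 2) : MulAut (SurfaceGroup 2)) y)) * hφ
  rw [h5]
  linarith

theorem Nf_nat (y : SurfaceGroup 2) (w : Subgroup.closure {S, T}) :
    ∃ i j : ℕ, Nf y w = i + Real.goldenRatio * j := by
  obtain ⟨i, hi⟩ := sc_nat 0 ((((w : AutPlus 2)⁻¹ : AutPlus 2) : MulAut (SurfaceGroup 2)) y)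
  obtain ⟨j, hj⟩ := sc_nat 1 ((((w : AutPlus 2)⁻¹ : AutPlus 2) : MulAut (SurfaceGroup 2)) y)
  exact ⟨i, j, by rw [Nf, Yg, hi, hj]⟩

theorem Yg_zero {y : SurfaceGroup 2} (h : Yg y = 0) : sc 0 y = 0 ∧ sc 1 y = 0 := by
  have h0 := sc_nonneg 0 y
  have h1 := sc_nonneg 1 y
  have h2 := Real.goldenRatio_pos
  rw [Yg] at h
  have h3 : 0 ≤ Real.goldenRatio * sc 1 y := mul_nonneg h2.le h1
  have h4 : Real.goldenRatio * sc 1 y = 0 := by linarith
  rcases mul_eq_zero.1 h4 with h5 | h5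
  · exact absurd h5 h2.ne'
  · exact ⟨by linarith, h5⟩

theorem Nf_fill (hS : IsS S) (H : Hk S T S' T' D) {y : SurfaceGroup 2} (hy : y ≠ 1)
    (w : Subgroup.closure {S, T}) : ¬ (Nf y w = 0 ∧ Nf y (w * S') = 0) := by
  rintro ⟨h1, h2⟩
  obtain ⟨h3, h4⟩ := Yg_zero h1
  have h5 : Yg (((S⁻¹ : AutPlus 2) : MulAut (SurfaceGroup 2)) ((((w : AutPlus 2)⁻¹ : AutPlus 2) : MulAut (SurfaceGroup 2)) y)) = 0 := by
    rw [Nf, Subgroup.coe_mul, H.hS', mul_inv_rev, app_mul] at h2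
    exact h2
  obtain ⟨h6, h7⟩ := Yg_zero h5
  exact app_ne_one _ hy (filling hS _ h3 h4 h7 h6)

/-- The norm lemma with the best translate. -/
theorem norm_k (hN : StatementNorm) {G : Type} [Group G] {S T : G} {D : G →* SL(2, ℝ)}
    (hk : HeckeData G S T D) (N : G → ℝ) (h0 : ∀ w, 0 ≤ N w) (hT : ∀ w, N (w * T) = N w)
    (hS2 : ∀ w, N (w * S ^ 2) = N w)
    (hc : ∀ (w : G) (m : ℤ), |(m : ℝ)| * Real.goldenRatio * N w ≤ N (w * T ^ m * S) + N (w * S))
    (w : G) (hw : (D w : Matrix (Fin 2) (Fin 2) ℝ) 1 0 ≠ 0) :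
    1 ≤ |(D w : Matrix (Fin 2) (Fin 2) ℝ) 1 0| ∧
      ∃ k : ℤ, |(D w : Matrix (Fin 2) (Fin 2) ℝ) 1 0| * N (T ^ k * S) ≤
        N w + Real.goldenRatio / 2 * |(D w : Matrix (Fin 2) (Fin 2) ℝ) 1 0| * N 1 := by
  have h1 := (hN G S T D hk N h0 hT hS2 hc w).1 hw
  refine ⟨h1, ?_⟩
  set a := (D w : Matrix (Fin 2) (Fin 2) ℝ) 0 0 with ha
  set s := (D w : Matrix (Fin 2) (Fin 2) ℝ) 1 0 with hs
  have hφ := Real.goldenRatio_pos
  let k : ℤ := round (a / (s * Real.goldenRatio))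
  refine ⟨k, ?_⟩
  have hTk : ∀ k : ℤ, (D (T ^ k) : Matrix (Fin 2) (Fin 2) ℝ) = !![1, k * Real.goldenRatio; 0, 1] := by
    have hnat : ∀ k : ℕ, (D (T ^ k) : Matrix (Fin 2) (Fin 2) ℝ) =
        !![1, k * Real.goldenRatio; 0, 1] := by
      intro k
      induction k with
      | zero => simp [Matrix.one_fin_two]
      | succ k ih =>
        rw [pow_succ, map_mul, Matrix.SpecialLinearGroup.coe_mul, ih, hk.DT,
          Matrix.mul_fin_two]
        congr 1
        push_cast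
        ext i j
        fin_cases i <;> fin_cases j <;> simp
        ring
    intro k
    obtain ⟨n, rfl | rfl⟩ := k.eq_nat_or_neg
    · rw [zpow_natCast, hnat]; push_cast; rfl
    · rw [zpow_neg, zpow_natCast, map_inv, Matrix.SpecialLinearGroup.coe_inv, hnat,
        Matrix.adjugate_fin_two]
      ext i j
      fin_cases i <;> fin_cases j <;> simp
  have hN' := hN G S T D hk (fun u => N (T ^ k * u)) (fun u => h0 _)
    (fun u => by rw [← mul_assoc, hT]) (fun u => by rw [← mul_assoc, hS2])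
    (fun u m => by
      have := hc (T ^ k * u) m
      simpa only [mul_assoc] using this) (T ^ (-k) * w)
  have e1 : (D (T ^ (-k) * w) : Matrix (Fin 2) (Fin 2) ℝ) 1 0 = s := by
    rw [map_mul, Matrix.SpecialLinearGroup.coe_mul, hTk, Matrix.mul_apply, Fin.sum_univ_two]
    simp [hs]
  have e0 : (D (T ^ (-k) * w) : Matrix (Fin 2) (Fin 2) ℝ) 0 0 = a - k * Real.goldenRatio * s := by
    rw [map_mul, Matrix.SpecialLinearGroup.coe_mul, hTk, Matrix.mul_apply, Fin.sum_univ_two]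
    simp [hs, ha]
    ring
  have h2 := hN'.2
  rw [e1, e0] at h2
  simp only [mul_one] at h2
  have e2 : T ^ k * (T ^ (-k) * w) = w := by
    rw [zpow_neg]; group
  have hTz : ∀ k : ℤ, N (T ^ k) = N 1 := by
    have hn : ∀ n : ℕ, ∀ u, N (u * T ^ n) = N u := by
      intro n
      induction n with
      | zero => intro u; simp
      | succ n ih => intro u; rw [pow_succ, ← mul_assoc, hT, ih]
    intro k
    obtain ⟨n, rfl | rfl⟩ := k.eq_nat_or_neg
    · have := hn n 1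
      rwa [one_mul, ← zpow_natCast] at this
    · have := hn n (T ^ (-(n : ℤ)))
      rw [zpow_neg, zpow_natCast, inv_mul_cancel] at this
      rw [zpow_neg, zpow_natCast, this]
  rw [e2, hTz] at h2
  refine h2.trans ?_
  have h3 : |a - k * Real.goldenRatio * s| ≤ Real.goldenRatio / 2 * |s| := by
    have h4 := abs_sub_round (a / (s * Real.goldenRatio))
    have h5 : a - k * Real.goldenRatio * s =
        (s * Real.goldenRatio) * (a / (s * Real.goldenRatio) - k) := by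
      have : s * Real.goldenRatio ≠ 0 := mul_ne_zero hw hφ.ne'
      field_simp
    rw [h5, abs_mul, abs_mul, abs_of_pos hφ]
    have h6 : 0 ≤ |s| * Real.goldenRatio := by positivity
    have h7 := mul_le_mul_of_nonneg_left h4 h6
    calc |s| * Real.goldenRatio * |a / (s * Real.goldenRatio) - k| ≤
        |s| * Real.goldenRatio * (1 / 2) := h7
      _ = _ := by ring
  have h8 := mul_le_mul_of_nonneg_right h3 (h0 1)
  linarith

end Run7.h347
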