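import Pool.Agent.Run7.h347.Core12

set_option autoImplicit false

/-! The hypotheses of the ping-pong statement. -/

open Pool.Agent.R708 Filter Topology MatrixGroups

namespace Run7.h347

variable {S T κ θ τ : AutPlus 2} {R k C K : ℕ}
  {S' T' : Subgroup.closure {S, T}} {D : Subgroup.closure {S, T} →* SL(2, ℝ)}

/-- The lower left entry. -/
noncomputable def low (D : Subgroup.closure {S, T} →* SL(2, ℝ)) (w : Subgroup.closure {S, T}) :
    ℝ := (D w : Matrix (Fin 2) (Fin 2) ℝ) 1 0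

theorem Nf_inv (y : SurfaceGroup 2) (w : Subgroup.closure {S, T}) :
    Nf y w⁻¹ = Yg ((((w : AutPlus 2) : AutPlus 2) : MulAut (SurfaceGroup 2)) y) := by
  have : ((w⁻¹ : Subgroup.closure {S, T}) : AutPlus 2) = (w : AutPlus 2)⁻¹ := rfl
  rw [Nf, this, inv_inv]

/-- If the height does not increase then the width of a translate is bounded. -/
theorem width_of_height (hN : StatementNorm) (hP : StatementPiece) (h : Data S T κ θ τ R k C K)
    (H : Hk S T S' T' D) (w : Subgroup.closure {S, T}) (hw : low D w⁻¹ ≠ 0)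
    (y : SurfaceGroup 2) (hy : Yg ((((w : AutPlus 2) : AutPlus 2) : MulAut (SurfaceGroup 2)) y) ≤ Yg y) :
    ∃ n : ℤ, sX1 S (((T ^ n : AutPlus 2) : MulAut (SurfaceGroup 2)) y) + sX2 S (((T ^ n : AutPlus 2) : MulAut (SurfaceGroup 2)) y) ≤ 7 / 2 * (sc 0 y + sc 1 y) := by
  obtain ⟨h1, k, h2⟩ := norm_k hN H.hk (Nf y) (Nf_nonneg y) (Nf_T h.hT H y)
    (Nf_S2 h.hS h.hS4 H y) (Nf_conv hP h.hS h.hT H y) w⁻¹ hw
  refine ⟨-k, ?_⟩
  have e1 : Nf y w⁻¹ = Yg ((((w : AutPlus 2) : AutPlus 2) : MulAut (SurfaceGroup 2)) y) := Nf_inv y w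
  have e2 : Nf y (1 : Subgroup.closure {S, T}) = Yg y := by
    rw [Nf, Subgroup.coe_one, inv_one]; rfl
  have e3 : Nf y (T' ^ k * S') = sX2 S (((T ^ (-k) : AutPlus 2) : MulAut (SurfaceGroup 2)) y) +
      Real.goldenRatio * sX1 S (((T ^ (-k) : AutPlus 2) : MulAut (SurfaceGroup 2)) y) := by
    rw [Nf_S H, Subgroup.coe_zpow, H.hT', zpow_neg]
  rw [e1, e2, e3] at h2
  set s := |(D w⁻¹ : Matrix (Fin 2) (Fin 2) ℝ) 1 0| with hs
  have hφ := Real.goldenRatio_pos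
  have hφ1 := Real.one_lt_goldenRatio
  have hφ2 := Real.goldenRatio_lt_two
  have hsq := Real.goldenRatio_sq
  have hY := Yg_nonneg y
  have hspos : 0 < s := by linarith
  set X := sX2 S (((T ^ (-k) : AutPlus 2) : MulAut (SurfaceGroup 2)) y) + Real.goldenRatio * sX1 S (((T ^ (-k) : AutPlus 2) : MulAut (SurfaceGroup 2)) y) with hX
  have h3 : s * X ≤ s * ((1 + Real.goldenRatio / 2) * Yg y) := by
    have : Yg y ≤ s * Yg y := by nlinarith
    calc s * X ≤ Yg ((((w : AutPlus 2) : AutPlus 2) : MulAut (SurfaceGroup 2)) y) + Real.goldenRatio / 2 * s * Yg y := h2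
      _ ≤ s * Yg y + Real.goldenRatio / 2 * s * Yg y := by linarith
      _ = _ := by ring
  have h4 := le_of_mul_le_mul_left h3 hspos
  have h5 : 0 ≤ sX1 S (((T ^ (-k) : AutPlus 2) : MulAut (SurfaceGroup 2)) y) := sc_nonneg _ _
  have h6 : sX1 S (((T ^ (-k) : AutPlus 2) : MulAut (SurfaceGroup 2)) y) + sX2 S (((T ^ (-k) : AutPlus 2) : MulAut (SurfaceGroup 2)) y) ≤ X := by
    rw [hX]; nlinarith
  have h7 : Yg y ≤ Real.goldenRatio * (sc 0 y + sc 1 y) := by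
    rw [Yg]
    have := sc_nonneg 0 y
    nlinarith
  have h8 : (1 + Real.goldenRatio / 2) * Yg y ≤
      (1 + Real.goldenRatio / 2) * (Real.goldenRatio * (sc 0 y + sc 1 y)) :=
    mul_le_mul_of_nonneg_left h7 (by positivity)
  have h9 : (1 + Real.goldenRatio / 2) * (Real.goldenRatio * (sc 0 y + sc 1 y)) =
      (3 / 2 * Real.goldenRatio + 1 / 2) * (sc 0 y + sc 1 y) := by
    linear_combination ((sc 0 y + sc 1 y) / 2) * hsq
  have h10 : (3 / 2 * Real.goldenRatio + 1 / 2) * (sc 0 y + sc 1 y) ≤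
      7 / 2 * (sc 0 y + sc 1 y) := by
    apply mul_le_mul_of_nonneg_right _ (add_nonneg (sc_nonneg _ _) (sc_nonneg _ _))
    linarith
  linarith

theorem height_pos (hN : StatementNorm) (hP : StatementPiece) (h : Data S T κ θ τ R k C K)
    (H : Hk S T S' T' D) (w : Subgroup.closure {S, T}) (hw : low D w⁻¹ ≠ 0)
    (y : SurfaceGroup 2) (hy : y ≠ 1) (h0 : Yg y = 0) : 0 < Yg ((((w : AutPlus 2) : AutPlus 2) : MulAut (SurfaceGroup 2)) y) := by
  refine lt_of_le_of_ne (Yg_nonneg _) fun h1 => ?_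
  have h2 := (hN _ S' T' D H.hk (Nf y) (Nf_nonneg y) (Nf_T h.hT H y)
    (Nf_S2 h.hS h.hS4 H y) (Nf_conv hP h.hS h.hT H y) w⁻¹)
  have h3 := h2.1 hw
  have h4 := h2.2
  have e1 : Nf y w⁻¹ = 0 := by
    rw [Nf_inv, ← h1]
  have e2 : Nf y (1 : Subgroup.closure {S, T}) = 0 := by
    rw [Nf, Subgroup.coe_one, inv_one]; exact h0
  rw [e1, e2, mul_zero, add_zero] at h4
  have h5 : Nf y S' = 0 := by
    have h6 := Nf_nonneg y S'
    have h7 : 0 < |(D w⁻¹ : Matrix (Fin 2) (Fin 2) ℝ) 1 0| := by linarith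
    by_contra hne
    have h8 : 0 < Nf y S' := lt_of_le_of_ne h6 (Ne.symm hne)
    have := mul_pos h7 h8
    linarith
  refine Nf_fill h.hS H hy 1 ⟨e2, ?_⟩
  rw [one_mul]
  exact h5

theorem Data.Yg_φ (h : Data S T κ θ τ R k C K) (y : SurfaceGroup 2) :
    Yg (((θ * τ : AutPlus 2) : MulAut (SurfaceGroup 2)) y) = Yg y := by
  rw [Yg, Yg, h.sc_φ, h.sc_φ]

theorem Data.Yg_φinv (h : Data S T κ θ τ R k C K) (y : SurfaceGroup 2) :
    Yg ((((θ * τ)⁻¹ : AutPlus 2) : MulAut (SurfaceGroup 2)) y) = Yg y := by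
  rw [← h.Yg_φ, app_self_inv]

/-- No two heights can both fail to increase. -/
theorem no_max (hN : StatementNorm) (hP : StatementPiece) (h : Data S T κ θ τ R k C K)
    (hR : 9 ≤ R) (H : Hk S T S' T' D) (w w' : Subgroup.closure {S, T}) (hw : low D w⁻¹ ≠ 0)
    (hw' : low D w'⁻¹ ≠ 0) (y : SurfaceGroup 2) (hy : 0 < Yg y)
    (h1 : Yg ((((w : AutPlus 2) : AutPlus 2) : MulAut (SurfaceGroup 2)) y) ≤ Yg y)
    (h2 : Yg ((((θ * τ)⁻¹ * w' * (θ * τ) : AutPlus 2) : MulAut (SurfaceGroup 2)) y) ≤ Yg y) : False := by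
  have h2' : Yg ((((w' : AutPlus 2) : AutPlus 2) : MulAut (SurfaceGroup 2)) (((θ * τ : AutPlus 2) : MulAut (SurfaceGroup 2)) y)) ≤ Yg (((θ * τ : AutPlus 2) : MulAut (SurfaceGroup 2)) y) := by
    rw [h.Yg_φ]
    rw [app_mul, app_mul, h.Yg_φinv] at h2
    exact h2
  obtain ⟨n, h3⟩ := width_of_height hN hP h H w hw y h1
  obtain ⟨n', h4⟩ := width_of_height hN hP h H w' hw' _ h2'
  rw [h.sc_φ, h.sc_φ] at h4
  have h5 := s_dichotomy h.hC h.hK h.hS h.hT h.hθ h.hτ y n n'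
  rw [app_mul (T ^ n')] at h5
  have h6 : 0 < sc 0 y + sc 1 y := by
    have h7 := sc_nonneg 0 y
    have h8 := sc_nonneg 1 y
    by_contra hle
    have h9 : sc 0 y = 0 := by linarith
    have h10 : sc 1 y = 0 := by linarith
    rw [Yg, h9, h10] at hy
    simp at hy
  have hR' : (9 : ℝ) ≤ R := by exact_mod_cast hR
  nlinarith

end Run7.h347
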