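import Pool.Agent.Run7.h347.Core13

set_option autoImplicit false

/-! The Veech group. -/

open Pool.Agent.R708 Filter Topology MatrixGroups

namespace Run7.h347

/-- Automorphisms agreeing on the generators are equal. -/
theorem aut_ext {θ τ : AutPlus 2} (hE : ((θ : AutPlus 2) : MulAut (SurfaceGroup 2)) sE = ((τ : AutPlus 2) : MulAut (SurfaceGroup 2)) sE) (hD : ((θ : AutPlus 2) : MulAut (SurfaceGroup 2)) sD = ((τ : AutPlus 2) : MulAut (SurfaceGroup 2)) sD)
    (h1 : ((θ : AutPlus 2) : MulAut (SurfaceGroup 2)) st1 = ((τ : AutPlus 2) : MulAut (SurfaceGroup 2)) st1) (h2 : ((θ : AutPlus 2) : MulAut (SurfaceGroup 2)) st2 = ((τ : AutPlus 2) : MulAut (SurfaceGroup 2)) st2) : θ = τ := by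
  have hF : ((θ : AutPlus 2) : MulAut (SurfaceGroup 2)) sF = ((τ : AutPlus 2) : MulAut (SurfaceGroup 2)) sF := by
    have : (sF : SurfaceGroup 2) = st1⁻¹ * sE * st1 := by rw [← rel1]; group
    rw [this]
    simp only [map_mul, map_inv, hE, h1]
  apply Subtype.ext
  have key : (⊤ : Subgroup (SurfaceGroup 2)) ≤
      MonoidHom.eqLocus ((θ : AutPlus 2) : MulAut (SurfaceGroup 2)).toMonoidHom ((τ : AutPlus 2) : MulAut (SurfaceGroup 2)).toMonoidHom := by
    rw [← bgen (MonoidHom.eqLocus ((θ : AutPlus 2) : MulAut (SurfaceGroup 2)).toMonoidHom ((τ : AutPlus 2) : MulAut (SurfaceGroup 2)).toMonoidHom) ?_ ?_]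
    · intro m
      have : (((θ : AutPlus 2) : MulAut (SurfaceGroup 2)).toMonoidHom.comp binc) = (((τ : AutPlus 2) : MulAut (SurfaceGroup 2)).toMonoidHom.comp binc) := by
        apply hom_ext_binc
        · simpa using hE
        · simpa using hF
        · simpa using hD
      exact DFunLike.congr_fun this m
    · intro e
      change ((θ : AutPlus 2) : MulAut (SurfaceGroup 2)) (bt e) = ((τ : AutPlus 2) : MulAut (SurfaceGroup 2)) (bt e)
      rw [bt]
      split_ifs
      · rw [map_zpow, map_zpow, h1]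
      · rw [map_zpow, map_zpow, h2]
  ext x
  exact key (Subgroup.mem_top x)

theorem pent_E : (sE : SurfaceGroup 2) = pent 1 * pent 2 := by
  simp only [pent, sE]
  change gb 1 = (ga 1)⁻¹ * (ga 1 * gb 1)
  group

theorem pent_D : (sD : SurfaceGroup 2) = (pent 4)⁻¹ := by
  simp only [pent, sD]
  change (gb 1)⁻¹ * ga 0 = ((ga 0)⁻¹ * gb 1)⁻¹
  group

theorem pent_t1 : (st1 : SurfaceGroup 2) = pent 1 := rfl

theorem pent_t2 : (st2 : SurfaceGroup 2) = (pent 3)⁻¹ * (pent 4)⁻¹ := by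
  simp only [pent, st2]
  change gb 0 = ((gb 1)⁻¹ * ga 0 * (gb 0)⁻¹)⁻¹ * ((ga 0)⁻¹ * gb 1)⁻¹
  group

theorem aut_ext_pent {θ τ : AutPlus 2} (h : ∀ i, ((θ : AutPlus 2) : MulAut (SurfaceGroup 2)) (pent i) = ((τ : AutPlus 2) : MulAut (SurfaceGroup 2)) (pent i)) : θ = τ := by
  apply aut_ext
  · rw [pent_E, map_mul, map_mul, h, h]
  · rw [pent_D, map_inv, map_inv, h]
  · rw [pent_t1, h]
  · rw [pent_t2, map_mul, map_mul, map_inv, map_inv, map_inv, map_inv, h, h]

theorem rot_unique {θ τ : AutPlus 2} (h : IsRotation θ) (h' : IsRotation τ) : θ = τ :=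
  aut_ext_pent fun i => by rw [h, h']

theorem hyp_unique {θ τ : AutPlus 2} (h : IsHyp θ) (h' : IsHyp τ) : θ = τ :=
  aut_ext_pent fun i => by rw [h, h']

theorem twist_unique {θ τ : AutPlus 2} (h : IsTwist θ) (h' : IsTwist τ) : θ = τ := by
  obtain ⟨h4, h0, h1, h2, h3⟩ := h
  obtain ⟨k4, k0, k1, k2, k3⟩ := h'
  apply aut_ext_pent
  intro i
  fin_cases i
  · exact h0.trans k0.symm
  · exact h1.trans k1.symm
  · exact h2.trans k2.symm
  · exact h3.trans k3.symm
  · exact h4.trans k4.symm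

theorem classes_eq {P : AutPlus 2 → Prop} {θ : AutPlus 2} (h : P θ)
    (hu : ∀ τ, P τ → τ = θ) : classes P = {(θ : MCG 2)} := by
  ext m
  constructor
  · rintro ⟨τ, hτ, rfl⟩
    rw [hu τ hτ]; rfl
  · intro hm
    rw [Set.mem_singleton_iff] at hm
    exact ⟨θ, h, hm.symm⟩

variable {S T κ θ τ : AutPlus 2} {R k C K : ℕ}
  {S' T' : Subgroup.closure {S, T}} {D : Subgroup.closure {S, T} →* SL(2, ℝ)}

/-- The map to the mapping class group. -/
noncomputable def qF (S T : AutPlus 2) : Subgroup.closure {S, T} →* MCG 2 :=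
  (QuotientGroup.mk' (Inn 2)).comp (Subgroup.closure {S, T}).subtype

theorem qF_apply (w : Subgroup.closure {S, T}) : qF S T w = ((w : AutPlus 2) : MCG 2) := rfl

theorem mk_one_iff (θ : AutPlus 2) : (θ : MCG 2) = 1 ↔ ∃ z, ((θ : AutPlus 2) : MulAut (SurfaceGroup 2)) = MulAut.conj z := by
  rw [QuotientGroup.eq_one_iff, Inn, Subgroup.mem_subgroupOf]
  constructor
  · rintro ⟨z, hz⟩
    exact ⟨z, hz.symm⟩
  · rintro ⟨z, hz⟩
    exact ⟨z, hz.symm⟩

theorem isConj_of_mk_one {θ : AutPlus 2} (h : (θ : MCG 2) = 1) (y : SurfaceGroup 2) :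
    IsConj (((θ : AutPlus 2) : MulAut (SurfaceGroup 2)) y) y := by
  obtain ⟨z, hz⟩ := (mk_one_iff θ).1 h
  rw [hz, MulAut.conj_apply]
  exact (isConj_iff.2 ⟨z, rfl⟩).symm

theorem sE_ne_one : (sE : SurfaceGroup 2) ≠ 1 := by
  rw [← binc_E]
  intro h
  have h1 : binc xE = binc 1 := by rw [h, map_one]
  have h2 := congrArg nrm1 (binc_inj h1)
  simp at h2

theorem Yg_sE : Yg sE = 0 := by
  rw [Yg, ← binc_E, sc_binc, sc_binc]; simp

/-- homology detects `D` -/
theorem exists_char : ∃ f : SurfaceGroup 2 →* Multiplicative ℤ,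
    f sD = Multiplicative.ofAdd 1 := by
  obtain ⟨f, _, _, h, _⟩ := exists_hom (H := Multiplicative ℤ) 1 1 (Multiplicative.ofAdd 1) 1 1
    (by simp) (by simp)
  exact ⟨f, h⟩

theorem sc_st1 : sc 0 (st1 : SurfaceGroup 2) = 1 := by
  have h : BB.C [(((0 : Fin 2), (1 : ℤˣ)), (1 : F3))] := by
    refine ⟨by simp, ?_⟩
    change BB.R [((0, 1), 1), ((0, 1), 1)]
    rw [R_cc]
    refine ⟨?_, R_single' _ _⟩
    intro h
    exact absurd (congrArg Prod.snd h) (by decide)
  have h2 : BB.P [(((0 : Fin 2), (1 : ℤˣ)), (1 : F3))] = st1 := by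
    rw [P_cons']; simp
  have := sc_C 0 h
  rw [h2] at this
  rw [this, cn_cons]
  simp

theorem sc_pow' (i : Fin 2) (g : SurfaceGroup 2) (n : ℕ) : sc i (g ^ n) = n * sc i g := by
  rcases Nat.eq_zero_or_pos n with rfl | hn
  · rw [pow_zero, sc, st_one (sub_c' i)]; simp
  · exact st_pow (sub_c' i) g hn

/-- The map to the mapping class group is injective. -/
theorem qF_injective (hN : StatementNorm) (hH : StatementHecke) (hP : StatementPiece)
    (h : Data S T κ θ τ R k C K) (H : Hk S T S' T' D) (hι : IsHyp (S ^ 2)) :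
    Function.Injective (qF S T) := by
  rw [injective_iff_map_eq_one]
  intro w hw
  have hlow : low D w⁻¹ = 0 := by
    by_contra hne
    have h1 := height_pos hN hP h H w hne sE sE_ne_one Yg_sE
    have h2 : IsConj ((((w : AutPlus 2) : AutPlus 2) : MulAut (SurfaceGroup 2)) sE) sE := isConj_of_mk_one hw sE
    rw [Yg_isConj h2, Yg_sE] at h1
    exact lt_irrefl _ h1
  obtain ⟨i, n, hin⟩ := (hH _ S' T' D H.hk).2.1 w⁻¹ hlow
  -- the power of the twist is trivial
  have hn : n = 0 := by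
    by_contra hn
    have hc : ∀ j : ℕ, IsConj (((((w⁻¹ ^ j : Subgroup.closure {S, T}) : AutPlus 2) : AutPlus 2) : MulAut (SurfaceGroup 2)) st1) st1 := by
      intro j
      apply isConj_of_mk_one
      have : qF S T (w⁻¹ ^ j) = 1 := by rw [map_pow, map_inv, hw]; simp
      exact this
    have hcent : Commute (S' ^ (2 * i)) (T' ^ n) := by
      have h1 : Commute (S' ^ 2) T' := H.hk.cent
      have h2 := (h1.zpow_left i).zpow_right n
      rwa [← zpow_natCast, ← zpow_mul] at h2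
    have hpow : ∀ j : ℕ, w⁻¹ ^ j = T' ^ (n * j) * S' ^ (2 * (i * j)) := by
      intro j
      rw [hin, hcent.mul_pow, ← zpow_natCast, ← zpow_natCast, ← zpow_mul, ← zpow_mul]
      have h3 := (hcent.zpow_left (j : ℤ)).zpow_right (j : ℤ)
      rw [← zpow_mul, ← zpow_mul] at h3
      rw [h3.eq]
      congr 2
      ring
    have hsc : ∀ (z : ℤ) (u : Fin 2) (y : SurfaceGroup 2), sc u (((S ^ (2 * z) : AutPlus 2) : MulAut (SurfaceGroup 2)) y) = sc u y := by
      have hs1 : ∀ (u : Fin 2) (y : SurfaceGroup 2), sc u ((((S ^ 2)⁻¹ : AutPlus 2) : MulAut (SurfaceGroup 2)) y) = sc u y := by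
        intro u y
        rw [pow_two, mul_inv_rev, app_mul, sc_inv_half h.hS h.hS4]
      have hnat : ∀ (z : ℕ) (u : Fin 2) (y : SurfaceGroup 2), sc u ((((S ^ 2) ^ z : AutPlus 2) : MulAut (SurfaceGroup 2)) y) = sc u y := by
        intro z
        induction z with
        | zero => intro u y; rw [pow_zero]; rfl
        | succ z ih => intro u y; rw [pow_succ, app_mul, ih, sc_half h.hS h.hS4]
      have hnat' : ∀ (z : ℕ) (u : Fin 2) (y : SurfaceGroup 2),
          sc u (((((S ^ 2)⁻¹) ^ z : AutPlus 2) : MulAut (SurfaceGroup 2)) y) = sc u y := by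
        intro z
        induction z with
        | zero => intro u y; rw [pow_zero]; rfl
        | succ z ih => intro u y; rw [pow_succ, app_mul, ih, hs1]
      intro z u y
      rw [zpow_mul]
      obtain ⟨m, rfl | rfl⟩ := z.eq_nat_or_neg
      · rw [zpow_natCast]
        exact_mod_cast hnat m u y
      · rw [zpow_neg, zpow_natCast, ← inv_pow]
        exact_mod_cast hnat' m u y
    have hX : ∀ j : ℕ, (j : ℝ) ≤ 2 * sX1 S st1 := by
      intro j
      have h1 := (s_lower hP h.hS h.hT (n * j) (((S ^ (2 * (i * j)) : AutPlus 2) : MulAut (SurfaceGroup 2)) st1)).1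
      rw [hsc, hsc, sc_st1] at h1
      have h2 : ((T ^ (n * j) : AutPlus 2) : MulAut (SurfaceGroup 2)) (((S ^ (2 * (i * j)) : AutPlus 2) : MulAut (SurfaceGroup 2)) st1) =
          ((((w⁻¹ ^ j : Subgroup.closure {S, T}) : AutPlus 2) : AutPlus 2) : MulAut (SurfaceGroup 2)) st1 := by
        have e : ((w⁻¹ ^ j : Subgroup.closure {S, T}) : AutPlus 2) =
            T ^ (n * j) * S ^ (2 * (i * j)) := by
          rw [hpow, Subgroup.coe_mul, Subgroup.coe_zpow, Subgroup.coe_zpow, H.hS', H.hT']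
        rw [e]; rfl
      rw [h2] at h1
      have h3 : sX1 S (((((w⁻¹ ^ j : Subgroup.closure {S, T}) : AutPlus 2) : AutPlus 2) : MulAut (SurfaceGroup 2)) st1) = sX1 S st1 := by
        rw [sX1_eq, sX1_eq]
        exact st_isConj sub_X1' (hc j)
      have h4 : sX1 S (((S ^ (2 * (i * j)) : AutPlus 2) : MulAut (SurfaceGroup 2)) st1) = sX1 S st1 := by
        have : S⁻¹ * S ^ (2 * (i * (j : ℤ))) = S ^ (2 * (i * (j : ℤ))) * S⁻¹ := by
          rw [← zpow_neg_one, ← zpow_add, ← zpow_add, add_comm]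
        rw [sX1, ← app_mul, this, app_mul, hsc]; rfl
      rw [h3, h4] at h1
      have h5 : (1 : ℝ) ≤ |(n : ℝ)| := by
        have : (1 : ℤ) ≤ |n| := Int.one_le_abs hn
        exact_mod_cast this
      have h6 : |((n * j : ℤ) : ℝ)| = |(n : ℝ)| * j := by
        push_cast; rw [abs_mul, Nat.abs_cast]
      rw [h6] at h1
      have h7 := sc_nonneg 1 (st1 : SurfaceGroup 2)
      have h8 : (0 : ℝ) ≤ j := Nat.cast_nonneg j
      have h9 : (j : ℝ) ≤ |(n : ℝ)| * j := by nlinarith
      have h10 : 0 ≤ |(n : ℝ)| * j * sc 1 (st1 : SurfaceGroup 2) := by positivity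
      nlinarith
    obtain ⟨j, hj⟩ := exists_nat_gt (2 * sX1 S st1)
    exact absurd (hX j) (not_le.2 hj)
  subst hn
  rw [zpow_zero, mul_one] at hin
  -- the half turn is not inner
  have h4' : S' ^ 4 = 1 := H.hk.S4
  have hcases : w⁻¹ = 1 ∨ w⁻¹ = S' ^ 2 := by
    rw [hin]
    rcases Int.even_or_odd' i with ⟨j, rfl | rfl⟩
    · left
      have : (2 * (2 * j) : ℤ) = ((4 : ℕ) : ℤ) * j := by push_cast; ring
      rw [this, zpow_mul, zpow_natCast, h4', one_zpow]
    · right
      have : (2 * (2 * j + 1) : ℤ) = ((4 : ℕ) : ℤ) * j + ((2 : ℕ) : ℤ) := by push_cast; ring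
      rw [this, zpow_add, zpow_mul, zpow_natCast, zpow_natCast, h4', one_zpow, one_mul]
  rcases hcases with h1 | h1
  · exact inv_eq_one.1 h1
  · exfalso
    have h2 : qF S T (S' ^ 2) = 1 := by rw [← h1, map_inv, hw, inv_one]
    have h3 : ((S ^ 2 : AutPlus 2) : MCG 2) = 1 := by
      rw [← h2, qF_apply, Subgroup.coe_pow, H.hS']
    obtain ⟨f, hf⟩ := exists_char
    have h4 : IsConj ((sD : SurfaceGroup 2)⁻¹) sD := by
      have h5 := isConj_of_mk_one h3 sD
      have h6 := hι 4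
      have h7 : ((S ^ 2 : AutPlus 2) : MulAut (SurfaceGroup 2)) sD = sD⁻¹ := by rw [pent_D, map_inv, h6]
      rwa [h7] at h5
    obtain ⟨z, hz⟩ := isConj_iff.1 h4
    have h5 := congrArg f hz
    rw [map_mul, map_mul, map_inv, map_inv, hf, mul_comm, ← mul_assoc, inv_mul_cancel,
      one_mul] at h5
    have h6 := congrArg Multiplicative.toAdd h5
    simp at h6

end Run7.h347
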