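import Pool.Agent.Run7.h347.Core14

set_option autoImplicit false

/-! The Veech group, continued. -/

open Pool.Agent.R708 Filter Topology MatrixGroups

namespace Run7.h347

variable {S T κ θ τ : AutPlus 2} {R k C K : ℕ}
  {S' T' : Subgroup.closure {S, T}} {D : Subgroup.closure {S, T} →* SL(2, ℝ)}

theorem rot_sq {G : Type} [Group G] {S T : G} (hc : S ^ 2 * T = T * S ^ 2)
    (hU : (T * S) ^ 5 = S ^ 2) :
    (S * (T * S)⁻¹ * (T * S)⁻¹ * S⁻¹) ^ 2 * T⁻¹ = S⁻¹ := by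
  have h0 : ∀ U : G, (S * U⁻¹ * U⁻¹ * S⁻¹) ^ 2 = S * U * (U ^ 5)⁻¹ * S⁻¹ := by
    intro U
    rw [pow_two (S * U⁻¹ * U⁻¹ * S⁻¹)]
    group
  have h1 := h0 (T * S)
  have h2 : (S ^ 2)⁻¹ * T = T * (S ^ 2)⁻¹ := by
    rw [inv_mul_eq_iff_eq_mul, ← mul_assoc, hc, mul_assoc, mul_inv_cancel, mul_one]
  calc (S * (T * S)⁻¹ * (T * S)⁻¹ * S⁻¹) ^ 2 * T⁻¹
      = S * (T * S) * (S ^ 2)⁻¹ * S⁻¹ * T⁻¹ := by rw [h1, hU]
    _ = S * (T * (S ^ 2)⁻¹) * T⁻¹ := by group
    _ = S * ((S ^ 2)⁻¹ * T) * T⁻¹ := by rw [h2]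
    _ = S⁻¹ := by group

/-- The subgroup `A`. -/
noncomputable def AA (S T : AutPlus 2) : Subgroup (MCG 2) :=
  (commutator (Subgroup.closure {S, T})).map (qF S T)

/-- The hypotheses on the rotation and the twist. -/
structure Geo (S T : AutPlus 2) : Prop where
  tw : IsTwist T
  rot : IsRotation (S * (T * S)⁻¹ * (T * S)⁻¹ * S⁻¹)
  hyp : IsHyp (S ^ 2)

theorem Veech_eq (H : Hk S T S' T' D) (hG : Geo S T) : Veech = (qF S T).range := by
  have hr : ((S * (T * S)⁻¹ * (T * S)⁻¹ * S⁻¹ : AutPlus 2) : MCG 2) =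
      qF S T (S' * (T' * S')⁻¹ * (T' * S')⁻¹ * S'⁻¹) := by
    rw [qF_apply]
    simp only [Subgroup.coe_mul, Subgroup.coe_inv, H.hS', H.hT']
  have hT : ((T : AutPlus 2) : MCG 2) = qF S T T' := by rw [qF_apply, H.hT']
  rw [Veech, classes_eq hG.rot (fun τ h => rot_unique h hG.rot),
    classes_eq hG.tw (fun τ h => twist_unique h hG.tw), hr, hT]
  apply le_antisymm
  · rw [Subgroup.closure_le]
    rintro x (hx | hx)
    · rw [Set.mem_singleton_iff] at hx
      exact ⟨_, hx.symm⟩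
    · rw [Set.mem_singleton_iff] at hx
      exact ⟨_, hx.symm⟩
  · rw [MonoidHom.range_eq_map, ← H.hk.gen, MonoidHom.map_closure, Subgroup.closure_le]
    set W := Subgroup.closure ({qF S T (S' * (T' * S')⁻¹ * (T' * S')⁻¹ * S'⁻¹)} ∪ {qF S T T'})
      with hW
    have h1 : qF S T (S' * (T' * S')⁻¹ * (T' * S')⁻¹ * S'⁻¹) ∈ W :=
      Subgroup.subset_closure (Or.inl rfl)
    have h2 : qF S T T' ∈ W := Subgroup.subset_closure (Or.inr rfl)
    have h3 : qF S T S' ∈ W := by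
      have h4 := W.mul_mem (W.pow_mem h1 2) (W.inv_mem h2)
      rw [← map_pow, ← map_inv, ← map_mul, rot_sq H.hk.cent H.hk.U5, map_inv] at h4
      simpa using W.inv_mem h4
    rintro x ⟨y, hy, rfl⟩
    rcases hy with rfl | hy
    · exact h3
    · rw [Set.mem_singleton_iff] at hy
      subst hy
      exact h2

theorem half_eq (H : Hk S T S' T' D) :
    ((S ^ 2 : AutPlus 2) : MCG 2) = qF S T (S' ^ 2) := by
  rw [qF_apply, Subgroup.coe_pow, H.hS']

theorem Hyp_eq (H : Hk S T S' T' D) (hG : Geo S T) :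
    Hyp = (Subgroup.zpowers (S' ^ 2)).map (qF S T) := by
  rw [Hyp, classes_eq hG.hyp (fun τ h => hyp_unique h hG.hyp), half_eq H,
    MonoidHom.map_zpowers, Subgroup.zpowers_eq_closure]

theorem Cusp_eq (H : Hk S T S' T' D) (hG : Geo S T) :
    Cusp = (Subgroup.closure {T', S' ^ 2}).map (qF S T) := by
  rw [Cusp, classes_eq hG.hyp (fun τ h => hyp_unique h hG.hyp),
    classes_eq hG.tw (fun τ h => twist_unique h hG.tw), half_eq H, MonoidHom.map_closure,
    Set.image_pair]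
  have hT : ((T : AutPlus 2) : MCG 2) = qF S T T' := by rw [qF_apply, H.hT']
  rw [hT]
  rfl

/-- The generator `d` of the cusp subgroup. -/
noncomputable def dd (S T : AutPlus 2) : MCG 2 := ((S ^ 2 * T ^ 10 : AutPlus 2) : MCG 2)

theorem dd_eq (H : Hk S T S' T' D) : dd S T = qF S T (S' ^ 2 * T' ^ 10) := by
  rw [dd, qF_apply]
  simp only [Subgroup.coe_mul, Subgroup.coe_pow, H.hS', H.hT']

theorem isVeech (hinj : Function.Injective (qF S T)) (hH : StatementHecke)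
    (H : Hk S T S' T' D) (hG : Geo S T) : IsVeechSurfaceGroup (AA S T) (dd S T) := by
  obtain ⟨_, _, ⟨f, hf⟩, h3, h4, h5, _⟩ := hH _ S' T' D H.hk
  refine ⟨?_, ?_, ?_, ?_, ?_⟩
  · rw [Veech_eq H hG, MonoidHom.range_eq_map]
    exact Subgroup.map_mono le_top
  · rw [Hyp_eq H hG, AA, ← Subgroup.map_inf _ _ _ hinj, h3, Subgroup.map_bot]
  · rw [Hyp_eq H hG, AA, ← Subgroup.map_sup, Veech_eq H hG, MonoidHom.range_eq_map,
      Subgroup.relIndex_map_map_of_injective _ _ hinj, Subgroup.relIndex_top_right, h4]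
  · rw [Cusp_eq H hG, AA, ← Subgroup.map_inf _ _ _ hinj, h5, MonoidHom.map_zpowers, dd_eq H]
  · refine ⟨f.trans (Subgroup.equivMapOfInjective _ (qF S T) hinj), ?_⟩
    change ((Subgroup.equivMapOfInjective (commutator (Subgroup.closure {S, T})) (qF S T) hinj
      (f (relator 2)) : (commutator (Subgroup.closure {S, T})).map (qF S T)) : MCG 2) = _
    rw [Subgroup.coe_equivMapOfInjective_apply, hf, dd_eq H]

end Run7.h347
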