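import Pool.Agent.Run7.h347.Core15

set_option autoImplicit false

/-! Commutation, core curves, pseudo-Anosov elements. -/

open Pool.Agent.R708 Filter Topology MatrixGroups

namespace Run7.h347

variable {S T κ θ τ : AutPlus 2} {R k C K : ℕ}
  {S' T' : Subgroup.closure {S, T}} {D : Subgroup.closure {S, T} →* SL(2, ℝ)}

/-- Homomorphisms agreeing on the generators are equal. -/
theorem surf_ext {H : Type} [Group H] {f g : SurfaceGroup 2 →* H} (hE : f sE = g sE)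
    (hD : f sD = g sD) (h1 : f st1 = g st1) (h2 : f st2 = g st2) : f = g := by
  have hF : f sF = g sF := by
    have : (sF : SurfaceGroup 2) = st1⁻¹ * sE * st1 := by rw [← rel1]; group
    rw [this]
    simp only [map_mul, map_inv, hE, h1]
  have key : (⊤ : Subgroup (SurfaceGroup 2)) ≤ MonoidHom.eqLocus f g := by
    rw [← bgen (MonoidHom.eqLocus f g) ?_ ?_]
    · intro m
      have : (f.comp binc) = (g.comp binc) := by
        apply hom_ext_binc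
        · simpa using hE
        · simpa using hF
        · simpa using hD
      exact DFunLike.congr_fun this m
    · intro e
      change f (bt e) = g (bt e)
      rw [bt]
      split_ifs
      · rw [map_zpow, map_zpow, h1]
      · rw [map_zpow, map_zpow, h2]
  exact MonoidHom.ext fun x => key (Subgroup.mem_top x)

theorem comm_θT {K : ℤ} (hθ : IsTh K θ) (hT : IsT T) : θ * T = T * θ := by
  apply aut_ext
  · rw [app_mul, app_mul, hT.E, hθ.E, hT.E]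
  · rw [app_mul, app_mul, hT.D, hθ.D, hT.D]
  · rw [app_mul, app_mul, hT.t1, hθ.t1, map_mul, map_mul, map_zpow, hθ.E, hθ.t1, hT.t1, hT.D]
    group
  · rw [app_mul, app_mul, hT.t2, hθ.t2, map_mul, map_mul, map_mul, map_zpow, hθ.F, hθ.D, hθ.t2,
      hT.t2, hT.D]
    group

theorem comm_τT {k : ℤ} (hτ : IsTg k τ) (hT : IsT T) : τ * T = T * τ := by
  apply aut_ext
  · rw [app_mul, app_mul, hT.E, hτ.E, hT.E]
  · rw [app_mul, app_mul, hT.D, hτ.D]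
    simp only [map_mul, map_zpow, map_inv, hT.E, hT.F, hT.D]
  · rw [app_mul, app_mul, hT.t1, hτ.t1, map_mul, hτ.E, hτ.t1, hT.t1]
  · rw [app_mul, app_mul, hT.t2, hτ.t2]
    simp only [map_mul, map_zpow, map_inv, hτ.F, hτ.D, hτ.t2, hT.E, hT.F, hT.t2]
    set γ : SurfaceGroup 2 := sE * sF⁻¹ with hγ
    have h1 : sF * (sE⁻¹ * γ ^ k * sE * sD * γ ^ (-k)) * (γ ^ k * st2 * γ ^ (-k)) =
        (sF * sE⁻¹) * γ ^ k * sE * sD * st2 * γ ^ (-k) := by group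
    have h2 : (sF * sE⁻¹ : SurfaceGroup 2) = γ⁻¹ := by rw [hγ]; group
    have h3 : γ ^ k * (sF * sD * st2) * γ ^ (-k) = γ ^ k * (γ⁻¹ * sE) * sD * st2 * γ ^ (-k) := by
      have : γ⁻¹ * sE = (sF : SurfaceGroup 2) := by rw [hγ]; group
      rw [this]; group
    rw [h1, h2, h3]
    group

structure Half (S : AutPlus 2) : Prop where
  E : ((S ^ 2 : AutPlus 2) : MulAut (SurfaceGroup 2)) sE = sF⁻¹
  F : ((S ^ 2 : AutPlus 2) : MulAut (SurfaceGroup 2)) sF = sE⁻¹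
  D : ((S ^ 2 : AutPlus 2) : MulAut (SurfaceGroup 2)) sD = sD⁻¹
  t1 : ((S ^ 2 : AutPlus 2) : MulAut (SurfaceGroup 2)) st1 = st1⁻¹
  t2 : ((S ^ 2 : AutPlus 2) : MulAut (SurfaceGroup 2)) st2 = sE⁻¹ * st2⁻¹ * sF

theorem IsS.half (hS : IsS S) : Half S := by
  have h2 : ∀ x, ((S ^ 2 : AutPlus 2) : MulAut (SurfaceGroup 2)) x = ((S : AutPlus 2) : MulAut (SurfaceGroup 2)) (((S : AutPlus 2) : MulAut (SurfaceGroup 2)) x) := fun x => by rw [pow_two]; rfl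
  refine ⟨?_, ?_, ?_, ?_, ?_⟩
  · rw [h2, hS.E, hS.t2]
  · rw [h2, hS.F, map_mul, map_mul, map_inv, hS.F, hS.t2, hS.E]; group
  · rw [h2, hS.D, hS.t1]
  · rw [h2, hS.t1, map_inv, hS.D]
  · rw [h2, hS.t2, map_inv, hS.F]; group

theorem conj_flip {G : Type} [Group G] (x y : G) (k : ℤ) :
    x * (x⁻¹ * y) ^ k * x⁻¹ = (y * x⁻¹) ^ k := by
  rw [← conj_zpow]; congr 1; group

theorem comm_τS {k : ℤ} (hτ : IsTg k τ) (hS : IsS S) : τ * S ^ 2 = S ^ 2 * τ := by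
  have hh := hS.half
  have hγ : ((S ^ 2 : AutPlus 2) : MulAut (SurfaceGroup 2)) (sE * sF⁻¹) = sF⁻¹ * sE := by
    rw [map_mul, map_inv, hh.E, hh.F]; group
  apply aut_ext
  · rw [app_mul, app_mul, hh.E, hτ.E, hh.E, map_inv, hτ.F]
  · rw [app_mul, app_mul, hh.D, hτ.D]
    simp only [map_mul, map_zpow, map_inv, hτ.D, hh.E, hh.D, hh.F]
    have h1 := conj_flip sF sE k
    have h2 := conj_flip (sE : SurfaceGroup 2)⁻¹ sF⁻¹ (-k)
    have h3 : (sF⁻¹ * (sE⁻¹)⁻¹⁻¹ : SurfaceGroup 2) = (sF⁻¹ * sE⁻¹ : SurfaceGroup 2) := by group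
    have e1 : (sF⁻¹ * (sE⁻¹)⁻¹ : SurfaceGroup 2) = sF⁻¹ * sE := by group
    rw [e1]
    have e2 : (sF⁻¹)⁻¹ * (sF⁻¹ * sE) ^ k * sF⁻¹ * sD⁻¹ * (sF⁻¹ * sE) ^ (-k) =
        (sF * (sF⁻¹ * sE) ^ k * sF⁻¹) * sD⁻¹ * (sF⁻¹ * sE) ^ (-k) := by group
    rw [e2, h1]
    have e3 : (sF⁻¹ * sE : SurfaceGroup 2) = sE⁻¹ * (sE * sF⁻¹) * (sE⁻¹)⁻¹ := by group
    rw [e3, conj_zpow]
    group
  · rw [app_mul, app_mul, hh.t1, hτ.t1, map_inv, hτ.t1, hh.t1]
  · rw [app_mul, app_mul, hh.t2, hτ.t2]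
    simp only [map_mul, map_zpow, map_inv, hτ.E, hτ.F, hτ.t2, hh.E, hh.F, hh.t2]
    have e1 : (sF⁻¹ * (sE⁻¹)⁻¹ : SurfaceGroup 2) = sF⁻¹ * sE := by group
    rw [e1]
    have e3 : (sF⁻¹ * sE : SurfaceGroup 2) = sE⁻¹ * (sE * sF⁻¹) * (sE⁻¹)⁻¹ := by group
    have h5 : (sF⁻¹ * sE : SurfaceGroup 2) ^ k = sE⁻¹ * (sE * sF⁻¹) ^ k * sE := by
      rw [e3, conj_zpow, inv_inv]
    have e4 : (sF⁻¹ * sE : SurfaceGroup 2) = sF⁻¹ * (sE * sF⁻¹) * (sF⁻¹)⁻¹ := by group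
    have h6 : (sF⁻¹ * sE : SurfaceGroup 2) ^ (-k) = sF⁻¹ * (sE * sF⁻¹) ^ (-k) * sF := by
      rw [e4, conj_zpow, inv_inv]
    rw [h5, h6]
    group

theorem comm_θS {K : ℤ} (hθ : IsTh K θ) (hS : IsS S) :
    (θ : MCG 2) * ((S ^ 2 : AutPlus 2) : MCG 2) = ((S ^ 2 : AutPlus 2) : MCG 2) * (θ : MCG 2) := by
  have hh := hS.half
  have h : ∀ x, ((S ^ 2 * θ : AutPlus 2) : MulAut (SurfaceGroup 2)) x = sD ^ (-K) * ((θ * S ^ 2 : AutPlus 2) : MulAut (SurfaceGroup 2)) x * (sD ^ (-K))⁻¹ := by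
    have : (((S ^ 2 * θ : AutPlus 2) : MulAut (SurfaceGroup 2)).toMonoidHom) =
        ((MulAut.conj (sD ^ (-K))).toMonoidHom).comp ((θ * S ^ 2 : AutPlus 2) : MulAut (SurfaceGroup 2)).toMonoidHom := by
      apply surf_ext
      · change ((S ^ 2 * θ : AutPlus 2) : MulAut (SurfaceGroup 2)) sE = sD ^ (-K) * ((θ * S ^ 2 : AutPlus 2) : MulAut (SurfaceGroup 2)) sE * (sD ^ (-K))⁻¹
        rw [app_mul, app_mul, hθ.E, hh.E, map_inv, hθ.F]; group
      · change ((S ^ 2 * θ : AutPlus 2) : MulAut (SurfaceGroup 2)) sD = sD ^ (-K) * ((θ * S ^ 2 : AutPlus 2) : MulAut (SurfaceGroup 2)) sD * (sD ^ (-K))⁻¹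
        rw [app_mul, app_mul, hθ.D, hh.D, map_inv, hθ.D]; group
      · change ((S ^ 2 * θ : AutPlus 2) : MulAut (SurfaceGroup 2)) st1 = sD ^ (-K) * ((θ * S ^ 2 : AutPlus 2) : MulAut (SurfaceGroup 2)) st1 * (sD ^ (-K))⁻¹
        rw [app_mul, app_mul, hθ.t1, hh.t1, map_mul, map_zpow, map_inv, hθ.t1, hh.t1, hh.D]
        group
      · change ((S ^ 2 * θ : AutPlus 2) : MulAut (SurfaceGroup 2)) st2 = sD ^ (-K) * ((θ * S ^ 2 : AutPlus 2) : MulAut (SurfaceGroup 2)) st2 * (sD ^ (-K))⁻¹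
        rw [app_mul, app_mul, hθ.t2, hh.t2, map_mul, map_zpow, map_mul, map_mul, map_inv,
          map_inv, hθ.t2, hθ.E, hθ.F, hh.t2, hh.D]
        group
    intro x
    exact DFunLike.congr_fun this x
  symm
  rw [← QuotientGroup.mk_mul, ← QuotientGroup.mk_mul, ← mul_inv_eq_one, ← QuotientGroup.mk_inv,
    ← QuotientGroup.mk_mul, mk_one_iff]
  refine ⟨sD ^ (-K), ?_⟩
  ext x
  have h2 := h ((((θ * S ^ 2)⁻¹ : AutPlus 2) : MulAut (SurfaceGroup 2)) x)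
  rw [app_self_inv] at h2
  rw [MulAut.conj_apply, app_mul]
  exact h2

theorem Data.comm (h : Data S T κ θ τ R k C K) :
    (((θ * τ)⁻¹ : AutPlus 2) : MCG 2) * dd S T * (((θ * τ)⁻¹ : AutPlus 2) : MCG 2)⁻¹ =
      dd S T := by
  have h1 : Commute (θ : MCG 2) ((S ^ 2 : AutPlus 2) : MCG 2) := comm_θS h.hθ h.hS
  have h2 : Commute (τ : MCG 2) ((S ^ 2 : AutPlus 2) : MCG 2) := by
    have := comm_τS h.hτ h.hS
    rw [Commute, SemiconjBy, ← QuotientGroup.mk_mul, ← QuotientGroup.mk_mul, this]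
  have h3 : Commute (θ : MCG 2) ((T : AutPlus 2) : MCG 2) := by
    have := comm_θT h.hθ h.hT
    rw [Commute, SemiconjBy, ← QuotientGroup.mk_mul, ← QuotientGroup.mk_mul, this]
  have h4 : Commute (τ : MCG 2) ((T : AutPlus 2) : MCG 2) := by
    have := comm_τT h.hτ h.hT
    rw [Commute, SemiconjBy, ← QuotientGroup.mk_mul, ← QuotientGroup.mk_mul, this]
  have h5 : dd S T = ((S ^ 2 : AutPlus 2) : MCG 2) * ((T : AutPlus 2) : MCG 2) ^ 10 := by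
    rfl
  have h6 : Commute (((θ * τ)⁻¹ : AutPlus 2) : MCG 2) (dd S T) := by
    rw [h5, QuotientGroup.mk_inv, QuotientGroup.mk_mul]
    apply Commute.inv_left
    exact (h1.mul_right (h3.pow_right 10)).mul_left (h2.mul_right (h4.pow_right 10))
  rw [h6.eq, mul_inv_cancel_right]

theorem isConj_of_mk_eq {θ τ : AutPlus 2} (h : (θ : MCG 2) = (τ : MCG 2)) (y : SurfaceGroup 2) :
    IsConj (((θ : AutPlus 2) : MulAut (SurfaceGroup 2)) y) (((τ : AutPlus 2) : MulAut (SurfaceGroup 2)) y) := by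
  have h1 : ((θ * τ⁻¹ : AutPlus 2) : MCG 2) = 1 := by
    rw [QuotientGroup.mk_mul, h, QuotientGroup.mk_inv, mul_inv_cancel]
  have h2 := isConj_of_mk_one h1 (((τ : AutPlus 2) : MulAut (SurfaceGroup 2)) y)
  rwa [app_mul, app_inv_self] at h2

theorem isConj_app (θ : AutPlus 2) {y z : SurfaceGroup 2} (h : IsConj y z) :
    IsConj (((θ : AutPlus 2) : MulAut (SurfaceGroup 2)) y) (((θ : AutPlus 2) : MulAut (SurfaceGroup 2)) z) := by
  obtain ⟨u, hu⟩ := isConj_iff.1 h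
  exact isConj_iff.2 ⟨((θ : AutPlus 2) : MulAut (SurfaceGroup 2)) u, by rw [← hu]; simp only [map_mul, map_inv]⟩

theorem Data.fixesCores (h : Data S T κ θ τ R k C K) :
    FixesCores (((θ * τ)⁻¹ : AutPlus 2) : MCG 2) := by
  intro ψ hψ
  have h1 : (pent 1 * pent 2 : SurfaceGroup 2) = sE := pent_E.symm
  have h2 : (pent 1 * pent 2 * (pent 4)⁻¹ : SurfaceGroup 2) = sE * sD := by
    rw [h1, pent_D]
  rw [h2, h1]
  constructor
  · refine (isConj_of_mk_eq hψ sE).trans ?_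
    have h3 : ((θ * τ : AutPlus 2) : MulAut (SurfaceGroup 2)) sE = sE := by rw [app_mul, h.hτ.E, h.hθ.E]
    have h4 : (((θ * τ)⁻¹ : AutPlus 2) : MulAut (SurfaceGroup 2)) sE = sE := inv_apply_of h3
    rw [h4]
  · refine (isConj_of_mk_eq hψ (sE * sD)).trans ?_
    have h3 : IsConj (sE * sD) (((θ * τ : AutPlus 2) : MulAut (SurfaceGroup 2)) (sE * sD)) := by
      rw [isConj_iff]
      refine ⟨((θ : AutPlus 2) : MulAut (SurfaceGroup 2)) ((sE * sF⁻¹) ^ (k : ℤ)), ?_⟩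
      have h4 : ((θ : AutPlus 2) : MulAut (SurfaceGroup 2)) (sE * sD) = sE * sD := by rw [map_mul, h.hθ.E, h.hθ.D]
      have h5 : ((τ : AutPlus 2) : MulAut (SurfaceGroup 2)) (sE * sD) = (sE * sF⁻¹) ^ (k : ℤ) * (sE * sD) *
          ((sE * sF⁻¹) ^ (k : ℤ))⁻¹ := by
        rw [map_mul, h.hτ.E, h.hτ.D]; group
      rw [app_mul, h5, map_mul, map_mul, h4, map_inv]
    have h4 := isConj_app (θ * τ)⁻¹ h3
    rw [app_inv_self] at h4
    exact h4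

/-! ### Pseudo-Anosov elements -/

theorem IsPA.conj {m : MCG 2} (h : IsPA m) (x : MCG 2) : IsPA (x * m * x⁻¹) := by
  intro j hj ψ hψ y hy hc
  obtain ⟨χ, rfl⟩ := QuotientGroup.mk_surjective x
  rw [conj_pow] at hψ
  have h1 : ((χ⁻¹ * ψ * χ : AutPlus 2) : MCG 2) = m ^ j := by
    rw [QuotientGroup.mk_mul, QuotientGroup.mk_mul, hψ, QuotientGroup.mk_inv]
    group
  refine h j hj _ h1 (((χ⁻¹ : AutPlus 2) : MulAut (SurfaceGroup 2)) y) (app_ne_one _ hy) ?_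
  have h2 : (((χ⁻¹ * ψ * χ : AutPlus 2) : MulAut (SurfaceGroup 2)) (((χ⁻¹ : AutPlus 2) : MulAut (SurfaceGroup 2)) y)) =
      ((χ⁻¹ : AutPlus 2) : MulAut (SurfaceGroup 2)) (((ψ : AutPlus 2) : MulAut (SurfaceGroup 2)) y) := by
    rw [app_mul, app_mul, app_self_inv]
  rw [h2]
  exact isConj_app _ hc

theorem isPA_of_free {m : MCG 2} (h : ∀ j : ℕ, 0 < j → ∀ x : Cl, m ^ j • x ≠ x) : IsPA m := by
  intro j hj ψ hψ y hy hc
  apply h j hj (cl y hy)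
  rw [← hψ, mk_smul_cl, cl_eq]
  exact hc

theorem trace_pow (M : SL(2, ℝ)) (hM : 2 < |Matrix.trace (M : Matrix (Fin 2) (Fin 2) ℝ)|)
    (j : ℕ) (hj : 0 < j) : 2 < |Matrix.trace ((M ^ j : SL(2, ℝ)) : Matrix (Fin 2) (Fin 2) ℝ)| := by
  have hrec : ∀ n : ℕ, Matrix.trace ((M ^ (n + 2) : SL(2, ℝ)) : Matrix (Fin 2) (Fin 2) ℝ) =
      Matrix.trace (M : Matrix (Fin 2) (Fin 2) ℝ) *
        Matrix.trace ((M ^ (n + 1) : SL(2, ℝ)) : Matrix (Fin 2) (Fin 2) ℝ) -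
        Matrix.trace ((M ^ n : SL(2, ℝ)) : Matrix (Fin 2) (Fin 2) ℝ) := by
    intro n
    have hdet := Matrix.SpecialLinearGroup.det_coe M
    rw [Matrix.det_fin_two] at hdet
    rw [pow_succ (M) (n + 1), pow_succ M n, Matrix.SpecialLinearGroup.coe_mul,
      Matrix.SpecialLinearGroup.coe_mul]
    set P := ((M ^ n : SL(2, ℝ)) : Matrix (Fin 2) (Fin 2) ℝ)
    set Q := (M : Matrix (Fin 2) (Fin 2) ℝ)
    simp only [Matrix.trace_fin_two, Matrix.mul_apply, Fin.sum_univ_two]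
    linear_combination (-(P 0 0 + P 1 1)) * hdet
  have key : ∀ n : ℕ, 2 ≤ |Matrix.trace ((M ^ n : SL(2, ℝ)) : Matrix (Fin 2) (Fin 2) ℝ)| ∧
      |Matrix.trace ((M ^ n : SL(2, ℝ)) : Matrix (Fin 2) (Fin 2) ℝ)| <
      |Matrix.trace ((M ^ (n + 1) : SL(2, ℝ)) : Matrix (Fin 2) (Fin 2) ℝ)| := by
    intro n
    induction n with
    | zero =>
      rw [pow_zero, zero_add, pow_one]
      simp only [Matrix.SpecialLinearGroup.coe_one, Matrix.trace_one, Fintype.card_fin,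
        Nat.cast_ofNat]
      rw [abs_of_pos (by norm_num : (0 : ℝ) < 2)]
      exact ⟨le_rfl, hM⟩
    | succ n ih =>
      refine ⟨ih.1.trans ih.2.le, ?_⟩
      rw [hrec n]
      have h1 := abs_sub_abs_le_abs_sub (Matrix.trace (M : Matrix (Fin 2) (Fin 2) ℝ) *
        Matrix.trace ((M ^ (n + 1) : SL(2, ℝ)) : Matrix (Fin 2) (Fin 2) ℝ))
        (Matrix.trace ((M ^ n : SL(2, ℝ)) : Matrix (Fin 2) (Fin 2) ℝ))
      rw [abs_mul] at h1
      nlinarith [ih.1, ih.2, hM]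
  obtain ⟨j, rfl⟩ := Nat.exists_eq_succ_of_ne_zero hj.ne'
  exact (key j).1.trans_lt (key j).2

theorem isPA_hyp (hHy : StatementHyp) (hP : StatementPiece) (h : Data S T κ θ τ R k C K)
    (H : Hk S T S' T' D) (w : Subgroup.closure {S, T})
    (hw : 2 < |Matrix.trace (D w : Matrix (Fin 2) (Fin 2) ℝ)|) : IsPA (qF S T w) := by
  intro j hj ψ hψ y hy hc
  have h1 : 2 < |Matrix.trace (D (w ^ j) : Matrix (Fin 2) (Fin 2) ℝ)| := by
    rw [map_pow]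
    exact trace_pow _ hw j hj
  refine hHy _ S' T' D H.hk (Nf y) (Nf_nat y) (Nf_T h.hT H y) (Nf_S2 h.hS h.hS4 H y)
    (Nf_conv hP h.hS h.hT H y) (Nf_fill h.hS H hy) (w ^ j) h1 fun u => ?_
  have h2 : (ψ : MCG 2) = (((w ^ j : Subgroup.closure {S, T}) : AutPlus 2) : MCG 2) := by
    rw [hψ, ← map_pow]; rfl
  have h3 : IsConj (((((w ^ j : Subgroup.closure {S, T}) : AutPlus 2) : AutPlus 2) : MulAut (SurfaceGroup 2)) y) y :=
    (isConj_of_mk_eq h2 y).symm.trans hc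
  have h4 := isConj_app ((w ^ j : Subgroup.closure {S, T}) : AutPlus 2)⁻¹ h3
  rw [app_inv_self] at h4
  have h5 := isConj_app (u : AutPlus 2)⁻¹ h4
  rw [Nf, Nf, Yg_isConj h5]
  have h6 : ((w ^ j * u : Subgroup.closure {S, T}) : AutPlus 2)⁻¹ =
      (u : AutPlus 2)⁻¹ * ((w ^ j : Subgroup.closure {S, T}) : AutPlus 2)⁻¹ := by
    rw [Subgroup.coe_mul, mul_inv_rev]
  rw [h6, app_mul]

end Run7.h347
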