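import Pool.Agent.Run7.h347.Core16

set_option autoImplicit false

/-! The final assembly. -/

open Pool.Agent.R708 Filter Topology MatrixGroups

namespace Run7.h347

variable {S T κ θ τ : AutPlus 2} {R k C K : ℕ}
  {S' T' : Subgroup.closure {S, T}} {D : Subgroup.closure {S, T} →* SL(2, ℝ)}

/-- The class `φ`. -/
noncomputable def ph (θ τ : AutPlus 2) : MCG 2 := (((θ * τ)⁻¹ : AutPlus 2) : MCG 2)

/-- All the data. -/
structure Full (S T κ θ τ : AutPlus 2) (R k C K : ℕ) (S' T' : Subgroup.closure {S, T})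
    (D : Subgroup.closure {S, T} →* SL(2, ℝ)) : Prop where
  h : Data S T κ θ τ R k C K
  hR : 9 ≤ R
  H : Hk S T S' T' D
  hG : Geo S T
  hN : StatementNorm
  hHy : StatementHyp
  hH : StatementHecke
  hP : StatementPiece

theorem Full.inj (F : Full S T κ θ τ R k C K S' T' D) : Function.Injective (qF S T) :=
  qF_injective F.hN F.hH F.hP F.h F.H F.hG.hyp

theorem Full.dd_mem' (F : Full S T κ θ τ R k C K S' T' D) :
    S' ^ 2 * T' ^ 10 ∈ commutator (Subgroup.closure {S, T}) := by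
  have h5 := (F.hH _ S' T' D F.H.hk).2.2.2.2.2.1
  have : S' ^ 2 * T' ^ 10 ∈ Subgroup.zpowers (S' ^ 2 * T' ^ 10) := Subgroup.mem_zpowers _
  rw [← h5] at this
  exact this.1

theorem Full.dd_mem (F : Full S T κ θ τ R k C K S' T' D) : dd S T ∈ AA S T := by
  rw [dd_eq F.H]
  exact Subgroup.mem_map_of_mem _ F.dd_mem'

theorem Full.low (F : Full S T κ θ τ R k C K S' T' D) (w : Subgroup.closure {S, T})
    (hw : w ∈ commutator (Subgroup.closure {S, T})) (hd : qF S T w ∉ Subgroup.zpowers (dd S T)) :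
    low D w⁻¹ ≠ 0 := by
  intro h0
  obtain ⟨_, h2, _, _, _, h5, _⟩ := F.hH _ S' T' D F.H.hk
  obtain ⟨i, n, hin⟩ := h2 w⁻¹ h0
  apply hd
  have h6 : w⁻¹ ∈ commutator (Subgroup.closure {S, T}) ⊓ Subgroup.closure {T', S' ^ 2} := by
    refine Subgroup.mem_inf.2 ⟨(commutator (Subgroup.closure {S, T})).inv_mem hw, ?_⟩
    have hS : S' ^ 2 ∈ Subgroup.closure {T', S' ^ 2} := Subgroup.subset_closure (Or.inr rfl)
    have hT : T' ∈ Subgroup.closure {T', S' ^ 2} := Subgroup.subset_closure (Or.inl rfl)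
    rw [hin]
    refine mul_mem ?_ (zpow_mem hT n)
    have : S' ^ (2 * i) = (S' ^ 2) ^ i := by
      rw [← zpow_natCast, ← zpow_mul]; rfl
    rw [this]
    exact zpow_mem hS i
  rw [h5] at h6
  have h7 : w ∈ Subgroup.zpowers (S' ^ 2 * T' ^ 10) := by
    have := inv_mem h6
    rwa [inv_inv] at this
  obtain ⟨n, hn⟩ := h7
  refine ⟨n, ?_⟩
  change dd S T ^ n = _
  rw [dd_eq F.H, ← map_zpow]
  exact congrArg _ hn

theorem mem_AA (m : MCG 2) : m ∈ AA S T ↔
    ∃ w ∈ commutator (Subgroup.closure {S, T}), qF S T w = m := Subgroup.mem_map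

theorem mem_conjBy (φ m : MCG 2) (A : Subgroup (MCG 2)) :
    m ∈ conjBy φ A ↔ ∃ a ∈ A, φ * a * φ⁻¹ = m := by
  rw [conjBy, Subgroup.mem_map]; rfl

theorem Full.dd_memB (F : Full S T κ θ τ R k C K S' T' D) :
    dd S T ∈ conjBy (ph θ τ) (AA S T) := by
  rw [mem_conjBy]
  exact ⟨dd S T, F.dd_mem, F.h.comm⟩

theorem conj_zpowers {φ d a : MCG 2} (hc : φ * d * φ⁻¹ = d) (ha : a ∈ Subgroup.zpowers d) :
    φ * a * φ⁻¹ ∈ Subgroup.zpowers d := by
  obtain ⟨n, rfl⟩ := ha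
  refine ⟨n, ?_⟩
  change d ^ n = φ * d ^ n * φ⁻¹
  rw [← conj_zpow, hc]

/-- The ping-pong conclusions. -/
theorem Full.pingpong (hA : StatementAmalgam) (F : Full S T κ θ τ R k C K S' T' D) :
    AA S T ⊓ conjBy (ph θ τ) (AA S T) = Subgroup.zpowers (dd S T) ∧
    (∀ h : ∀ i, Subgroup.zpowers (dd S T) ≤
        (![AA S T, conjBy (ph θ τ) (AA S T)] : Fin 2 → Subgroup (MCG 2)) i,
      Function.Injective (natHom2 (AA S T) (conjBy (ph θ τ) (AA S T)) (dd S T) h)) ∧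
    (∀ m ∈ AA S T ⊔ conjBy (ph θ τ) (AA S T),
      (∃ h ∈ AA S T ⊔ conjBy (ph θ τ) (AA S T), ∃ a, (a ∈ AA S T ∨ a ∈ conjBy (ph θ τ) (AA S T)) ∧
        m = h * a * h⁻¹) ∨ ∀ k : ℕ, 0 < k → ∀ x : Cl, m ^ k • x ≠ x) := by
  have hwB : ∀ w : Subgroup.closure {S, T},
      ph θ τ * qF S T w * (ph θ τ)⁻¹ = (((θ * τ)⁻¹ * w * (θ * τ) : AutPlus 2) : MCG 2) := by
    intro w
    rw [ph, QuotientGroup.mk_mul, QuotientGroup.mk_mul, QuotientGroup.mk_inv, inv_inv, qF_apply]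
  refine hA (MCG 2) Cl YY (AA S T) (conjBy (ph θ τ) (AA S T)) (dd S T) F.dd_mem F.dd_memB
    ?_ ?_ ?_ ?_ ?_
  · intro x
    obtain ⟨y, hy, rfl⟩ := cl_surj x
    exact Yg_nonneg y
  · intro x
    obtain ⟨y, hy, rfl⟩ := cl_surj x
    rw [dd, mk_smul_cl, YY_cl, YY_cl, app_mul]
    have h1 := Yg_T F.h.hT 10 y
    rw [Yg, sc_half F.h.hS F.h.hS4, sc_half F.h.hS F.h.hS4]
    rw [Yg] at h1
    exact_mod_cast h1
  · intro x a ha had b hb hbd hx
    obtain ⟨y, hy, rfl⟩ := cl_surj x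
    obtain ⟨w, hw, rfl⟩ := (mem_AA a).1 ha
    obtain ⟨b', hb', rfl⟩ := (mem_conjBy _ b _).1 hb
    obtain ⟨w', hw', rfl⟩ := (mem_AA b').1 hb'
    have hbd' : qF S T w' ∉ Subgroup.zpowers (dd S T) := fun hmem =>
      hbd (conj_zpowers F.h.comm hmem)
    rw [hwB, qF_apply, mk_smul_cl, mk_smul_cl, YY_cl, YY_cl, YY_cl]
    rw [YY_cl] at hx
    by_contra hcon
    push Not at hcon
    exact no_max F.hN F.hP F.h F.hR F.H w w' (F.low w hw had) (F.low w' hw' hbd') y hx hcon.1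
      hcon.2
  · intro x a ha had hx
    obtain ⟨y, hy, rfl⟩ := cl_surj x
    rw [YY_cl] at hx
    rcases ha with ha | ha
    · obtain ⟨w, hw, rfl⟩ := (mem_AA a).1 ha
      rw [qF_apply, mk_smul_cl, YY_cl]
      exact height_pos F.hN F.hP F.h F.H w (F.low w hw had) y hy hx
    · obtain ⟨b', hb', rfl⟩ := (mem_conjBy _ a _).1 ha
      obtain ⟨w', hw', rfl⟩ := (mem_AA b').1 hb'
      have hbd' : qF S T w' ∉ Subgroup.zpowers (dd S T) := fun hmem =>
        had (conj_zpowers F.h.comm hmem)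
      rw [hwB, mk_smul_cl, YY_cl, app_mul, app_mul, F.h.Yg_φinv]
      exact height_pos F.hN F.hP F.h F.H w' (F.low w' hw' hbd') _ (app_ne_one _ hy)
        (by rw [F.h.Yg_φ]; exact hx)
  · exact ⟨cl sE sE_ne_one, Yg_sE⟩

/-- Powers of `d` fix the core curve. -/
theorem Full.not_pA_dd (F : Full S T κ θ τ R k C K S' T' D) (n : ℤ) :
    ¬ IsPA (dd S T ^ n) := by
  intro h
  have h2 : ((T ^ (20 * n) : AutPlus 2) : MCG 2) = (dd S T ^ n) ^ 2 := by
    have h3 : (S' ^ 2 * T' ^ 10) ^ 2 = T' ^ 20 := by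
      have hc : Commute (S' ^ 2) (T' ^ 10) := by
        have : Commute (S' ^ 2) T' := F.H.hk.cent
        exact this.pow_right 10
      rw [hc.mul_pow, ← pow_mul, ← pow_mul, F.H.hk.S4, one_mul]
    have h4 : ((S' ^ 2 * T' ^ 10) ^ n) ^ 2 = T' ^ (20 * n) := by
      have h5' : ∀ x : Subgroup.closure {S, T}, (x ^ n) ^ 2 = (x ^ 2) ^ n := by
        intro x
        rw [← zpow_natCast, ← zpow_natCast, ← zpow_mul, ← zpow_mul, mul_comm]
      have h5 := h5' (S' ^ 2 * T' ^ 10)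
      rw [h5, h3, ← zpow_natCast, ← zpow_mul]
      rfl
    rw [dd_eq F.H, ← map_zpow, ← map_pow, h4, qF_apply, Subgroup.coe_zpow, F.H.hT']
  refine h 2 two_pos _ h2 sE sE_ne_one ?_
  have h4 : ((T ^ (20 * n) : AutPlus 2) : MulAut (SurfaceGroup 2)) sE = sE := by
    rw [← binc_E]; exact F.h.hT.inc_zpow _ xE
  rw [h4]

/-- The classification of the elements of `A`. -/
theorem Full.class_A (F : Full S T κ θ τ R k C K S' T' D) (a : MCG 2) (ha : a ∈ AA S T)
    (ha1 : a ≠ 1) : (∃ h ∈ AA S T, ∃ n : ℤ, a = h * dd S T ^ n * h⁻¹) ∨ IsPA a := by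
  obtain ⟨w, hw, rfl⟩ := (mem_AA a).1 ha
  have hw1 : w ≠ 1 := by
    rintro rfl
    exact ha1 (map_one _)
  rcases (F.hH _ S' T' D F.H.hk).2.2.2.2.2.2 w hw hw1 with ⟨u, hu, n, hn⟩ | htr
  · left
    refine ⟨qF S T u, Subgroup.mem_map_of_mem _ hu, n, ?_⟩
    rw [hn, map_mul, map_mul, map_inv, map_zpow, dd_eq F.H]
  · right
    exact isPA_hyp F.hHy F.hP F.h F.H w htr

theorem Full.pA (hA : StatementAmalgam) (F : Full S T κ θ τ R k C K S' T' D) :
    ∀ m ∈ Grp (AA S T) (ph θ τ), m ≠ 1 →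
    (¬ IsPA m ↔ ∃ h ∈ Grp (AA S T) (ph θ τ), ∃ n : ℤ, m = h * dd S T ^ n * h⁻¹) := by
  intro m hm hm1
  have hAle : AA S T ≤ Grp (AA S T) (ph θ τ) := le_sup_left
  have hBle : conjBy (ph θ τ) (AA S T) ≤ Grp (AA S T) (ph θ τ) := le_sup_right
  constructor
  · intro hpa
    rcases (F.pingpong hA).2.2 m hm with ⟨x, hx, a, ha, rfl⟩ | hfree
    · have ha1 : a ≠ 1 := by
        rintro rfl
        apply hm1; group
      rcases ha with ha | ha
      · rcases F.class_A a ha ha1 with ⟨u, hu, n, rfl⟩ | hp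
        · refine ⟨x * u, mul_mem hx (hAle hu), n, ?_⟩
          group
        · exact absurd (hp.conj x) hpa
      · obtain ⟨b, hb, rfl⟩ := (mem_conjBy _ a _).1 ha
        have hb1 : b ≠ 1 := by
          rintro rfl
          apply ha1; group
        rcases F.class_A b hb hb1 with ⟨u, hu, n, rfl⟩ | hp
        · refine ⟨x * (ph θ τ * u * (ph θ τ)⁻¹), mul_mem hx (hBle ((mem_conjBy _ _ _).2
            ⟨u, hu, rfl⟩)), n, ?_⟩
          have hc : ph θ τ * dd S T ^ n * (ph θ τ)⁻¹ = dd S T ^ n := by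
            rw [← conj_zpow]; congr 1; exact F.h.comm
          calc x * (ph θ τ * (u * dd S T ^ n * u⁻¹) * (ph θ τ)⁻¹) * x⁻¹
              = x * (ph θ τ * u * (ph θ τ)⁻¹) * (ph θ τ * dd S T ^ n * (ph θ τ)⁻¹) *
                (x * (ph θ τ * u * (ph θ τ)⁻¹))⁻¹ := by group
            _ = _ := by rw [hc]
        · exact absurd ((hp.conj (ph θ τ)).conj x) hpa
    · exact absurd (isPA_of_free hfree) hpa
  · rintro ⟨x, hx, n, rfl⟩ hp
    apply F.not_pA_dd n
    have := hp.conj x⁻¹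
    have h2 : x⁻¹ * (x * dd S T ^ n * x⁻¹) * x⁻¹⁻¹ = dd S T ^ n := by group
    rwa [h2] at this

/-- `A`, `d`, `φ` are admissible. -/
theorem Full.admissible (hA : StatementAmalgam) (hSu : StatementSurface)
    (F : Full S T κ θ τ R k C K S' T' D) : Admissible (AA S T) (dd S T) (ph θ τ) := by
  have hv := isVeech F.inj F.hH F.H F.hG
  have hp := F.pingpong hA
  have hle : ∀ i, Subgroup.zpowers (dd S T) ≤ Fam (AA S T) (ph θ τ) i := by
    intro i
    rw [Subgroup.zpowers_le]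
    fin_cases i
    · exact F.dd_mem
    · exact F.dd_memB
  refine ⟨hv, F.h.comm, hp.1, ⟨hle, hp.2.1 hle⟩, ?_, F.pA hA⟩
  obtain ⟨f, hf⟩ := hv.punctured
  refine hSu (MCG 2) (AA S T) (conjBy (ph θ τ) (AA S T)) (dd S T) ⟨f, hf⟩ ?_ ⟨hle, hp.2.1 hle⟩
  have hci : Function.Injective (MulAut.conj (ph θ τ)).toMonoidHom :=
    (MulAut.conj (ph θ τ)).injective
  refine ⟨f.trans (Subgroup.equivMapOfInjective (AA S T) (MulAut.conj (ph θ τ)).toMonoidHom
    hci), ?_⟩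
  change ((Subgroup.equivMapOfInjective (AA S T) (MulAut.conj (ph θ τ)).toMonoidHom
    hci (f (relator 2)) :
      (AA S T).map (MulAut.conj (ph θ τ)).toMonoidHom) : MCG 2) = _
  rw [Subgroup.coe_equivMapOfInjective_apply, hf]
  exact F.h.comm

theorem Full.torsionFree (hA : StatementAmalgam) (F : Full S T κ θ τ R k C K S' T' D)
    (g : Grp (AA S T) (ph θ τ)) (n : ℕ) (hn : 0 < n) (hg : g ^ n = 1) : g = 1 := by
  by_contra hne
  have hne' : (g : MCG 2) ≠ 1 := fun h => hne (Subtype.ext h)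
  have hg' : (g : MCG 2) ^ n = 1 := by
    have := congrArg (Subtype.val) hg
    simpa using this
  have hnp : ¬ IsPA (g : MCG 2) := by
    intro hp
    refine hp n hn 1 ?_ sE sE_ne_one (IsConj.refl _)
    rw [hg']; rfl
  obtain ⟨x, hx, k, hk⟩ := (F.pA hA g g.2 hne').1 hnp
  have h1 : (dd S T ^ k) ^ n = 1 := by
    have h2 : (x * dd S T ^ k * x⁻¹) ^ n = 1 := by rw [← hk, hg']
    rw [conj_pow] at h2
    calc (dd S T ^ k) ^ n = x⁻¹ * (x * (dd S T ^ k) ^ n * x⁻¹) * x := by group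
      _ = 1 := by rw [h2]; group
  obtain ⟨f, hf⟩ := (isVeech F.inj F.hH F.H F.hG).punctured
  have h2 : ((f (relator 2) ^ k) ^ n : AA S T) = 1 := by
    apply Subtype.ext
    push_cast
    rw [hf, h1]
  rw [← map_zpow, ← map_pow, map_eq_one_iff f f.injective] at h2
  have h3 : (relator 2) ^ k = 1 := by
    apply IsMulTorsionFree.pow_left_injective hn.ne'
    simpa using h2
  apply hne'
  rw [hk, ← hf]
  have h4 : ((f (relator 2) : AA S T) : MCG 2) ^ k = 1 := by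
    have h5 : f ((relator 2) ^ k) = 1 := by rw [h3, map_one]
    rw [map_zpow] at h5
    have h6 := congrArg Subtype.val h5
    push_cast at h6
    exact h6
  rw [h4]; group

end Run7.h347
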