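import Pool.Agent.Run7.h347.Core1

set_option autoImplicit false

/-! Reduced expressions in the genus two surface group, letter counts, slides. -/

open Pool.Agent.R708

namespace Run7.h347

/-- The value of an expression. -/
noncomputable def ev (m : F3) (l : List (Ed × F3)) : SurfaceGroup 2 := binc m * BB.P l

theorem P_cons' (e : Ed) (a : F3) (l : List (Ed × F3)) :
    BB.P ((e, a) :: l) = bt e * ev a l := by
  rw [Brit.P_cons, BB_t, BB_inc, ev, mul_assoc]

@[simp] theorem ev_nil (m : F3) : ev m [] = binc m := by simp [ev]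

theorem ev_cons (m : F3) (e : Ed) (a : F3) (l : List (Ed × F3)) :
    ev m ((e, a) :: l) = binc m * bt e * ev a l := by
  rw [ev, P_cons', mul_assoc]

theorem ev_mul (m m' : F3) (l : List (Ed × F3)) : ev (m * m') l = binc m * ev m' l := by
  rw [ev, ev, map_mul, mul_assoc]

theorem R_nil' : BB.R [] := BB.R_nil

theorem R_single' (e : Ed) (a : F3) : BB.R [(e, a)] := BB.R_single _

theorem R_cc (e f : Ed) (a b : F3) (l : List (Ed × F3)) :
    BB.R ((e, a) :: (f, b) :: l) ↔ NonPinch e a f ∧ BB.R ((f, b) :: l) := by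
  rw [Brit.R_cons_cons, BB_A, BB_inv, NonPinch]
  constructor
  · rintro ⟨h1, h2⟩
    exact ⟨fun h h' => h1 h' h, h2⟩
  · rintro ⟨h1, h2⟩
    exact ⟨fun h h' => h1 h' h, h2⟩

theorem R_cons_change {e : Ed} {a a' : F3} {l : List (Ed × F3)} (h : BB.R ((e, a) :: l))
    (haa : ∀ f, NonPinch e a f → NonPinch e a' f) : BB.R ((e, a') :: l) := by
  cases l with
  | nil => exact R_single' _ _
  | cons x l =>
    obtain ⟨f, b⟩ := x
    rw [R_cc] at h ⊢
    exact ⟨haa f h.1, h.2⟩

theorem binc_inj : Function.Injective binc := by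
  have := BB.inj
  rwa [BB_inc] at this

/-- Uniqueness of reduced expressions, one step. -/
theorem uniq {m m' : F3} {l l' : List (Ed × F3)} (hl : BB.R l) (hl' : BB.R l')
    (h : ev m l = ev m' l') :
    (l = [] ∧ l' = [] ∧ m = m') ∨ ∃ (e : Ed) (a : F3) (l₁ : List (Ed × F3)) (a' : F3)
      (l₁' : List (Ed × F3)) (j : ℤ), l = (e, a) :: l₁ ∧ l' = (e, a') :: l₁' ∧
      m' = m * ge (einv e) ^ j ∧ ev a l₁ = ev (ge e ^ j * a') l₁' := by
  have h' : BB.inc m * BB.P l = BB.inc m' * BB.P l' := by simpa [ev] using h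
  obtain ⟨h1, h2⟩ := BB.unique_aux l' l m m' hl hl' h'
  rcases l with _ | ⟨⟨e, a⟩, l₁⟩
  · rcases l' with _ | ⟨⟨e', a'⟩, l₁'⟩
    · left
      refine ⟨rfl, rfl, binc_inj ?_⟩
      simpa using h
    · simp at h1
  · rcases l' with _ | ⟨⟨e', a'⟩, l₁'⟩
    · simp at h1
    · right
      obtain ⟨h3, h4⟩ := h2 (e, a) (by simp) (e', a') (by simp)
      simp only at h3 h4
      subst h3
      rw [BB_A, BB_inv] at h4
      obtain ⟨j, hj⟩ := h4
      simp only at hj
      have hm : m' = m * ge (einv e) ^ j := by rw [hj]; group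
      refine ⟨e, a, l₁, a', l₁', j, rfl, rfl, hm, ?_⟩
      rw [ev_cons, ev_cons, hm, map_mul, mul_assoc (binc m), mul_assoc (binc m),
        ← ge_rel_zpow, mul_assoc (binc m)] at h
      have h5 := mul_left_cancel h
      rw [mul_assoc] at h5
      rw [ev_mul]
      exact mul_left_cancel h5

/-- The number of letters of type `i`. -/
def cn (i : Fin 2) (l : List (Ed × F3)) : ℕ := l.countP fun x => x.1.1 = i

@[simp] theorem cn_nil (i : Fin 2) : cn i [] = 0 := rfl

theorem cn_cons (i : Fin 2) (e : Ed) (a : F3) (l : List (Ed × F3)) :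
    cn i ((e, a) :: l) = cn i l + if e.1 = i then 1 else 0 := by
  simp [cn, List.countP_cons]

theorem exists_ev (g : SurfaceGroup 2) : ∃ (m : F3) (l : List (Ed × F3)), BB.R l ∧ g = ev m l := by
  obtain ⟨m, l, h1, h2⟩ := BB.hasRed g
  exact ⟨m, l, h1, by simpa [ev] using h2⟩

/-- The number of letters of type `i` of the reduced form. -/
noncomputable def c (i : Fin 2) (g : SurfaceGroup 2) : ℕ := cn i (exists_ev g).choose_spec.choose

theorem cn_unique (i : Fin 2) (l : List (Ed × F3)) : ∀ (m m' : F3) (l' : List (Ed × F3)),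
    BB.R l → BB.R l' → ev m l = ev m' l' → cn i l = cn i l' := by
  induction l with
  | nil =>
    intro m m' l' hl hl' h
    rcases uniq hl hl' h with ⟨_, h2, _⟩ | ⟨e, a, l₁, a', l₁', j, h1, _⟩
    · rw [h2]
    · simp at h1
  | cons x l ih =>
    intro m m' l' hl hl' h
    rcases uniq hl hl' h with ⟨h1, _, _⟩ | ⟨e, a, l₁, a', l₁', j, h1, h2, h3, h4⟩
    · simp at h1
    · rw [List.cons.injEq] at h1
      obtain ⟨rfl, rfl⟩ := h1
      subst h2
      rw [cn_cons, cn_cons, ih a (ge e ^ j * a') l₁' (BB.R_tail hl) (BB.R_tail hl') h4]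

theorem c_eq (i : Fin 2) {m : F3} {l : List (Ed × F3)} (hl : BB.R l) : c i (ev m l) = cn i l := by
  have h := (exists_ev (ev m l)).choose_spec.choose_spec
  exact (cn_unique i l _ _ _ hl h.1 h.2).symm

@[simp] theorem c_binc (i : Fin 2) (m : F3) : c i (binc m) = 0 := by
  rw [← ev_nil, c_eq i R_nil']; rfl

@[simp] theorem c_one (i : Fin 2) : c i 1 = 0 := by
  rw [← map_one binc, c_binc]

theorem c_binc_mul (i : Fin 2) (m : F3) (g : SurfaceGroup 2) : c i (binc m * g) = c i g := by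
  obtain ⟨m', l, hl, rfl⟩ := exists_ev g
  rw [← ev_mul, c_eq i hl, c_eq i hl]

theorem not_nonPinch {e f : Ed} {a : F3} (h : ¬ NonPinch e a f) :
    f = einv e ∧ ∃ j : ℤ, a = ge e ^ j := by
  rw [NonPinch] at h
  push Not at h
  obtain ⟨h1, j, hj⟩ := h
  exact ⟨h1, j, hj.symm⟩

theorem einv_einv (e : Ed) : einv (einv e) = e := by simp [einv]

/-- Left multiplication by a letter: the two cases. -/
theorem bt_mul (e : Ed) (m : F3) (l : List (Ed × F3)) (hl : BB.R l) :
    BB.R ((e, m) :: l) ∨ ∃ (a : F3) (l₁ : List (Ed × F3)) (j : ℤ), l = (einv e, a) :: l₁ ∧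
      m = ge e ^ j ∧ BB.R l₁ ∧ bt e * ev m l = ev (ge (einv e) ^ j * a) l₁ := by
  rcases l with _ | ⟨⟨f, a⟩, l₁⟩
  · left; exact R_single' _ _
  · by_cases h : NonPinch e m f
    · left
      rw [R_cc]
      exact ⟨h, hl⟩
    · right
      obtain ⟨rfl, j, rfl⟩ := not_nonPinch h
      refine ⟨a, l₁, j, rfl, rfl, BB.R_tail hl, ?_⟩
      rw [ev_cons, ev_mul, bt_inv, ← mul_assoc, ← mul_assoc, ge_rel_zpow]
      group

theorem bt_mul_ev (e : Ed) (m : F3) (l : List (Ed × F3)) :
    bt e * ev m l = ev 1 ((e, m) :: l) := by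
  rw [ev_cons, map_one, one_mul]

theorem c_bt_mul (i : Fin 2) (e : Ed) (g : SurfaceGroup 2) :
    c i (bt e * g) ≤ c i g + if e.1 = i then 1 else 0 := by
  obtain ⟨m, l, hl, rfl⟩ := exists_ev g
  rcases bt_mul e m l hl with h | ⟨a, l₁, j, rfl, rfl, hl₁, h⟩
  · rw [bt_mul_ev, c_eq i h, c_eq i hl, cn_cons]
  · rw [h, c_eq i hl, c_eq i hl₁, cn_cons]
    omega

theorem c_P_mul (i : Fin 2) (l : List (Ed × F3)) (g : SurfaceGroup 2) :
    c i (BB.P l * g) ≤ cn i l + c i g := by
  induction l with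
  | nil => simp
  | cons x l ih =>
    obtain ⟨e, a⟩ := x
    rw [P_cons', cn_cons, ev, mul_assoc]
    refine (c_bt_mul i e _).trans ?_
    rw [mul_assoc, c_binc_mul]
    omega

theorem c_mul (i : Fin 2) (x y : SurfaceGroup 2) : c i (x * y) ≤ c i x + c i y := by
  obtain ⟨m, l, hl, rfl⟩ := exists_ev x
  rw [ev, mul_assoc, c_binc_mul, ← ev, c_eq i hl]
  exact c_P_mul i l y

theorem c_bt (i : Fin 2) (e : Ed) : c i (bt e) = if e.1 = i then 1 else 0 := by
  have : bt e = ev 1 [(e, 1)] := by rw [ev_cons]; simp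
  rw [this, c_eq i (R_single' _ _), cn_cons]
  simp

theorem c_inv_le (i : Fin 2) (l : List (Ed × F3)) : ∀ m : F3, c i (ev m l)⁻¹ ≤ cn i l := by
  induction l with
  | nil => intro m; rw [ev_nil, ← map_inv, c_binc]; exact le_rfl
  | cons x l ih =>
    obtain ⟨e, a⟩ := x
    intro m
    rw [ev_cons, mul_inv_rev, mul_inv_rev, ← bt_inv, ← map_inv, cn_cons]
    refine (c_mul i _ _).trans ?_
    refine Nat.add_le_add (ih a) ?_
    refine (c_mul i _ _).trans ?_
    rw [c_bt, c_binc]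
    exact le_rfl

theorem c_inv (i : Fin 2) (g : SurfaceGroup 2) : c i g⁻¹ = c i g := by
  have key : ∀ g, c i g⁻¹ ≤ c i g := by
    intro g
    obtain ⟨m, l, hl, rfl⟩ := exists_ev g
    rw [c_eq i hl]
    exact c_inv_le i l m
  refine le_antisymm (key g) ?_
  have := key g⁻¹
  rwa [inv_inv] at this

end Run7.h347
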