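import Pool.Agent.Run7.h347.Core2

set_option autoImplicit false

/-! Slides and costs. -/

open Pool.Agent.R708

namespace Run7.h347

/-! ### Norms on the free group -/

theorem countP_reduce {α : Type} [DecidableEq α] (p : α × Bool → Bool) (L : List (α × Bool)) :
    (FreeGroup.reduce L).countP p ≤ L.countP p :=
  (FreeGroup.reduce.red (L := L)).sublist.countP_le

theorem cntw_mul (p : Fin 3 × Bool → Bool) (x y : F3) :
    (x * y).toWord.countP p ≤ x.toWord.countP p + y.toWord.countP p := by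
  rw [← List.countP_append]
  have : (x * y).toWord = FreeGroup.reduce (x.toWord ++ y.toWord) := by
    rw [FreeGroup.toWord_mul]
  rw [this]
  exact countP_reduce _ _

theorem nrm1_mul (x y : F3) : nrm1 (x * y) ≤ nrm1 x + nrm1 y := cntw_mul _ x y

theorem nrm2_mul (x y : F3) : nrm2 (x * y) ≤ nrm2 x + nrm2 y := cntw_mul _ x y

theorem countP_invRev (p : Fin 3 × Bool → Bool) (hp : ∀ a b, p (a, b) = p (a, !b))
    (L : List (Fin 3 × Bool)) : (FreeGroup.invRev L).countP p = L.countP p := by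
  rw [FreeGroup.invRev, List.countP_reverse, List.countP_map]
  apply List.countP_congr
  intro x _
  obtain ⟨a, b⟩ := x
  simp [hp a b]

theorem nrm1_inv (x : F3) : nrm1 x⁻¹ = nrm1 x := by
  rw [nrm1, FreeGroup.toWord_inv, countP_invRev _ (by intro a b; rfl)]; rfl

theorem nrm2_inv (x : F3) : nrm2 x⁻¹ = nrm2 x := by
  rw [nrm2, FreeGroup.toWord_inv, countP_invRev _ (by intro a b; rfl)]; rfl

@[simp] theorem nrm1_one : nrm1 1 = 0 := rfl
@[simp] theorem nrm2_one : nrm2 1 = 0 := rfl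
@[simp] theorem nrm1_E : nrm1 xE = 1 := rfl
@[simp] theorem nrm1_F : nrm1 xF = 1 := rfl
@[simp] theorem nrm1_D : nrm1 xD = 0 := rfl
@[simp] theorem nrm2_E : nrm2 xE = 0 := rfl
@[simp] theorem nrm2_F : nrm2 xF = 0 := rfl
@[simp] theorem nrm2_D : nrm2 xD = 1 := rfl

/-- A norm: one of the two. -/
structure Nm (n : F3 → ℕ) : Prop where
  mul : ∀ x y, n (x * y) ≤ n x + n y
  inv : ∀ x, n x⁻¹ = n x
  one : n 1 = 0

theorem nm1 : Nm nrm1 := ⟨nrm1_mul, nrm1_inv, nrm1_one⟩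
theorem nm2 : Nm nrm2 := ⟨nrm2_mul, nrm2_inv, nrm2_one⟩

/-! ### Positions -/

/-- The period of the positions. -/
def per (e : Ed) : ℤ := if e.1 = 0 then 1 else 2

@[simp] theorem per_einv (e : Ed) : per (einv e) = per e := rfl

theorem ge_pos (e : Ed) (j k : ℤ) : ge e ^ j * pos e k = pos e (k + per e * j) := by
  rw [pos, pos, ge, per]
  split_ifs with h1 h2 h3 h4
  · rw [← zpow_add, add_comm, one_mul]
  · rw [mul_one, mul_one, ← zpow_add]
    congr 1; omega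
  · omega
  · omega
  · rw [← mul_assoc, ← zpow_add]
    congr 2; omega

@[simp] theorem pos_zero (e : Ed) : pos e 0 = 1 := by
  rw [pos]; split_ifs with h1 h2
  · simp
  · simp
  · exact absurd rfl h2

theorem pos_per (e : Ed) (j : ℤ) : pos e (per e * j) = ge e ^ j := by
  have := ge_pos e j 0
  rw [pos_zero, mul_one, zero_add] at this
  exact this.symm

theorem pos_shift (e : Ed) (j k : ℤ) : (pos e k)⁻¹ * ge e ^ j = (pos e (k - per e * j))⁻¹ := by
  have h := ge_pos e (-j) k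
  have h2 : k + per e * -j = k - per e * j := by ring
  rw [h2] at h
  rw [← h, mul_inv_rev, zpow_neg, inv_inv]

/-! ### Costs -/

/-- The cost of an expression with slides `k`. -/
def dc (n : F3 → ℕ) : F3 → List (Ed × F3) → (ℕ → ℤ) → ℕ
  | m, [], _ => n m
  | m, (e, a) :: l, k => n (m * pos (einv e) (k 0)) + dc n ((pos e (k 0))⁻¹ * a) l fun i => k (i + 1)

/-- Adding a slide in front. -/
def pcons (x : ℤ) (k : ℕ → ℤ) : ℕ → ℤ := fun i => Nat.casesOn i x k

@[simp] theorem pcons_zero (x : ℤ) (k : ℕ → ℤ) : pcons x k 0 = x := rfl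
@[simp] theorem pcons_succ (x : ℤ) (k : ℕ → ℤ) (i : ℕ) : pcons x k (i + 1) = k i := rfl
theorem pcons_tail (x : ℤ) (k : ℕ → ℤ) : (fun i => pcons x k (i + 1)) = k := rfl

/-- Cheap expressions. -/
def Ach (g : SurfaceGroup 2) (n₁ n₂ : ℕ) : Prop :=
  ∃ (m : F3) (l : List (Ed × F3)) (k : ℕ → ℤ), BB.R l ∧ ev m l = g ∧ dc nrm1 m l k ≤ n₁ ∧
    dc nrm2 m l k ≤ n₂

theorem dc_mul {n : F3 → ℕ} (hn : Nm n) (x m : F3) (l : List (Ed × F3)) (k : ℕ → ℤ) :
    dc n (x * m) l k ≤ n x + dc n m l k := by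
  rcases l with _ | ⟨⟨e, a⟩, l⟩
  · exact hn.mul x m
  · rw [dc, dc, mul_assoc]
    have := hn.mul x (m * pos (einv e) (k 0))
    omega

theorem Ach.binc_mul {g : SurfaceGroup 2} {n₁ n₂ : ℕ} (h : Ach g n₁ n₂) (x : F3) :
    Ach (binc x * g) (nrm1 x + n₁) (nrm2 x + n₂) := by
  obtain ⟨m, l, k, hl, rfl, h1, h2⟩ := h
  refine ⟨x * m, l, k, hl, ev_mul _ _ _, ?_, ?_⟩
  · have := dc_mul nm1 x m l k; omega
  · have := dc_mul nm2 x m l k; omega

theorem Ach.mono {g : SurfaceGroup 2} {n₁ n₂ n₁' n₂' : ℕ} (h : Ach g n₁ n₂) (h1 : n₁ ≤ n₁')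
    (h2 : n₂ ≤ n₂') : Ach g n₁' n₂' := by
  obtain ⟨m, l, k, hl, h, h3, h4⟩ := h
  exact ⟨m, l, k, hl, h, h3.trans h1, h4.trans h2⟩

theorem Ach.one : Ach 1 0 0 := ⟨1, [], fun _ => 0, R_nil', by simp, by simp [dc], by simp [dc]⟩

/-- Vertical letters. -/
noncomputable def vt (e : Ed) (k : ℤ) : SurfaceGroup 2 :=
  binc (pos (einv e) k)⁻¹ * bt e * binc (pos e k)

/-- The symmetry exchanging `E` and `F`. -/
noncomputable def sw : F3 →* F3 := FreeGroup.map (Equiv.swap 0 1)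

theorem cnt_sw (p : Fin 3 × Bool → Bool) (hp : ∀ a b, p (Equiv.swap 0 1 a, b) = p (a, b))
    (x : F3) : (sw x).toWord.countP p ≤ x.toWord.countP p := by
  conv_lhs => rw [← FreeGroup.mk_toWord (x := x)]
  rw [sw, FreeGroup.map.mk, FreeGroup.toWord_mk]
  refine (countP_reduce _ _).trans ?_
  rw [List.countP_map]
  apply le_of_eq
  apply List.countP_congr
  intro y _
  obtain ⟨a, b⟩ := y
  simp [hp a b]

/-- A norm symmetric under the exchange. -/
structure Nm' (n : F3 → ℕ) : Prop extends Nm n where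
  sw : ∀ x, n (sw x) ≤ n x

theorem nm1' : Nm' nrm1 := ⟨nm1, fun x => cnt_sw _ (by decide) x⟩
theorem nm2' : Nm' nrm2 := ⟨nm2, fun x => cnt_sw _ (by decide) x⟩

@[simp] theorem sw_E : sw xE = xF := by simp [sw, xE, xF]
@[simp] theorem sw_F : sw xF = xE := by simp [sw, xE, xF]
@[simp] theorem sw_D : sw xD = xD := by
  simp only [sw, xD, FreeGroup.map.of]
  congr 1

theorem sw_hd (e : Ed) : sw (hd e) = hd (einv e) := by
  obtain ⟨i, u⟩ := e
  rcases Int.units_eq_one_or u with rfl | rfl <;> fin_cases i <;> simp [hd, einv]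

theorem sw_pos (e : Ed) (k : ℤ) : sw (pos e k) = pos (einv e) k := by
  rw [pos, pos]
  by_cases h : e.1 = 0
  · rw [if_pos h, if_pos (show (einv e).1 = 0 from h), map_zpow, sw_hd]
  · rw [if_neg h, if_neg (show ¬ (einv e).1 = 0 from h), map_mul, map_zpow, map_mul, sw_hd, sw_D]
    split_ifs <;> simp [sw_hd]

theorem seg_le {n : F3 → ℕ} (hn : Nm' n) (e : Ed) (k k' : ℤ) :
    n ((pos (einv e) k)⁻¹ * pos (einv e) k') ≤ n ((pos e k)⁻¹ * pos e k') := by
  rw [← sw_pos, ← sw_pos, ← map_inv, ← map_mul]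
  exact hn.sw _

theorem ev_slide (e : Ed) (j : ℤ) (a : F3) (l : List (Ed × F3)) :
    bt e * ev (ge e ^ j * a) l = binc (ge (einv e) ^ j) * (bt e * ev a l) := by
  rw [ev_mul, ← mul_assoc, ge_rel_zpow, mul_assoc]

/-- The pinch step. -/
theorem dc_pinch {n : F3 → ℕ} (hn : Nm' n) (e : Ed) (m a : F3) (l : List (Ed × F3))
    (x j : ℤ) (k : ℕ → ℤ) (hm : pos e x * m = ge e ^ j) :
    dc n ((pos (einv e) x)⁻¹ * ge (einv e) ^ j * a) l (fun i => k (i + 1)) ≤
      dc n m ((einv e, a) :: l) k := by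
  have h1 : (pos (einv e) x)⁻¹ * ge (einv e) ^ j * a =
      ((pos (einv e) x)⁻¹ * (ge (einv e) ^ j * pos (einv e) (k 0))) *
        ((pos (einv e) (k 0))⁻¹ * a) := by group
  rw [h1, dc, einv_einv]
  refine (dc_mul hn.toNm _ _ _ _).trans ?_
  refine Nat.add_le_add_right ?_ _
  have h2 : m * pos e (k 0) = (pos e x)⁻¹ * (ge e ^ j * pos e (k 0)) := by
    rw [← hm]; group
  rw [h2, ge_pos, ge_pos, per_einv]
  exact seg_le hn e _ _

theorem Ach.vt_mul {g : SurfaceGroup 2} {n₁ n₂ : ℕ} (h : Ach g n₁ n₂) (e : Ed) (x : ℤ) :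
    Ach (vt e x * g) n₁ n₂ := by
  obtain ⟨m, l, k, hl, rfl, h1, h2⟩ := h
  have hv : vt e x * ev m l = binc (pos (einv e) x)⁻¹ * (bt e * ev (pos e x * m) l) := by
    rw [vt, ev_mul]; group
  rcases bt_mul e (pos e x * m) l hl with h | ⟨a, l₁, j, rfl, hj, hl₁, h⟩
  · refine ⟨(pos (einv e) x)⁻¹, (e, pos e x * m) :: l, pcons x k, h, ?_, ?_, ?_⟩
    · rw [hv, ev_cons, mul_assoc]
    · rw [dc, pcons_tail, pcons_zero]
      simpa using h1
    · rw [dc, pcons_tail, pcons_zero]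
      simpa using h2
  · refine ⟨(pos (einv e) x)⁻¹ * ge (einv e) ^ j * a, l₁, fun i => k (i + 1), hl₁, ?_, ?_, ?_⟩
    · rw [hv, h, mul_assoc, ev_mul]
    · exact (dc_pinch nm1' e m a l₁ x j k hj).trans h1
    · exact (dc_pinch nm2' e m a l₁ x j k hj).trans h2

/-! ### The rotation `S` -/

/-- The automorphism `S`. -/
structure IsS (S : AutPlus 2) : Prop where
  E : (S : MulAut (SurfaceGroup 2)) sE = st2
  F : (S : MulAut (SurfaceGroup 2)) sF = sF⁻¹ * st2 * sE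
  D : (S : MulAut (SurfaceGroup 2)) sD = st1
  t1 : (S : MulAut (SurfaceGroup 2)) st1 = sD⁻¹
  t2 : (S : MulAut (SurfaceGroup 2)) st2 = sF⁻¹

theorem IsS.of_vals {S : AutPlus 2} (h : Vals S st2 (sF⁻¹ * st2 * sE) st1 sD⁻¹ sF⁻¹) : IsS S :=
  ⟨h.1, h.2.1, h.2.2.1, h.2.2.2.1, h.2.2.2.2⟩

@[simp] theorem bt01 : bt (0, 1) = st1 := by simp [bt]
@[simp] theorem bt11 : bt (1, 1) = st2 := by simp [bt]
@[simp] theorem bt01' : bt (0, -1) = st1⁻¹ := by simp [bt]
@[simp] theorem bt11' : bt (1, -1) = st2⁻¹ := by simp [bt]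

theorem vt_zero (e : Ed) : vt e 0 = bt e := by simp [vt]

theorem vt_one_pos : vt (1, 1) 1 = sF⁻¹ * st2 * sE := by
  simp [vt, pos, einv, hd]

theorem vt_one_neg : vt (1, -1) 1 = sE⁻¹ * st2⁻¹ * sF := by
  simp [vt, pos, einv, hd]

variable {S : AutPlus 2}

theorem ach_S_binc (hS : IsS S) (x : F3) : ∀ (g : SurfaceGroup 2) (n₁ n₂ : ℕ), Ach g n₁ n₂ →
    Ach ((S : MulAut (SurfaceGroup 2)) (binc x) * g) n₁ n₂ := by
  have hE : (S : MulAut (SurfaceGroup 2)) (binc xE) = vt (1, 1) 0 := by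
    rw [binc_E, hS.E, vt_zero, bt11]
  have hE' : (S : MulAut (SurfaceGroup 2)) (binc xE⁻¹) = vt (1, -1) 0 := by
    rw [map_inv, map_inv, binc_E, hS.E, vt_zero, bt11']
  have hF : (S : MulAut (SurfaceGroup 2)) (binc xF) = vt (1, 1) 1 := by
    rw [binc_F, hS.F, vt_one_pos]
  have hF' : (S : MulAut (SurfaceGroup 2)) (binc xF⁻¹) = vt (1, -1) 1 := by
    rw [map_inv, map_inv, binc_F, hS.F, vt_one_neg]
    group
  have hD : (S : MulAut (SurfaceGroup 2)) (binc xD) = vt (0, 1) 0 := by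
    rw [binc_D, hS.D, vt_zero, bt01]
  have hD' : (S : MulAut (SurfaceGroup 2)) (binc xD⁻¹) = vt (0, -1) 0 := by
    rw [map_inv, map_inv, binc_D, hS.D, vt_zero, bt01']
  induction x using FreeGroup.induction_on with
  | C1 => intro g n₁ n₂ h; simpa using h
  | of i =>
    intro g n₁ n₂ h
    fin_cases i
    · change Ach ((S : MulAut (SurfaceGroup 2)) (binc xE) * g) n₁ n₂
      rw [hE]; exact h.vt_mul _ _
    · change Ach ((S : MulAut (SurfaceGroup 2)) (binc xF) * g) n₁ n₂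
      rw [hF]; exact h.vt_mul _ _
    · change Ach ((S : MulAut (SurfaceGroup 2)) (binc xD) * g) n₁ n₂
      rw [hD]; exact h.vt_mul _ _
  | inv_of i _ =>
    intro g n₁ n₂ h
    fin_cases i
    · change Ach ((S : MulAut (SurfaceGroup 2)) (binc xE⁻¹) * g) n₁ n₂
      rw [hE']; exact h.vt_mul _ _
    · change Ach ((S : MulAut (SurfaceGroup 2)) (binc xF⁻¹) * g) n₁ n₂
      rw [hF']; exact h.vt_mul _ _
    · change Ach ((S : MulAut (SurfaceGroup 2)) (binc xD⁻¹) * g) n₁ n₂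
      rw [hD']; exact h.vt_mul _ _
  | mul x y hx hy =>
    intro g n₁ n₂ h
    rw [map_mul, map_mul, mul_assoc]
    exact hx _ _ _ (hy _ _ _ h)

theorem S_bt (hS : IsS S) (e : Ed) : ∃ x : F3, (S : MulAut (SurfaceGroup 2)) (bt e) = binc x ∧
    nrm1 x = (if e.1 = 1 then 1 else 0) ∧ nrm2 x = (if e.1 = 0 then 1 else 0) := by
  obtain ⟨i, u⟩ := e
  rcases Int.units_eq_one_or u with rfl | rfl <;> fin_cases i
  · refine ⟨xD⁻¹, ?_, rfl, rfl⟩
    change (S : MulAut (SurfaceGroup 2)) (bt (0, 1)) = _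
    rw [bt01, hS.t1]; simp
  · refine ⟨xF⁻¹, ?_, rfl, rfl⟩
    change (S : MulAut (SurfaceGroup 2)) (bt (1, 1)) = _
    rw [bt11, hS.t2]; simp
  · refine ⟨xD, ?_, rfl, rfl⟩
    change (S : MulAut (SurfaceGroup 2)) (bt (0, -1)) = _
    rw [bt01', map_inv, hS.t1]; simp
  · refine ⟨xF, ?_, rfl, rfl⟩
    change (S : MulAut (SurfaceGroup 2)) (bt (1, -1)) = _
    rw [bt11', map_inv, hS.t2]; simp

/-- `X_1`: the number of crossings with the vertical curve `β₁`. -/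
noncomputable def X1 (S : AutPlus 2) (g : SurfaceGroup 2) : ℕ :=
  c 1 (((S⁻¹ : AutPlus 2) : MulAut (SurfaceGroup 2)) g)

/-- `X_2`: the number of crossings with the vertical curve `β₂`. -/
noncomputable def X2 (S : AutPlus 2) (g : SurfaceGroup 2) : ℕ :=
  c 0 (((S⁻¹ : AutPlus 2) : MulAut (SurfaceGroup 2)) g)

theorem ach_S_ev (hS : IsS S) (l : List (Ed × F3)) : ∀ m : F3,
    Ach ((S : MulAut (SurfaceGroup 2)) (ev m l)) (cn 1 l) (cn 0 l) := by
  induction l with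
  | nil =>
    intro m
    have := ach_S_binc hS m 1 0 0 Ach.one
    rw [ev_nil]
    simpa using this
  | cons x l ih =>
    obtain ⟨e, a⟩ := x
    intro m
    obtain ⟨x, hx, h1, h2⟩ := S_bt hS e
    rw [ev_cons, map_mul, map_mul, mul_assoc]
    apply ach_S_binc hS
    rw [hx]
    refine ((ih a).binc_mul x).mono ?_ ?_
    · rw [h1, cn_cons]; split_ifs <;> omega
    · rw [h2, cn_cons]; split_ifs <;> omega

theorem ach_X (hS : IsS S) (g : SurfaceGroup 2) : Ach g (X1 S g) (X2 S g) := by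
  obtain ⟨m, l, hl, h⟩ := exists_ev (((S⁻¹ : AutPlus 2) : MulAut (SurfaceGroup 2)) g)
  have h2 : g = (S : MulAut (SurfaceGroup 2)) (ev m l) := by
    rw [← h]; simp
  rw [X1, X2, h, c_eq 1 hl, c_eq 0 hl, h2]
  exact ach_S_ev hS l m

/-- Transfer of slides between reduced expressions of the same element. -/
theorem dc_transfer (l' : List (Ed × F3)) : ∀ (m m' : F3) (l : List (Ed × F3)) (k' : ℕ → ℤ),
    BB.R l → BB.R l' → ev m l = ev m' l' →
    ∃ k : ℕ → ℤ, ∀ n : F3 → ℕ, dc n m l k = dc n m' l' k' := by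
  induction l' with
  | nil =>
    intro m m' l k' hl hl' h
    rcases uniq hl hl' h with ⟨rfl, _, rfl⟩ | ⟨e, a, l₁, a', l₁', j, _, h1, _⟩
    · exact ⟨k', fun n => rfl⟩
    · simp at h1
  | cons x l' ih =>
    intro m m' l k' hl hl' h
    rcases uniq hl hl' h with ⟨_, h1, _⟩ | ⟨e, a, l₁, a', l₁', j, rfl, h2, rfl, h4⟩
    · simp at h1
    · rw [List.cons.injEq] at h2
      obtain ⟨rfl, rfl⟩ := h2
      obtain ⟨k, hk⟩ := ih ((pos e (k' 0 + per e * j))⁻¹ * a) ((pos e (k' 0))⁻¹ * a') l₁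
        (fun i => k' (i + 1)) (BB.R_tail hl) (BB.R_tail hl') (by
          rw [ev_mul, h4, ev_mul, ev_mul, ← ge_pos, mul_inv_rev, map_mul, map_inv (binc)
            (ge e ^ j)]
          group)
      refine ⟨pcons (k' 0 + per e * j) k, fun n => ?_⟩
      rw [dc, dc, pcons_tail, pcons_zero, hk n, mul_assoc m, ge_pos, per_einv]

/-- Every reduced expression has slides with simultaneously minimal costs. -/
theorem exists_slides (hS : IsS S) {m : F3} {l : List (Ed × F3)} (hl : BB.R l) :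
    ∃ k : ℕ → ℤ, dc nrm1 m l k ≤ X1 S (ev m l) ∧ dc nrm2 m l k ≤ X2 S (ev m l) := by
  obtain ⟨m', l', k', hl', h, h1, h2⟩ := ach_X hS (ev m l)
  obtain ⟨k, hk⟩ := dc_transfer l' m m' l k' hl hl' h.symm
  exact ⟨k, by rw [hk]; exact h1, by rw [hk]; exact h2⟩

end Run7.h347
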