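import Pool.Agent.Run7.h347.Core3

set_option autoImplicit false

/-! Upper bounds from letter counts; piecewise automorphisms. -/

open Pool.Agent.R708

namespace Run7.h347

/-- A real function which is subadditive and bounded on letters. -/
structure Sub (f : SurfaceGroup 2 → ℝ) : Prop where
  one : f 1 = 0
  mul : ∀ x y, f (x * y) ≤ f x + f y
  inv : ∀ x, f x⁻¹ = f x

/-- The type-dependent shape of the vertical letters. -/
theorem vt_cases (e : Ed) (k : ℤ) :
    (e.1 = 0 ∧ (vt e k = st1 ∨ vt e k = st1⁻¹)) ∨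
    (e.1 = 1 ∧ (vt e k = st2 ∨ vt e k = st2⁻¹ ∨ vt e k = sF⁻¹ * st2 * sE ∨
      vt e k = sE⁻¹ * st2⁻¹ * sF)) := by
  have hred : ∀ j, vt e (k + per e * j) = vt e k := by
    intro j
    rw [vt, vt, ← ge_pos, ← per_einv e, ← ge_pos, mul_inv_rev, map_mul, map_mul, mul_assoc,
      mul_assoc, ← mul_assoc (bt e), ge_rel_zpow, map_inv binc (ge (einv e) ^ j)]
    group
  by_cases h : e.1 = 0
  · left
    refine ⟨h, ?_⟩
    have h1 : vt e k = vt e 0 := by
      rw [← hred (-k)]
      congr 1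
      rw [per, if_pos h]; ring
    rw [h1, vt_zero]
    obtain ⟨i, u⟩ := e
    simp only at h
    subst h
    rcases Int.units_eq_one_or u with rfl | rfl <;> simp
  · right
    have h' : e.1 = 1 := by omega
    refine ⟨h', ?_⟩
    have h1 : vt e k = vt e (k % 2) := by
      rw [← hred (-(k / 2))]
      congr 1
      rw [per, if_neg h]; omega
    rw [h1]
    obtain ⟨i, u⟩ := e
    simp only at h'
    subst h'
    rcases Int.emod_two_eq_zero_or_one k with h2 | h2 <;> rw [h2] <;>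
      rcases Int.units_eq_one_or u with rfl | rfl
    · rw [vt_zero]; simp
    · rw [vt_zero]; simp
    · rw [vt_one_pos]; simp
    · rw [vt_one_neg]; simp

/-- Bounds on the letters. -/
structure Bd (f : SurfaceGroup 2 → ℝ) (α β γ δ : ℝ) : Prop where
  E : f sE ≤ α
  F : f sF ≤ α
  D : f sD ≤ β
  t1 : f st1 ≤ γ
  t2 : f st2 ≤ δ
  s2 : f (sF⁻¹ * st2 * sE) ≤ δ

theorem Bd.vt_le {f : SurfaceGroup 2 → ℝ} (hf : Sub f) {α β γ δ : ℝ} (h : Bd f α β γ δ) (e : Ed)
    (k : ℤ) : f (vt e k) ≤ if e.1 = 0 then γ else δ := by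
  rcases vt_cases e k with ⟨h1, h2⟩ | ⟨h1, h2⟩
  · rw [if_pos h1]
    rcases h2 with h2 | h2
    · rw [h2]; exact h.t1
    · rw [h2, hf.inv]; exact h.t1
  · rw [if_neg (by rw [h1]; decide)]
    rcases h2 with h2 | h2 | h2 | h2
    · rw [h2]; exact h.t2
    · rw [h2, hf.inv]; exact h.t2
    · rw [h2]; exact h.s2
    · have : sE⁻¹ * st2⁻¹ * sF = (sF⁻¹ * st2 * sE)⁻¹ := by group
      rw [h2, this, hf.inv]; exact h.s2

theorem Bd.mk_le {f : SurfaceGroup 2 → ℝ} (hf : Sub f) {α β γ δ : ℝ} (h : Bd f α β γ δ)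
    (L : List (Fin 3 × Bool)) : f (binc (FreeGroup.mk L)) ≤
      α * (L.countP fun y => y.1 ≠ 2 : ℕ) + β * (L.countP fun y => y.1 = 2 : ℕ) := by
  induction L with
  | nil =>
    have : (FreeGroup.mk [] : F3) = 1 := rfl
    rw [this, map_one, hf.one]; simp
  | cons x L ih =>
    obtain ⟨i, b⟩ := x
    have h1 : (FreeGroup.mk ((i, b) :: L) : F3) = FreeGroup.mk [(i, b)] * FreeGroup.mk L := rfl
    rw [h1, map_mul, List.countP_cons, List.countP_cons]
    refine (hf.mul _ _).trans ?_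
    have h2 : f (binc (FreeGroup.mk [(i, b)])) ≤ if i = 2 then β else α := by
      have h3 : (FreeGroup.mk [(i, b)] : F3) = FreeGroup.of i ∨
          (FreeGroup.mk [(i, b)] : F3) = (FreeGroup.of i)⁻¹ := by
        cases b
        · right; rfl
        · left; rfl
      have h4 : f (binc (FreeGroup.mk [(i, b)])) = f (binc (FreeGroup.of i)) := by
        rcases h3 with h3 | h3 <;> rw [h3]
        rw [map_inv, hf.inv]
      rw [h4]
      fin_cases i
      · rw [if_neg (by decide)]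
        change f (binc xE) ≤ α
        rw [binc_E]; exact h.E
      · rw [if_neg (by decide)]
        change f (binc xF) ≤ α
        rw [binc_F]; exact h.F
      · rw [if_pos (by decide)]
        change f (binc xD) ≤ β
        rw [binc_D]; exact h.D
    by_cases hi : i = 2
    · subst hi
      simp only [ne_eq, not_true_eq_false, decide_false, Bool.false_eq_true, ↓reduceIte, add_zero,
        decide_true, Nat.cast_add, Nat.cast_one] at h2 ⊢
      linarith
    · simp only [ne_eq, hi, not_false_eq_true, decide_true, ↓reduceIte, decide_false,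
        Bool.false_eq_true, add_zero, Nat.cast_add, Nat.cast_one] at h2 ⊢
      linarith

theorem Bd.binc_le {f : SurfaceGroup 2 → ℝ} (hf : Sub f) {α β γ δ : ℝ} (h : Bd f α β γ δ)
    (x : F3) : f (binc x) ≤ α * nrm1 x + β * nrm2 x := by
  have := h.mk_le hf x.toWord
  rwa [FreeGroup.mk_toWord] at this

theorem Bd.ev_le {f : SurfaceGroup 2 → ℝ} (hf : Sub f) {α β γ δ : ℝ} (h : Bd f α β γ δ)
    (l : List (Ed × F3)) : ∀ (m : F3) (k : ℕ → ℤ), f (ev m l) ≤ α * dc nrm1 m l k +
      β * dc nrm2 m l k + γ * cn 0 l + δ * cn 1 l := by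
  induction l with
  | nil =>
    intro m k
    rw [ev_nil]
    have := h.binc_le hf m
    simpa [dc] using this
  | cons x l ih =>
    obtain ⟨e, a⟩ := x
    intro m k
    have h1 : ev m ((e, a) :: l) = binc (m * pos (einv e) (k 0)) *
        (vt e (k 0) * ev ((pos e (k 0))⁻¹ * a) l) := by
      rw [ev_cons, ev_mul, vt]
      simp only [map_mul, map_inv]
      group
    rw [h1]
    have h2 := hf.mul (binc (m * pos (einv e) (k 0)))
      (vt e (k 0) * ev ((pos e (k 0))⁻¹ * a) l)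
    have h3 := hf.mul (vt e (k 0)) (ev ((pos e (k 0))⁻¹ * a) l)
    have h4 := h.binc_le hf (m * pos (einv e) (k 0))
    have h5 := h.vt_le hf e (k 0)
    have h6 := ih ((pos e (k 0))⁻¹ * a) (fun i => k (i + 1))
    rw [dc, dc, cn_cons, cn_cons]
    push_cast
    by_cases hi : e.1 = 0
    · have hi' : ¬ e.1 = 1 := by omega
      simp only [hi, ↓reduceIte, zero_ne_one] at h5 ⊢
      linarith
    · have hi' : e.1 = 1 := by omega
      simp only [hi', ↓reduceIte, one_ne_zero] at h5 ⊢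
      linarith

variable {S : AutPlus 2}

/-- The upper bound. -/
theorem Bd.le {f : SurfaceGroup 2 → ℝ} (hf : Sub f) {α β γ δ : ℝ} (h : Bd f α β γ δ)
    (hα : 0 ≤ α) (hβ : 0 ≤ β) (hS : IsS S) (g : SurfaceGroup 2) :
    f g ≤ α * X1 S g + β * X2 S g + γ * c 0 g + δ * c 1 g := by
  obtain ⟨m, l, hl, rfl⟩ := exists_ev g
  obtain ⟨k, h1, h2⟩ := exists_slides hS (m := m) hl
  refine (h.ev_le hf l m k).trans ?_
  rw [c_eq 0 hl, c_eq 1 hl]
  have h3 : α * (dc nrm1 m l k : ℝ) ≤ α * (X1 S (ev m l) : ℝ) :=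
    mul_le_mul_of_nonneg_left (by exact_mod_cast h1) hα
  have h4 : β * (dc nrm2 m l k : ℝ) ≤ β * (X2 S (ev m l) : ℝ) :=
    mul_le_mul_of_nonneg_left (by exact_mod_cast h2) hβ
  linarith

/-- The functions `c i ∘ θ` are subadditive. -/
theorem sub_c (i : Fin 2) (θ : MulAut (SurfaceGroup 2)) :
    Sub fun g => (c i (θ g) : ℝ) where
  one := by simp
  mul x y := by
    rw [map_mul]
    exact_mod_cast c_mul i _ _
  inv x := by rw [map_inv, c_inv]

theorem sub_X1 (θ : MulAut (SurfaceGroup 2)) : Sub fun g => (X1 S (θ g) : ℝ) := by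
  have := sub_c 1 (((S⁻¹ : AutPlus 2) : MulAut (SurfaceGroup 2)) * θ)
  simpa [X1] using this

theorem sub_X2 (θ : MulAut (SurfaceGroup 2)) : Sub fun g => (X2 S (θ g) : ℝ) := by
  have := sub_c 0 (((S⁻¹ : AutPlus 2) : MulAut (SurfaceGroup 2)) * θ)
  simpa [X2] using this

/-- General linear bound. -/
theorem exists_bound (hS : IsS S) (i : Fin 2) (θ : MulAut (SurfaceGroup 2)) :
    ∃ C : ℝ, 0 ≤ C ∧ ∀ g, (c i (θ g) : ℝ) ≤ C * (X1 S g + X2 S g + c 0 g + c 1 g) := by
  let f : SurfaceGroup 2 → ℝ := fun g => (c i (θ g) : ℝ)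
  have hf0 : ∀ g, 0 ≤ f g := fun g => Nat.cast_nonneg _
  let C := f sE + f sF + f sD + f st1 + f st2 + f (sF⁻¹ * st2 * sE)
  have h1 := hf0 sE
  have h2 := hf0 sF
  have h3 := hf0 sD
  have h4 := hf0 st1
  have h5 := hf0 st2
  have h6 := hf0 (sF⁻¹ * st2 * sE)
  have hC : 0 ≤ C := by simp only [C]; positivity
  have hb : Bd f C C C C := by
    constructor <;> simp only [C] <;> linarith
  refine ⟨C, hC, fun g => ?_⟩
  have := hb.le (sub_c i θ) hC hC hS g
  change f g ≤ _
  linarith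

end Run7.h347
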