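import Pool.Agent.Run7.h347.Core4

set_option autoImplicit false

/-! Piecewise automorphisms and the twist inequality. -/

open Pool.Agent.R708

namespace Run7.h347

/-- An automorphism which respects the splitting. -/
structure PW (θ : MulAut (SurfaceGroup 2)) (p : Ed → Ed) (F : F3 →* F3) (U V : Ed → F3) :
    Prop where
  surj : Function.Surjective F
  inc : ∀ x, θ (binc x) = binc (F x)
  t : ∀ e, θ (bt e) = binc (U e) * bt (p e) * binc (V e)
  fst : ∀ e, (p e).1 = e.1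
  pinv : ∀ e, p (einv e) = einv (p e)
  inj : Function.Injective p

/-- The left correction of the head. -/
def hdU (U : Ed → F3) : List (Ed × F3) → F3
  | [] => 1
  | (e, _) :: _ => U e

/-- The image of a list. -/
def mp (p : Ed → Ed) (F : F3 →* F3) (U V : Ed → F3) : List (Ed × F3) → List (Ed × F3)
  | [] => []
  | (e, a) :: l => (p e, V e * (F a * hdU U l)) :: mp p F U V l

variable {θ : MulAut (SurfaceGroup 2)} {p : Ed → Ed} {F : F3 →* F3} {U V : Ed → F3}

theorem PW.ev (h : PW θ p F U V) (l : List (Ed × F3)) : ∀ m : F3,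
    θ (ev m l) = ev (F m * hdU U l) (mp p F U V l) := by
  induction l with
  | nil => intro m; rw [ev_nil, h.inc]; simp [hdU, mp]
  | cons x l ih =>
    obtain ⟨e, a⟩ := x
    intro m
    rw [ev_cons, map_mul, map_mul, h.inc, h.t, ih, mp, ev_cons, hdU, ev_mul (V e), map_mul]
    group

theorem PW.nonPinch (h : PW θ p F U V) {e f : Ed} {a : F3} (hn : NonPinch e a f) :
    NonPinch (p e) (V e * (F a * U f)) (p f) := by
  by_contra hc
  obtain ⟨h1, j, h2⟩ := not_nonPinch hc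
  rw [← h.pinv] at h1
  have h3 := h.inj h1
  subst h3
  obtain ⟨y, hy⟩ := h.surj (U e * ge (einv (p e)) ^ j * V (einv e))
  have h4 : θ (binc y) = θ (bt e * binc a * bt (einv e)) := by
    rw [h.inc, hy, map_mul θ, map_mul θ, h.t, h.t, h.inc, h.pinv, bt_inv (p e)]
    have h5 : binc (V e) * binc (F a) * binc (U (einv e)) = binc (ge (p e) ^ j) := by
      rw [← map_mul, ← map_mul, mul_assoc, h2]
    calc binc (U e * ge (einv (p e)) ^ j * V (einv e))
        = binc (U e) * (binc (ge (einv (p e)) ^ j) * bt (p e)) * (bt (p e))⁻¹ *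
            binc (V (einv e)) := by rw [map_mul, map_mul]; group
      _ = binc (U e) * bt (p e) * (binc (V e) * binc (F a) * binc (U (einv e))) *
            (bt (p e))⁻¹ * binc (V (einv e)) := by rw [← ge_rel_zpow, h5]; group
      _ = _ := by group
  have h5 : binc y = Run7.h347.ev 1 [(e, a), (einv e, 1)] := by
    rw [θ.injective h4, ev_cons, ev_cons]; simp [mul_assoc]
  have h6 : BB.R [(e, a), (einv e, 1)] := by
    rw [R_cc]
    exact ⟨hn, R_single' _ _⟩
  have h7 := c_eq e.1 (m := 1) h6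
  rw [← h5, c_binc, cn_cons, cn_cons] at h7
  simp at h7

theorem PW.R (h : PW θ p F U V) (l : List (Ed × F3)) (hl : BB.R l) : BB.R (mp p F U V l) := by
  induction l with
  | nil => exact R_nil'
  | cons x l ih =>
    obtain ⟨e, a⟩ := x
    rcases l with _ | ⟨⟨f, b⟩, l⟩
    · exact R_single' _ _
    · rw [R_cc] at hl
      have := ih hl.2
      rw [mp, mp] at *
      rw [R_cc]
      exact ⟨h.nonPinch hl.1, this⟩

theorem PW.cn (h : PW θ p F U V) (i : Fin 2) (l : List (Ed × F3)) :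
    cn i (mp p F U V l) = cn i l := by
  induction l with
  | nil => rfl
  | cons x l ih =>
    obtain ⟨e, a⟩ := x
    rw [mp, cn_cons, cn_cons, ih, h.fst]

theorem PW.c (h : PW θ p F U V) (i : Fin 2) (g : SurfaceGroup 2) : c i (θ g) = c i g := by
  obtain ⟨m, l, hl, rfl⟩ := exists_ev g
  rw [h.ev, c_eq i (h.R l hl), c_eq i hl, h.cn]

/-! ### The multitwist -/

/-- The automorphism `T`. -/
structure IsT (T : AutPlus 2) : Prop where
  E : (T : MulAut (SurfaceGroup 2)) sE = sE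
  F : (T : MulAut (SurfaceGroup 2)) sF = sF
  D : (T : MulAut (SurfaceGroup 2)) sD = sD
  t1 : (T : MulAut (SurfaceGroup 2)) st1 = sE * st1
  t2 : (T : MulAut (SurfaceGroup 2)) st2 = sF * sD * st2

theorem IsT.of_vals {T : AutPlus 2} (h : Vals T sE sF sD (sE * st1) (sF * sD * st2)) : IsT T :=
  ⟨h.1, h.2.1, h.2.2.1, h.2.2.2.1, h.2.2.2.2⟩

theorem hom_ext_binc {H : Type} [Group H] {f g : F3 →* H} (hE : f xE = g xE) (hF : f xF = g xF)
    (hD : f xD = g xD) : f = g := by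
  apply FreeGroup.ext_hom
  intro i
  fin_cases i
  · exact hE
  · exact hF
  · exact hD

variable {S T : AutPlus 2}

theorem IsT.inc (hT : IsT T) (x : F3) : (T : MulAut (SurfaceGroup 2)) (binc x) = binc x := by
  have : ((T : MulAut (SurfaceGroup 2)).toMonoidHom).comp binc = binc := by
    apply hom_ext_binc
    · simpa using hT.E
    · simpa using hT.F
    · simpa using hT.D
  exact DFunLike.congr_fun this x

theorem IsT.t (hT : IsT T) (e : Ed) :
    (T : MulAut (SurfaceGroup 2)) (bt e) = bt e * binc (ge e ^ (e.2 : ℤ)) := by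
  have h1 := ge_rel (0, 1)
  have h2 := ge_rel (1, 1)
  obtain ⟨i, u⟩ := e
  rcases Int.units_eq_one_or u with rfl | rfl <;> fin_cases i
  · change (T : MulAut (SurfaceGroup 2)) (bt (0, 1)) = bt (0, 1) * binc (ge (0, 1) ^ (1 : ℤ))
    rw [zpow_one, h1, bt01, hT.t1]
    simp [ge, hd, einv]
  · change (T : MulAut (SurfaceGroup 2)) (bt (1, 1)) = bt (1, 1) * binc (ge (1, 1) ^ (1 : ℤ))
    rw [zpow_one, h2, bt11, hT.t2]
    simp [ge, hd, einv]
  · change (T : MulAut (SurfaceGroup 2)) (bt (0, -1)) = bt (0, -1) * binc (ge (0, -1) ^ (-1 : ℤ))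
    rw [bt01', map_inv, hT.t1]
    simp [ge, hd]
  · change (T : MulAut (SurfaceGroup 2)) (bt (1, -1)) = bt (1, -1) * binc (ge (1, -1) ^ (-1 : ℤ))
    rw [bt11', map_inv, hT.t2]
    simp [ge, hd]

theorem IsT.inc_zpow (hT : IsT T) (n : ℤ) (x : F3) :
    ((T ^ n : AutPlus 2) : MulAut (SurfaceGroup 2)) (binc x) = binc x := by
  have h : T ∈ (MulAction.stabilizer (AutPlus 2) (binc x) : Subgroup (AutPlus 2)) := by
    rw [MulAction.mem_stabilizer_iff]
    exact hT.inc x
  exact zpow_mem h n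

theorem IsT.t_nat (hT : IsT T) (n : ℕ) (e : Ed) :
    ((T ^ n : AutPlus 2) : MulAut (SurfaceGroup 2)) (bt e) =
      bt e * binc (ge e ^ ((e.2 : ℤ) * n)) := by
  induction n with
  | zero => simp
  | succ n ih =>
    rw [pow_succ']
    have : ((T * T ^ n : AutPlus 2) : MulAut (SurfaceGroup 2)) (bt e) =
      (T : MulAut (SurfaceGroup 2)) (((T ^ n : AutPlus 2) : MulAut (SurfaceGroup 2)) (bt e)) := rfl
    rw [this, ih, map_mul, hT.t, hT.inc, mul_assoc, ← map_mul, ← zpow_add]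
    congr 3
    push_cast; ring

theorem IsT.t_zpow (hT : IsT T) (n : ℤ) (e : Ed) :
    ((T ^ n : AutPlus 2) : MulAut (SurfaceGroup 2)) (bt e) =
      bt e * binc (ge e ^ ((e.2 : ℤ) * n)) := by
  obtain ⟨n, rfl | rfl⟩ := n.eq_nat_or_neg
  · rw [zpow_natCast]; exact hT.t_nat n e
  · have h1 := hT.t_nat n e
    have h2 : ((T ^ (-(n : ℤ)) : AutPlus 2) : MulAut (SurfaceGroup 2))
        (((T ^ n : AutPlus 2) : MulAut (SurfaceGroup 2)) (bt e)) = bt e := by
      have : ((T ^ (-(n : ℤ)) * T ^ n : AutPlus 2) : MulAut (SurfaceGroup 2)) (bt e) = bt e := by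
        rw [zpow_neg, zpow_natCast, inv_mul_cancel]; rfl
      exact this
    rw [h1, map_mul, hT.inc_zpow] at h2
    rw [eq_mul_inv_of_mul_eq h2, ← map_inv, ← zpow_neg]
    congr 3
    ring

theorem IsT.pw (hT : IsT T) (n : ℤ) : PW ((T ^ n : AutPlus 2) : MulAut (SurfaceGroup 2)) id
    (MonoidHom.id F3) (fun _ => 1) (fun e => ge e ^ ((e.2 : ℤ) * n)) where
  surj x := ⟨x, rfl⟩
  inc x := hT.inc_zpow n x
  t e := by rw [hT.t_zpow, map_one, one_mul]; rfl
  fst _ := rfl
  pinv _ := rfl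
  inj _ _ h := h

/-- The twisted list. -/
def tw (n : ℤ) (l : List (Ed × F3)) : List (Ed × F3) :=
  l.map fun x => (x.1, ge x.1 ^ ((x.1.2 : ℤ) * n) * x.2)

theorem tw_cons (n : ℤ) (e : Ed) (a : F3) (l : List (Ed × F3)) :
    tw n ((e, a) :: l) = (e, ge e ^ ((e.2 : ℤ) * n) * a) :: tw n l := rfl

theorem mp_tw (n : ℤ) (l : List (Ed × F3)) :
    mp id (MonoidHom.id F3) (fun _ => 1) (fun e => ge e ^ ((e.2 : ℤ) * n)) l = tw n l := by
  induction l with
  | nil => rfl
  | cons x l ih =>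
    obtain ⟨e, a⟩ := x
    rw [mp, tw_cons, ih]
    congr 2
    cases l <;> simp [hdU]

theorem IsT.ev (hT : IsT T) (n : ℤ) (m : F3) (l : List (Ed × F3)) :
    ((T ^ n : AutPlus 2) : MulAut (SurfaceGroup 2)) (ev m l) = ev m (tw n l) := by
  rw [(hT.pw n).ev, mp_tw]
  congr 1
  cases l <;> simp [hdU]

theorem tw_R (hT : IsT T) (n : ℤ) {l : List (Ed × F3)} (hl : BB.R l) : BB.R (tw n l) := by
  rw [← mp_tw]
  exact (hT.pw n).R l hl

theorem IsT.c (hT : IsT T) (n : ℤ) (i : Fin 2) (g : SurfaceGroup 2) :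
    c i (((T ^ n : AutPlus 2) : MulAut (SurfaceGroup 2)) g) = c i g := (hT.pw n).c i g

/-! ### The convexity inequality -/

/-- Data for a norm with its signed counts. -/
structure Cnt (n : F3 → ℕ) (sg : Ed → ℤ → ℤ) (w : Ed → ℤ) : Prop where
  mul : ∀ x y, n (x * y) ≤ n x + n y
  inv : ∀ x, n x⁻¹ = n x
  seg : ∀ e x y, |sg e x - sg e y| ≤ n ((pos e x)⁻¹ * pos e y)
  shift : ∀ e x z, sg e (x - per e * z) = sg e x - w e * z
  piece : ∀ (e f : Ed) (m : F3), NonPinch e m f → ∀ k k' l l' : ℤ,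
    |(e.2 : ℤ) * (sg e k - sg e k') - (f.2 : ℤ) * (sg f l - sg f l')| ≤
      n ((pos e k)⁻¹ * m * pos (einv f) l) + n ((pos e k')⁻¹ * m * pos (einv f) l')
  symm : ∀ e x, sg (einv e) x = sg e x

/-- Weighted length. -/
def wl (w : Ed → ℤ) (l : List (Ed × F3)) : ℤ := (l.map fun x => w x.1).sum

theorem units_mul_le (u : ℤˣ) (x : ℤ) : (u : ℤ) * x ≤ |x| := by
  rcases Int.units_eq_one_or u with rfl | rfl
  · simpa using le_abs_self x
  · simpa using neg_le_abs x

theorem units_mul_ge (u : ℤˣ) (x : ℤ) : -((u : ℤ) * x) ≤ |x| := by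
  rcases Int.units_eq_one_or u with rfl | rfl
  · simpa using neg_le_abs x
  · simpa using le_abs_self x

variable {n : F3 → ℕ} {sg : Ed → ℤ → ℤ} {w : Ed → ℤ}

theorem Cnt.aux (h : Cnt n sg w) (N : ℕ) (l : List (Ed × F3)) : ∀ (e : Ed) (a : F3) (x x' : ℤ)
    (k k' : ℕ → ℤ), BB.R ((e, a) :: l) →
    (N : ℤ) * wl w l + (e.2 : ℤ) * (sg e x - sg e x') ≤
      dc n ((pos e x)⁻¹ * a) l k + dc n ((pos e x')⁻¹ * a) (tw N l) k' := by
  induction l with
  | nil =>
    intro e a x x' k k' _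
    have h1 := h.seg e x x'
    have h2 := units_mul_le e.2 (sg e x - sg e x')
    have h3 := h.mul ((pos e x)⁻¹ * a) ((pos e x')⁻¹ * a)⁻¹
    rw [h.inv] at h3
    have h4 : (pos e x)⁻¹ * a * ((pos e x')⁻¹ * a)⁻¹ = (pos e x)⁻¹ * pos e x' := by group
    rw [h4] at h3
    simp only [wl, List.map_nil, List.sum_nil, mul_zero, zero_add, tw, dc]
    have h5 : (n ((pos e x)⁻¹ * pos e x') : ℤ) ≤
      (n ((pos e x)⁻¹ * a) : ℤ) + n ((pos e x')⁻¹ * a) := by exact_mod_cast h3
    linarith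
  | cons y l ih =>
    obtain ⟨f, b⟩ := y
    intro e a x x' k k' hR
    rw [R_cc] at hR
    have h1 := h.piece e f a hR.1 x x' (k 0) (k' 0)
    have h2 := ih f b (k 0) (k' 0 - per f * ((f.2 : ℤ) * N)) (fun i => k (i + 1))
      (fun i => k' (i + 1)) hR.2
    rw [h.shift] at h2
    rw [tw_cons, dc, dc, ← mul_assoc (pos f (k' 0))⁻¹, pos_shift]
    have h3 := le_abs_self ((e.2 : ℤ) * (sg e x - sg e x') -
      (f.2 : ℤ) * (sg f (k 0) - sg f (k' 0)))
    have h4 : (f.2 : ℤ) * (sg f (k 0) - (sg f (k' 0) - w f * ((f.2 : ℤ) * N))) =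
        (f.2 : ℤ) * (sg f (k 0) - sg f (k' 0)) + w f * N := by
      have : (f.2 : ℤ) * (f.2 : ℤ) = 1 := by
        rcases Int.units_eq_one_or f.2 with h | h <;> rw [h] <;> rfl
      linear_combination (w f * N) * this
    rw [h4] at h2
    simp only [wl, List.map_cons, List.sum_cons] at h2 ⊢
    push_cast
    linarith

theorem Cnt.main (h : Cnt n sg w) (N : ℕ) (m : F3) (l : List (Ed × F3)) (k k' : ℕ → ℤ)
    (hR : BB.R l) : (N : ℤ) * wl w l ≤ dc n m l k + dc n m (tw N l) k' := by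
  rcases l with _ | ⟨⟨f, b⟩, l⟩
  · simp only [wl, List.map_nil, List.sum_nil, mul_zero]
    positivity
  · have h2 := h.aux N l f b (k 0) (k' 0 - per f * ((f.2 : ℤ) * N)) (fun i => k (i + 1))
      (fun i => k' (i + 1)) hR
    rw [h.shift] at h2
    rw [tw_cons, dc, dc, ← mul_assoc (pos f (k' 0))⁻¹, pos_shift]
    have h4 : (f.2 : ℤ) * (sg f (k 0) - (sg f (k' 0) - w f * ((f.2 : ℤ) * N))) =
        (f.2 : ℤ) * (sg f (k 0) - sg f (k' 0)) + w f * N := by
      have : (f.2 : ℤ) * (f.2 : ℤ) = 1 := by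
        rcases Int.units_eq_one_or f.2 with h | h <;> rw [h] <;> rfl
      linear_combination (w f * N) * this
    rw [h4] at h2
    have h5 := h.seg (einv f) (k 0) (k' 0)
    rw [h.symm, h.symm] at h5
    have h6 := units_mul_ge f.2 (sg f (k 0) - sg f (k' 0))
    have h3 := h.mul (m * pos (einv f) (k 0))⁻¹ (m * pos (einv f) (k' 0))
    rw [h.inv] at h3
    have h7 : (m * pos (einv f) (k 0))⁻¹ * (m * pos (einv f) (k' 0)) =
      (pos (einv f) (k 0))⁻¹ * pos (einv f) (k' 0) := by group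
    rw [h7] at h3
    have h8 : (n ((pos (einv f) (k 0))⁻¹ * pos (einv f) (k' 0)) : ℤ) ≤
      (n (m * pos (einv f) (k 0)) : ℤ) + n (m * pos (einv f) (k' 0)) := by exact_mod_cast h3
    simp only [wl, List.map_cons, List.sum_cons] at h2 ⊢
    push_cast
    linarith

end Run7.h347
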