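import Pool.Agent.Run7.h347.Core5

set_option autoImplicit false

/-! The twist inequalities. -/

open Pool.Agent.R708

namespace Run7.h347

/-- signed count of letters -/
noncomputable def ag (χ : Fin 3 → ℤ) : F3 →* Multiplicative ℤ :=
  FreeGroup.lift fun i => Multiplicative.ofAdd (χ i)

theorem ag_of (χ : Fin 3 → ℤ) (i : Fin 3) :
    ag χ (FreeGroup.of i) = Multiplicative.ofAdd (χ i) := by simp [ag]

/-- The augmentation as an integer. -/
noncomputable def agz (χ : Fin 3 → ℤ) (x : F3) : ℤ := Multiplicative.toAdd (ag χ x)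

theorem agz_mul (χ : Fin 3 → ℤ) (x y : F3) : agz χ (x * y) = agz χ x + agz χ y := by
  simp [agz]

theorem agz_inv (χ : Fin 3 → ℤ) (x : F3) : agz χ x⁻¹ = - agz χ x := by
  simp [agz]

theorem agz_zpow (χ : Fin 3 → ℤ) (x : F3) (n : ℤ) : agz χ (x ^ n) = n * agz χ x := by
  simp [agz]

theorem agz_one (χ : Fin 3 → ℤ) : agz χ 1 = 0 := by simp [agz]

theorem agz_E (χ : Fin 3 → ℤ) : agz χ xE = χ 0 := by simp [agz, xE, ag_of]
theorem agz_F (χ : Fin 3 → ℤ) : agz χ xF = χ 1 := by simp [agz, xF, ag_of]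
theorem agz_D (χ : Fin 3 → ℤ) : agz χ xD = χ 2 := by simp [agz, xD, ag_of]

theorem agz_mk (χ : Fin 3 → ℤ) (p : Fin 3 × Bool → Bool)
    (hχ : ∀ i b, |χ i| ≤ if p (i, b) then 1 else 0) (L : List (Fin 3 × Bool)) :
    |agz χ (FreeGroup.mk L)| ≤ L.countP p := by
  induction L with
  | nil =>
    have : (FreeGroup.mk [] : F3) = 1 := rfl
    rw [this, agz_one]; simp
  | cons x L ih =>
    obtain ⟨i, b⟩ := x
    have h1 : (FreeGroup.mk ((i, b) :: L) : F3) = FreeGroup.mk [(i, b)] * FreeGroup.mk L := rfl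
    rw [h1, agz_mul, List.countP_cons]
    have h2 : |agz χ (FreeGroup.mk [(i, b)])| = |χ i| := by
      cases b
      · have h3 : (FreeGroup.mk [(i, false)] : F3) = (FreeGroup.of i)⁻¹ := rfl
        rw [h3, agz_inv, agz, ag_of]; simp
      · have h3 : (FreeGroup.mk [(i, true)] : F3) = FreeGroup.of i := rfl
        rw [h3, agz, ag_of]; simp
    have h3 := abs_add_le (agz χ (FreeGroup.mk [(i, b)])) (agz χ (FreeGroup.mk L))
    have h4 := hχ i b
    rw [h2] at h3
    push_cast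
    split_ifs at h4 ⊢ with h5
    · linarith
    · linarith

/-- signs for the letters `E`, `F` -/
def χ1 : Fin 3 → ℤ := ![1, 1, 0]
/-- signs for the letter `D` -/
def χ2 : Fin 3 → ℤ := ![0, 0, 1]

theorem agz1_le (x : F3) : |agz χ1 x| ≤ nrm1 x := by
  have := agz_mk χ1 (fun y => decide (y.1 ≠ 2)) (by
    intro i b
    fin_cases i <;> simp [χ1]) x.toWord
  rwa [FreeGroup.mk_toWord] at this

theorem agz2_le (x : F3) : |agz χ2 x| ≤ nrm2 x := by
  have := agz_mk χ2 (fun y => decide (y.1 = 2)) (by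
    intro i b
    fin_cases i <;> simp [χ2]) x.toWord
  rwa [FreeGroup.mk_toWord] at this

theorem hd_cases (e : Ed) : hd e = xF ∨ hd e = xE := by
  rw [hd]; split_ifs <;> simp

theorem agz1_pos (e : Ed) (k : ℤ) : agz χ1 (pos e k) = sg1 e k := by
  have h1 : agz χ1 (hd e) = 1 := by
    rcases hd_cases e with h | h <;> rw [h]
    · rw [agz_F]; rfl
    · rw [agz_E]; rfl
  have h2 : agz χ1 xD = 0 := by rw [agz_D]; rfl
  rw [pos, sg1]
  split_ifs with h3 h4
  · rw [agz_zpow, h1, mul_one]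
  · rw [agz_mul, agz_zpow, agz_mul, h1, h2, agz_one]; omega
  · rw [agz_mul, agz_zpow, agz_mul, h1, h2]; omega

theorem agz2_pos (e : Ed) (k : ℤ) : agz χ2 (pos e k) = sg2 e k := by
  have h1 : agz χ2 (hd e) = 0 := by
    rcases hd_cases e with h | h <;> rw [h]
    · rw [agz_F]; rfl
    · rw [agz_E]; rfl
  have h2 : agz χ2 xD = 1 := by rw [agz_D]; rfl
  rw [pos, sg2]
  split_ifs with h3 h4
  · rw [agz_zpow, h1, mul_zero]
  · rw [agz_mul, agz_zpow, agz_mul, h1, h2, agz_one]; omega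
  · rw [agz_mul, agz_zpow, agz_mul, h1, h2]; omega

/-- weights for `X_1` -/
def w1 (_ : Ed) : ℤ := 1
/-- weights for `X_2` -/
def w2 (e : Ed) : ℤ := if e.1 = 0 then 0 else 1

theorem cnt1 (hP : StatementPiece) : Cnt nrm1 sg1 w1 where
  mul := nrm1_mul
  inv := nrm1_inv
  seg e x y := by
    have := agz1_le ((pos e x)⁻¹ * pos e y)
    rw [agz_mul, agz_inv, agz1_pos, agz1_pos] at this
    rw [abs_sub_comm]
    convert this using 2
    ring
  shift e x z := by
    simp only [sg1, per, w1]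
    split_ifs <;> omega
  piece e f m h k k' l l' := (hP e f m h k k' l l').1
  symm e x := rfl

theorem cnt2 (hP : StatementPiece) : Cnt nrm2 sg2 w2 where
  mul := nrm2_mul
  inv := nrm2_inv
  seg e x y := by
    have := agz2_le ((pos e x)⁻¹ * pos e y)
    rw [agz_mul, agz_inv, agz2_pos, agz2_pos] at this
    rw [abs_sub_comm]
    convert this using 2
    ring
  shift e x z := by
    simp only [sg2, per, w2]
    split_ifs <;> omega
  piece e f m h k k' l l' := (hP e f m h k k' l l').2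
  symm e x := rfl

theorem wl1 (l : List (Ed × F3)) : wl w1 l = cn 0 l + cn 1 l := by
  induction l with
  | nil => rfl
  | cons x l ih =>
    obtain ⟨e, a⟩ := x
    rw [cn_cons, cn_cons]
    have : wl w1 ((e, a) :: l) = 1 + wl w1 l := rfl
    rw [this, ih]
    by_cases h : e.1 = 0
    · have h' : ¬ e.1 = 1 := by omega
      rw [if_pos h, if_neg h']; push_cast; ring
    · have h' : e.1 = 1 := by omega
      rw [if_neg h, if_pos h']; push_cast; ring

theorem wl2 (l : List (Ed × F3)) : wl w2 l = cn 1 l := by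
  induction l with
  | nil => rfl
  | cons x l ih =>
    obtain ⟨e, a⟩ := x
    rw [cn_cons]
    have : wl w2 ((e, a) :: l) = w2 e + wl w2 l := rfl
    rw [this, ih, w2]
    by_cases h : e.1 = 0
    · have h' : ¬ e.1 = 1 := by omega
      rw [if_pos h, if_neg h']; push_cast; ring
    · have h' : e.1 = 1 := by omega
      rw [if_neg h, if_pos h']; push_cast; ring

variable {S T : AutPlus 2}

theorem twist_lower_nat (hP : StatementPiece) (hS : IsS S) (hT : IsT T) (N : ℕ)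
    (g : SurfaceGroup 2) :
    N * (c 0 g + c 1 g) ≤
      X1 S (((T ^ (N : ℤ) : AutPlus 2) : MulAut (SurfaceGroup 2)) g) + X1 S g ∧
    N * c 1 g ≤ X2 S (((T ^ (N : ℤ) : AutPlus 2) : MulAut (SurfaceGroup 2)) g) + X2 S g := by
  obtain ⟨m, l, hl, rfl⟩ := exists_ev g
  rw [hT.ev, c_eq 0 hl, c_eq 1 hl]
  obtain ⟨k, h1, h2⟩ := exists_slides hS (m := m) hl
  obtain ⟨k', h1', h2'⟩ := exists_slides hS (m := m) (tw_R hT N hl)
  have h3 := (cnt1 hP).main N m l k k' hl
  have h4 := (cnt2 hP).main N m l k k' hl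
  rw [wl1] at h3
  rw [wl2] at h4
  constructor
  · have : (N * (cn 0 l + cn 1 l) : ℕ) ≤ dc nrm1 m l k + dc nrm1 m (tw N l) k' := by
      exact_mod_cast h3
    omega
  · have : (N * cn 1 l : ℕ) ≤ dc nrm2 m l k + dc nrm2 m (tw N l) k' := by
      exact_mod_cast h4
    omega

theorem twist_lower (hP : StatementPiece) (hS : IsS S) (hT : IsT T) (n : ℤ)
    (g : SurfaceGroup 2) :
    |(n : ℝ)| * (c 0 g + c 1 g) ≤
      X1 S (((T ^ n : AutPlus 2) : MulAut (SurfaceGroup 2)) g) + X1 S g ∧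
    |(n : ℝ)| * c 1 g ≤ X2 S (((T ^ n : AutPlus 2) : MulAut (SurfaceGroup 2)) g) + X2 S g := by
  obtain ⟨N, rfl | rfl⟩ := n.eq_nat_or_neg
  · obtain ⟨h1, h2⟩ := twist_lower_nat hP hS hT N g
    have h3 : |((N : ℤ) : ℝ)| = N := by simp
    rw [h3]
    exact ⟨by exact_mod_cast h1, by exact_mod_cast h2⟩
  · obtain ⟨h1, h2⟩ := twist_lower_nat hP hS hT N
      (((T ^ (-(N : ℤ)) : AutPlus 2) : MulAut (SurfaceGroup 2)) g)
    have h3 : |((-(N : ℤ) : ℤ) : ℝ)| = N := by simp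
    have h4 : ((T ^ (N : ℤ) : AutPlus 2) : MulAut (SurfaceGroup 2))
        (((T ^ (-(N : ℤ)) : AutPlus 2) : MulAut (SurfaceGroup 2)) g) = g := by
      have : ((T ^ (N : ℤ) * T ^ (-(N : ℤ)) : AutPlus 2) : MulAut (SurfaceGroup 2)) g = g := by
        rw [zpow_neg, mul_inv_cancel]; rfl
      exact this
    rw [h3]
    rw [h4, hT.c, hT.c, add_comm (X1 S g)] at h1
    rw [h4, hT.c, add_comm (X2 S g)] at h2
    exact ⟨by exact_mod_cast h1, by exact_mod_cast h2⟩

/-! ### Values of `X_1`, `X_2` on letters -/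

theorem inv_apply_of {θ : AutPlus 2} {x y : SurfaceGroup 2}
    (h : (θ : MulAut (SurfaceGroup 2)) x = y) :
    ((θ⁻¹ : AutPlus 2) : MulAut (SurfaceGroup 2)) y = x := by
  rw [← h]
  exact MulAut.inv_apply_self _ _ x

theorem IsS.inv_s2 (hS : IsS S) :
    ((S⁻¹ : AutPlus 2) : MulAut (SurfaceGroup 2)) (sF⁻¹ * st2 * sE) = sF := inv_apply_of hS.F

theorem IsS.inv_t2 (hS : IsS S) :
    ((S⁻¹ : AutPlus 2) : MulAut (SurfaceGroup 2)) st2 = sE := inv_apply_of hS.E

theorem IsS.inv_t1 (hS : IsS S) :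
    ((S⁻¹ : AutPlus 2) : MulAut (SurfaceGroup 2)) st1 = sD := inv_apply_of hS.D

theorem IsS.inv_D (hS : IsS S) :
    ((S⁻¹ : AutPlus 2) : MulAut (SurfaceGroup 2)) sD = st1⁻¹ := by
  apply inv_apply_of
  rw [map_inv, hS.t1, inv_inv]

theorem IsS.inv_F (hS : IsS S) :
    ((S⁻¹ : AutPlus 2) : MulAut (SurfaceGroup 2)) sF = st2⁻¹ := by
  apply inv_apply_of
  rw [map_inv, hS.t2, inv_inv]

theorem IsS.inv_E (hS : IsS S) :
    ((S⁻¹ : AutPlus 2) : MulAut (SurfaceGroup 2)) sE = sE⁻¹ * st2⁻¹ * sF := by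
  apply inv_apply_of
  rw [map_mul, map_mul, map_inv, map_inv, hS.t2, hS.E, hS.F]
  group

theorem c_sE (i : Fin 2) : c i sE = 0 := by rw [← binc_E, c_binc]
theorem c_sF (i : Fin 2) : c i sF = 0 := by rw [← binc_F, c_binc]
theorem c_sD (i : Fin 2) : c i sD = 0 := by rw [← binc_D, c_binc]
theorem c_st1 (i : Fin 2) : c i st1 = if i = 0 then 1 else 0 := by
  rw [← bt01, c_bt]; fin_cases i <;> rfl
theorem c_st2 (i : Fin 2) : c i st2 = if i = 1 then 1 else 0 := by
  rw [← bt11, c_bt]; fin_cases i <;> rfl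

theorem c_mul_binc (i : Fin 2) (g : SurfaceGroup 2) (m : F3) : c i (g * binc m) = c i g := by
  rw [← c_inv, mul_inv_rev, ← map_inv, c_binc_mul, c_inv]

theorem X1_E (hS : IsS S) : X1 S sE = 1 := by
  rw [X1, hS.inv_E, ← binc_F, c_mul_binc, ← binc_E, ← map_inv, c_binc_mul, c_inv, c_st2]; rfl
theorem X1_F (hS : IsS S) : X1 S sF = 1 := by
  rw [X1, hS.inv_F, c_inv, c_st2]; rfl
theorem X1_D (hS : IsS S) : X1 S sD = 0 := by
  rw [X1, hS.inv_D, c_inv, c_st1]; rfl
theorem X1_t1 (hS : IsS S) : X1 S st1 = 0 := by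
  rw [X1, hS.inv_t1, c_sD]
theorem X1_t2 (hS : IsS S) : X1 S st2 = 0 := by
  rw [X1, hS.inv_t2, c_sE]
theorem X1_s2 (hS : IsS S) : X1 S (sF⁻¹ * st2 * sE) = 0 := by
  rw [X1, hS.inv_s2, c_sF]
theorem X2_E (hS : IsS S) : X2 S sE = 0 := by
  rw [X2, hS.inv_E, ← binc_F, c_mul_binc, ← binc_E, ← map_inv, c_binc_mul, c_inv, c_st2]; rfl
theorem X2_F (hS : IsS S) : X2 S sF = 0 := by
  rw [X2, hS.inv_F, c_inv, c_st2]; rfl
theorem X2_D (hS : IsS S) : X2 S sD = 1 := by
  rw [X2, hS.inv_D, c_inv, c_st1]; rfl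
theorem X2_t1 (hS : IsS S) : X2 S st1 = 0 := by
  rw [X2, hS.inv_t1, c_sD]
theorem X2_t2 (hS : IsS S) : X2 S st2 = 0 := by
  rw [X2, hS.inv_t2, c_sE]
theorem X2_s2 (hS : IsS S) : X2 S (sF⁻¹ * st2 * sE) = 0 := by
  rw [X2, hS.inv_s2, c_sF]

theorem sub_X1' : Sub fun g => (X1 S g : ℝ) := by
  have := sub_c 1 ((S⁻¹ : AutPlus 2) : MulAut (SurfaceGroup 2))
  exact this

theorem sub_X2' : Sub fun g => (X2 S g : ℝ) := by
  have := sub_c 0 ((S⁻¹ : AutPlus 2) : MulAut (SurfaceGroup 2))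
  exact this

theorem bd_X1 (hS : IsS S) : Bd (fun g => (X1 S g : ℝ)) 1 0 0 0 := by
  constructor <;> simp [X1_E hS, X1_F hS, X1_D hS, X1_t1 hS, X1_t2 hS, X1_s2 hS]

theorem bd_X2 (hS : IsS S) : Bd (fun g => (X2 S g : ℝ)) 0 1 0 0 := by
  constructor <;> simp [X2_E hS, X2_F hS, X2_D hS, X2_t1 hS, X2_t2 hS, X2_s2 hS]

theorem X1_binc (hS : IsS S) (x : F3) : X1 S (binc x) ≤ nrm1 x := by
  have := (bd_X1 hS).binc_le sub_X1' x
  simp only [one_mul, zero_mul, add_zero] at this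
  exact_mod_cast this

theorem X2_binc (hS : IsS S) (x : F3) : X2 S (binc x) ≤ nrm2 x := by
  have := (bd_X2 hS).binc_le sub_X2' x
  simp only [one_mul, zero_mul, zero_add] at this
  exact_mod_cast this

theorem nm_zpow {n : F3 → ℕ} (hn : Nm n) (x : F3) (k : ℤ) : (n (x ^ k) : ℝ) ≤ |(k : ℝ)| * n x := by
  have key : ∀ k : ℕ, (n (x ^ k) : ℝ) ≤ k * n x := by
    intro k
    induction k with
    | zero => simp [hn.one]
    | succ k ih =>
      rw [pow_succ]
      have : (n (x ^ k * x) : ℝ) ≤ n (x ^ k) + n x := by exact_mod_cast hn.mul _ _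
      push_cast
      linarith
  obtain ⟨N, rfl | rfl⟩ := k.eq_nat_or_neg
  · rw [zpow_natCast]; simpa using key N
  · rw [zpow_neg, zpow_natCast, hn.inv]; simpa using key N

theorem twist_upper (hS : IsS S) (hT : IsT T) (n : ℤ) (g : SurfaceGroup 2) :
    (X1 S (((T ^ n : AutPlus 2) : MulAut (SurfaceGroup 2)) g) : ℝ) ≤
      |(n : ℝ)| * (c 0 g + c 1 g) + X1 S g ∧
    (X2 S (((T ^ n : AutPlus 2) : MulAut (SurfaceGroup 2)) g) : ℝ) ≤
      |(n : ℝ)| * c 1 g + X2 S g := by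
  have hE : ((T ^ n : AutPlus 2) : MulAut (SurfaceGroup 2)) sE = sE := by
    rw [← binc_E]; exact hT.inc_zpow n xE
  have hF : ((T ^ n : AutPlus 2) : MulAut (SurfaceGroup 2)) sF = sF := by
    rw [← binc_F]; exact hT.inc_zpow n xF
  have hD : ((T ^ n : AutPlus 2) : MulAut (SurfaceGroup 2)) sD = sD := by
    rw [← binc_D]; exact hT.inc_zpow n xD
  have ht1 : ((T ^ n : AutPlus 2) : MulAut (SurfaceGroup 2)) st1 = st1 * binc (xF ^ n) := by
    have := hT.t_zpow n (0, 1)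
    simpa [ge, hd] using this
  have ht2 : ((T ^ n : AutPlus 2) : MulAut (SurfaceGroup 2)) st2 =
      st2 * binc ((xE * xD) ^ n) := by
    have := hT.t_zpow n (1, 1)
    simpa [ge, hd] using this
  have hs2 : ((T ^ n : AutPlus 2) : MulAut (SurfaceGroup 2)) (sF⁻¹ * st2 * sE) =
      (sF⁻¹ * st2 * sE) * binc ((xD * xE) ^ n) := by
    rw [map_mul, map_mul, map_inv, hF, hE, ht2]
    have : (xD * xE) ^ n = xE⁻¹ * (xE * xD) ^ n * xE := by
      rw [show xD * xE = xE⁻¹ * (xE * xD) * (xE⁻¹)⁻¹ by group, conj_zpow]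
      group
    rw [this, map_mul, map_mul, map_inv, binc_E]
    group
  have n1F : (nrm1 (xF ^ n) : ℝ) ≤ |(n : ℝ)| := by simpa using nm_zpow nm1 xF n
  have n2F : (nrm2 (xF ^ n) : ℝ) ≤ 0 := by simpa using nm_zpow nm2 xF n
  have n1ED : (nrm1 ((xE * xD) ^ n) : ℝ) ≤ |(n : ℝ)| := by
    have := nm_zpow nm1 (xE * xD) n
    rwa [show nrm1 (xE * xD) = 1 from rfl, Nat.cast_one, mul_one] at this
  have n2ED : (nrm2 ((xE * xD) ^ n) : ℝ) ≤ |(n : ℝ)| := by
    have := nm_zpow nm2 (xE * xD) n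
    rwa [show nrm2 (xE * xD) = 1 from rfl, Nat.cast_one, mul_one] at this
  have n1DE : (nrm1 ((xD * xE) ^ n) : ℝ) ≤ |(n : ℝ)| := by
    have := nm_zpow nm1 (xD * xE) n
    rwa [show nrm1 (xD * xE) = 1 from rfl, Nat.cast_one, mul_one] at this
  have n2DE : (nrm2 ((xD * xE) ^ n) : ℝ) ≤ |(n : ℝ)| := by
    have := nm_zpow nm2 (xD * xE) n
    rwa [show nrm2 (xD * xE) = 1 from rfl, Nat.cast_one, mul_one] at this
  have b1 : ∀ x, (X1 S (binc x) : ℝ) ≤ nrm1 x := fun x => by exact_mod_cast X1_binc hS x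
  have b2 : ∀ x, (X2 S (binc x) : ℝ) ≤ nrm2 x := fun x => by exact_mod_cast X2_binc hS x
  have hb1 : Bd (fun g => (X1 S (((T ^ n : AutPlus 2) : MulAut (SurfaceGroup 2)) g) : ℝ))
      1 0 |(n : ℝ)| |(n : ℝ)| := by
    constructor
    · rw [hE, X1_E hS]; simp
    · rw [hF, X1_F hS]; simp
    · rw [hD, X1_D hS]; simp
    · rw [ht1]
      have := (sub_X1' (S := S)).mul st1 (binc (xF ^ n))
      simp only [X1_t1 hS, Nat.cast_zero, zero_add] at this
      exact this.trans ((b1 _).trans n1F)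
    · rw [ht2]
      have := (sub_X1' (S := S)).mul st2 (binc ((xE * xD) ^ n))
      simp only [X1_t2 hS, Nat.cast_zero, zero_add] at this
      exact this.trans ((b1 _).trans n1ED)
    · rw [hs2]
      have := (sub_X1' (S := S)).mul (sF⁻¹ * st2 * sE) (binc ((xD * xE) ^ n))
      simp only [X1_s2 hS, Nat.cast_zero, zero_add] at this
      exact this.trans ((b1 _).trans n1DE)
  have hb2 : Bd (fun g => (X2 S (((T ^ n : AutPlus 2) : MulAut (SurfaceGroup 2)) g) : ℝ))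
      0 1 0 |(n : ℝ)| := by
    constructor
    · rw [hE, X2_E hS]; simp
    · rw [hF, X2_F hS]; simp
    · rw [hD, X2_D hS]; simp
    · rw [ht1]
      have := (sub_X2' (S := S)).mul st1 (binc (xF ^ n))
      simp only [X2_t1 hS, Nat.cast_zero, zero_add] at this
      exact this.trans ((b2 _).trans n2F)
    · rw [ht2]
      have := (sub_X2' (S := S)).mul st2 (binc ((xE * xD) ^ n))
      simp only [X2_t2 hS, Nat.cast_zero, zero_add] at this
      exact this.trans ((b2 _).trans n2ED)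
    · rw [hs2]
      have := (sub_X2' (S := S)).mul (sF⁻¹ * st2 * sE) (binc ((xD * xE) ^ n))
      simp only [X2_s2 hS, Nat.cast_zero, zero_add] at this
      exact this.trans ((b2 _).trans n2DE)
  constructor
  · have := hb1.le (sub_X1 _) (by norm_num) le_rfl hS g
    linarith
  · have := hb2.le (sub_X2 _) le_rfl (by norm_num) hS g
    linarith

end Run7.h347
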