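import Pool.Agent.Run7.h347.Core6

set_option autoImplicit false

/-! Stable counts. -/

open Pool.Agent.R708 Filter Topology

namespace Run7.h347

theorem Sub.nonneg {f : SurfaceGroup 2 → ℝ} (hf : Sub f) (g : SurfaceGroup 2) : 0 ≤ f g := by
  have h := hf.mul g g⁻¹
  rw [mul_inv_cancel, hf.one, hf.inv] at h
  linarith

theorem Sub.add {f f' : SurfaceGroup 2 → ℝ} (hf : Sub f) (hf' : Sub f') :
    Sub fun g => f g + f' g where
  one := by rw [hf.one, hf'.one, add_zero]
  mul x y := by linarith [hf.mul x y, hf'.mul x y]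
  inv x := by rw [hf.inv, hf'.inv]

theorem Sub.smul {f : SurfaceGroup 2 → ℝ} (hf : Sub f) {a : ℝ} (ha : 0 ≤ a) :
    Sub fun g => a * f g where
  one := by rw [hf.one, mul_zero]
  mul x y := by
    rw [← mul_add]
    exact mul_le_mul_of_nonneg_left (hf.mul x y) ha
  inv x := by rw [hf.inv]

theorem Sub.comp {f : SurfaceGroup 2 → ℝ} (hf : Sub f) (θ : MulAut (SurfaceGroup 2)) :
    Sub fun g => f (θ g) where
  one := by rw [map_one, hf.one]
  mul x y := by rw [map_mul]; exact hf.mul _ _
  inv x := by rw [map_inv, hf.inv]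

/-- The stable value. -/
noncomputable def st (f : SurfaceGroup 2 → ℝ) (g : SurfaceGroup 2) : ℝ :=
  sInf ((fun n : ℕ => f (g ^ n) / n) '' Set.Ici 1)

theorem st_tendsto {f : SurfaceGroup 2 → ℝ} (hf : Sub f) (g : SurfaceGroup 2) :
    Tendsto (fun n : ℕ => f (g ^ n) / n) atTop (𝓝 (st f g)) := by
  have hs : Subadditive fun n : ℕ => f (g ^ n) := fun m n => by
    simp only [pow_add]
    exact hf.mul _ _
  have hb : BddBelow (Set.range fun n : ℕ => f (g ^ n) / n) := by
    refine ⟨0, ?_⟩
    rintro _ ⟨n, rfl⟩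
    exact div_nonneg (hf.nonneg _) (Nat.cast_nonneg _)
  have h1 := hs.tendsto_lim hb
  have h2 : hs.lim = st f g := by
    rw [Subadditive.lim]; rfl
  rwa [h2] at h1

theorem st_nonneg {f : SurfaceGroup 2 → ℝ} (hf : Sub f) (g : SurfaceGroup 2) : 0 ≤ st f g :=
  ge_of_tendsto' (st_tendsto hf g) fun _ => div_nonneg (hf.nonneg _) (Nat.cast_nonneg _)

theorem st_mono {f f' : SurfaceGroup 2 → ℝ} (hf : Sub f) (hf' : Sub f') (g g' : SurfaceGroup 2)
    (C : ℝ) (h : ∀ n : ℕ, f (g ^ n) ≤ f' (g' ^ n) + C) : st f g ≤ st f' g' := by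
  have h1 := st_tendsto hf g
  have h2 := st_tendsto hf' g'
  have h3 : Tendsto (fun n : ℕ => C / n) atTop (𝓝 0) := tendsto_const_div_atTop_nhds_zero_nat C
  have h4 := h2.add h3
  rw [add_zero] at h4
  refine le_of_tendsto_of_tendsto' h1 h4 fun n => ?_
  rw [← add_div]
  exact div_le_div_of_nonneg_right (h n) (Nat.cast_nonneg _)

theorem st_add {f f' : SurfaceGroup 2 → ℝ} (hf : Sub f) (hf' : Sub f') (g : SurfaceGroup 2) :
    st (fun x => f x + f' x) g = st f g + st f' g := by
  refine tendsto_nhds_unique (st_tendsto (hf.add hf') g) ?_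
  have := (st_tendsto hf g).add (st_tendsto hf' g)
  refine this.congr fun n => ?_
  rw [add_div]

theorem st_smul {f : SurfaceGroup 2 → ℝ} (hf : Sub f) {a : ℝ} (ha : 0 ≤ a)
    (g : SurfaceGroup 2) : st (fun x => a * f x) g = a * st f g := by
  refine tendsto_nhds_unique (st_tendsto (hf.smul ha) g) ?_
  have := (st_tendsto hf g).const_mul a
  refine this.congr fun n => ?_
  rw [mul_div_assoc]

theorem st_comp (f : SurfaceGroup 2 → ℝ) (θ : MulAut (SurfaceGroup 2)) (g : SurfaceGroup 2) :
    st (fun x => f (θ x)) g = st f (θ g) := by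
  simp only [st, map_pow]

theorem st_conj {f : SurfaceGroup 2 → ℝ} (hf : Sub f) (g h : SurfaceGroup 2) :
    st f (h * g * h⁻¹) = st f g := by
  have key : ∀ g h : SurfaceGroup 2, st f (h * g * h⁻¹) ≤ st f g := by
    intro g h
    refine st_mono hf hf _ _ (f h + f h) fun n => ?_
    rw [conj_pow]
    have h1 := hf.mul (h * g ^ n) h⁻¹
    have h2 := hf.mul h (g ^ n)
    rw [hf.inv] at h1
    linarith
  refine le_antisymm (key g h) ?_
  have := key (h * g * h⁻¹) h⁻¹
  have h2 : h⁻¹ * (h * g * h⁻¹) * h⁻¹⁻¹ = g := by group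
  rwa [h2] at this

theorem st_isConj {f : SurfaceGroup 2 → ℝ} (hf : Sub f) {g g' : SurfaceGroup 2}
    (h : IsConj g g') : st f g = st f g' := by
  obtain ⟨k, hk⟩ := isConj_iff.1 h
  rw [← hk, st_conj hf]

theorem st_le {f : SurfaceGroup 2 → ℝ} (hf : Sub f) (g : SurfaceGroup 2) : st f g ≤ f g := by
  have h := st_tendsto hf g
  refine le_of_tendsto h ?_
  filter_upwards [eventually_gt_atTop 0] with n hn
  have key : ∀ n : ℕ, f (g ^ n) ≤ n * f g := by
    intro n
    induction n with
    | zero => simp [hf.one]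
    | succ n ih =>
      rw [pow_succ]
      have := hf.mul (g ^ n) g
      push_cast; linarith
  rw [div_le_iff₀ (by exact_mod_cast hn)]
  linarith [key n]

theorem st_one {f : SurfaceGroup 2 → ℝ} (hf : Sub f) : st f 1 = 0 :=
  le_antisymm ((st_le hf 1).trans hf.one.le) (st_nonneg hf 1)

theorem st_pow {f : SurfaceGroup 2 → ℝ} (hf : Sub f) (g : SurfaceGroup 2) {k : ℕ} (hk : 0 < k) :
    st f (g ^ k) = k * st f g := by
  have h1 := st_tendsto hf (g ^ k)
  have h2 := (st_tendsto hf g).comp (tendsto_id.const_mul_atTop' hk)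
  refine tendsto_nhds_unique h1 ?_
  refine (h2.const_mul (k : ℝ)).congr fun n => ?_
  simp only [Function.comp, id, pow_mul]
  have : (k : ℝ) ≠ 0 := by exact_mod_cast hk.ne'
  push_cast
  by_cases hn : (n : ℝ) = 0
  · simp [hn]
  · field_simp

/-- `c i` as a real function. -/
theorem sub_c' (i : Fin 2) : Sub fun g => (c i g : ℝ) := sub_c i 1

/-- The stable count. -/
noncomputable def sc (i : Fin 2) (g : SurfaceGroup 2) : ℝ := st (fun x => (c i x : ℝ)) g

/-- stable `X_1` -/
noncomputable def sX1 (S : AutPlus 2) (g : SurfaceGroup 2) : ℝ :=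
  sc 1 (((S⁻¹ : AutPlus 2) : MulAut (SurfaceGroup 2)) g)

/-- stable `X_2` -/
noncomputable def sX2 (S : AutPlus 2) (g : SurfaceGroup 2) : ℝ :=
  sc 0 (((S⁻¹ : AutPlus 2) : MulAut (SurfaceGroup 2)) g)

theorem sX1_eq (S : AutPlus 2) (g : SurfaceGroup 2) : sX1 S g = st (fun x => (X1 S x : ℝ)) g :=
  (st_comp (fun x => (c 1 x : ℝ)) _ g).symm

theorem sX2_eq (S : AutPlus 2) (g : SurfaceGroup 2) : sX2 S g = st (fun x => (X2 S x : ℝ)) g :=
  (st_comp (fun x => (c 0 x : ℝ)) _ g).symm

theorem sc_nonneg (i : Fin 2) (g : SurfaceGroup 2) : 0 ≤ sc i g := st_nonneg (sub_c' i) g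

theorem sc_conj (i : Fin 2) (g h : SurfaceGroup 2) : sc i (h * g * h⁻¹) = sc i g :=
  st_conj (sub_c' i) g h

theorem sc_isConj (i : Fin 2) {g h : SurfaceGroup 2} (H : IsConj g h) : sc i g = sc i h :=
  st_isConj (sub_c' i) H

theorem sc_comp (i : Fin 2) (θ : MulAut (SurfaceGroup 2)) (g : SurfaceGroup 2) :
    st (fun x => (c i (θ x) : ℝ)) g = sc i (θ g) := st_comp (fun x => (c i x : ℝ)) θ g

theorem sc_C (i : Fin 2) {l : List (Ed × F3)} (hl : BB.C l) : sc i (BB.P l) = cn i l := by
  refine tendsto_nhds_unique (st_tendsto (sub_c' i) _) ?_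
  refine tendsto_const_nhds.congr' ?_
  filter_upwards [eventually_gt_atTop 0] with n hn
  have h1 : BB.P l ^ n = ev 1 (List.replicate n l).flatten := by
    rw [ev, map_one, one_mul, BB.P_pow]
  rw [h1, c_eq i (hl.pow n), eq_div_iff (by exact_mod_cast hn.ne')]
  have h2 : cn i (List.replicate n l).flatten = cn i l * n := by
    rw [cn, List.countP_flatten, List.map_replicate, List.sum_replicate, smul_eq_mul, mul_comm]
    rfl
  rw [h2]; push_cast; rfl

theorem sc_binc (i : Fin 2) (m : F3) : sc i (binc m) = 0 := by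
  refine le_antisymm ((st_le (sub_c' i) _).trans ?_) (sc_nonneg i _)
  simp

/-- Every element is conjugate into the base or to a cyclically reduced element. -/
theorem cyc_cases (x : SurfaceGroup 2) : (∃ m, IsConj x (binc m)) ∨
    ∃ l, BB.C l ∧ IsConj x (BB.P l) := by
  rcases BB.exists_cyc x with ⟨g, m, h⟩ | ⟨g, l, hl, h⟩
  · left
    refine ⟨m, (isConj_iff.2 ⟨g, ?_⟩).symm⟩
    rw [h, BB_inc]
  · right
    exact ⟨l, hl, (isConj_iff.2 ⟨g, h.symm⟩).symm⟩

theorem sc_nat (i : Fin 2) (x : SurfaceGroup 2) : ∃ n : ℕ, sc i x = n := by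
  rcases cyc_cases x with ⟨m, h⟩ | ⟨l, hl, h⟩
  · exact ⟨0, by rw [sc_isConj i h, sc_binc]; simp⟩
  · exact ⟨cn i l, by rw [sc_isConj i h, sc_C i hl]⟩

theorem cn_length (l : List (Ed × F3)) : cn 0 l + cn 1 l = l.length := by
  induction l with
  | nil => rfl
  | cons x l ih =>
    obtain ⟨e, a⟩ := x
    rw [cn_cons, cn_cons, List.length_cons, ← ih]
    by_cases h : e.1 = 0
    · have h' : ¬ e.1 = 1 := by omega
      rw [if_pos h, if_neg h']; omega
    · have h' : e.1 = 1 := by omega
      rw [if_neg h, if_pos h']; omega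

theorem length_pow (m : F3) (hm : m ≠ 1) (n : ℕ) : n ≤ (m ^ n).toWord.length := by
  rcases Nat.eq_zero_or_pos n with rfl | hn
  · simp
  · rw [FreeGroup.toWord_pow,
      FreeGroup.reduceCyclically.reduce_flatten_replicate FreeGroup.isReduced_toWord,
      if_neg hn.ne']
    have h1 : FreeGroup.reduceCyclically m.toWord ≠ [] := by
      intro h
      apply hm
      have h2 := FreeGroup.reduceCyclically.conj_conjugator_reduceCyclically m.toWord
      rw [h, List.append_nil] at h2
      have h3 := congrArg FreeGroup.mk h2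
      rw [FreeGroup.mk_toWord, ← FreeGroup.mul_mk, ← FreeGroup.inv_mk, mul_inv_cancel] at h3
      exact h3.symm
    have h2 := List.length_pos_iff.2 h1
    rw [List.length_append, List.length_append, List.length_flatten, List.map_replicate,
      List.sum_replicate, smul_eq_mul]
    nlinarith

theorem nrm_add (x : F3) : nrm1 x + nrm2 x = x.toWord.length := by
  rw [nrm1, nrm2]
  induction x.toWord with
  | nil => rfl
  | cons y l ih =>
    rw [List.countP_cons, List.countP_cons, List.length_cons, ← ih]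
    by_cases h : y.1 = 2
    · simp [h]; omega
    · simp [h]; omega

variable {S T : AutPlus 2}

/-- The two pairs of curves fill. -/
theorem filling (hS : IsS S) (x : SurfaceGroup 2) (h0 : sc 0 x = 0) (h1 : sc 1 x = 0)
    (h2 : sX1 S x = 0) (h3 : sX2 S x = 0) : x = 1 := by
  rcases cyc_cases x with ⟨m, h⟩ | ⟨l, hl, h⟩
  · have hm : m = 1 := by
      by_contra hm
      have h4 : ∀ n : ℕ, (n : ℝ) ≤ X1 S (binc m ^ n) + X2 S (binc m ^ n) := by
        intro n
        obtain ⟨k, h5, h6⟩ := exists_slides hS (m := m ^ n) R_nil'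
        rw [ev_nil, map_pow] at h5 h6
        simp only [dc] at h5 h6
        have h7 := length_pow m hm n
        rw [← nrm_add] at h7
        exact_mod_cast (by omega : n ≤ X1 S (binc m ^ n) + X2 S (binc m ^ n))
      have h5 := ((st_tendsto (sub_X1' (S := S)) (binc m)).add
        (st_tendsto (sub_X2' (S := S)) (binc m)))
      rw [← sX1_eq, ← sX2_eq] at h5
      have h6 : sX1 S (binc m) = 0 := by
        rw [← h2, sX1_eq, sX1_eq]
        exact (st_isConj sub_X1' h).symm
      have h7 : sX2 S (binc m) = 0 := by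
        rw [← h3, sX2_eq, sX2_eq]
        exact (st_isConj sub_X2' h).symm
      rw [h6, h7, add_zero] at h5
      have h8 : (1 : ℝ) ≤ 0 := by
        refine ge_of_tendsto h5 ?_
        filter_upwards [eventually_gt_atTop 0] with n hn
        have hn' : (0 : ℝ) < n := by exact_mod_cast hn
        rw [← add_div, le_div_iff₀ hn', one_mul]
        exact h4 n
      linarith
    rw [hm, map_one] at h
    exact isConj_one_right.1 h.symm
  · exfalso
    rw [sc_isConj 0 h, sc_C 0 hl] at h0
    rw [sc_isConj 1 h, sc_C 1 hl] at h1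
    have h4 := cn_length l
    have h5 : cn 0 l = 0 := by exact_mod_cast h0
    have h6 : cn 1 l = 0 := by exact_mod_cast h1
    have h7 := hl.length_pos
    omega

end Run7.h347
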