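import Pool.Agent.Run7.h347.Core7

set_option autoImplicit false

/-! The two multitwists and short pieces. -/

open Pool.Agent.R708 Filter Topology

namespace Run7.h347

/-! ### The two multitwists -/

/-- The multitwist `Θ_K`. -/
structure IsTh (K : ℤ) (θ : AutPlus 2) : Prop where
  E : (θ : MulAut (SurfaceGroup 2)) sE = sE
  F : (θ : MulAut (SurfaceGroup 2)) sF = sD ^ K * sF * sD ^ (-K)
  D : (θ : MulAut (SurfaceGroup 2)) sD = sD
  t1 : (θ : MulAut (SurfaceGroup 2)) st1 = st1 * sD ^ (-K)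
  t2 : (θ : MulAut (SurfaceGroup 2)) st2 = sD ^ K * st2

/-- The twist along `γ`. -/
structure IsTg (k : ℤ) (θ : AutPlus 2) : Prop where
  E : (θ : MulAut (SurfaceGroup 2)) sE = sE
  F : (θ : MulAut (SurfaceGroup 2)) sF = sF
  D : (θ : MulAut (SurfaceGroup 2)) sD =
    sE⁻¹ * (sE * sF⁻¹) ^ k * sE * sD * (sE * sF⁻¹) ^ (-k)
  t1 : (θ : MulAut (SurfaceGroup 2)) st1 = st1
  t2 : (θ : MulAut (SurfaceGroup 2)) st2 = (sE * sF⁻¹) ^ k * st2 * (sE * sF⁻¹) ^ (-k)

theorem thF_E (K : ℤ) : thF K xE = xE := by simp [thF, xE]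
theorem thF_F (K : ℤ) : thF K xF = xD ^ K * xF * xD ^ (-K) := by simp [thF, xF]
theorem thF_D (K : ℤ) : thF K xD = xD := by simp [thF, xD]
theorem tgF_E (k : ℤ) : tgF k xE = xE := by simp [tgF, xE]
theorem tgF_F (k : ℤ) : tgF k xF = xF := by simp [tgF, xF]
theorem tgF_D (k : ℤ) : tgF k xD = xE⁻¹ * gam ^ k * xE * xD * gam ^ (-k) := by simp [tgF, xD]
theorem tgF_gam (k : ℤ) : tgF k gam = gam := by
  rw [gam, map_mul, map_inv, tgF_E, tgF_F]

theorem thF_surj (K : ℤ) : Function.Surjective (thF K) := by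
  intro x
  refine ⟨thF (-K) x, ?_⟩
  have : (thF K).comp (thF (-K)) = MonoidHom.id F3 := by
    apply hom_ext_binc
    · rw [MonoidHom.comp_apply, thF_E, thF_E]; rfl
    · rw [MonoidHom.comp_apply, thF_F, map_mul, map_mul, map_zpow, map_zpow, thF_D, thF_F]
      change _ = xF
      group
    · rw [MonoidHom.comp_apply, thF_D, thF_D]; rfl
  exact DFunLike.congr_fun this x

theorem tgF_surj (k : ℤ) : Function.Surjective (tgF k) := by
  intro x
  refine ⟨tgF (-k) x, ?_⟩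
  have : (tgF k).comp (tgF (-k)) = MonoidHom.id F3 := by
    apply hom_ext_binc
    · rw [MonoidHom.comp_apply, tgF_E, tgF_E]; rfl
    · rw [MonoidHom.comp_apply, tgF_F, tgF_F]; rfl
    · rw [MonoidHom.comp_apply, tgF_D, map_mul, map_mul, map_mul, map_mul, map_zpow, map_zpow,
        map_inv, tgF_gam, tgF_D, tgF_E]
      change _ = xD
      group
  exact DFunLike.congr_fun this x

theorem IsTh.pw {K : ℤ} {θ : AutPlus 2} (h : IsTh K θ) : PW (θ : MulAut (SurfaceGroup 2)) id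
    (thF K) (fun e => (thV K (einv e))⁻¹) (thV K) where
  surj := thF_surj K
  inc := by
    intro x
    have : ((θ : MulAut (SurfaceGroup 2)).toMonoidHom).comp binc = binc.comp (thF K) := by
      apply hom_ext_binc
      · rw [MonoidHom.comp_apply, MonoidHom.comp_apply, thF_E, binc_E]
        exact h.E
      · rw [MonoidHom.comp_apply, MonoidHom.comp_apply, thF_F, binc_F, map_mul, map_mul,
          map_zpow, map_zpow, binc_F, binc_D]
        exact h.F
      · rw [MonoidHom.comp_apply, MonoidHom.comp_apply, thF_D, binc_D]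
        exact h.D
    exact DFunLike.congr_fun this x
  t := by
    rintro ⟨i, u⟩
    rcases Int.units_eq_one_or u with rfl | rfl <;> fin_cases i
    · change (θ : MulAut (SurfaceGroup 2)) (bt (0, 1)) = _ * bt (0, 1) * _
      rw [bt01, h.t1]
      simp [thV, einv]
    · change (θ : MulAut (SurfaceGroup 2)) (bt (1, 1)) = _ * bt (1, 1) * _
      rw [bt11, h.t2]
      simp [thV, einv]
    · change (θ : MulAut (SurfaceGroup 2)) (bt (0, -1)) = _ * bt (0, -1) * _
      rw [bt01', map_inv, h.t1]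
      simp [thV, einv]
    · change (θ : MulAut (SurfaceGroup 2)) (bt (1, -1)) = _ * bt (1, -1) * _
      rw [bt11', map_inv, h.t2]
      simp [thV, einv]
  fst _ := rfl
  pinv _ := rfl
  inj _ _ h := h

theorem binc_gam : binc gam = sE * sF⁻¹ := by rw [gam, map_mul, map_inv, binc_E, binc_F]

theorem tgV_one (k : ℤ) (u : ℤˣ) : tgV k (1, u) = gam ^ (-k) := by simp [tgV]

theorem IsTg.pw {k : ℤ} {θ : AutPlus 2} (h : IsTg k θ) : PW (θ : MulAut (SurfaceGroup 2)) id
    (tgF k) (fun e => (tgV k (einv e))⁻¹) (tgV k) where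
  surj := tgF_surj k
  inc := by
    intro x
    have : ((θ : MulAut (SurfaceGroup 2)).toMonoidHom).comp binc = binc.comp (tgF k) := by
      apply hom_ext_binc
      · rw [MonoidHom.comp_apply, MonoidHom.comp_apply, tgF_E, binc_E]
        exact h.E
      · rw [MonoidHom.comp_apply, MonoidHom.comp_apply, tgF_F, binc_F]
        exact h.F
      · rw [MonoidHom.comp_apply, MonoidHom.comp_apply, tgF_D, binc_D]
        simp only [map_mul, map_inv, map_zpow, binc_gam, binc_E, binc_D]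
        exact h.D
    exact DFunLike.congr_fun this x
  t := by
    rintro ⟨i, u⟩
    rcases Int.units_eq_one_or u with rfl | rfl <;> fin_cases i
    · change (θ : MulAut (SurfaceGroup 2)) (bt (0, 1)) = _ * bt (0, 1) * _
      rw [bt01, h.t1]
      simp [tgV, einv]
    · change (θ : MulAut (SurfaceGroup 2)) (bt (1, 1)) = binc (tgV k (1, -1))⁻¹ * bt (1, 1) *
        binc (tgV k (1, 1))
      rw [bt11, h.t2, tgV_one, tgV_one, map_inv, map_zpow, binc_gam]
      group
    · change (θ : MulAut (SurfaceGroup 2)) (bt (0, -1)) = _ * bt (0, -1) * _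
      rw [bt01', map_inv, h.t1]
      simp [tgV, einv]
    · change (θ : MulAut (SurfaceGroup 2)) (bt (1, -1)) = binc (tgV k (1, 1))⁻¹ * bt (1, -1) *
        binc (tgV k (1, -1))
      rw [bt11', map_inv, h.t2, tgV_one, tgV_one, map_inv, map_zpow, binc_gam]
      group
  fst _ := rfl
  pinv _ := rfl
  inj _ _ h := h

/-! ### Counting pieces -/

open Classical in
/-- The number of inner pieces with a given property. -/
noncomputable def pc (Q : Ed → F3 → Ed → Prop) : List (Ed × F3) → ℕ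
  | [] => 0
  | [_] => 0
  | (e, a) :: (f, b) :: l => (if Q e a f then 1 else 0) + pc Q ((f, b) :: l)

theorem pc_cc (Q : Ed → F3 → Ed → Prop) (e f : Ed) (a b : F3) (l : List (Ed × F3)) [Decidable (Q e a f)] :
    pc Q ((e, a) :: (f, b) :: l) = (if Q e a f then 1 else 0) + pc Q ((f, b) :: l) := by
  rw [pc]; congr

theorem dc_add (n n' : F3 → ℕ) (l : List (Ed × F3)) : ∀ (m : F3) (k : ℕ → ℤ),
    dc (fun x => n x + n' x) m l k = dc n m l k + dc n' m l k := by
  induction l with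
  | nil => intro m k; rfl
  | cons x l ih =>
    obtain ⟨e, a⟩ := x
    intro m k
    rw [dc, dc, dc, ih]; ring

theorem pc_dc_aux {n : F3 → ℕ} {Q : Ed → F3 → Ed → Prop} {M : ℤ}
    (h : ∀ e a f, Q e a f → ∀ x y : ℤ, M ≤ n ((pos e x)⁻¹ * a * pos (einv f) y))
    (l : List (Ed × F3)) : ∀ (e : Ed) (a : F3) (x : ℤ) (k : ℕ → ℤ),
    M * pc Q ((e, a) :: l) ≤ dc n ((pos e x)⁻¹ * a) l k := by
  classical
  induction l with
  | nil => intro e a x k; rw [pc]; simp
  | cons y l ih =>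
    obtain ⟨f, b⟩ := y
    intro e a x k
    rw [pc_cc, dc]
    have h1 := ih f b (k 0) (fun i => k (i + 1))
    push_cast
    by_cases hQ : Q e a f
    · have h2 := h e a f hQ x (k 0)
      rw [if_pos hQ]
      linarith
    · rw [if_neg hQ]
      have h2 : (0 : ℤ) ≤ n ((pos e x)⁻¹ * a * pos (einv f) (k 0)) := by positivity
      linarith

theorem pc_dc {n : F3 → ℕ} {Q : Ed → F3 → Ed → Prop} {M : ℤ}
    (h : ∀ e a f, Q e a f → ∀ x y : ℤ, M ≤ n ((pos e x)⁻¹ * a * pos (einv f) y))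
    (l : List (Ed × F3)) (m : F3) (k : ℕ → ℤ) : M * pc Q l ≤ dc n m l k := by
  rcases l with _ | ⟨⟨e, a⟩, l⟩
  · rw [pc]; simp
  · rw [dc]
    have h1 := pc_dc_aux h l e a (k 0) (fun i => k (i + 1))
    have h2 : (0 : ℤ) ≤ n (m * pos (einv e) (k 0)) := by positivity
    push_cast
    linarith

theorem pc_mp {Q Q' : Ed → F3 → Ed → Prop} {F : F3 →* F3} {U V : Ed → F3}
    (h : ∀ e a f, NonPinch e a f → Q e a f → Q' e (V e * (F a * U f)) f)
    (l : List (Ed × F3)) (hl : BB.R l) : pc Q l ≤ pc Q' (mp id F U V l) := by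
  classical
  induction l with
  | nil => rw [pc]; simp
  | cons x l ih =>
    obtain ⟨e, a⟩ := x
    rcases l with _ | ⟨⟨f, b⟩, l⟩
    · rw [pc]; simp
    · rw [R_cc] at hl
      have h1 := ih hl.2
      rw [mp, mp, pc_cc, pc_cc, ← mp]
      by_cases hQ : Q e a f
      · have h2 := h e a f hl.1 hQ
        rw [if_pos hQ, if_pos (show Q' (id e) (V e * (F a * hdU U ((f, b) :: l))) (id f) from h2)]
        exact Nat.add_le_add_left h1 _
      · rw [if_neg hQ]
        omega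

theorem pc_compl (Q : Ed → F3 → Ed → Prop) (l : List (Ed × F3)) :
    l.length ≤ pc Q l + pc (fun e a f => ¬ Q e a f) l + 1 := by
  classical
  induction l with
  | nil => simp
  | cons x l ih =>
    obtain ⟨e, a⟩ := x
    rcases l with _ | ⟨⟨f, b⟩, l⟩
    · simp
    · rw [pc_cc, pc_cc, List.length_cons]
      by_cases hQ : Q e a f
      · rw [if_pos hQ, if_neg (not_not.2 hQ)]; omega
      · rw [if_neg hQ, if_pos hQ]; omega

theorem pc_mono {Q Q' : Ed → F3 → Ed → Prop} (h : ∀ e a f, Q e a f → Q' e a f)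
    (l : List (Ed × F3)) : pc Q l ≤ pc Q' l := by
  classical
  induction l with
  | nil => rw [pc, pc]
  | cons x l ih =>
    obtain ⟨e, a⟩ := x
    rcases l with _ | ⟨⟨f, b⟩, l⟩
    · rw [pc, pc]
    · rw [pc_cc, pc_cc]
      by_cases hQ : Q e a f
      · rw [if_pos hQ, if_pos (h _ _ _ hQ)]; omega
      · rw [if_neg hQ]; omega

variable {S T : AutPlus 2}

theorem small_tw {R : ℕ} {e f : Ed} {a : F3} (z : ℤ) (h : Small R e (ge e ^ z * a) f) :
    Small R e a f := by
  obtain ⟨x, y, h⟩ := h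
  refine ⟨x - per e * z, y, ?_⟩
  rw [← pos_shift, mul_assoc (pos e x)⁻¹]
  exact h

/-- The number of long pieces is controlled by the width. -/
theorem long_le (hS : IsS S) (hT : IsT T) (R : ℕ) (m : F3) (l : List (Ed × F3)) (hl : BB.R l)
    (n : ℤ) :
    (R + 1) * pc (fun e a f => ¬ Small R e a f) l ≤
      X1 S (((T ^ n : AutPlus 2) : MulAut (SurfaceGroup 2)) (ev m l)) +
      X2 S (((T ^ n : AutPlus 2) : MulAut (SurfaceGroup 2)) (ev m l)) := by
  rw [hT.ev]
  obtain ⟨k, h1, h2⟩ := exists_slides hS (m := m) (tw_R hT n hl)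
  have h3 : pc (fun e a f => ¬ Small R e a f) l ≤
      pc (fun e a f => ¬ Small R e a f) (tw n l) := by
    rw [← mp_tw]
    refine pc_mp ?_ l hl
    intro e a f _ hQ hQ'
    apply hQ
    have h4 : ge e ^ ((e.2 : ℤ) * n) * (MonoidHom.id F3 a * 1) = ge e ^ ((e.2 : ℤ) * n) * a := by
      simp
    rw [h4] at hQ'
    exact small_tw _ hQ'
  have h4 := pc_dc (n := fun x => nrm1 x + nrm2 x) (Q := fun e a f => ¬ Small R e a f)
    (M := (R : ℤ) + 1) (by
      intro e a f hQ x y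
      by_contra hlt
      apply hQ
      refine ⟨x, y, ?_⟩
      omega) (tw n l) m k
  rw [dc_add] at h4
  have h5 : (R + 1) * pc (fun e a f => ¬ Small R e a f) (tw n l) ≤
    dc nrm1 m (tw n l) k + dc nrm2 m (tw n l) k := by exact_mod_cast h4
  calc (R + 1) * pc (fun e a f => ¬ Small R e a f) l
      ≤ (R + 1) * pc (fun e a f => ¬ Small R e a f) (tw n l) := Nat.mul_le_mul_left _ h3
    _ ≤ _ := h5
    _ ≤ _ := Nat.add_le_add h1 h2

/-- The image of a piece under the composition. -/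
def Img (k K : ℤ) (R : ℕ) (e : Ed) (a : F3) (f : Ed) : Prop :=
  ∃ a₀, NonPinch e a₀ f ∧ Small R e a₀ f ∧ a = thP K e (tgP k e a₀ f) f

/-- The list of the image. -/
def im (k K : ℤ) (l : List (Ed × F3)) : List (Ed × F3) :=
  mp id (thF K) (fun e => (thV K (einv e))⁻¹) (thV K)
    (mp id (tgF k) (fun e => (tgV k (einv e))⁻¹) (tgV k) l)

theorem pc_im {k K : ℤ} {τ : AutPlus 2} (hτ : IsTg k τ) (R : ℕ) (l : List (Ed × F3))
    (hl : BB.R l) : pc (Small R) l ≤ pc (Img k K R) (im k K l) := by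
  have h1 : pc (Small R) l ≤ pc (fun e a f => ∃ a₀, NonPinch e a₀ f ∧ Small R e a₀ f ∧
      a = tgP k e a₀ f) (mp id (tgF k) (fun e => (tgV k (einv e))⁻¹) (tgV k) l) := by
    refine pc_mp ?_ l hl
    intro e a f hn hQ
    exact ⟨a, hn, hQ, by rw [tgP, mul_assoc]⟩
  refine h1.trans ?_
  refine pc_mp ?_ _ (hτ.pw.R l hl)
  rintro e a f _ ⟨a₀, h2, h3, rfl⟩
  exact ⟨a₀, h2, h3, by rw [thP, mul_assoc]⟩

theorem im_R {k K : ℤ} {θ τ : AutPlus 2} (hθ : IsTh K θ) (hτ : IsTg k τ) (l : List (Ed × F3))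
    (hl : BB.R l) : BB.R (im k K l) := hθ.pw.R _ (hτ.pw.R l hl)

theorem im_ev {k K : ℤ} {θ τ : AutPlus 2} (hθ : IsTh K θ) (hτ : IsTg k τ) (m : F3)
    (l : List (Ed × F3)) : ∃ m', ((θ * τ : AutPlus 2) : MulAut (SurfaceGroup 2)) (ev m l) =
      ev m' (im k K l) := by
  have h : ((θ * τ : AutPlus 2) : MulAut (SurfaceGroup 2)) (ev m l) =
    (θ : MulAut (SurfaceGroup 2)) ((τ : MulAut (SurfaceGroup 2)) (ev m l)) := rfl
  exact ⟨_, by rw [h, hτ.pw.ev, hθ.pw.ev]; rfl⟩

/-- Pieces which are short before are long afterwards. -/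
theorem dichotomy {R k C K : ℕ}
    (hC : ∀ (e : Ed) (m : F3) (f : Ed), NonPinch e m f → Small R e m f →
      ∀ a b : ℤ, (K : ℤ) - C ≤
        nrm2 ((pos e a)⁻¹ * thP K e (tgP k e m f) f * pos (einv f) b))
    (hK : R + C < K) (hS : IsS S) (hT : IsT T) {θ τ : AutPlus 2} (hθ : IsTh K θ)
    (hτ : IsTg k τ) (g : SurfaceGroup 2) (n n' : ℤ) :
    (R + 1) * (c 0 g + c 1 g) ≤
      X1 S (((T ^ n : AutPlus 2) : MulAut (SurfaceGroup 2)) g) +
      X2 S (((T ^ n : AutPlus 2) : MulAut (SurfaceGroup 2)) g) +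
      X1 S (((T ^ n' * (θ * τ) : AutPlus 2) : MulAut (SurfaceGroup 2)) g) +
      X2 S (((T ^ n' * (θ * τ) : AutPlus 2) : MulAut (SurfaceGroup 2)) g) + (R + 1) := by
  obtain ⟨m, l, hl, rfl⟩ := exists_ev g
  obtain ⟨m', hm'⟩ := im_ev hθ hτ m l
  have h1 := long_le hS hT R m l hl n
  have h2 := long_le hS hT R m' (im k K l) (im_R hθ hτ l hl) n'
  rw [← hm'] at h2
  have h3 := pc_im (K := K) hτ R l hl
  have h4 : pc (Img k K R) (im k K l) ≤
      pc (fun e a f => ¬ Small R e a f) (im k K l) := by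
    apply pc_mono
    rintro e a f ⟨a₀, h5, h6, rfl⟩ ⟨x, y, h7⟩
    have h8 := hC e a₀ f h5 h6 x y
    omega
  have h5 := pc_compl (Small R) l
  rw [c_eq 0 hl, c_eq 1 hl, cn_length]
  have h6 : l.length ≤ pc (fun e a f => ¬ Small R e a f) (im k K l) +
      pc (fun e a f => ¬ Small R e a f) l + 1 := by omega
  have h7 := Nat.mul_le_mul_left (R + 1) h6
  have h8 : ((T ^ n' * (θ * τ) : AutPlus 2) : MulAut (SurfaceGroup 2)) (ev m l) =
    ((T ^ n' : AutPlus 2) : MulAut (SurfaceGroup 2))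
      (((θ * τ : AutPlus 2) : MulAut (SurfaceGroup 2)) (ev m l)) := rfl
  rw [h8]
  calc (R + 1) * l.length ≤ _ := h7
    _ = (R + 1) * pc (fun e a f => ¬ Small R e a f) (im k K l) +
      (R + 1) * pc (fun e a f => ¬ Small R e a f) l + (R + 1) := by ring
    _ ≤ _ := by omega

/-- The height grows by the factor `K`. -/
theorem growth {R k C K : ℕ}
    (hC : ∀ (e : Ed) (m : F3) (f : Ed), NonPinch e m f → Small R e m f →
      ∀ a b : ℤ, (K : ℤ) - C ≤
        nrm2 ((pos e a)⁻¹ * thP K e (tgP k e m f) f * pos (einv f) b))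
    (hK : C ≤ K) (hS : IsS S) (hT : IsT T) {θ τ : AutPlus 2} (hθ : IsTh K θ)
    (hτ : IsTg k τ) (g : SurfaceGroup 2) :
    ((K : ℝ) - C) * (c 0 g + c 1 g) ≤ X2 S (((θ * τ : AutPlus 2) : MulAut (SurfaceGroup 2)) g) +
      ((K : ℝ) - C) * (X1 S g + X2 S g) + ((K : ℝ) - C) := by
  obtain ⟨m, l, hl, rfl⟩ := exists_ev g
  obtain ⟨m', hm'⟩ := im_ev hθ hτ m l
  have h1 := long_le hS hT R m l hl 0
  rw [zpow_zero] at h1
  have h0 : ((1 : AutPlus 2) : MulAut (SurfaceGroup 2)) (ev m l) = ev m l := rfl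
  rw [h0] at h1
  have h3 := pc_im (K := K) hτ R l hl
  obtain ⟨s, _, h5⟩ := exists_slides hS (m := m') (im_R hθ hτ l hl)
  rw [← hm'] at h5
  have h6 := pc_dc (n := nrm2) (Q := Img k K R) (M := (K : ℤ) - C) (by
    rintro e a f ⟨a₀, h5, h6, rfl⟩ x y
    exact hC e a₀ f h5 h6 x y) (im k K l) m' s
  have h7 := pc_compl (Small R) l
  rw [c_eq 0 hl, c_eq 1 hl]
  have h8 := cn_length l
  have h9 : cn 0 l + cn 1 l ≤ pc (Img k K R) (im k K l) + (X1 S (ev m l) + X2 S (ev m l)) + 1 := by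
    have : pc (fun e a f => ¬ Small R e a f) l ≤ X1 S (ev m l) + X2 S (ev m l) :=
      le_trans (Nat.le_mul_of_pos_left _ (Nat.succ_pos R)) h1
    omega
  have h10 : ((cn 0 l : ℝ) + cn 1 l) ≤ pc (Img k K R) (im k K l) +
      (X1 S (ev m l) + X2 S (ev m l)) + 1 := by exact_mod_cast h9
  have h11 : ((K : ℝ) - C) * pc (Img k K R) (im k K l) ≤
      X2 S (((θ * τ : AutPlus 2) : MulAut (SurfaceGroup 2)) (ev m l)) := by
    have : ((K : ℤ) - C) * pc (Img k K R) (im k K l) ≤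
      (X2 S (((θ * τ : AutPlus 2) : MulAut (SurfaceGroup 2)) (ev m l)) : ℤ) :=
      h6.trans (by exact_mod_cast h5)
    exact_mod_cast this
  have h12 : (0 : ℝ) ≤ (K : ℝ) - C := by
    have : (C : ℝ) ≤ K := by exact_mod_cast hK
    linarith
  have h13 := mul_le_mul_of_nonneg_left h10 h12
  linarith

end Run7.h347
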