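import Pool.Agent.Run7.h347.Core8

set_option autoImplicit false

/-! Stable inequalities. -/

open Pool.Agent.R708 Filter Topology

namespace Run7.h347

theorem app_mul (θ τ : AutPlus 2) (g : SurfaceGroup 2) : ((θ * τ : AutPlus 2) : MulAut (SurfaceGroup 2)) g = ((θ : AutPlus 2) : MulAut (SurfaceGroup 2)) (((τ : AutPlus 2) : MulAut (SurfaceGroup 2)) g) := rfl

theorem app_one (g : SurfaceGroup 2) : ((1 : AutPlus 2) : MulAut (SurfaceGroup 2)) g = g := rfl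

theorem app_inv_self (θ : AutPlus 2) (g : SurfaceGroup 2) : ((θ⁻¹ : AutPlus 2) : MulAut (SurfaceGroup 2)) (((θ : AutPlus 2) : MulAut (SurfaceGroup 2)) g) = g :=
  MulAut.inv_apply_self _ _ g

theorem app_self_inv (θ : AutPlus 2) (g : SurfaceGroup 2) : ((θ : AutPlus 2) : MulAut (SurfaceGroup 2)) (((θ⁻¹ : AutPlus 2) : MulAut (SurfaceGroup 2)) g) = g :=
  MulAut.apply_inv_self _ _ g

/-! ### The curve change `κ` and the half turn `S ^ 2` -/

/-- The change of curves `κ`. -/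
structure IsK (κ : AutPlus 2) : Prop where
  a0 : ((κ : AutPlus 2) : MulAut (SurfaceGroup 2)) (ga 0) = (gb 1)⁻¹
  b0 : ((κ : AutPlus 2) : MulAut (SurfaceGroup 2)) (gb 0) = gb 1 * ga 1 * (gb 1)⁻¹
  a1 : ((κ : AutPlus 2) : MulAut (SurfaceGroup 2)) (ga 1) = ga 0
  b1 : ((κ : AutPlus 2) : MulAut (SurfaceGroup 2)) (gb 1) = gb 0

theorem ga0_eq : (ga 0 : SurfaceGroup 2) = binc (xE * xD) := by
  rw [map_mul, binc_E, binc_D, sE, sD]; group

theorem ga1_eq : (ga 1 : SurfaceGroup 2) = st1⁻¹ := by rw [st1]; group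

theorem gb1_eq : (gb 1 : SurfaceGroup 2) = binc xE := by rw [binc_E, sE]

theorem gb0_eq : (gb 0 : SurfaceGroup 2) = st2 := rfl

variable {κ : AutPlus 2}

theorem c_kappa_le (hκ : IsK κ) (g : SurfaceGroup 2) (S : AutPlus 2) (hS : IsS S) :
    c 0 (((κ : AutPlus 2) : MulAut (SurfaceGroup 2)) g) ≤ c 1 g := by
  have hE : ((κ : AutPlus 2) : MulAut (SurfaceGroup 2)) sE = st2 := by rw [sE, hκ.b1, gb0_eq]
  have hF : ((κ : AutPlus 2) : MulAut (SurfaceGroup 2)) sF = binc (xE * xD) * st2 * binc (xE * xD)⁻¹ := by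
    rw [sF, map_mul, map_mul, map_inv, hκ.a1, hκ.b1, gb0_eq, ga0_eq, ← map_inv]
  have hD : ((κ : AutPlus 2) : MulAut (SurfaceGroup 2)) sD = st2⁻¹ * binc xE⁻¹ := by
    rw [sD, map_mul, map_inv, hκ.a0, hκ.b1, gb0_eq, gb1_eq, ← map_inv]
  have ht1 : ((κ : AutPlus 2) : MulAut (SurfaceGroup 2)) st1 = binc (xE * xD)⁻¹ := by
    rw [st1, map_inv, hκ.a1, ga0_eq, ← map_inv]
  have ht2 : ((κ : AutPlus 2) : MulAut (SurfaceGroup 2)) st2 = binc xE * st1⁻¹ * binc xE⁻¹ := by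
    rw [st2, hκ.b0, gb1_eq, ga1_eq, ← map_inv]
  have h2 : c 0 (((κ : AutPlus 2) : MulAut (SurfaceGroup 2)) st2) ≤ 1 := by
    rw [ht2, c_mul_binc, c_binc_mul, c_inv, c_st1]; simp
  have h3 : c 0 (((κ : AutPlus 2) : MulAut (SurfaceGroup 2)) sF) = 0 := by
    rw [hF, c_mul_binc, c_binc_mul, c_st2]; simp
  have h4 : c 0 (((κ : AutPlus 2) : MulAut (SurfaceGroup 2)) sE) = 0 := by
    rw [hE, c_st2]; simp
  have hb : Bd (fun g => (c 0 (((κ : AutPlus 2) : MulAut (SurfaceGroup 2)) g) : ℝ)) 0 0 0 1 := by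
    constructor
    · rw [h4]; simp
    · rw [h3]; simp
    · rw [hD, c_mul_binc, c_inv, c_st2]; simp
    · rw [ht1, c_binc]; simp
    · exact_mod_cast h2
    · have h5 := c_mul 0 (((κ : AutPlus 2) : MulAut (SurfaceGroup 2)) sF⁻¹ * ((κ : AutPlus 2) : MulAut (SurfaceGroup 2)) st2) (((κ : AutPlus 2) : MulAut (SurfaceGroup 2)) sE)
      have h6 := c_mul 0 (((κ : AutPlus 2) : MulAut (SurfaceGroup 2)) sF⁻¹) (((κ : AutPlus 2) : MulAut (SurfaceGroup 2)) st2)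
      rw [map_inv, c_inv, h3] at h6
      rw [map_inv] at h5
      rw [map_mul, map_mul, map_inv]
      have : c 0 ((((κ : AutPlus 2) : MulAut (SurfaceGroup 2)) sF)⁻¹ * ((κ : AutPlus 2) : MulAut (SurfaceGroup 2)) st2 * ((κ : AutPlus 2) : MulAut (SurfaceGroup 2)) sE) ≤ 1 := by omega
      exact_mod_cast this
  have := hb.le (sub_c 0 ((κ : AutPlus 2) : MulAut (SurfaceGroup 2))) le_rfl le_rfl hS g
  simp only [zero_mul, zero_add, one_mul] at this
  exact_mod_cast this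

theorem c_kappa_inv_le (hκ : IsK κ) (g : SurfaceGroup 2) (S : AutPlus 2) (hS : IsS S) :
    c 1 (((κ⁻¹ : AutPlus 2) : MulAut (SurfaceGroup 2)) g) ≤ c 0 g := by
  have hb1 : ((κ⁻¹ : AutPlus 2) : MulAut (SurfaceGroup 2)) (gb 1) = binc (xE * xD)⁻¹ := by
    apply inv_apply_of
    rw [map_inv binc, ← ga0_eq, map_inv, hκ.a0, inv_inv]
  have ha0 : ((κ⁻¹ : AutPlus 2) : MulAut (SurfaceGroup 2)) (ga 0) = st1⁻¹ := by
    apply inv_apply_of
    rw [← ga1_eq, hκ.a1]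
  have hb0 : ((κ⁻¹ : AutPlus 2) : MulAut (SurfaceGroup 2)) (gb 0) = binc xE := by
    apply inv_apply_of
    rw [← gb1_eq, hκ.b1]
  have ha1 : ((κ⁻¹ : AutPlus 2) : MulAut (SurfaceGroup 2)) (ga 1) = binc (xE * xD) * st2 * binc (xE * xD)⁻¹ := by
    have h1 : (ga 1 : SurfaceGroup 2) = (gb 1)⁻¹ * ((κ : AutPlus 2) : MulAut (SurfaceGroup 2)) (gb 0) * gb 1 := by
      rw [hκ.b0]; group
    rw [h1, map_mul, map_mul, map_inv, app_inv_self, hb1, gb0_eq, ← map_inv, inv_inv]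
  have hE : ((κ⁻¹ : AutPlus 2) : MulAut (SurfaceGroup 2)) sE = binc (xE * xD)⁻¹ := by rw [sE, hb1]
  have hF : ((κ⁻¹ : AutPlus 2) : MulAut (SurfaceGroup 2)) sF = binc (xE * xD * (xF * xD)⁻¹ * (xE * xD)⁻¹) := by
    rw [sF, map_mul, map_mul, map_inv, ha1, hb1]
    have h2 := ge_rel (1, 1)
    have h3 : st2 * binc (xE * xD) = binc (xF * xD) * st2 := by
      simpa [ge, hd, einv] using h2
    have h4 : st2 * binc (xE * xD)⁻¹ * st2⁻¹ = binc (xF * xD)⁻¹ := by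
      rw [map_inv, map_inv, ← mul_left_inj st2, ← mul_right_inj (binc (xF * xD))]
      have : binc (xF * xD) * (st2 * (binc (xE * xD))⁻¹ * st2⁻¹ * st2) =
        (binc (xF * xD) * st2) * (binc (xE * xD))⁻¹ := by group
      rw [this, ← h3]; group
    calc binc (xE * xD) * st2 * binc (xE * xD)⁻¹ * binc (xE * xD)⁻¹ *
          (binc (xE * xD) * st2 * binc (xE * xD)⁻¹)⁻¹
        = binc (xE * xD) * (st2 * binc (xE * xD)⁻¹ * st2⁻¹) * binc (xE * xD)⁻¹ := by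
          rw [map_inv]; group
      _ = _ := by rw [h4, ← map_mul, ← map_mul]
  have hD : ((κ⁻¹ : AutPlus 2) : MulAut (SurfaceGroup 2)) sD = binc (xE * xD) * st1⁻¹ := by
    rw [sD, map_mul, map_inv, hb1, ha0, ← map_inv, inv_inv]
  have ht1 : ((κ⁻¹ : AutPlus 2) : MulAut (SurfaceGroup 2)) st1 = binc (xE * xD) * st2⁻¹ * binc (xE * xD)⁻¹ := by
    rw [st1, map_inv, ha1]
    rw [map_inv]; group
  have ht2 : ((κ⁻¹ : AutPlus 2) : MulAut (SurfaceGroup 2)) st2 = binc xE := hb0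
  have hb : Bd (fun g => (c 1 (((κ⁻¹ : AutPlus 2) : MulAut (SurfaceGroup 2)) g) : ℝ)) 0 0 1 0 := by
    constructor
    · rw [hE, c_binc]; simp
    · rw [hF, c_binc]; simp
    · rw [hD, c_binc_mul, c_inv, c_st1]; simp
    · rw [ht1, c_mul_binc, c_binc_mul, c_inv, c_st2]; simp
    · rw [ht2, c_binc]; simp
    · rw [map_mul, map_mul, map_inv, hF, ht2, hE, ← map_inv, ← map_mul, ← map_mul, c_binc]; simp
  have := hb.le (sub_c 1 ((κ⁻¹ : AutPlus 2) : MulAut (SurfaceGroup 2))) le_rfl le_rfl hS g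
  simp only [zero_mul, zero_add, one_mul, add_zero] at this
  exact_mod_cast this

theorem c_kappa (hκ : IsK κ) {S : AutPlus 2} (hS : IsS S) (g : SurfaceGroup 2) :
    c 1 (((κ⁻¹ : AutPlus 2) : MulAut (SurfaceGroup 2)) g) = c 0 g := by
  refine le_antisymm (c_kappa_inv_le hκ g S hS) ?_
  have := c_kappa_le hκ (((κ⁻¹ : AutPlus 2) : MulAut (SurfaceGroup 2)) g) S hS
  rwa [app_self_inv] at this

theorem sc_kappa (hκ : IsK κ) {S : AutPlus 2} (hS : IsS S) (g : SurfaceGroup 2) :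
    sc 1 (((κ⁻¹ : AutPlus 2) : MulAut (SurfaceGroup 2)) g) = sc 0 g := by
  rw [← sc_comp]
  simp only [c_kappa hκ hS]
  rfl

variable {S T : AutPlus 2}

theorem c_half_le (hS : IsS S) (i : Fin 2) (g : SurfaceGroup 2) : c i (((S ^ 2 : AutPlus 2) : MulAut (SurfaceGroup 2)) g) ≤ c i g := by
  have h2 : ∀ x, ((S ^ 2 : AutPlus 2) : MulAut (SurfaceGroup 2)) x = ((S : AutPlus 2) : MulAut (SurfaceGroup 2)) (((S : AutPlus 2) : MulAut (SurfaceGroup 2)) x) := fun x => by rw [pow_two]; rfl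
  have hE : ((S ^ 2 : AutPlus 2) : MulAut (SurfaceGroup 2)) sE = sF⁻¹ := by rw [h2, hS.E, hS.t2]
  have hF : ((S ^ 2 : AutPlus 2) : MulAut (SurfaceGroup 2)) sF = sE⁻¹ := by
    rw [h2, hS.F, map_mul, map_mul, map_inv, hS.F, hS.t2, hS.E]; group
  have hD : ((S ^ 2 : AutPlus 2) : MulAut (SurfaceGroup 2)) sD = sD⁻¹ := by rw [h2, hS.D, hS.t1]
  have ht1 : ((S ^ 2 : AutPlus 2) : MulAut (SurfaceGroup 2)) st1 = st1⁻¹ := by rw [h2, hS.t1, map_inv, hS.D]
  have ht2 : ((S ^ 2 : AutPlus 2) : MulAut (SurfaceGroup 2)) st2 = sE⁻¹ * st2⁻¹ * sF := by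
    rw [h2, hS.t2, map_inv, hS.F]; group
  have hs2 : ((S ^ 2 : AutPlus 2) : MulAut (SurfaceGroup 2)) (sF⁻¹ * st2 * sE) = st2⁻¹ := by
    rw [map_mul, map_mul, map_inv, hF, ht2, hE]; group
  have hct2 : c i (sE⁻¹ * st2⁻¹ * sF) = c i st2 := by
    rw [← binc_F, c_mul_binc, ← binc_E, ← map_inv, c_binc_mul, c_inv]
  have hb : Bd (fun g => (c i (((S ^ 2 : AutPlus 2) : MulAut (SurfaceGroup 2)) g) : ℝ)) 0 0 (if i = 0 then 1 else 0)
      (if i = 1 then 1 else 0) := by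
    constructor
    · rw [hE, c_inv, c_sF]; simp
    · rw [hF, c_inv, c_sE]; simp
    · rw [hD, c_inv, c_sD]; simp
    · rw [ht1, c_inv, c_st1]; split_ifs <;> simp
    · rw [ht2, hct2, c_st2]; split_ifs <;> simp
    · rw [hs2, c_inv, c_st2]; split_ifs <;> simp
  have := hb.le (sub_c i ((S ^ 2 : AutPlus 2) : MulAut (SurfaceGroup 2))) le_rfl le_rfl hS g
  fin_cases i
  · simp only [Fin.zero_eta, Fin.isValue, ↓reduceIte, zero_ne_one, zero_mul, zero_add, one_mul,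
      add_zero] at this
    exact_mod_cast this
  · simp only [Fin.mk_one, Fin.isValue, ↓reduceIte, one_ne_zero, zero_mul, zero_add, one_mul,
      add_zero] at this
    exact_mod_cast this

theorem c_half (hS : IsS S) (hS4 : S ^ 4 = 1) (i : Fin 2) (g : SurfaceGroup 2) :
    c i (((S ^ 2 : AutPlus 2) : MulAut (SurfaceGroup 2)) g) = c i g := by
  refine le_antisymm (c_half_le hS i g) ?_
  have := c_half_le hS i (((S ^ 2 : AutPlus 2) : MulAut (SurfaceGroup 2)) g)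
  rw [← app_mul, ← pow_add, hS4, app_one] at this
  exact this

theorem sc_half (hS : IsS S) (hS4 : S ^ 4 = 1) (i : Fin 2) (g : SurfaceGroup 2) :
    sc i (((S ^ 2 : AutPlus 2) : MulAut (SurfaceGroup 2)) g) = sc i g := by
  rw [← sc_comp]
  simp only [c_half hS hS4]
  rfl

/-! ### Stable twist inequalities -/

theorem st_X1_comp (θ : AutPlus 2) (g : SurfaceGroup 2) :
    st (fun x => (X1 S (((θ : AutPlus 2) : MulAut (SurfaceGroup 2)) x) : ℝ)) g = sX1 S (((θ : AutPlus 2) : MulAut (SurfaceGroup 2)) g) := by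
  rw [sX1_eq, ← st_comp (fun x => (X1 S x : ℝ))]

theorem st_X2_comp (θ : AutPlus 2) (g : SurfaceGroup 2) :
    st (fun x => (X2 S (((θ : AutPlus 2) : MulAut (SurfaceGroup 2)) x) : ℝ)) g = sX2 S (((θ : AutPlus 2) : MulAut (SurfaceGroup 2)) g) := by
  rw [sX2_eq, ← st_comp (fun x => (X2 S x : ℝ))]

theorem s_lower (hP : StatementPiece) (hS : IsS S) (hT : IsT T) (n : ℤ) (g : SurfaceGroup 2) :
    |(n : ℝ)| * (sc 0 g + sc 1 g) ≤ sX1 S (((T ^ n : AutPlus 2) : MulAut (SurfaceGroup 2)) g) + sX1 S g ∧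
    |(n : ℝ)| * sc 1 g ≤ sX2 S (((T ^ n : AutPlus 2) : MulAut (SurfaceGroup 2)) g) + sX2 S g := by
  constructor
  · have h1 := st_mono (((sub_c' 0).add (sub_c' 1)).smul (abs_nonneg (n : ℝ)))
      ((sub_X1 (S := S) ((T ^ n : AutPlus 2) : MulAut (SurfaceGroup 2))).add sub_X1') g g 0 (fun k => by
        have := (twist_lower hP hS hT n (g ^ k)).1
        simpa using this)
    rw [st_smul ((sub_c' 0).add (sub_c' 1)) (abs_nonneg _), st_add (sub_c' 0) (sub_c' 1),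
      st_add (sub_X1 _) sub_X1', st_X1_comp, ← sX1_eq] at h1
    exact h1
  · have h1 := st_mono ((sub_c' 1).smul (abs_nonneg (n : ℝ)))
      ((sub_X2 (S := S) ((T ^ n : AutPlus 2) : MulAut (SurfaceGroup 2))).add sub_X2') g g 0 (fun k => by
        have := (twist_lower hP hS hT n (g ^ k)).2
        simpa using this)
    rw [st_smul (sub_c' 1) (abs_nonneg _), st_add (sub_X2 _) sub_X2', st_X2_comp,
      ← sX2_eq] at h1
    exact h1

theorem s_upper (hS : IsS S) (hT : IsT T) (n : ℤ) (g : SurfaceGroup 2) :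
    sX1 S (((T ^ n : AutPlus 2) : MulAut (SurfaceGroup 2)) g) ≤ |(n : ℝ)| * (sc 0 g + sc 1 g) + sX1 S g ∧
    sX2 S (((T ^ n : AutPlus 2) : MulAut (SurfaceGroup 2)) g) ≤ |(n : ℝ)| * sc 1 g + sX2 S g := by
  constructor
  · have h1 := st_mono (sub_X1 (S := S) ((T ^ n : AutPlus 2) : MulAut (SurfaceGroup 2)))
      ((((sub_c' 0).add (sub_c' 1)).smul (abs_nonneg (n : ℝ))).add (sub_X1' (S := S))) g g 0
      (fun k => by
        have := (twist_upper hS hT n (g ^ k)).1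
        simpa using this)
    rw [st_add (((sub_c' 0).add (sub_c' 1)).smul (abs_nonneg (n : ℝ))) sub_X1',
      st_smul ((sub_c' 0).add (sub_c' 1)) (abs_nonneg _), st_add (sub_c' 0) (sub_c' 1),
      st_X1_comp, ← sX1_eq] at h1
    exact h1
  · have h1 := st_mono (sub_X2 (S := S) ((T ^ n : AutPlus 2) : MulAut (SurfaceGroup 2)))
      (((sub_c' 1).smul (abs_nonneg (n : ℝ))).add (sub_X2' (S := S))) g g 0
      (fun k => by
        have := (twist_upper hS hT n (g ^ k)).2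
        simpa using this)
    rw [st_add ((sub_c' 1).smul (abs_nonneg (n : ℝ))) sub_X2',
      st_smul (sub_c' 1) (abs_nonneg _), st_X2_comp, ← sX2_eq] at h1
    exact h1

theorem sc_T (hT : IsT T) (n : ℤ) (i : Fin 2) (g : SurfaceGroup 2) :
    sc i (((T ^ n : AutPlus 2) : MulAut (SurfaceGroup 2)) g) = sc i g := by
  rw [← sc_comp]
  simp only [hT.c]
  rfl

theorem sc_pw {θ : MulAut (SurfaceGroup 2)} {p : Ed → Ed} {F : F3 →* F3} {U V : Ed → F3}
    (h : PW θ p F U V) (i : Fin 2) (g : SurfaceGroup 2) : sc i (θ g) = sc i g := by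
  rw [← sc_comp]
  simp only [h.c]
  rfl

theorem s_bound (hS : IsS S) (i : Fin 2) (θ : AutPlus 2) :
    ∃ C : ℝ, 0 ≤ C ∧ ∀ g, sc i (((θ : AutPlus 2) : MulAut (SurfaceGroup 2)) g) ≤ C * (sX1 S g + sX2 S g + sc 0 g + sc 1 g) := by
  obtain ⟨C, hC, h⟩ := exists_bound hS i ((θ : AutPlus 2) : MulAut (SurfaceGroup 2))
  refine ⟨C, hC, fun g => ?_⟩
  have hs := ((((sub_X1' (S := S)).add (sub_X2' (S := S))).add (sub_c' 0)).add (sub_c' 1))
  have h1 := st_mono (sub_c i ((θ : AutPlus 2) : MulAut (SurfaceGroup 2))) (hs.smul hC) g g 0 (fun k => by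
    have := h (g ^ k)
    simpa using this)
  rw [st_smul hs hC, st_add (((sub_X1' (S := S)).add (sub_X2' (S := S))).add (sub_c' 0))
    (sub_c' 1), st_add ((sub_X1' (S := S)).add (sub_X2' (S := S))) (sub_c' 0),
    st_add sub_X1' sub_X2', sc_comp, ← sX1_eq, ← sX2_eq] at h1
  exact h1

/-! ### The twist `Θ_K` does not increase `X_1` -/

theorem X1_th (hS : IsS S) {K : ℤ} {θ : AutPlus 2} (hθ : IsTh K θ) (g : SurfaceGroup 2) :
    X1 S (((θ : AutPlus 2) : MulAut (SurfaceGroup 2)) g) ≤ X1 S g := by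
  have hD : ∀ j : ℤ, (X1 S (sD ^ j) : ℝ) = 0 := by
    intro j
    have h1 := X1_binc hS (xD ^ j)
    rw [map_zpow, binc_D] at h1
    have h2 := nm_zpow nm1 xD j
    rw [nrm1_D] at h2
    have h3 : (nrm1 (xD ^ j) : ℝ) ≤ 0 := by simpa using h2
    have h4 : (X1 S (sD ^ j) : ℝ) ≤ nrm1 (xD ^ j) := by exact_mod_cast h1
    exact le_antisymm (h4.trans h3) (Nat.cast_nonneg _)
  have hsub := sub_X1' (S := S)
  have hb : Bd (fun g => (X1 S (((θ : AutPlus 2) : MulAut (SurfaceGroup 2)) g) : ℝ)) 1 0 0 0 := by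
    constructor
    · rw [hθ.E, X1_E hS]; simp
    · rw [hθ.F]
      have h1 := hsub.mul (sD ^ K * sF) (sD ^ (-K))
      have h2 := hsub.mul (sD ^ K) sF
      rw [hD] at h1 h2
      rw [X1_F hS] at h2
      simp only [Nat.cast_one] at h2
      linarith
    · rw [hθ.D, X1_D hS]; simp
    · rw [hθ.t1]
      have h1 := hsub.mul st1 (sD ^ (-K))
      rw [hD, X1_t1 hS] at h1
      simpa using h1
    · rw [hθ.t2]
      have h1 := hsub.mul (sD ^ K) st2
      rw [hD, X1_t2 hS] at h1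
      simpa using h1
    · have : ((θ : AutPlus 2) : MulAut (SurfaceGroup 2)) (sF⁻¹ * st2 * sE) = sD ^ K * (sF⁻¹ * st2 * sE) := by
        rw [map_mul, map_mul, map_inv, hθ.F, hθ.t2, hθ.E]; group
      rw [this]
      have h1 := hsub.mul (sD ^ K) (sF⁻¹ * st2 * sE)
      rw [hD, X1_s2 hS] at h1
      simpa using h1
  have := hb.le (sub_X1 ((θ : AutPlus 2) : MulAut (SurfaceGroup 2))) (by norm_num) le_rfl hS g
  simp only [one_mul, zero_mul, add_zero] at this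
  exact_mod_cast this

theorem sX1_th (hS : IsS S) {K : ℤ} {θ : AutPlus 2} (hθ : IsTh K θ) (g : SurfaceGroup 2) :
    sX1 S (((θ : AutPlus 2) : MulAut (SurfaceGroup 2)) g) ≤ sX1 S g := by
  have h1 := st_mono (sub_X1 (S := S) ((θ : AutPlus 2) : MulAut (SurfaceGroup 2))) (sub_X1' (S := S)) g g 0 (fun k => by
    have := X1_th hS hθ (g ^ k)
    simpa using this)
  rw [st_X1_comp, ← sX1_eq] at h1
  exact h1

theorem sX1_comp_bound (hS : IsS S) (τ : AutPlus 2) :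
    ∃ C : ℝ, 0 ≤ C ∧ ∀ (K : ℤ) (θ : AutPlus 2), IsTh K θ → ∀ g,
      sX1 S (((θ * τ : AutPlus 2) : MulAut (SurfaceGroup 2)) g) ≤ C * (sX1 S g + sX2 S g + sc 0 g + sc 1 g) := by
  obtain ⟨C, hC, h⟩ := s_bound hS 1 (S⁻¹ * τ)
  refine ⟨C, hC, fun K θ hθ g => ?_⟩
  refine (sX1_th hS hθ _).trans ?_
  exact h g

/-! ### Stable dichotomy and growth -/

theorem s_dichotomy {R k C K : ℕ}
    (hC : ∀ (e : Ed) (m : F3) (f : Ed), NonPinch e m f → Small R e m f →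
      ∀ a b : ℤ, (K : ℤ) - C ≤
        nrm2 ((pos e a)⁻¹ * thP K e (tgP k e m f) f * pos (einv f) b))
    (hK : R + C < K) (hS : IsS S) (hT : IsT T) {θ τ : AutPlus 2} (hθ : IsTh K θ)
    (hτ : IsTg k τ) (g : SurfaceGroup 2) (n n' : ℤ) :
    ((R : ℝ) + 1) * (sc 0 g + sc 1 g) ≤
      sX1 S (((T ^ n : AutPlus 2) : MulAut (SurfaceGroup 2)) g) + sX2 S (((T ^ n : AutPlus 2) : MulAut (SurfaceGroup 2)) g) + sX1 S (((T ^ n' * (θ * τ) : AutPlus 2) : MulAut (SurfaceGroup 2)) g) +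
      sX2 S (((T ^ n' * (θ * τ) : AutPlus 2) : MulAut (SurfaceGroup 2)) g) := by
  have hR : (0 : ℝ) ≤ (R : ℝ) + 1 := by positivity
  have s1 := (sub_X1 (S := S) ((T ^ n : AutPlus 2) : MulAut (SurfaceGroup 2)))
  have s2 := (sub_X2 (S := S) ((T ^ n : AutPlus 2) : MulAut (SurfaceGroup 2)))
  have s3 := (sub_X1 (S := S) ((T ^ n' * (θ * τ) : AutPlus 2) : MulAut (SurfaceGroup 2)))
  have s4 := (sub_X2 (S := S) ((T ^ n' * (θ * τ) : AutPlus 2) : MulAut (SurfaceGroup 2)))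
  have h1 := st_mono (((sub_c' 0).add (sub_c' 1)).smul hR) (((s1.add s2).add s3).add s4) g g
    ((R : ℝ) + 1) (fun k => by
      have := dichotomy hC hK hS hT hθ hτ (g ^ k) n n'
      exact_mod_cast this)
  rw [st_smul ((sub_c' 0).add (sub_c' 1)) hR, st_add (sub_c' 0) (sub_c' 1),
    st_add ((s1.add s2).add s3) s4, st_add (s1.add s2) s3, st_add s1 s2, st_X1_comp, st_X2_comp,
    st_X1_comp, st_X2_comp] at h1
  exact h1

theorem s_growth {R k C K : ℕ}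
    (hC : ∀ (e : Ed) (m : F3) (f : Ed), NonPinch e m f → Small R e m f →
      ∀ a b : ℤ, (K : ℤ) - C ≤
        nrm2 ((pos e a)⁻¹ * thP K e (tgP k e m f) f * pos (einv f) b))
    (hK : C ≤ K) (hS : IsS S) (hT : IsT T) {θ τ : AutPlus 2} (hθ : IsTh K θ)
    (hτ : IsTg k τ) (g : SurfaceGroup 2) :
    ((K : ℝ) - C) * (sc 0 g + sc 1 g - sX1 S g - sX2 S g) ≤ sX2 S (((θ * τ : AutPlus 2) : MulAut (SurfaceGroup 2)) g) := by
  have hR : (0 : ℝ) ≤ (K : ℝ) - C := by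
    have : (C : ℝ) ≤ K := by exact_mod_cast hK
    linarith
  have s1 := (sub_X2 (S := S) ((θ * τ : AutPlus 2) : MulAut (SurfaceGroup 2)))
  have s2 := (sub_X1' (S := S)).add (sub_X2' (S := S))
  have h1 := st_mono (((sub_c' 0).add (sub_c' 1)).smul hR) (s1.add (s2.smul hR)) g g
    ((K : ℝ) - C) (fun k => growth hC hK hS hT hθ hτ (g ^ k))
  rw [st_smul ((sub_c' 0).add (sub_c' 1)) hR, st_add (sub_c' 0) (sub_c' 1),
    st_add s1 (s2.smul hR), st_smul s2 hR, st_add sub_X1' sub_X2', st_X2_comp, ← sX1_eq,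
    ← sX2_eq] at h1
  have h2 : sc 0 g + sc 1 g = st (fun x => (c 0 x : ℝ)) g + st (fun x => (c 1 x : ℝ)) g := rfl
  rw [h2]
  linarith

end Run7.h347
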