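import Mathlib

set_option autoImplicit false

/-! Surface groups, mapping class groups, measured laminations, the double pentagon. -/

open Topology

namespace Run7.h347

/-- Generators: `Sum.inl i` is `a_i`, `Sum.inr i` is `b_i`. -/
abbrev Gen (g : ℕ) : Type := Fin g ⊕ Fin g

/-- The relator `[a_0,b_0] ⋯ [a_{g-1},b_{g-1}]`. -/
def relator (g : ℕ) : FreeGroup (Gen g) :=
  (List.ofFn fun i : Fin g => FreeGroup.of (Sum.inl i) * FreeGroup.of (Sum.inr i) *
    (FreeGroup.of (Sum.inl i))⁻¹ * (FreeGroup.of (Sum.inr i))⁻¹).prod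

/-- The fundamental group of the closed oriented surface of genus `g`. -/
abbrev SurfaceGroup (g : ℕ) : Type := PresentedGroup ({relator g} : Set (FreeGroup (Gen g)))

/-- The quotient map from the free group. -/
def toSurf (g : ℕ) : FreeGroup (Gen g) →* SurfaceGroup g := PresentedGroup.mk _

/-- The generator `a_i`. -/
def ga {g : ℕ} (i : Fin g) : SurfaceGroup g := toSurf g (FreeGroup.of (Sum.inl i))

/-- The generator `b_i`. -/
def gb {g : ℕ} (i : Fin g) : SurfaceGroup g := toSurf g (FreeGroup.of (Sum.inr i))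

/-- The class in `H_1 = ℤ^{2g}` of an element of the surface group. -/
def homology (g : ℕ) : SurfaceGroup g →* Multiplicative (Gen g → ℤ) :=
  PresentedGroup.toGroup (f := fun s => Multiplicative.ofAdd (Pi.single s 1)) (by
    intro r hr
    rw [Set.mem_singleton_iff] at hr
    subst hr
    rw [relator, map_list_prod]
    apply List.prod_eq_one
    intro x hx
    rw [List.mem_map] at hx
    obtain ⟨y, hy, rfl⟩ := hx
    rw [List.mem_ofFn] at hy
    obtain ⟨i, rfl⟩ := hy
    simp [mul_comm])

/-- The algebraic intersection form on `ℤ^{2g}`. -/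
def form {g : ℕ} (u v : Multiplicative (Gen g → ℤ)) : ℤ :=
  ∑ i : Fin g, (u.toAdd (Sum.inl i) * v.toAdd (Sum.inr i) -
    u.toAdd (Sum.inr i) * v.toAdd (Sum.inl i))

/-- The orientation preserving automorphisms of the surface group: those which preserve the
algebraic intersection form. -/
def AutPlus (g : ℕ) : Subgroup (MulAut (SurfaceGroup g)) where
  carrier := {θ | ∀ x y, form (homology g (θ x)) (homology g (θ y)) =
    form (homology g x) (homology g y)}
  one_mem' := fun _ _ => rfl
  mul_mem' := by
    intro φ ψ hφ hψ x y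
    rw [MulAut.mul_apply, MulAut.mul_apply, hφ, hψ]
  inv_mem' := by
    intro φ hφ x y
    rw [← hφ (φ⁻¹ x) (φ⁻¹ y), MulAut.apply_inv_self, MulAut.apply_inv_self]

/-- The inner automorphisms. -/
def Inn (g : ℕ) : Subgroup (AutPlus g) :=
  ((MulAut.conj : SurfaceGroup g →* MulAut (SurfaceGroup g)).range).subgroupOf (AutPlus g)

instance (g : ℕ) : (Inn g).Normal := by
  refine ⟨?_⟩
  rintro ⟨φ, hφ⟩ hin ⟨ψ, hψ⟩
  rw [Inn, Subgroup.mem_subgroupOf] at hin ⊢
  obtain ⟨x, hx⟩ := hin
  refine ⟨ψ x, ?_⟩
  simp only at hx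
  ext y
  simp only [Subgroup.coe_mul, InvMemClass.coe_inv, MulAut.mul_apply, ← hx, MulAut.conj_apply,
    map_mul, map_inv, MulAut.apply_inv_self]

/-- The mapping class group of the closed oriented surface of genus `g`. -/
abbrev MCG (g : ℕ) : Type := AutPlus g ⧸ Inn g

/-- A mapping class is pseudo-Anosov: no power fixes a nontrivial free homotopy class of closed
curves. -/
def IsPA {g : ℕ} (m : MCG g) : Prop :=
  ∀ k : ℕ, 0 < k → ∀ θ : AutPlus g, (θ : MCG g) = m ^ k →
    ∀ y : SurfaceGroup g, y ≠ 1 → ¬ IsConj ((θ : MulAut (SurfaceGroup g)) y) y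

/-- The number of letters `b_0^{±1}` of a word: the number of crossings of the edge path spelled
by the word with the simple closed curve `a_0`. -/
def crossings {g : ℕ} [NeZero g] (w : List (Gen g × Bool)) : ℕ :=
  w.countP fun x => x.1 = Sum.inr 0

/-- The geometric intersection number of the free homotopy class of `y` with the standard
nonseparating simple closed curve `a_0`. -/
noncomputable def inum {g : ℕ} [NeZero g] (y : SurfaceGroup g) : ℕ :=
  sInf {n | ∃ w : List (Gen g × Bool), IsConj (toSurf g (FreeGroup.mk w)) y ∧ crossings w = n}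

/-- The intersection numbers of the class of `y` with all nonseparating simple closed curves
`ψ (a_0)`, indexed by `ψ`. -/
noncomputable def curveFun {g : ℕ} [NeZero g] (y : SurfaceGroup g) : AutPlus g → ℝ :=
  fun ψ => (inum ((ψ⁻¹ : MulAut (SurfaceGroup g)) y) : ℝ)

/-- The space of measured laminations: the closure of the weighted nonseparating simple closed
curves in the space of functions on the set of nonseparating simple closed curves. -/
def ML (g : ℕ) [NeZero g] : Set (AutPlus g → ℝ) :=
  closure {μ | ∃ (t : ℝ) (χ : AutPlus g), 0 ≤ t ∧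
    μ = t • curveFun ((χ : MulAut (SurfaceGroup g)) (ga 0))}

/-- Translating a function on the curves by a mapping class. -/
def translate {g : ℕ} (θ : AutPlus g) (μ : AutPlus g → ℝ) : AutPlus g → ℝ :=
  fun ψ => μ (θ⁻¹ * ψ)

/-- Nonzero measured laminations. -/
abbrev MLz (g : ℕ) [NeZero g] : Type := {μ : AutPlus g → ℝ // μ ∈ ML g ∧ μ ≠ 0}

/-- Equality up to a positive factor. -/
def rescale (g : ℕ) [NeZero g] : Setoid (MLz g) where
  r μ ν := ∃ c : ℝ, 0 < c ∧ ν.1 = c • μ.1
  iseqv := by
    refine ⟨fun μ => ⟨1, one_pos, (one_smul _ _).symm⟩, ?_, ?_⟩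
    · rintro μ ν ⟨c, hc, h⟩
      exact ⟨c⁻¹, inv_pos.2 hc, by rw [h, smul_smul, inv_mul_cancel₀ hc.ne', one_smul]⟩
    · rintro μ ν τ ⟨c, hc, h⟩ ⟨c', hc', h'⟩
      exact ⟨c' * c, mul_pos hc' hc, by rw [h', h, smul_smul]⟩

/-- The space of projective measured laminations. -/
def PML (g : ℕ) [NeZero g] : Type := Quotient (rescale g)

instance (g : ℕ) [NeZero g] : TopologicalSpace (PML g) :=
  inferInstanceAs (TopologicalSpace (Quotient (rescale g)))

end Run7.h347
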