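import Mathlib

set_option autoImplicit false

/-! The free group `F3 = ⟨E, F, D⟩` (the fundamental group of the four-holed sphere), its four
families of peripheral lines, and two multitwists. -/

namespace Run7.h347

/-- The free group of rank three. -/
abbrev F3 : Type := FreeGroup (Fin 3)

/-- first generator `E` -/
def xE : F3 := FreeGroup.of 0
/-- second generator `F` (written `E'` on paper) -/
def xF : F3 := FreeGroup.of 1
/-- third generator `D` -/
def xD : F3 := FreeGroup.of 2

/-- The letters: `(i, 1)` is the stable letter `t_i` (crossing upwards), `(i, -1)` its inverse. -/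
abbrev Ed : Type := Fin 2 × ℤˣ

/-- The inverse letter. -/
def einv (e : Ed) : Ed := (e.1, -e.2)

/-- The first letter of the peripheral line on the far side of `e`:
`(0,1) ↦ F`, `(0,-1) ↦ E`, `(1,1) ↦ E`, `(1,-1) ↦ F`. -/
def hd (e : Ed) : F3 := if (e.1 = 0 ↔ e.2 = 1) then xF else xE

/-- The generator of the edge group on the far side of `e`:
`(0,1) ↦ F`, `(0,-1) ↦ E`, `(1,1) ↦ E D`, `(1,-1) ↦ F D`. -/
def ge (e : Ed) : F3 := if e.1 = 0 then hd e else hd e * xD

/-- The vertices of the peripheral line through `1` on the far side of `e`. -/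
def pos (e : Ed) (k : ℤ) : F3 :=
  if e.1 = 0 then hd e ^ k else (hd e * xD) ^ (k / 2) * (if k % 2 = 0 then 1 else hd e)

/-- The number of letters `E^{±1}`, `F^{±1}` of the reduced word. -/
def nrm1 (x : F3) : ℕ := x.toWord.countP fun y => y.1 ≠ 2

/-- The number of letters `D^{±1}` of the reduced word. -/
def nrm2 (x : F3) : ℕ := x.toWord.countP fun y => y.1 = 2

/-- The piece `m` between the letters `e` and `f` is not a pinch. -/
def NonPinch (e : Ed) (m : F3) (f : Ed) : Prop := f = einv e → m ∉ Subgroup.zpowers (ge e)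

/-- The piece can be made short by sliding its end points along the peripheral lines. -/
def Small (R : ℕ) (e : Ed) (m : F3) (f : Ed) : Prop :=
  ∃ a b : ℤ, nrm1 ((pos e a)⁻¹ * m * pos (einv f) b) + nrm2 ((pos e a)⁻¹ * m * pos (einv f) b) ≤ R

/-- The twist along `D` on the free group: `E ↦ E`, `F ↦ D^K F D^{-K}`, `D ↦ D`. -/
def thF (K : ℤ) : F3 →* F3 := FreeGroup.lift ![xE, xD ^ K * xF * xD ^ (-K), xD]

/-- The right correction of the twist along `D` at the letter `e`: `(0,1), (1,-1) ↦ D^{-K}`. -/
def thV (K : ℤ) (e : Ed) : F3 := if (e.1 = 0 ↔ e.2 = 1) then xD ^ (-K) else 1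

/-- The curve `γ = E F⁻¹`. -/
def gam : F3 := xE * xF⁻¹

/-- The twist along `γ`: `E ↦ E`, `F ↦ F`, `E D ↦ γ^k E D γ^{-k}`. -/
def tgF (k : ℤ) : F3 →* F3 := FreeGroup.lift ![xE, xF, xE⁻¹ * gam ^ k * xE * xD * gam ^ (-k)]

/-- The right correction of the twist along `γ` at the letter `e`: `(1,±1) ↦ γ^{-k}`. -/
def tgV (k : ℤ) (e : Ed) : F3 := if e.1 = 0 then 1 else gam ^ (-k)

/-- The image of the piece `m` between `e` and `f` under the twist along `D`. -/
def thP (K : ℤ) (e : Ed) (m : F3) (f : Ed) : F3 := thV K e * thF K m * (thV K (einv f))⁻¹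

/-- The image of the piece `m` between `e` and `f` under the twist along `γ`. -/
def tgP (k : ℤ) (e : Ed) (m : F3) (f : Ed) : F3 := tgV k e * tgF k m * (tgV k (einv f))⁻¹

/-- Main statement on pieces (T): for every `R` there are `k`, `C` such that for all `K`, every
piece which is short (`≤ R`) before applying the two twists has at least `K - C` letters `D^{±1}`
afterwards, whatever the slides. -/
def StatementT : Prop :=
  ∀ R : ℕ, ∃ k C : ℕ, ∀ K : ℕ, ∀ (e : Ed) (m : F3) (f : Ed), NonPinch e m f → Small R e m f →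
    ∀ a b : ℤ, (K : ℤ) - C ≤ nrm2 ((pos e a)⁻¹ * thP K e (tgP k e m f) f * pos (einv f) b)

end Run7.h347
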