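import Pool.Agent.Run7.h347.Veech
import Pool.Agent.Run7.h347.Free

set_option autoImplicit false

/-! Interface: statements of the independent pieces. -/

open Topology MatrixGroups Filter

namespace Run7.h347

/-! ### Piece HECKE -/

/-- A group generated by `S`, `T` with the relations of the affine group of the golden L. -/
structure HeckeData (G : Type) [Group G] (S T : G) (D : G →* SL(2, ℝ)) : Prop where
  gen : Subgroup.closure {S, T} = ⊤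
  S4 : S ^ 4 = 1
  cent : S ^ 2 * T = T * S ^ 2
  U5 : (T * S) ^ 5 = S ^ 2
  DS : (D S : Matrix (Fin 2) (Fin 2) ℝ) = !![0, -1; 1, 0]
  DT : (D T : Matrix (Fin 2) (Fin 2) ℝ) = !![1, Real.goldenRatio; 0, 1]

/-- The norm lemma. `N w` is the intersection number with the cusp `w ∞`; the last hypothesis is the
convexity inequality at each cusp. -/
def StatementNorm : Prop :=
  ∀ (G : Type) [Group G] (S T : G) (D : G →* SL(2, ℝ)), HeckeData G S T D →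
    ∀ N : G → ℝ, (∀ w, 0 ≤ N w) → (∀ w, N (w * T) = N w) → (∀ w, N (w * S ^ 2) = N w) →
      (∀ (w : G) (m : ℤ), |(m : ℝ)| * Real.goldenRatio * N w ≤ N (w * T ^ m * S) + N (w * S)) →
      ∀ w : G,
        ((D w : Matrix (Fin 2) (Fin 2) ℝ) 1 0 ≠ 0 → 1 ≤ |(D w : Matrix (Fin 2) (Fin 2) ℝ) 1 0|) ∧
        |(D w : Matrix (Fin 2) (Fin 2) ℝ) 1 0| * N S ≤
          N w + |(D w : Matrix (Fin 2) (Fin 2) ℝ) 0 0| * N 1

/-- Hyperbolic elements fix no nonzero filling function. -/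
def StatementHyp : Prop :=
  ∀ (G : Type) [Group G] (S T : G) (D : G →* SL(2, ℝ)), HeckeData G S T D →
    ∀ N : G → ℝ, (∀ w, ∃ i j : ℕ, N w = i + Real.goldenRatio * j) →
      (∀ w, N (w * T) = N w) → (∀ w, N (w * S ^ 2) = N w) →
      (∀ (w : G) (m : ℤ), |(m : ℝ)| * Real.goldenRatio * N w ≤ N (w * T ^ m * S) + N (w * S)) →
      (∀ w, ¬ (N w = 0 ∧ N (w * S) = 0)) →
      ∀ g : G, 2 < |Matrix.trace (D g : Matrix (Fin 2) (Fin 2) ℝ)| → ¬ ∀ w, N (g * w) = N w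

/-- The structure of the group `G` and of its commutator subgroup. -/
def StatementHecke : Prop :=
  ∀ (G : Type) [Group G] (S T : G) (D : G →* SL(2, ℝ)), HeckeData G S T D →
    Function.Injective D ∧
    (∀ w : G, (D w : Matrix (Fin 2) (Fin 2) ℝ) 1 0 = 0 → ∃ i k : ℤ, w = S ^ (2 * i) * T ^ k) ∧
    (∃ f : FreeGroup (Gen 2) ≃* commutator G,
      ((f (relator 2) : commutator G) : G) = S ^ 2 * T ^ 10) ∧
    commutator G ⊓ Subgroup.zpowers (S ^ 2) = ⊥ ∧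
    (commutator G ⊔ Subgroup.zpowers (S ^ 2)).index = 10 ∧
    commutator G ⊓ Subgroup.closure {T, S ^ 2} = Subgroup.zpowers (S ^ 2 * T ^ 10) ∧
    (∀ a ∈ commutator G, a ≠ 1 → (∃ h ∈ commutator G, ∃ k : ℤ, a = h * (S ^ 2 * T ^ 10) ^ k * h⁻¹) ∨
      2 < |Matrix.trace (D a : Matrix (Fin 2) (Fin 2) ℝ)|)

/-! ### Piece BOUNDARY -/

/-- Attracting fixed point on the circle at infinity. -/
def StatementBoundary : Prop :=
  ∀ (G : Type) [Group G] (ρ : G →* SL(2, ℝ)), IsUniformLattice ρ →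
    (∀ (g : G) (n : ℕ), 0 < n → g ^ n = 1 → g = 1) →
    ∀ d : G, d ≠ 1 → ∃ ξ : OnePoint ℝ, bdry ρ d ξ = ξ ∧
      ∀ g : G, Tendsto (fun n : ℕ => bdry ρ (d ^ n * g) ξ) atTop (𝓝 ξ)

/-! ### Piece AMALGAM -/

/-- The natural homomorphism from the amalgamated product of two subgroups. -/
noncomputable def natHom2 {Γ : Type} [Group Γ] (A B : Subgroup Γ) (d : Γ)
    (h : ∀ i, Subgroup.zpowers d ≤ (![A, B] : Fin 2 → Subgroup Γ) i) :
    Monoid.PushoutI (fun i => Subgroup.inclusion (h i)) →* Γ :=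
  Monoid.PushoutI.lift (fun i => ((![A, B] : Fin 2 → Subgroup Γ) i).subtype)
    (Subgroup.zpowers d).subtype (fun _ => rfl)

/-- Ping-pong with a height function `Y` which has no local maximum along paths of the
Bass-Serre tree. -/
def StatementAmalgam : Prop :=
  ∀ (Γ : Type) [Group Γ] (C : Type) [MulAction Γ C] (Y : C → ℝ) (A B : Subgroup Γ) (d : Γ),
    d ∈ A → d ∈ B → (∀ x, 0 ≤ Y x) → (∀ x, Y (d • x) = Y x) →
    (∀ x, ∀ a ∈ A, a ∉ Subgroup.zpowers d → ∀ b ∈ B, b ∉ Subgroup.zpowers d → 0 < Y x →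
      Y x < Y (a • x) ∨ Y x < Y (b • x)) →
    (∀ x a, (a ∈ A ∨ a ∈ B) → a ∉ Subgroup.zpowers d → Y x = 0 → 0 < Y (a • x)) →
    (∃ x, Y x = 0) →
    A ⊓ B = Subgroup.zpowers d ∧
    (∀ h : ∀ i, Subgroup.zpowers d ≤ (![A, B] : Fin 2 → Subgroup Γ) i,
      Function.Injective (natHom2 A B d h)) ∧
    (∀ m ∈ A ⊔ B, (∃ h ∈ A ⊔ B, ∃ a, (a ∈ A ∨ a ∈ B) ∧ m = h * a * h⁻¹) ∨
      ∀ k : ℕ, 0 < k → ∀ x : C, m ^ k • x ≠ x)

/-- The amalgamated product of two one-holed genus two surface groups is the genus four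
surface group. -/
def StatementSurface : Prop :=
  ∀ (Γ : Type) [Group Γ] (A B : Subgroup Γ) (d : Γ),
    (∃ f : FreeGroup (Gen 2) ≃* A, ((f (relator 2) : A) : Γ) = d) →
    (∃ f : FreeGroup (Gen 2) ≃* B, ((f (relator 2) : B) : Γ) = d) →
    (∃ h : ∀ i, Subgroup.zpowers d ≤ (![A, B] : Fin 2 → Subgroup Γ) i,
      Function.Injective (natHom2 A B d h)) →
    Nonempty ((A ⊔ B : Subgroup Γ) ≃* SurfaceGroup 4)

/-! ### Piece PIECE (free group) -/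

/-- Number of letters `E`, `F` on the segment from `pos e 0` to `pos e k`, signed. -/
def sg1 (e : Ed) (k : ℤ) : ℤ := if e.1 = 0 then k else (k + 1) / 2

/-- Number of letters `D` on the segment from `pos e 0` to `pos e k`, signed. -/
def sg2 (e : Ed) (k : ℤ) : ℤ := if e.1 = 0 then 0 else k / 2

/-- Two paths between two peripheral lines. -/
def StatementPiece : Prop :=
  ∀ (e f : Ed) (m : F3), NonPinch e m f → ∀ k k' l l' : ℤ,
    |(e.2 : ℤ) * (sg1 e k - sg1 e k') - (f.2 : ℤ) * (sg1 f l - sg1 f l')| ≤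
      nrm1 ((pos e k)⁻¹ * m * pos (einv f) l) + nrm1 ((pos e k')⁻¹ * m * pos (einv f) l') ∧
    |(e.2 : ℤ) * (sg2 e k - sg2 e k') - (f.2 : ℤ) * (sg2 f l - sg2 f l')| ≤
      nrm2 ((pos e k)⁻¹ * m * pos (einv f) l) + nrm2 ((pos e k')⁻¹ * m * pos (einv f) l')

/-! ### Piece AUT -/

/-- horizontal generator `E` -/
def sE : SurfaceGroup 2 := gb 1
/-- horizontal generator `F` -/
def sF : SurfaceGroup 2 := ga 1 * gb 1 * (ga 1)⁻¹
/-- horizontal generator `D` -/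
def sD : SurfaceGroup 2 := (gb 1)⁻¹ * ga 0
/-- stable letter `t₁` -/
def st1 : SurfaceGroup 2 := (ga 1)⁻¹
/-- stable letter `t₂` -/
def st2 : SurfaceGroup 2 := gb 0

/-- The automorphism with given values on `E, F, D, t₁, t₂`. -/
def Vals (θ : AutPlus 2) (E F D t1 t2 : SurfaceGroup 2) : Prop :=
  (θ : MulAut (SurfaceGroup 2)) sE = E ∧ (θ : MulAut (SurfaceGroup 2)) sF = F ∧
  (θ : MulAut (SurfaceGroup 2)) sD = D ∧ (θ : MulAut (SurfaceGroup 2)) st1 = t1 ∧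
  (θ : MulAut (SurfaceGroup 2)) st2 = t2

/-- The automorphisms. -/
def StatementAut : Prop :=
  (∃ S T : AutPlus 2,
    Vals S st2 (sF⁻¹ * st2 * sE) st1 sD⁻¹ sF⁻¹ ∧
    Vals T sE sF sD (sE * st1) (sF * sD * st2) ∧
    IsTwist T ∧ IsRotation (S * (T * S)⁻¹ * (T * S)⁻¹ * S⁻¹) ∧ IsHyp (S ^ 2) ∧
    ∃ (S' T' : Subgroup.closure {S, T}) (D : Subgroup.closure {S, T} →* SL(2, ℝ)),
      (S' : AutPlus 2) = S ∧ (T' : AutPlus 2) = T ∧
      HeckeData (Subgroup.closure {S, T}) S' T' D) ∧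
  (∃ κ : AutPlus 2, (κ : MulAut (SurfaceGroup 2)) (ga 0) = (gb 1)⁻¹ ∧
    (κ : MulAut (SurfaceGroup 2)) (gb 0) = gb 1 * ga 1 * (gb 1)⁻¹ ∧
    (κ : MulAut (SurfaceGroup 2)) (ga 1) = ga 0 ∧
    (κ : MulAut (SurfaceGroup 2)) (gb 1) = gb 0) ∧
  (∀ K : ℤ, ∃ θ : AutPlus 2,
    Vals θ sE (sD ^ K * sF * sD ^ (-K)) sD (st1 * sD ^ (-K)) (sD ^ K * st2)) ∧
  (∀ k : ℤ, ∃ θ : AutPlus 2,
    Vals θ sE sF (sE⁻¹ * (sE * sF⁻¹) ^ k * sE * sD * (sE * sF⁻¹) ^ (-k)) st1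
      ((sE * sF⁻¹) ^ k * st2 * (sE * sF⁻¹) ^ (-k)))

/-! ### Piece LAMINATION -/

/-- Evaluation on `y` of the intersection number with the curve `ψ (a_0)`. -/
noncomputable abbrev J (y : SurfaceGroup 2) (ψ : AutPlus 2) : ℝ := curveFun y ψ

/-- From inequalities for intersection numbers to the absence of an equivariant map. Curves:
`1 ↔ α₂`, `κ ↔ α₁`, `S ↔ β₁`, `S κ ↔ β₂`. The golden ratio enters only through the conclusion. -/
def StatementLam : Prop :=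
  ∀ (S T κ φ : AutPlus 2),
    (∀ (y : SurfaceGroup 2) (m : ℤ),
      |J y (T ^ m * S) - |(m : ℝ)| * (J y κ + J y 1)| ≤ J y S ∧
      |J y (T ^ m * S * κ) - |(m : ℝ)| * J y 1| ≤ J y (S * κ)) →
    (∀ (y : SurfaceGroup 2) (m : ℤ),
      |J y ((S * T ^ m * S⁻¹) * κ) - |(m : ℝ)| * J y S| ≤ J y κ ∧
      |J y (S * T ^ m * S⁻¹) - |(m : ℝ)| * (J y S + J y (S * κ))| ≤ J y 1) →
    (∀ (y : SurfaceGroup 2) (m : ℤ), J y (T ^ m) = J y 1 ∧ J y (T ^ m * κ) = J y κ ∧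
      J y (S * T ^ m * S⁻¹ * S) = J y S ∧ J y (S * T ^ m * S⁻¹ * (S * κ)) = J y (S * κ)) →
    (∀ y : SurfaceGroup 2, J y φ = J y 1 ∧ J y (φ * κ) = J y κ) →
    (∀ ψ : AutPlus 2, ∃ C : ℝ, ∀ y : SurfaceGroup 2,
      J y ψ ≤ C * (J y 1 + J y κ + J y S + J y (S * κ))) →
    (∃ C : ℝ, 1 ≤ C ∧ (∀ y : SurfaceGroup 2,
        J y (φ * S) ≤ C * (J y 1 + J y κ + J y S + J y (S * κ))) ∧
      ∀ y : SurfaceGroup 2,
        1000 * C * (J y 1 + J y κ - J y S - J y (S * κ)) ≤ J y (φ * S * κ)) →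
    ∀ (G : Subgroup (MCG 2)) (ρ : G →* SL(2, ℝ)) (dd : G),
      ((dd : MCG 2) = ((T ^ 20 : AutPlus 2) : MCG 2)) →
      (((S * T ^ 20 * S⁻¹ : AutPlus 2) : MCG 2) ∈ G) →
      (((φ * (S * T ^ 20 * S⁻¹) * φ⁻¹ : AutPlus 2) : MCG 2) ∈ G) →
      (∃ ξ : OnePoint ℝ, bdry ρ dd ξ = ξ ∧
        ∀ g : G, Tendsto (fun n : ℕ => bdry ρ (dd ^ n * g) ξ) atTop (𝓝 ξ)) →
      ¬ ∃ f : OnePoint ℝ → PML 2, Continuous f ∧
        ∀ (m : G) (ξ : OnePoint ℝ), f (bdry ρ m ξ) = (m : MCG 2) • f ξ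

end Run7.h347
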