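import Mathlib

set_option autoImplicit false

/-! The statement: surface groups, the mapping class group of genus two, measured laminations, the
double pentagon, its Veech group, and the admissible subgroups. -/

open Topology MatrixGroups

namespace Run7.h347.St

/-! ### Surface groups -/

/-- The relator `[a_0,b_0] ⋯ [a_{g-1},b_{g-1}]`; `Sum.inl i` is `a_i`, `Sum.inr i` is `b_i`. -/
def relator (g : ℕ) : FreeGroup (Fin g ⊕ Fin g) :=
  (List.ofFn fun i : Fin g => FreeGroup.of (Sum.inl i) * FreeGroup.of (Sum.inr i) *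
    (FreeGroup.of (Sum.inl i))⁻¹ * (FreeGroup.of (Sum.inr i))⁻¹).prod

/-- The fundamental group of the closed oriented surface of genus `g`. -/
def SG (g : ℕ) : Type := PresentedGroup ({relator g} : Set (FreeGroup (Fin g ⊕ Fin g)))

instance gSG (g : ℕ) : Group (SG g) :=
  (inferInstance : Group (PresentedGroup ({relator g} : Set (FreeGroup (Fin g ⊕ Fin g)))))

/-- The fundamental group of the closed oriented surface of genus two. -/
def P : Type := SG 2

instance gP : Group P := gSG 2

/-- The element of the surface group spelled by a word. -/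
def toP (w : FreeGroup (Fin 2 ⊕ Fin 2)) : P := PresentedGroup.mk ({relator 2} : Set _) w

/-- The generator `a_i`. -/
def ga (i : Fin 2) : P := toP (FreeGroup.of (Sum.inl i))

/-- The generator `b_i`. -/
def gb (i : Fin 2) : P := toP (FreeGroup.of (Sum.inr i))

/-! ### The mapping class group -/

theorem relator_ab : ∀ r ∈ ({relator 2} : Set (FreeGroup (Fin 2 ⊕ Fin 2))),
    FreeGroup.lift (fun s => Multiplicative.ofAdd (Pi.single s 1 : Fin 2 ⊕ Fin 2 → ℤ)) r = 1 := by
  intro r hr
  rw [Set.mem_singleton_iff] at hr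
  subst hr
  rw [relator, map_list_prod]
  apply List.prod_eq_one
  intro x hx
  rw [List.mem_map] at hx
  obtain ⟨y, hy, rfl⟩ := hx
  rw [List.mem_ofFn] at hy
  obtain ⟨i, rfl⟩ := hy
  simp [mul_comm]

/-- The class in `H_1 = ℤ^4` of an element of the surface group. -/
def homology (x : P) : Fin 2 ⊕ Fin 2 → ℤ :=
  Multiplicative.toAdd (PresentedGroup.toGroup relator_ab x)

/-- The algebraic intersection form on `ℤ^4`. -/
def form (u v : Fin 2 ⊕ Fin 2 → ℤ) : ℤ :=
  ∑ i : Fin 2, (u (Sum.inl i) * v (Sum.inr i) - u (Sum.inr i) * v (Sum.inl i))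

/-- The automorphism preserves the algebraic intersection form, that is, the orientation. -/
def Orient (θ : MulAut P) : Prop :=
  ∀ x y, form (homology (θ x)) (homology (θ y)) = form (homology x) (homology y)

theorem orient_one : Orient 1 := fun _ _ => rfl

theorem orient_mul {φ ψ : MulAut P} (hφ : Orient φ) (hψ : Orient ψ) : Orient (φ * ψ) := by
  intro x y
  rw [MulAut.mul_apply, MulAut.mul_apply, hφ, hψ]

theorem orient_inv {φ : MulAut P} (hφ : Orient φ) : Orient φ⁻¹ := by
  intro x y
  rw [← hφ (φ⁻¹ x) (φ⁻¹ y), MulAut.apply_inv_self, MulAut.apply_inv_self]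

/-- The orientation preserving automorphisms. -/
def AutPlus : Subgroup (MulAut P) where
  carrier := {θ | Orient θ}
  one_mem' := orient_one
  mul_mem' := orient_mul
  inv_mem' := orient_inv

/-- The group of the orientation preserving automorphisms of the surface group. -/
def Aut : Type := AutPlus

instance gAut : Group Aut := (inferInstance : Group AutPlus)

/-- The value of an automorphism. -/
def ap (θ : Aut) (x : P) : P := (θ.1 : MulAut P) x

/-- The inner automorphisms. -/
def Inn : Subgroup Aut := ((MulAut.conj : P →* MulAut P).range).subgroupOf AutPlus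

instance normalInn : Inn.Normal := by
  refine ⟨?_⟩
  rintro ⟨φ, hφ⟩ hin ⟨ψ, hψ⟩
  obtain ⟨x, hx⟩ := hin
  refine ⟨ψ x, ?_⟩
  have hx' : MulAut.conj x = φ := hx
  refine MulEquiv.ext fun y => ?_
  show ψ x * y * (ψ x)⁻¹ = ψ (φ (ψ⁻¹ y))
  rw [← hx']
  simp only [MulAut.conj_apply, map_mul, map_inv, MulAut.apply_inv_self]

/-- The mapping class group of the closed oriented surface of genus two. -/
def M : Type := Aut ⧸ Inn

instance gM : Group M := (inferInstance : Group (Aut ⧸ Inn))

/-- The mapping class of an automorphism. -/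
def cls (θ : Aut) : M := (QuotientGroup.mk θ : Aut ⧸ Inn)

/-- A mapping class is pseudo-Anosov: no power fixes a nontrivial free homotopy class of closed
curves. -/
def IsPA (m : M) : Prop :=
  ∀ k : ℕ, 0 < k → ∀ θ : Aut, cls θ = m ^ k → ∀ y : P, y ≠ 1 → ¬ IsConj (ap θ y) y

/-! ### Measured laminations -/

/-- The number of letters `b_0^{±1}` of a word: the number of crossings of the edge path spelled
by the word with the simple closed curve `a_0`. -/
def crossings (w : List ((Fin 2 ⊕ Fin 2) × Bool)) : ℕ := w.countP fun x => x.1 = Sum.inr 0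

/-- The geometric intersection number of the free homotopy class of `y` with the standard
nonseparating simple closed curve `a_0`. -/
noncomputable def inum (y : P) : ℕ :=
  sInf {n | ∃ w, IsConj (toP (FreeGroup.mk w)) y ∧ crossings w = n}

/-- The intersection numbers of the class of `y` with all nonseparating simple closed curves
`ψ (a_0)`, indexed by `ψ`. -/
noncomputable def curveFun (y : P) : Aut → ℝ := fun ψ => (inum (ap ψ⁻¹ y) : ℝ)

/-- The space of measured laminations: the closure of the weighted nonseparating simple closed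
curves in the space of functions on the set of nonseparating simple closed curves. -/
def ML : Set (Aut → ℝ) :=
  closure {μ | ∃ (t : ℝ) (χ : Aut), 0 ≤ t ∧ μ = t • curveFun (ap χ (ga 0))}

/-- Translating a function on the curves by a mapping class. -/
def translate (θ : Aut) (μ : Aut → ℝ) : Aut → ℝ := fun ψ => μ (θ⁻¹ * ψ)

/-- Nonzero measured laminations. -/
def MLz : Type := {μ : Aut → ℝ // μ ∈ ML ∧ μ ≠ 0}

/-- Equality up to a positive factor. -/
def Proportional (μ ν : MLz) : Prop := ∃ c : ℝ, 0 < c ∧ ν.1 = c • μ.1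

theorem proportional_equiv : Equivalence Proportional := by
  refine ⟨fun μ => ⟨1, one_pos, (one_smul _ _).symm⟩, ?_, ?_⟩
  · rintro μ ν ⟨c, hc, h⟩
    exact ⟨c⁻¹, inv_pos.2 hc, by rw [h, smul_smul, inv_mul_cancel₀ hc.ne', one_smul]⟩
  · rintro μ ν τ ⟨c, hc, h⟩ ⟨c', hc', h'⟩
    exact ⟨c' * c, mul_pos hc' hc, by rw [h', h, smul_smul]⟩

/-- Equality up to a positive factor. -/
def rescale : Setoid MLz := ⟨Proportional, proportional_equiv⟩

/-- The space of projective measured laminations. -/
def PML : Type := Quotient rescale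

/-- The topology of the space of nonzero measured laminations. -/
def topMLz : TopologicalSpace MLz :=
  (inferInstance : TopologicalSpace {μ : Aut → ℝ // μ ∈ ML ∧ μ ≠ 0})

instance topPML : TopologicalSpace PML :=
  @instTopologicalSpaceQuotient MLz rescale topMLz

theorem continuous_translate (θ : Aut) : Continuous (translate θ) :=
  continuous_pi fun ψ => continuous_apply (θ⁻¹ * ψ)

theorem translate_mem (θ : Aut) {μ : Aut → ℝ} (h : μ ∈ ML) : translate θ μ ∈ ML := by
  unfold ML at h ⊢
  refine map_mem_closure (continuous_translate θ) h ?_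
  rintro ν ⟨t, χ, ht, rfl⟩
  exact ⟨t, θ * χ, ht, rfl⟩

theorem translate_ne (θ : Aut) {μ : Aut → ℝ} (h : μ ≠ 0) : translate θ μ ≠ 0 := by
  intro h0
  apply h
  funext ψ
  have := congrFun h0 (θ * ψ)
  simpa [translate] using this

/-- The action on nonzero measured laminations. -/
def actMLz (θ : Aut) (μ : MLz) : MLz :=
  ⟨translate θ μ.1, translate_mem θ μ.2.1, translate_ne θ μ.2.2⟩

theorem act_proportional (θ : Aut) {μ ν : MLz} (h : Proportional μ ν) :
    Proportional (actMLz θ μ) (actMLz θ ν) := by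
  obtain ⟨c, hc, h⟩ := h
  exact ⟨c, hc, by simp only [actMLz]; rw [h]; rfl⟩

/-- The action of the automorphisms on projective measured laminations. -/
def actAut (θ : Aut) : PML → PML := Quotient.map (actMLz θ) fun _ _ h => act_proportional θ h

theorem inum_conj {x y : P} (h : IsConj x y) : inum x = inum y := by
  unfold inum
  congr 1
  ext n
  constructor
  · rintro ⟨w, hw, hn⟩; exact ⟨w, hw.trans h, hn⟩
  · rintro ⟨w, hw, hn⟩; exact ⟨w, hw.trans h.symm, hn⟩

theorem translate_inn {θ : Aut} (hθ : θ ∈ Inn) {μ : Aut → ℝ} (h : μ ∈ ML) :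
    translate θ μ = μ := by
  have hcl : IsClosed {μ : Aut → ℝ | translate θ μ = μ} :=
    isClosed_eq (continuous_translate θ) continuous_id
  refine closure_minimal ?_ hcl h
  rintro ν ⟨t, χ, ht, rfl⟩
  funext ψ
  obtain ⟨x, hx⟩ := hθ
  have hx' : ∀ y, ap θ y = x * y * x⁻¹ := fun y => (DFunLike.congr_fun hx y).symm
  have h1 : ap (θ⁻¹ * ψ)⁻¹ (ap χ (ga 0)) = ap ψ⁻¹ (ap θ (ap χ (ga 0))) := by
    rw [mul_inv_rev, inv_inv]; rfl
  have h2 : ∀ y z : P, ap ψ⁻¹ (y * z) = ap ψ⁻¹ y * ap ψ⁻¹ z := fun y z => map_mul (ψ⁻¹).1 y z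
  have h3 : ap ψ⁻¹ x⁻¹ = (ap ψ⁻¹ x)⁻¹ := map_inv (ψ⁻¹).1 x
  show t * (inum (ap (θ⁻¹ * ψ)⁻¹ (ap χ (ga 0))) : ℝ) = t * (inum (ap ψ⁻¹ (ap χ (ga 0))) : ℝ)
  rw [h1, hx', h2, h2, h3, inum_conj]
  exact (isConj_iff.2 ⟨ap ψ⁻¹ x, rfl⟩).symm

theorem actAut_eq (θ θ' : Aut) (h : QuotientGroup.leftRel Inn θ θ') : actAut θ = actAut θ' := by
  rw [QuotientGroup.leftRel_apply] at h
  funext p
  induction p using Quotient.inductionOn with
  | _ μ =>
    refine Quotient.sound ⟨1, one_pos, ?_⟩
    have h2 : θ * (θ⁻¹ * θ') = θ' := mul_inv_cancel_left θ θ'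
    have h3 : translate θ' μ.1 = translate θ (translate (θ⁻¹ * θ') μ.1) := by
      conv_lhs => rw [← h2]
      funext ψ
      simp only [translate, mul_inv_rev, mul_assoc]
    show translate θ' μ.1 = (1 : ℝ) • translate θ μ.1
    rw [h3, translate_inn h μ.2.1, one_smul]

/-- The action of the mapping class group on projective measured laminations. -/
def act : M → PML → PML := Quotient.lift actAut actAut_eq

/-! ### The double pentagon -/

/-- The five edges of the double regular pentagon (all vertices are one point of the surface), as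
loops: `pent 0 * pent 1 * pent 2 * pent 3 * pent 4 = 1` and
`pent 4 * pent 3 * pent 2 * pent 1 * pent 0 = 1`. -/
def pent : Fin 5 → P :=
  ![ga 1 * (gb 1)⁻¹ * (ga 1)⁻¹ * gb 0, (ga 1)⁻¹, ga 1 * gb 1, (gb 1)⁻¹ * ga 0 * (gb 0)⁻¹,
    (ga 0)⁻¹ * gb 1]

/-- The rotation of the double pentagon. -/
def IsRotation (θ : Aut) : Prop := ∀ i : Fin 5, ap θ (pent i) = pent (i + 1)

/-- The affine multitwist along the two cylinders in the direction of the edge `pent 4`. -/
def IsTwist (θ : Aut) : Prop :=
  ap θ (pent 4) = pent 4 ∧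
  ap θ (pent 0) = pent 0 * (pent 1 * pent 2) * (pent 4)⁻¹ ∧
  ap θ (pent 1) = pent 1 * pent 2 * pent 1 ∧
  ap θ (pent 2) = pent 2 * (pent 1 * pent 2)⁻¹ ∧
  ap θ (pent 3) = pent 3 * pent 4 * (pent 2 * pent 1)⁻¹

/-- The half turn of the double pentagon (the hyperelliptic involution). -/
def IsHyp (θ : Aut) : Prop := ∀ i : Fin 5, ap θ (pent i) = (pent i)⁻¹

/-- The mapping classes represented by automorphisms with a given property. -/
def classes (Q : Aut → Prop) : Set M := {m | ∃ θ : Aut, Q θ ∧ cls θ = m}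

/-- The Veech group of the double pentagon: generated by the rotation and the multitwist. -/
def Veech : Subgroup M := Subgroup.closure (classes IsRotation ∪ classes IsTwist)

/-- The group generated by the hyperelliptic involution. -/
def Hyp : Subgroup M := Subgroup.closure (classes IsHyp)

/-- The stabiliser of the cusp of the multitwist. -/
def Cusp : Subgroup M := Subgroup.closure (classes IsTwist ∪ classes IsHyp)

/-- The conjugate `φ A φ⁻¹`. -/
def conjBy (φ : M) (A : Subgroup M) : Subgroup M := A.map (MulAut.conj φ).toMonoidHom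

/-- The group generated by `A` and `φ A φ⁻¹`. -/
def Grp (A : Subgroup M) (φ : M) : Subgroup M := A ⊔ conjBy φ A

/-- The two factors. -/
def Fam (A : Subgroup M) (φ : M) : Fin 2 → Subgroup M := ![A, conjBy φ A]

/-- The natural homomorphism from the amalgamated product of the two factors over `⟨d⟩`. -/
noncomputable def natHom (A : Subgroup M) (d φ : M) (h : ∀ i, Subgroup.zpowers d ≤ Fam A φ i) :
    Monoid.PushoutI (fun i => Subgroup.inclusion (h i)) →* M :=
  Monoid.PushoutI.lift (fun i => (Fam A φ i).subtype) (Subgroup.zpowers d).subtype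
    (fun _ => rfl)

/-- `A` is a subgroup of the Veech group which maps isomorphically onto a subgroup of index
`2 (2g+1) = 10` of its quotient by the hyperelliptic involution, isomorphic to the fundamental
group of the once-punctured surface of genus `2`, and `d` generates its cusp subgroup. -/
structure IsVeechSurfaceGroup (A : Subgroup M) (d : M) : Prop where
  le : A ≤ Veech
  hyp : A ⊓ Hyp = ⊥
  index : (A ⊔ Hyp).relIndex Veech = 10
  cusp : A ⊓ Cusp = Subgroup.zpowers d
  punctured : ∃ f : FreeGroup (Fin 2 ⊕ Fin 2) ≃* A, (f (relator 2)).1 = d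

/-- `A`, `d`, `φ` define the admissible subgroup `Grp A φ`. -/
structure Admissible (A : Subgroup M) (d φ : M) : Prop where
  veech : IsVeechSurfaceGroup A d
  comm : φ * d * φ⁻¹ = d
  inter : A ⊓ conjBy φ A = Subgroup.zpowers d
  inj : ∃ h : ∀ i, Subgroup.zpowers d ≤ Fam A φ i, Function.Injective (natHom A d φ h)
  surface : Nonempty (Grp A φ ≃* SG 4)
  pA : ∀ m ∈ Grp A φ, m ≠ 1 →
    (¬ IsPA m ↔ ∃ h ∈ Grp A φ, ∃ k : ℤ, m = h * d ^ k * h⁻¹)

/-- `φ` fixes both core curves of the multitwist. -/
def FixesCores (φ : M) : Prop :=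
  ∀ θ : Aut, cls θ = φ → IsConj (ap θ (pent 1 * pent 2)) (pent 1 * pent 2) ∧
    IsConj (ap θ (pent 1 * pent 2 * (pent 4)⁻¹)) (pent 1 * pent 2 * (pent 4)⁻¹)

/-! ### The circle at infinity -/

/-- `ρ` makes `G` act properly discontinuously and cocompactly on the hyperbolic plane. -/
structure IsUniformLattice {G : Type} [Group G] (ρ : G →* SL(2, ℝ)) : Prop where
  proper : ∀ K : Set UpperHalfPlane, IsCompact K →
    {g : G | (((fun z : UpperHalfPlane => ρ g • z) '' K) ∩ K).Nonempty}.Finite
  cocompact : ∃ K : Set UpperHalfPlane, IsCompact K ∧ ∀ z : UpperHalfPlane, ∃ g : G, ρ g • z ∈ K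

/-- The action of `G` on the circle at infinity `ℝ ∪ {∞}` of the hyperbolic plane. -/
noncomputable def bdry {G : Type} [Group G] (ρ : G →* SL(2, ℝ)) (g : G) (ξ : OnePoint ℝ) :
    OnePoint ℝ :=
  (Matrix.SpecialLinearGroup.toGL (ρ g)) • ξ

/-- The main statement. -/
def Statement : Prop :=
  ∃ (A : Subgroup M) (d φ : M), Admissible A d φ ∧ FixesCores φ ∧
    ∀ ρ : Grp A φ →* SL(2, ℝ), IsUniformLattice ρ →
      ¬ ∃ f : OnePoint ℝ → PML, Continuous f ∧
        ∀ (m : Grp A φ) (ξ : OnePoint ℝ), f (bdry ρ m ξ) = act m.1 (f ξ)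

end Run7.h347.St
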